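import Pool.Agent.Work.BV.DivSum

/-! # Module Reduce: from residue classes to primitive characters

`psiA_eq`: orthogonality (`DirichletCharacter.sum_char_inv_mul_char_eq`).
`psiC_primitive`: `χ n = χ* n` if `(n,q)=1`, and the remaining terms are bounded by `coprime_defect`
(`primitiveCharacter_apply_of_isCoprime`). Same for `χ = 1`: `|ψ(x,1) - ψ(x)| ≤ 2 (log x)^2`.
`sum_chars_le`: `χ ↦ (χ.conductor, χ.primitiveCharacter)` is injective from the characters mod `q` to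
`Σ r ∣ q, prim r` (`changeLevel_primitiveCharacter`), and `χ ≠ 1` means conductor `> 1`.
`reduce`: `|ψ(x;q,a) - ψ(x)/φ(q)| ≤ (1/φ(q)) ∑_{χ≠1} ‖ψ(x,χ*)‖ + 2 (log x)^2`; sum over `q ≤ Q`, interchange:
`∑_{q≤Q, r∣q} 1/φ(q) ≤ (1/φ(r)) ∑_{m≤Q} 1/φ(m) ≤ C log x/φ(r)` (`φ(rm) ≥ φ(r)φ(m)`, `sum_inv_totient`,
extend the sum over `m` to `m ≤ x`). -/

namespace Pool.Agent.BV

open Finset DirichletCharacter
open scoped ArithmeticFunction.vonMangoldt

theorem psiA_eq (q : ℕ) [NeZero q] (a x : ℕ) (ha : a.Coprime q) :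
    (psiA q a x : ℂ) = (1 / (q.totient : ℂ)) *
      ∑ χ : DirichletCharacter ℂ q, χ (a : ZMod q)⁻¹ * psiC χ x := by
  have hq : (q.totient : ℂ) ≠ 0 := by
    have : 0 < q.totient := Nat.totient_pos.2 (Nat.pos_of_ne_zero (NeZero.ne q))
    exact_mod_cast this.ne'
  have hu : IsUnit (a : ZMod q) := (ZMod.isUnit_iff_coprime a q).2 ha
  have h1 : ∑ χ : DirichletCharacter ℂ q, χ (a : ZMod q)⁻¹ * psiC χ x =
      ∑ n ∈ Icc 1 x, ((Λ n : ℝ) : ℂ) *
        (if (a : ZMod q) = (n : ZMod q) then (q.totient : ℂ) else 0) := by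
    unfold psiC
    simp only [mul_sum]
    rw [sum_comm]
    refine sum_congr rfl fun n _ => ?_
    rw [← sum_char_inv_mul_char_eq ℂ hu (n : ZMod q), mul_sum]
    refine sum_congr rfl fun χ _ => ?_
    ring
  rw [h1]
  unfold psiA
  rw [sum_filter]
  push_cast
  rw [mul_sum]
  refine sum_congr rfl fun n _ => ?_
  have h2 : (a : ZMod q) = (n : ZMod q) ↔ n ≡ a [MOD q] := by
    rw [ZMod.natCast_eq_natCast_iff]
    exact ⟨fun h => h.symm, fun h => h.symm⟩
  by_cases h : n ≡ a [MOD q]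
  · rw [if_pos h, if_pos (h2.2 h)]
    field_simp
  · rw [if_neg h, if_neg (fun h' => h (h2.1 h'))]
    simp

lemma reduce_norm_char_le {q : ℕ} (χ : DirichletCharacter ℂ q) (n : ℕ) :
    ‖χ (n : ZMod q)‖ ≤ 1 := DirichletCharacter.norm_le_one χ _

lemma reduce_defect {q : ℕ} (hq : 1 ≤ q) (x : ℕ) (hqx : q ≤ x) (hx : 3 ≤ x) (f g : ℕ → ℂ)
    (hc : ∀ n : ℕ, n.Coprime q → f n = g n) (hf : ∀ n : ℕ, ¬ n.Coprime q → f n = 0)
    (hg : ∀ n : ℕ, ‖g n‖ ≤ 1) :
    ‖∑ n ∈ Icc 1 x, ((Λ n : ℝ) : ℂ) * f n - ∑ n ∈ Icc 1 x, ((Λ n : ℝ) : ℂ) * g n‖ ≤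
      2 * (Real.log x) ^ 2 := by
  rw [← sum_sub_distrib]
  have h1 : ∑ n ∈ Icc 1 x, (((Λ n : ℝ) : ℂ) * f n - ((Λ n : ℝ) : ℂ) * g n) =
      ∑ n ∈ (Icc 1 x).filter (fun n => ¬ n.Coprime q),
        (((Λ n : ℝ) : ℂ) * f n - ((Λ n : ℝ) : ℂ) * g n) := by
    symm
    apply sum_subset (filter_subset _ _)
    intro n hn hn'
    have h2 : n.Coprime q := by
      by_contra h
      exact hn' (mem_filter.2 ⟨hn, h⟩)
    rw [hc n h2, sub_self]
  rw [h1]
  refine (norm_sum_le _ _).trans ((sum_le_sum fun n hn => ?_).trans (coprime_defect q x hq hqx hx))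
  rw [hf n (mem_filter.1 hn).2, mul_zero, zero_sub, norm_neg, norm_mul, Complex.norm_real,
    Real.norm_of_nonneg ArithmeticFunction.vonMangoldt_nonneg]
  calc Λ n * ‖g n‖ ≤ Λ n * 1 :=
        mul_le_mul_of_nonneg_left (hg n) ArithmeticFunction.vonMangoldt_nonneg
    _ = Λ n := mul_one _

theorem psiC_primitive (q : ℕ) [NeZero q] (χ : DirichletCharacter ℂ q) (x : ℕ) (hqx : q ≤ x)
    (hx : 3 ≤ x) : ‖psiC χ x - psiC χ.primitiveCharacter x‖ ≤ 2 * (Real.log x) ^ 2 := by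
  unfold psiC
  refine reduce_defect (Nat.pos_of_ne_zero (NeZero.ne q)) x hqx hx (fun n => χ (n : ZMod q))
    (fun n => χ.primitiveCharacter (n : ZMod χ.conductor)) ?_ ?_ ?_
  · intro n hn
    have h1 : IsCoprime (n : ℤ) (q : ℤ) := Nat.isCoprime_iff_coprime.2 hn
    have h2 := primitiveCharacter_apply_of_isCoprime χ h1
    simp only [Int.cast_natCast] at h2
    exact h2.symm
  · intro n hn
    apply MulChar.map_nonunit
    rw [ZMod.isUnit_iff_coprime]
    exact hn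
  · intro n
    exact DirichletCharacter.norm_le_one _ _

theorem psiC_one (q : ℕ) [NeZero q] (x : ℕ) (hqx : q ≤ x) (hx : 3 ≤ x) :
    ‖psiC (1 : DirichletCharacter ℂ q) x - psi x‖ ≤ 2 * (Real.log x) ^ 2 := by
  have h1 : (psi x : ℂ) = ∑ n ∈ Icc 1 x, ((Λ n : ℝ) : ℂ) * 1 := by
    unfold psi
    push_cast
    exact sum_congr rfl fun n _ => (mul_one _).symm
  rw [h1]
  unfold psiC
  refine reduce_defect (Nat.pos_of_ne_zero (NeZero.ne q)) x hqx hx
    (fun n => (1 : DirichletCharacter ℂ q) (n : ZMod q)) (fun _ => 1) ?_ ?_ ?_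
  · intro n hn
    exact MulChar.one_apply ((ZMod.isUnit_iff_coprime n q).2 hn)
  · intro n hn
    apply MulChar.map_nonunit
    rw [ZMod.isUnit_iff_coprime]
    exact hn
  · intro n
    simp

open Classical in
theorem sum_chars_le (q : ℕ) [NeZero q] (x : ℕ) :
    ∑ χ ∈ (univ : Finset (DirichletCharacter ℂ q)).erase 1, ‖psiC χ.primitiveCharacter x‖ ≤
      ∑ r ∈ q.divisors.erase 1, ∑ χ ∈ prim r, ‖psiC χ x‖ := by
  rw [← sum_sigma (q.divisors.erase 1) (fun r => prim r)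
    (fun p : (Σ r : ℕ, DirichletCharacter ℂ r) => ‖psiC p.2 x‖)]
  set Φ : DirichletCharacter ℂ q → (Σ r : ℕ, DirichletCharacter ℂ r) :=
    fun χ => ⟨χ.conductor, χ.primitiveCharacter⟩ with hΦ
  have hinj : Function.Injective Φ := by
    have hleft : ∀ χ : DirichletCharacter ℂ q,
        (fun p : (Σ r : ℕ, DirichletCharacter ℂ r) =>
          if h : p.1 ∣ q then changeLevel h p.2 else 1) (Φ χ) = χ := by
      intro χ
      simp only [hΦ, χ.conductor_dvd_level, dif_pos]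
      exact changeLevel_primitiveCharacter χ
    intro a b hab
    rw [← hleft a, ← hleft b, hab]
  calc ∑ χ ∈ (univ : Finset (DirichletCharacter ℂ q)).erase 1, ‖psiC χ.primitiveCharacter x‖
      = ∑ p ∈ ((univ : Finset (DirichletCharacter ℂ q)).erase 1).image Φ, ‖psiC p.2 x‖ := by
        rw [sum_image (fun a _ b _ h => hinj h)]
    _ ≤ ∑ p ∈ (q.divisors.erase 1).sigma (fun r => prim r), ‖psiC p.2 x‖ := by
        refine sum_le_sum_of_subset_of_nonneg ?_ (fun _ _ _ => norm_nonneg _)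
        intro p hp
        obtain ⟨χ, hχ, rfl⟩ := mem_image.1 hp
        rw [mem_sigma]
        refine ⟨mem_erase.2 ⟨?_, ?_⟩, ?_⟩
        · intro h
          exact (mem_erase.1 hχ).1 ((eq_one_iff_conductor_eq_one (χ := χ)).2 h)
        · exact Nat.mem_divisors.2 ⟨χ.conductor_dvd_level, NeZero.ne q⟩
        · unfold prim
          rw [mem_filter]
          exact ⟨mem_univ _, primitiveCharacter_isPrimitive χ⟩


lemma reduce_one (q : ℕ) [NeZero q] (a x : ℕ) (ha : a.Coprime q) (hqx : q ≤ x) (hx : 3 ≤ x) :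
    |psiA q a x - psi x / q.totient| ≤
      (1 : ℝ) / q.totient * ∑ r ∈ q.divisors.erase 1, ∑ χ ∈ prim r, ‖psiC χ x‖ +
        2 * (Real.log x) ^ 2 := by
  classical
  have hφ : 0 < q.totient := Nat.totient_pos.2 (Nat.pos_of_ne_zero (NeZero.ne q))
  have hφR : (0 : ℝ) < q.totient := by exact_mod_cast hφ
  have hφC : (q.totient : ℂ) ≠ 0 := by exact_mod_cast hφ.ne'
  have hu : IsUnit (a : ZMod q) := (ZMod.isUnit_iff_coprime a q).2 ha
  have hu' : IsUnit ((a : ZMod q)⁻¹) := by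
    obtain ⟨u, hu1⟩ := hu
    exact ⟨u⁻¹, by rw [← hu1, ZMod.inv_coe_unit]⟩
  have h1 : ((psiA q a x - psi x / q.totient : ℝ) : ℂ) = (1 / (q.totient : ℂ)) *
      ((psiC (1 : DirichletCharacter ℂ q) x - psi x) +
        ∑ χ ∈ (univ : Finset (DirichletCharacter ℂ q)).erase 1,
          χ (a : ZMod q)⁻¹ * (psiC χ x - psiC χ.primitiveCharacter x) +
        ∑ χ ∈ (univ : Finset (DirichletCharacter ℂ q)).erase 1,
          χ (a : ZMod q)⁻¹ * psiC χ.primitiveCharacter x) := by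
    push_cast
    rw [psiA_eq q a x ha, ← add_sum_erase univ _ (mem_univ (1 : DirichletCharacter ℂ q)),
      MulChar.one_apply hu', one_mul]
    have h2 : ∑ χ ∈ (univ : Finset (DirichletCharacter ℂ q)).erase 1,
        χ (a : ZMod q)⁻¹ * psiC χ x =
        ∑ χ ∈ (univ : Finset (DirichletCharacter ℂ q)).erase 1,
          χ (a : ZMod q)⁻¹ * (psiC χ x - psiC χ.primitiveCharacter x) +
        ∑ χ ∈ (univ : Finset (DirichletCharacter ℂ q)).erase 1,
          χ (a : ZMod q)⁻¹ * psiC χ.primitiveCharacter x := by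
      rw [← sum_add_distrib]
      refine sum_congr rfl fun χ _ => ?_
      ring
    rw [h2]
    field_simp
    ring
  have h3 : |psiA q a x - psi x / q.totient| =
      ‖((psiA q a x - psi x / q.totient : ℝ) : ℂ)‖ := by
    rw [Complex.norm_real, Real.norm_eq_abs]
  rw [h3, h1, norm_mul, norm_div, norm_one, Complex.norm_natCast]
  have h4 : ‖(psiC (1 : DirichletCharacter ℂ q) x - psi x) +
        ∑ χ ∈ (univ : Finset (DirichletCharacter ℂ q)).erase 1,
          χ (a : ZMod q)⁻¹ * (psiC χ x - psiC χ.primitiveCharacter x) +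
        ∑ χ ∈ (univ : Finset (DirichletCharacter ℂ q)).erase 1,
          χ (a : ZMod q)⁻¹ * psiC χ.primitiveCharacter x‖ ≤
      q.totient * (2 * (Real.log x) ^ 2) +
        ∑ r ∈ q.divisors.erase 1, ∑ χ ∈ prim r, ‖psiC χ x‖ := by
    have h5 : ‖∑ χ ∈ (univ : Finset (DirichletCharacter ℂ q)).erase 1,
          χ (a : ZMod q)⁻¹ * (psiC χ x - psiC χ.primitiveCharacter x)‖ ≤
        ∑ χ ∈ (univ : Finset (DirichletCharacter ℂ q)).erase 1, 2 * (Real.log x) ^ 2 := by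
      refine (norm_sum_le _ _).trans (sum_le_sum fun χ _ => ?_)
      rw [norm_mul]
      calc ‖χ (a : ZMod q)⁻¹‖ * ‖psiC χ x - psiC χ.primitiveCharacter x‖
          ≤ 1 * ‖psiC χ x - psiC χ.primitiveCharacter x‖ :=
            mul_le_mul_of_nonneg_right (DirichletCharacter.norm_le_one χ _) (norm_nonneg _)
        _ ≤ 2 * (Real.log x) ^ 2 := by rw [one_mul]; exact psiC_primitive q χ x hqx hx
    have h6 : ‖∑ χ ∈ (univ : Finset (DirichletCharacter ℂ q)).erase 1,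
          χ (a : ZMod q)⁻¹ * psiC χ.primitiveCharacter x‖ ≤
        ∑ r ∈ q.divisors.erase 1, ∑ χ ∈ prim r, ‖psiC χ x‖ := by
      refine le_trans ?_ (sum_chars_le q x)
      refine (norm_sum_le _ _).trans (sum_le_sum fun χ _ => ?_)
      rw [norm_mul]
      exact mul_le_of_le_one_left (norm_nonneg _) (DirichletCharacter.norm_le_one χ _)
    have h7 := psiC_one q x hqx hx
    have h8 : ((univ : Finset (DirichletCharacter ℂ q)).erase 1).card + 1 = q.totient := by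
      rw [card_erase_add_one (mem_univ _), card_univ, ← Nat.card_eq_fintype_card]
      exact card_eq_totient_of_hasEnoughRootsOfUnity ℂ q
    rw [sum_const, nsmul_eq_mul] at h5
    have h9 : (((univ : Finset (DirichletCharacter ℂ q)).erase 1).card : ℝ) + 1 =
        q.totient := by exact_mod_cast h8
    refine (norm_add_le _ _).trans ?_
    refine (add_le_add_left (norm_add_le _ _) _).trans ?_
    rw [← h9]
    linarith
  calc (1 : ℝ) / q.totient * _ ≤ (1 : ℝ) / q.totient * (q.totient * (2 * (Real.log x) ^ 2) +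
        ∑ r ∈ q.divisors.erase 1, ∑ χ ∈ prim r, ‖psiC χ x‖) :=
        mul_le_mul_of_nonneg_left h4 (by positivity)
    _ = _ := by field_simp; ring

theorem reduce : ∃ C : ℝ, 0 < C ∧ ∀ (x Q : ℕ) (a : ℕ → ℕ), 3 ≤ x → Q ≤ x →
    (∀ q ∈ Icc 1 Q, (a q).Coprime q) →
    ∑ q ∈ Icc 1 Q, |psiA q (a q) x - psi x / q.totient| ≤
      C * Real.log x * ∑ r ∈ Ioc 1 Q, (1 : ℝ) / r.totient * ∑ χ ∈ prim r, ‖psiC χ x‖ +
        C * Q * (Real.log x) ^ 2 := by
  obtain ⟨C, hC, hC2⟩ := sum_inv_totient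
  refine ⟨C + 2, by positivity, ?_⟩
  intro x Q a hx hQx ha
  set T : ℕ → ℝ := fun r => ∑ χ ∈ prim r, ‖psiC χ x‖ with hT
  have hT0 : ∀ r, 0 ≤ T r := fun r => sum_nonneg fun _ _ => norm_nonneg _
  have hlog : 0 ≤ Real.log x := Real.log_nonneg (by
    have : (3 : ℝ) ≤ x := by exact_mod_cast hx
    linarith)
  have h1 : ∀ q ∈ Icc 1 Q, |psiA q (a q) x - psi x / q.totient| ≤
      (1 : ℝ) / q.totient * ∑ r ∈ q.divisors.erase 1, T r + 2 * (Real.log x) ^ 2 := by
    intro q hq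
    obtain ⟨hq1, hq2⟩ := mem_Icc.1 hq
    have : NeZero q := ⟨by omega⟩
    exact reduce_one q (a q) x (ha q hq) (hq2.trans hQx) hx
  have h2 : ∑ q ∈ Icc 1 Q, (1 : ℝ) / q.totient * ∑ r ∈ q.divisors.erase 1, T r ≤
      ∑ r ∈ Ioc 1 Q, T r * ((1 : ℝ) / r.totient * (C * Real.log x)) := by
    have h3 : ∑ q ∈ Icc 1 Q, (1 : ℝ) / q.totient * ∑ r ∈ q.divisors.erase 1, T r =
        ∑ r ∈ Ioc 1 Q, ∑ q ∈ (Icc 1 Q).filter (fun q => r ∣ q), (1 : ℝ) / q.totient * T r := by
      simp only [mul_sum]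
      rw [sum_comm' (t' := Ioc 1 Q) (s' := fun r => (Icc 1 Q).filter (fun q => r ∣ q))]
      intro q r
      simp only [mem_Icc, mem_erase, Nat.mem_divisors, mem_filter, mem_Ioc]
      constructor
      · rintro ⟨⟨a1, a2⟩, a3, a4, a5⟩
        have a6 : 0 < r := Nat.pos_of_dvd_of_pos a4 a1
        have a7 := Nat.le_of_dvd a1 a4
        exact ⟨⟨⟨a1, a2⟩, a4⟩, by omega, by omega⟩
      · rintro ⟨⟨⟨a1, a2⟩, a4⟩, a5, a6⟩
        exact ⟨⟨a1, a2⟩, by omega, a4, by omega⟩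
    rw [h3]
    refine sum_le_sum fun r hr => ?_
    obtain ⟨hr1, hr2⟩ := mem_Ioc.1 hr
    rw [← sum_mul, mul_comm]
    refine mul_le_mul_of_nonneg_left ?_ (hT0 r)
    have hφr : (0 : ℝ) < r.totient := by exact_mod_cast Nat.totient_pos.2 (by omega)
    calc ∑ q ∈ (Icc 1 Q).filter (fun q => r ∣ q), (1 : ℝ) / q.totient
        ≤ ∑ q ∈ (Icc 1 x).image (fun m => r * m), (1 : ℝ) / q.totient := by
          refine sum_le_sum_of_subset_of_nonneg ?_ (fun _ _ _ => by positivity)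
          intro q hq
          obtain ⟨b1, m, rfl⟩ := mem_filter.1 hq
          obtain ⟨b2, b3⟩ := mem_Icc.1 b1
          rw [mem_image]
          refine ⟨m, mem_Icc.2 ⟨?_, ?_⟩, rfl⟩
          · rcases Nat.eq_zero_or_pos m with h | h
            · rw [h] at b2; simp at b2
            · exact h
          · have : m ≤ r * m := Nat.le_mul_of_pos_left m (by omega)
            omega
      _ = ∑ m ∈ Icc 1 x, (1 : ℝ) / (r * m).totient := by
          rw [sum_image]
          intro m _ m' _ h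
          exact Nat.eq_of_mul_eq_mul_left (by omega) h
      _ ≤ ∑ m ∈ Icc 1 x, (1 : ℝ) / r.totient * ((1 : ℝ) / m.totient) := by
          refine sum_le_sum fun m hm => ?_
          have hm1 : 0 < m.totient := Nat.totient_pos.2 (by have := (mem_Icc.1 hm).1; omega)
          have hm2 : (0 : ℝ) < m.totient := by exact_mod_cast hm1
          rw [div_mul_div_comm, one_mul]
          refine one_div_le_one_div_of_le (by positivity) ?_
          exact_mod_cast Nat.totient_super_multiplicative r m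
      _ = (1 : ℝ) / r.totient * ∑ m ∈ Icc 1 x, (1 : ℝ) / m.totient := by rw [mul_sum]
      _ ≤ (1 : ℝ) / r.totient * (C * Real.log x) :=
          mul_le_mul_of_nonneg_left (hC2 x hx) (by positivity)
  have h4 : ∑ r ∈ Ioc 1 Q, T r * ((1 : ℝ) / r.totient * (C * Real.log x)) =
      C * Real.log x * ∑ r ∈ Ioc 1 Q, (1 : ℝ) / r.totient * T r := by
    rw [mul_sum]
    exact sum_congr rfl fun r _ => by ring
  have h5 : 0 ≤ ∑ r ∈ Ioc 1 Q, (1 : ℝ) / r.totient * T r :=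
    sum_nonneg fun r _ => mul_nonneg (by positivity) (hT0 r)
  calc ∑ q ∈ Icc 1 Q, |psiA q (a q) x - psi x / q.totient|
      ≤ ∑ q ∈ Icc 1 Q, ((1 : ℝ) / q.totient * ∑ r ∈ q.divisors.erase 1, T r +
        2 * (Real.log x) ^ 2) := sum_le_sum h1
    _ = ∑ q ∈ Icc 1 Q, (1 : ℝ) / q.totient * ∑ r ∈ q.divisors.erase 1, T r +
        Q * (2 * (Real.log x) ^ 2) := by
        rw [sum_add_distrib, sum_const, Nat.card_Icc, nsmul_eq_mul, Nat.add_sub_cancel]
    _ ≤ C * Real.log x * ∑ r ∈ Ioc 1 Q, (1 : ℝ) / r.totient * T r +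
        Q * (2 * (Real.log x) ^ 2) := by rw [← h4]; linarith
    _ ≤ (C + 2) * Real.log x * ∑ r ∈ Ioc 1 Q, (1 : ℝ) / r.totient * T r +
        (C + 2) * Q * (Real.log x) ^ 2 := by
        have h6 : 0 ≤ Real.log x * ∑ r ∈ Ioc 1 Q, (1 : ℝ) / r.totient * T r :=
          mul_nonneg hlog h5
        have h7 : 0 ≤ C * ((Q : ℝ) * (Real.log x) ^ 2) := by positivity
        nlinarith

end Pool.Agent.BV
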