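import Pool.Agent.Work.BV.Defs

/-! # Module DivSum: divisor and totient sums

`tau_sq_sum`: `τ(dm) ≤ τ(d) τ(m)`; `∑_{n≤N} τ(n)^2 = ∑_{dm ≤ N} τ(dm) ≤ ∑_{d ≤ N} τ(d) ∑_{m ≤ N/d} τ(m)`
`≤ N (1+log N) ∑_{d≤N} τ(d)/d ≤ N (1+log N)^3`.

`sum_inv_totient`: `m/φ(m) = ∏_{p∣m} (1+1/p)/(1-1/p²) ≤ 2 ∑_{d∣m} 1/d`, hence
`∑_{m≤x} 1/φ(m) ≤ 2 (∑_d 1/d²) (∑_{k≤x} 1/k)`.

`card_prim_le`: `#prim q ≤ φ(q)`.
`coprime_defect`: the prime powers `n ≤ x` with `gcd(n,q) > 1` are powers of the primes dividing `q`;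
for each prime the sum of `log p` over powers `≤ x` is `≤ log x`; `q` has at most `log q / log 2`
prime divisors. -/

namespace Pool.Agent.BV

open Finset
open scoped ArithmeticFunction.vonMangoldt ArithmeticFunction.Moebius

lemma DivSum_H (n : ℕ) : ∑ i ∈ Icc 1 n, ((i : ℝ))⁻¹ ≤ 1 + Real.log n := by
  have h := harmonic_le_one_add_log n
  rw [harmonic_eq_sum_Icc] at h
  push_cast at h
  exact h

/-- sums over divisor pairs -/
lemma DivSum_pairs (N : ℕ) (f : ℕ → ℕ → ℝ) :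
    ∑ n ∈ Icc 1 N, ∑ p ∈ n.divisorsAntidiagonal, f p.1 p.2 =
      ∑ d ∈ Icc 1 N, ∑ m ∈ Icc 1 (N / d), f d m := by
  rw [sum_sigma', sum_sigma']
  refine sum_bij' (fun a _ => ⟨a.2.1, a.2.2⟩) (fun a _ => ⟨a.1 * a.2, (a.1, a.2)⟩) ?_ ?_ ?_ ?_ ?_
  · rintro ⟨n, d, m⟩ h
    simp only [mem_sigma, mem_Icc, Nat.mem_divisorsAntidiagonal] at h ⊢
    obtain ⟨⟨h1, h2⟩, h3, h4⟩ := h
    subst h3
    have hd : d ≠ 0 := left_ne_zero_of_mul h4
    have hm : m ≠ 0 := right_ne_zero_of_mul h4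
    refine ⟨⟨by omega, ?_⟩, by omega, ?_⟩
    · exact (Nat.le_mul_of_pos_right d (by omega)).trans h2
    · rw [Nat.le_div_iff_mul_le (by omega), mul_comm]; exact h2
  · rintro ⟨d, m⟩ h
    simp only [mem_sigma, mem_Icc, Nat.mem_divisorsAntidiagonal] at h ⊢
    obtain ⟨⟨h1, h2⟩, h3, h4⟩ := h
    rw [Nat.le_div_iff_mul_le (by omega), mul_comm] at h4
    have : 0 < d * m := Nat.mul_pos (by omega) (by omega)
    exact ⟨⟨this, h4⟩, trivial, by omega⟩
  · rintro ⟨n, d, m⟩ h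
    simp only [mem_sigma, mem_Icc, Nat.mem_divisorsAntidiagonal] at h ⊢
    obtain ⟨_, h3, _⟩ := h
    subst h3
    rfl
  · rintro ⟨d, m⟩ h
    rfl
  · rintro ⟨n, d, m⟩ h
    rfl

lemma DivSum_tau (n : ℕ) : (n.divisors.card : ℝ) = ∑ _p ∈ n.divisorsAntidiagonal, (1 : ℝ) := by
  rw [sum_const, nsmul_eq_mul, mul_one]
  congr 1
  rw [← Nat.map_div_right_divisors, card_map]

lemma DivSum_tauMul (a b : ℕ) :
    ((a * b).divisors.card : ℝ) ≤ (a.divisors.card : ℝ) * (b.divisors.card : ℝ) := by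
  rw [Nat.divisors_mul, ← Nat.cast_mul]
  exact_mod_cast card_mul_le

lemma DivSum_T (N K : ℕ) (h : N ≤ K) :
    ∑ n ∈ Icc 1 N, (n.divisors.card : ℝ) ≤ N * ∑ i ∈ Icc 1 K, ((i : ℝ))⁻¹ := by
  simp_rw [DivSum_tau]
  rw [DivSum_pairs N (fun _ _ => 1), mul_sum]
  calc ∑ d ∈ Icc 1 N, ∑ m ∈ Icc 1 (N / d), (1 : ℝ) ≤ ∑ d ∈ Icc 1 N, (N : ℝ) * ((d : ℝ))⁻¹ := by
        apply sum_le_sum
        intro d _
        rw [sum_const, nsmul_eq_mul, mul_one, Nat.card_Icc, Nat.add_sub_cancel]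
        rw [← div_eq_mul_inv]
        exact Nat.cast_div_le
    _ ≤ ∑ d ∈ Icc 1 K, (N : ℝ) * ((d : ℝ))⁻¹ := by
        apply sum_le_sum_of_subset_of_nonneg (Icc_subset_Icc_right h)
        intros; positivity

lemma DivSum_T2 (N : ℕ) :
    ∑ n ∈ Icc 1 N, (n.divisors.card : ℝ) * ((n : ℝ))⁻¹ ≤ (∑ i ∈ Icc 1 N, ((i : ℝ))⁻¹) ^ 2 := by
  have e1 : ∀ n ∈ Icc 1 N, (n.divisors.card : ℝ) * ((n : ℝ))⁻¹ =
      ∑ p ∈ n.divisorsAntidiagonal, ((p.1 : ℝ))⁻¹ * ((p.2 : ℝ))⁻¹ := by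
    intro n _
    rw [DivSum_tau, sum_mul]
    apply sum_congr rfl
    intro p hp
    rw [one_mul, ← mul_inv, ← Nat.cast_mul, (Nat.mem_divisorsAntidiagonal.mp hp).1]
  rw [sum_congr rfl e1, DivSum_pairs N (fun a b => ((a : ℝ))⁻¹ * ((b : ℝ))⁻¹), sq, sum_mul]
  apply sum_le_sum
  intro d _
  rw [← mul_sum]
  apply mul_le_mul_of_nonneg_left _ (by positivity)
  apply sum_le_sum_of_subset_of_nonneg (Icc_subset_Icc_right (Nat.div_le_self N d))
  intros; positivity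

lemma DivSum_tausq (N : ℕ) :
    ∑ n ∈ Icc 1 N, (n.divisors.card : ℝ) ^ 2 ≤ N * (∑ i ∈ Icc 1 N, ((i : ℝ))⁻¹) ^ 3 := by
  have e1 : ∀ n ∈ Icc 1 N, (n.divisors.card : ℝ) ^ 2 ≤
      ∑ p ∈ n.divisorsAntidiagonal, (p.1.divisors.card : ℝ) * (p.2.divisors.card : ℝ) := by
    intro n _
    rw [sq]
    nth_rewrite 2 [DivSum_tau]
    rw [mul_sum]
    apply sum_le_sum
    intro p hp
    rw [mul_one, ← (Nat.mem_divisorsAntidiagonal.mp hp).1]
    exact DivSum_tauMul _ _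
  refine (sum_le_sum e1).trans ?_
  rw [DivSum_pairs N (fun a b => (a.divisors.card : ℝ) * (b.divisors.card : ℝ))]
  have hH : 0 ≤ ∑ i ∈ Icc 1 N, ((i : ℝ))⁻¹ := by positivity
  calc ∑ d ∈ Icc 1 N, ∑ m ∈ Icc 1 (N / d), (d.divisors.card : ℝ) * (m.divisors.card : ℝ)
      ≤ ∑ d ∈ Icc 1 N, ((N : ℝ) * (∑ i ∈ Icc 1 N, ((i : ℝ))⁻¹)) *
          ((d.divisors.card : ℝ) * ((d : ℝ))⁻¹) := by
        apply sum_le_sum
        intro d _
        rw [← mul_sum]
        have h1 := DivSum_T (N / d) N (Nat.div_le_self N d)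
        have h2 : ((N / d : ℕ) : ℝ) ≤ (N : ℝ) * ((d : ℝ))⁻¹ := by
          rw [← div_eq_mul_inv]; exact Nat.cast_div_le
        calc (d.divisors.card : ℝ) * ∑ m ∈ Icc 1 (N / d), (m.divisors.card : ℝ)
            ≤ (d.divisors.card : ℝ) * (((N / d : ℕ) : ℝ) * ∑ i ∈ Icc 1 N, ((i : ℝ))⁻¹) :=
              mul_le_mul_of_nonneg_left h1 (by positivity)
          _ ≤ (d.divisors.card : ℝ) * (((N : ℝ) * ((d : ℝ))⁻¹) * ∑ i ∈ Icc 1 N, ((i : ℝ))⁻¹) := by
              apply mul_le_mul_of_nonneg_left _ (by positivity)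
              exact mul_le_mul_of_nonneg_right h2 hH
          _ = _ := by ring
    _ = ((N : ℝ) * (∑ i ∈ Icc 1 N, ((i : ℝ))⁻¹)) *
          ∑ d ∈ Icc 1 N, (d.divisors.card : ℝ) * ((d : ℝ))⁻¹ := (mul_sum _ _ _).symm
    _ ≤ ((N : ℝ) * (∑ i ∈ Icc 1 N, ((i : ℝ))⁻¹)) * (∑ i ∈ Icc 1 N, ((i : ℝ))⁻¹) ^ 2 :=
        mul_le_mul_of_nonneg_left (DivSum_T2 N) (by positivity)
    _ = _ := by ring

lemma DivSum_log3 : 1 ≤ Real.log 3 := by
  rw [Real.le_log_iff_exp_le (by norm_num)]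
  have := Real.exp_one_lt_d9
  linarith

lemma DivSum_log (x : ℕ) (hx : 3 ≤ x) : 1 ≤ Real.log x :=
  DivSum_log3.trans (Real.log_le_log (by norm_num) (by exact_mod_cast hx))

theorem tau_sq_sum : ∃ C : ℝ, 0 < C ∧ ∀ x N : ℕ, 3 ≤ x → N ≤ 2 * x →
    ∑ n ∈ Icc 1 N, (n.divisors.card : ℝ) ^ 2 ≤ C * N * (Real.log x) ^ 3 := by
  refine ⟨27, by norm_num, ?_⟩
  intro x N hx hN
  refine (DivSum_tausq N).trans ?_
  have hl := DivSum_log x hx
  have h0 : 0 ≤ ∑ i ∈ Icc 1 N, ((i : ℝ))⁻¹ := by positivity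
  have h1 : ∑ i ∈ Icc 1 N, ((i : ℝ))⁻¹ ≤ 3 * Real.log x := by
    rcases Nat.eq_zero_or_pos N with h | h
    · subst h
      simp
      linarith
    · have h2 := DivSum_H N
      have h3 : Real.log N ≤ Real.log 2 + Real.log x := by
        rw [← Real.log_mul (by norm_num) (by positivity)]
        apply Real.log_le_log (by exact_mod_cast h)
        exact_mod_cast hN
      have h4 : Real.log 2 ≤ 1 := by
        have := Real.log_two_lt_d9
        linarith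
      linarith
  calc (N : ℝ) * (∑ i ∈ Icc 1 N, ((i : ℝ))⁻¹) ^ 3 ≤ N * (3 * Real.log x) ^ 3 := by
        apply mul_le_mul_of_nonneg_left _ (by positivity)
        exact pow_le_pow_left₀ h0 h1 3
    _ = 27 * N * (Real.log x) ^ 3 := by ring

/-- telescoping product -/
lemma DivSum_tele (M : ℕ) (hM : 1 ≤ M) :
    ∏ n ∈ Icc 2 M, (1 - ((n : ℝ) ^ 2)⁻¹) = ((M : ℝ) + 1) / (2 * M) := by
  induction M, hM using Nat.le_induction with
  | base => simp
  | succ M hM ih =>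
    rw [← Finset.insert_Icc_right_eq_Icc_add_one (by omega), prod_insert (by simp), ih]
    have : (0 : ℝ) < M := by exact_mod_cast hM
    push_cast
    field_simp
    ring

lemma DivSum_half (S : Finset ℕ) (hS : ∀ p ∈ S, 2 ≤ p) :
    (1 / 2 : ℝ) ≤ ∏ p ∈ S, (1 - ((p : ℝ) ^ 2)⁻¹) := by
  have hsub : S ⊆ Icc 2 (S.sup id + 1) := by
    intro p hp
    rw [mem_Icc]
    have : id p ≤ S.sup id := le_sup hp
    simp only [id] at this
    exact ⟨hS p hp, by omega⟩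
  have hb : ∀ p : ℕ, 2 ≤ p → 0 ≤ 1 - ((p : ℝ) ^ 2)⁻¹ ∧ 1 - ((p : ℝ) ^ 2)⁻¹ ≤ 1 := by
    intro p hp
    have h2 : (2 : ℝ) ≤ p := by exact_mod_cast hp
    have h4 : (1 : ℝ) ≤ (p : ℝ) ^ 2 := by nlinarith
    have h5 : ((p : ℝ) ^ 2)⁻¹ ≤ 1 := inv_le_one_of_one_le₀ h4
    have h6 : 0 ≤ ((p : ℝ) ^ 2)⁻¹ := by positivity
    constructor <;> linarith
  have h1 := DivSum_tele (S.sup id + 1) (by omega)
  have h2 : (1 / 2 : ℝ) ≤ (((S.sup id + 1 : ℕ) : ℝ) + 1) / (2 * ((S.sup id + 1 : ℕ) : ℝ)) := by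
    rw [div_le_div_iff₀ (by norm_num) (by positivity)]
    linarith
  rw [← h1] at h2
  refine h2.trans ?_
  rw [← prod_sdiff hsub]
  have h3 : ∏ p ∈ Icc 2 (S.sup id + 1) \ S, (1 - ((p : ℝ) ^ 2)⁻¹) ≤ 1 := by
    apply prod_le_one
    · intro p hp
      exact (hb p (mem_Icc.mp (mem_sdiff.mp hp).1).1).1
    · intro p hp
      exact (hb p (mem_Icc.mp (mem_sdiff.mp hp).1).1).2
  have h4 : 0 ≤ ∏ p ∈ S, (1 - ((p : ℝ) ^ 2)⁻¹) := prod_nonneg fun p hp => (hb p (hS p hp)).1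
  calc _ ≤ 1 * ∏ p ∈ S, (1 - ((p : ℝ) ^ 2)⁻¹) := mul_le_mul_of_nonneg_right h3 h4
    _ = _ := one_mul _

lemma DivSum_sub (m : ℕ) (hm : m ≠ 0) :
    ∏ p ∈ m.primeFactors, (1 + ((p : ℝ))⁻¹) ≤ ∑ d ∈ m.divisors, ((d : ℝ))⁻¹ := by
  rw [prod_one_add]
  have hinj : Set.InjOn (fun T : Finset ℕ => ∏ p ∈ T, p) (m.primeFactors.powerset : Set (Finset ℕ)) := by
    intro T hT T' hT' h
    have e : ∀ T ∈ m.primeFactors.powerset, (∏ p ∈ T, p).primeFactors = T := by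
      intro T hT
      apply Nat.primeFactors_prod
      intro p hp
      exact Nat.prime_of_mem_primeFactors (mem_powerset.mp hT hp)
    rw [← e T hT, ← e T' hT']
    simp only at h
    rw [h]
  have h1 : ∑ T ∈ m.primeFactors.powerset, ∏ p ∈ T, ((p : ℝ))⁻¹ =
      ∑ d ∈ m.primeFactors.powerset.image (fun T => ∏ p ∈ T, p), ((d : ℝ))⁻¹ := by
    rw [sum_image hinj]
    apply sum_congr rfl
    intro T _
    rw [Nat.cast_prod, prod_inv_distrib]
  rw [h1]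
  apply sum_le_sum_of_subset_of_nonneg
  · intro d hd
    obtain ⟨T, hT, rfl⟩ := mem_image.mp hd
    rw [Nat.mem_divisors]
    refine ⟨?_, hm⟩
    exact (prod_dvd_prod_of_subset _ _ _ (mem_powerset.mp hT)).trans (Nat.prod_primeFactors_dvd m)
  · intros; positivity

lemma DivSum_totient (m : ℕ) (hm : m ≠ 0) :
    (1 : ℝ) / m.totient ≤ 2 * ((m : ℝ))⁻¹ * ∑ d ∈ m.divisors, ((d : ℝ))⁻¹ := by
  have h1 : (m.totient : ℝ) = m * ∏ p ∈ m.primeFactors, (1 - ((p : ℝ))⁻¹) := by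
    have := Nat.totient_eq_mul_prod_factors m
    have h2 := congrArg (fun q : ℚ => (q : ℝ)) this
    push_cast at h2
    exact h2
  have hp : ∀ p ∈ m.primeFactors, (2 : ℝ) ≤ p := fun p hp => by
    exact_mod_cast (Nat.prime_of_mem_primeFactors hp).two_le
  have h2 : (∏ p ∈ m.primeFactors, (1 - ((p : ℝ))⁻¹)) * ∏ p ∈ m.primeFactors, (1 + ((p : ℝ))⁻¹) =
      ∏ p ∈ m.primeFactors, (1 - ((p : ℝ) ^ 2)⁻¹) := by
    rw [← prod_mul_distrib]
    apply prod_congr rfl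
    intro p _
    rw [← inv_pow]
    ring
  have h3 := DivSum_half m.primeFactors (fun p hp => (Nat.prime_of_mem_primeFactors hp).two_le)
  rw [← h2] at h3
  have h4 := DivSum_sub m hm
  have hpos : 0 < ∏ p ∈ m.primeFactors, (1 - ((p : ℝ))⁻¹) := by
    apply prod_pos
    intro p hpp
    have := hp p hpp
    have h5 : ((p : ℝ))⁻¹ ≤ 2⁻¹ := inv_anti₀ (by norm_num) this
    norm_num at h5 ⊢
    linarith
  have hm0 : (0 : ℝ) < m := by exact_mod_cast Nat.pos_of_ne_zero hm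
  rw [h1, div_le_iff₀ (by positivity)]
  have h6 : (1 / 2 : ℝ) ≤ (∏ p ∈ m.primeFactors, (1 - ((p : ℝ))⁻¹)) *
      ∑ d ∈ m.divisors, ((d : ℝ))⁻¹ := h3.trans (mul_le_mul_of_nonneg_left h4 hpos.le)
  calc (1 : ℝ) = 2 * (1 / 2) := by norm_num
    _ ≤ 2 * ((∏ p ∈ m.primeFactors, (1 - ((p : ℝ))⁻¹)) * ∑ d ∈ m.divisors, ((d : ℝ))⁻¹) := by
        linarith
    _ = _ := by field_simp

lemma DivSum_sq (N : ℕ) : ∑ n ∈ Icc 1 N, (((n : ℝ)) ^ 2)⁻¹ ≤ 2 := by
  have key : ∀ N : ℕ, 1 ≤ N → ∑ n ∈ Icc 1 N, (((n : ℝ)) ^ 2)⁻¹ ≤ 2 - ((N : ℝ))⁻¹ := by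
    intro N hN
    induction N, hN using Nat.le_induction with
    | base => norm_num
    | succ N hN ih =>
      rw [← Finset.insert_Icc_right_eq_Icc_add_one (by omega), sum_insert (by simp)]
      have hN0 : (0 : ℝ) < N := by exact_mod_cast hN
      have h1 : (((N + 1 : ℕ) : ℝ) ^ 2)⁻¹ ≤ ((N : ℝ))⁻¹ - (((N + 1 : ℕ) : ℝ))⁻¹ := by
        push_cast
        rw [inv_sub_inv (by positivity) (by positivity), inv_eq_one_div,
          div_le_div_iff₀ (by positivity) (by positivity)]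
        nlinarith
      linarith
  rcases Nat.eq_zero_or_pos N with h | h
  · subst h; simp
  · have := key N h
    have h2 : 0 ≤ ((N : ℝ))⁻¹ := by positivity
    linarith

theorem sum_inv_totient : ∃ C : ℝ, 0 < C ∧ ∀ x : ℕ, 3 ≤ x →
    ∑ m ∈ Icc 1 x, (1 : ℝ) / m.totient ≤ C * Real.log x := by
  refine ⟨8, by norm_num, ?_⟩
  intro x hx
  have hl := DivSum_log x hx
  have hH := DivSum_H x
  calc ∑ m ∈ Icc 1 x, (1 : ℝ) / m.totient
      ≤ ∑ m ∈ Icc 1 x, ∑ p ∈ m.divisorsAntidiagonal,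
          2 * ((((p.1 : ℝ)) ^ 2)⁻¹ * ((p.2 : ℝ))⁻¹) := by
        apply sum_le_sum
        intro m hm
        have hm0 : m ≠ 0 := by have := (mem_Icc.mp hm).1; omega
        refine (DivSum_totient m hm0).trans (le_of_eq ?_)
        rw [← Nat.map_div_right_divisors, sum_map, mul_sum]
        apply sum_congr rfl
        intro d hd
        have hdm := (Nat.mem_divisors.mp hd).1
        have hd0 : (d : ℝ) ≠ 0 := by
          have := Nat.pos_of_mem_divisors hd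
          positivity
        simp only [Function.Embedding.coeFn_mk]
        rw [Nat.cast_div hdm hd0]
        have hm1 : (m : ℝ) ≠ 0 := by exact_mod_cast hm0
        field_simp
    _ = ∑ d ∈ Icc 1 x, ∑ k ∈ Icc 1 (x / d), 2 * ((((d : ℝ)) ^ 2)⁻¹ * ((k : ℝ))⁻¹) :=
        DivSum_pairs x (fun a b => 2 * ((((a : ℝ)) ^ 2)⁻¹ * ((b : ℝ))⁻¹))
    _ ≤ ∑ d ∈ Icc 1 x, 2 * ((((d : ℝ)) ^ 2)⁻¹ * ∑ k ∈ Icc 1 x, ((k : ℝ))⁻¹) := by
        apply sum_le_sum
        intro d _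
        rw [← mul_sum, ← mul_sum]
        apply mul_le_mul_of_nonneg_left _ (by norm_num)
        apply mul_le_mul_of_nonneg_left _ (by positivity)
        apply sum_le_sum_of_subset_of_nonneg (Icc_subset_Icc_right (Nat.div_le_self x d))
        intros; positivity
    _ = 2 * ((∑ d ∈ Icc 1 x, (((d : ℝ)) ^ 2)⁻¹) * ∑ k ∈ Icc 1 x, ((k : ℝ))⁻¹) := by
        rw [← mul_sum, sum_mul]
    _ ≤ 2 * (2 * (2 * Real.log x)) := by
        apply mul_le_mul_of_nonneg_left _ (by norm_num)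
        apply mul_le_mul (DivSum_sq x) (by linarith) (by positivity) (by norm_num)
    _ = 8 * Real.log x := by ring

theorem card_prim_le (q : ℕ) (hq : 1 ≤ q) : (prim q).card ≤ q.totient := by
  have : NeZero q := ⟨by omega⟩
  have h := DirichletCharacter.card_eq_totient_of_hasEnoughRootsOfUnity ℂ q
  rw [Nat.card_eq_fintype_card] at h
  rw [← h]
  exact card_le_univ _

theorem coprime_defect (q x : ℕ) (hq : 1 ≤ q) (hqx : q ≤ x) (hx : 3 ≤ x) :
    ∑ n ∈ (Icc 1 x).filter (fun n => ¬ n.Coprime q), (Λ n : ℝ) ≤ 2 * (Real.log x) ^ 2 := by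
  classical
  have hl := DivSum_log x hx
  -- the powers of p up to x
  let P : ℕ → Finset ℕ := fun p => (Icc 1 (Nat.log p x)).image (fun k => p ^ k)
  have hP : ∀ p ∈ q.primeFactors, ∑ n ∈ P p, (Λ n : ℝ) ≤ Real.log x := by
    intro p hp
    have hpp := Nat.prime_of_mem_primeFactors hp
    have h1 : ∑ n ∈ P p, (Λ n : ℝ) = ∑ k ∈ Icc 1 (Nat.log p x), Real.log p := by
      rw [sum_image]
      · apply sum_congr rfl
        intro k hk
        have : k ≠ 0 := by have := (mem_Icc.mp hk).1; omega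
        rw [ArithmeticFunction.vonMangoldt_apply_pow this,
          ArithmeticFunction.vonMangoldt_apply_prime hpp]
      · intro a _ b _ hab
        exact Nat.pow_right_injective hpp.two_le hab
    rw [h1, sum_const, nsmul_eq_mul, Nat.card_Icc, Nat.add_sub_cancel, ← Real.log_pow]
    apply Real.log_le_log
    · have := hpp.pos
      positivity
    · exact_mod_cast Nat.pow_log_le_self p (by omega)
  have h1 : ∑ n ∈ (Icc 1 x).filter (fun n => ¬ n.Coprime q), (Λ n : ℝ) ≤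
      ∑ n ∈ (Icc 1 x).filter (fun n => ¬ n.Coprime q), ∑ p ∈ q.primeFactors,
        if n ∈ P p then (Λ n : ℝ) else 0 := by
    apply sum_le_sum
    intro n hn
    obtain ⟨hn1, hnq⟩ := mem_filter.mp hn
    by_cases hz : (Λ n : ℝ) = 0
    · rw [hz]
      apply sum_nonneg
      intro p _
      split_ifs <;> simp
    · rw [← ne_eq, ArithmeticFunction.vonMangoldt_ne_zero_iff, isPrimePow_nat_iff] at hz
      obtain ⟨p, k, hp, hk, rfl⟩ := hz
      have hpq : p ∈ q.primeFactors := by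
        rw [Nat.mem_primeFactors]
        refine ⟨hp, ?_, by omega⟩
        by_contra hno
        exact hnq (Nat.Coprime.pow_left k ((Nat.Prime.coprime_iff_not_dvd hp).mpr hno))
      have hmem : p ^ k ∈ P p := by
        apply mem_image.mpr
        refine ⟨k, mem_Icc.mpr ⟨hk, ?_⟩, rfl⟩
        exact Nat.le_log_of_pow_le hp.one_lt (mem_Icc.mp hn1).2
      calc (Λ (p ^ k) : ℝ) = if p ^ k ∈ P p then (Λ (p ^ k) : ℝ) else 0 := by rw [if_pos hmem]
        _ ≤ _ := single_le_sum (f := fun p' => if p ^ k ∈ P p' then (Λ (p ^ k) : ℝ) else 0)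
            (fun p' _ => by
              show (0 : ℝ) ≤ if p ^ k ∈ P p' then (Λ (p ^ k) : ℝ) else 0
              split_ifs
              · exact ArithmeticFunction.vonMangoldt_nonneg
              · exact le_refl 0) hpq
  refine h1.trans ?_
  rw [sum_comm]
  have h2 : ∀ p ∈ q.primeFactors, ∑ n ∈ (Icc 1 x).filter (fun n => ¬ n.Coprime q),
      (if n ∈ P p then (Λ n : ℝ) else 0) ≤ Real.log x := by
    intro p hp
    rw [← sum_filter]
    refine le_trans ?_ (hP p hp)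
    apply sum_le_sum_of_subset_of_nonneg
    · intro n hn
      exact (mem_filter.mp hn).2
    · intro n _ _
      exact ArithmeticFunction.vonMangoldt_nonneg
  refine (sum_le_sum h2).trans ?_
  rw [sum_const, nsmul_eq_mul]
  -- the number of prime factors
  have h3 : 2 ^ q.primeFactors.card ≤ q := by
    calc 2 ^ q.primeFactors.card ≤ ∏ p ∈ q.primeFactors, p :=
          pow_card_le_prod _ _ _ (fun p hp => (Nat.prime_of_mem_primeFactors hp).two_le)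
      _ ≤ q := Nat.le_of_dvd (by omega) (Nat.prod_primeFactors_dvd q)
  have h4 : (q.primeFactors.card : ℝ) * Real.log 2 ≤ Real.log x := by
    rw [← Real.log_pow]
    apply Real.log_le_log (by positivity)
    exact_mod_cast h3.trans hqx
  have h5 := Real.log_two_gt_d9
  have h6 : (q.primeFactors.card : ℝ) ≤ 2 * Real.log x := by
    have h7 : (0 : ℝ) ≤ (q.primeFactors.card : ℝ) := by positivity
    nlinarith
  calc (q.primeFactors.card : ℝ) * Real.log x ≤ (2 * Real.log x) * Real.log x :=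
        mul_le_mul_of_nonneg_right h6 (by linarith)
    _ = _ := by ring

theorem psi_le (x : ℕ) : psi x ≤ x * Real.log x := by
  unfold psi
  calc ∑ n ∈ Icc 1 x, (Λ n : ℝ) ≤ ∑ n ∈ Icc 1 x, Real.log x := by
        apply sum_le_sum
        intro n hn
        obtain ⟨h1, h2⟩ := mem_Icc.mp hn
        refine ArithmeticFunction.vonMangoldt_le_log.trans (Real.log_le_log ?_ ?_)
        · exact_mod_cast h1
        · exact_mod_cast h2
    _ = x * Real.log x := by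
        rw [sum_const, nsmul_eq_mul, Nat.card_Icc, Nat.add_sub_cancel]

end Pool.Agent.BV
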