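import Pool.Agent.Work.BV.Defs

/-! # Module Unsmooth: elementary summation lemmas

`unsmooth`: `∑_{n≤x+h} a_n (x+h-n) - ∑_{n≤x} a_n (x-n) = h ∑_{n≤x} a_n + ∑_{x<n≤x+h} a_n (x+h-n)`, and the last
sum is at most `M h * h`.

`remove_log`: `Y = ⌊√x⌋`; `∑_{n≤Y} ‖a n‖ ≤ √x log x`; for `Y < n ≤ x` Abel summation with the decreasing
weight `g(n) = (log n)^{-k}`: `‖∑_{Y<n≤x} b_n g(n)‖ ≤ 2 E g(Y+1) ≤ 2 E (2/log x)^k`, `b_n = a_n (log n)^k`. -/

namespace Pool.Agent.BV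

open Finset

theorem unsmooth (a : ℕ → ℂ) (x h : ℕ) (hh : 1 ≤ h) (E M : ℝ)
    (h1 : ‖∑ n ∈ Icc 1 x, a n * ((x : ℂ) - n)‖ ≤ E)
    (h2 : ‖∑ n ∈ Icc 1 (x + h), a n * (((x + h : ℕ) : ℂ) - n)‖ ≤ E)
    (h3 : ∀ n ∈ Ioc x (x + h), ‖a n‖ ≤ M) :
    ‖∑ n ∈ Icc 1 x, a n‖ ≤ 2 * E / h + M * h := by
  have hh' : (0 : ℝ) < h := by exact_mod_cast hh
  have hM : 0 ≤ M := (norm_nonneg _).trans (h3 (x + 1) (by rw [mem_Ioc]; omega))
  have hsplit : ∑ n ∈ Icc 1 (x + h), a n * (((x + h : ℕ) : ℂ) - n) =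
      ∑ n ∈ Icc 1 x, a n * (((x + h : ℕ) : ℂ) - n) +
      ∑ n ∈ Ioc x (x + h), a n * (((x + h : ℕ) : ℂ) - n) := by
    rw [← sum_union]
    · congr 1
      ext n
      simp only [mem_Icc, mem_union, mem_Ioc]
      omega
    · rw [disjoint_left]
      intro n hn hn'
      rw [mem_Icc] at hn
      rw [mem_Ioc] at hn'
      omega
  have hkey : (h : ℂ) * ∑ n ∈ Icc 1 x, a n =
      ∑ n ∈ Icc 1 (x + h), a n * (((x + h : ℕ) : ℂ) - n) -
      ∑ n ∈ Icc 1 x, a n * ((x : ℂ) - n) -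
      ∑ n ∈ Ioc x (x + h), a n * (((x + h : ℕ) : ℂ) - n) := by
    rw [hsplit, mul_sum]
    have : ∑ n ∈ Icc 1 x, (h : ℂ) * a n = ∑ n ∈ Icc 1 x, a n * (((x + h : ℕ) : ℂ) - n) -
        ∑ n ∈ Icc 1 x, a n * ((x : ℂ) - n) := by
      rw [← sum_sub_distrib]
      apply sum_congr rfl
      intro n _
      push_cast
      ring
    rw [this]
    ring
  have hlast : ‖∑ n ∈ Ioc x (x + h), a n * (((x + h : ℕ) : ℂ) - n)‖ ≤ M * h * h := by
    calc ‖∑ n ∈ Ioc x (x + h), a n * (((x + h : ℕ) : ℂ) - n)‖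
        ≤ ∑ n ∈ Ioc x (x + h), ‖a n * (((x + h : ℕ) : ℂ) - n)‖ := norm_sum_le _ _
      _ ≤ ∑ n ∈ Ioc x (x + h), M * h := by
          apply sum_le_sum
          intro n hn
          rw [norm_mul]
          have hn' := mem_Ioc.1 hn
          apply mul_le_mul (h3 n hn) _ (norm_nonneg _) hM
          have h4 : (((x + h : ℕ) : ℂ) - n) = (((x + h - n : ℕ) : ℝ) : ℂ) := by
            rw [Nat.cast_sub hn'.2]
            push_cast
            ring
          rw [h4, Complex.norm_real, Real.norm_eq_abs, abs_of_nonneg (by positivity)]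
          have : x + h - n ≤ h := by omega
          exact_mod_cast this
      _ = M * h * h := by
          rw [sum_const, Nat.card_Ioc, nsmul_eq_mul]
          have : x + h - x = h := by omega
          rw [this]
          ring
  have h5 : ‖(h : ℂ) * ∑ n ∈ Icc 1 x, a n‖ ≤ E + E + M * h * h := by
    rw [hkey]
    exact (norm_sub_le _ _).trans (add_le_add ((norm_sub_le _ _).trans (add_le_add h2 h1)) hlast)
  rw [norm_mul, Complex.norm_natCast] at h5
  have h6 : ‖∑ n ∈ Icc 1 x, a n‖ ≤ (E + E + M * h * h) / h := by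
    rw [le_div_iff₀ hh']
    linarith
  refine h6.trans (le_of_eq ?_)
  field_simp
  ring

/-- Abel summation with a nonnegative antitone weight, all partial sums bounded -/
theorem abel_aux (b : ℕ → ℂ) (g : ℕ → ℝ) (E : ℝ) (Y : ℕ)
    (hg : ∀ n, Y < n → g (n + 1) ≤ g n) (hg0 : ∀ n, Y < n → 0 ≤ g n) (x : ℕ)
    (hE : ∀ u ≤ x, ‖∑ n ∈ Icc 1 u, b n‖ ≤ E) (hYx : Y ≤ x) :
    ‖∑ n ∈ Ioc Y x, b n * (g n : ℂ)‖ ≤ 2 * E * g (Y + 1) := by
  have hE0 : 0 ≤ E := (norm_nonneg _).trans (hE 0 (Nat.zero_le _))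
  -- stronger statement by induction on the length
  have key : ∀ m : ℕ, Y + m ≤ x →
      ∑ n ∈ Ioc Y (Y + m), b n * (g n : ℂ) =
      (∑ n ∈ Icc 1 (Y + m), b n) * (g (Y + m + 1) : ℂ) - (∑ n ∈ Icc 1 Y, b n) * (g (Y + 1) : ℂ) +
      ∑ j ∈ range m, (∑ n ∈ Icc 1 (Y + j + 1), b n) * ((g (Y + j + 1) - g (Y + j + 2) : ℝ) : ℂ) := by
    intro m
    induction m with
    | zero => intro _; simp
    | succ m ih =>
      intro hm
      have h1 : ∑ n ∈ Ioc Y (Y + (m + 1)), b n * (g n : ℂ) =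
          ∑ n ∈ Ioc Y (Y + m), b n * (g n : ℂ) + b (Y + m + 1) * (g (Y + m + 1) : ℂ) := by
        rw [← add_assoc, sum_Ioc_succ_top (by omega)]
      have h2 : ∑ n ∈ Icc 1 (Y + (m + 1)), b n = ∑ n ∈ Icc 1 (Y + m), b n + b (Y + m + 1) := by
        rw [← add_assoc, sum_Icc_succ_top (by omega)]
      rw [h1, ih (by omega), sum_range_succ, h2]
      have h3 : ∑ n ∈ Icc 1 (Y + m + 1), b n = ∑ n ∈ Icc 1 (Y + m), b n + b (Y + m + 1) := by
        rw [sum_Icc_succ_top (by omega)]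
      rw [h3]
      have h4 : Y + (m + 1) + 1 = Y + m + 2 := by ring
      rw [h4]
      push_cast
      ring
  obtain ⟨m, rfl⟩ : ∃ m, x = Y + m := ⟨x - Y, by omega⟩
  rw [key m le_rfl]
  have h5 : ‖∑ j ∈ range m, (∑ n ∈ Icc 1 (Y + j + 1), b n) *
      ((g (Y + j + 1) - g (Y + j + 2) : ℝ) : ℂ)‖ ≤ E * (g (Y + 1) - g (Y + m + 1)) := by
    calc _ ≤ ∑ j ∈ range m, ‖(∑ n ∈ Icc 1 (Y + j + 1), b n) *
          ((g (Y + j + 1) - g (Y + j + 2) : ℝ) : ℂ)‖ := norm_sum_le _ _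
      _ ≤ ∑ j ∈ range m, E * (g (Y + j + 1) - g (Y + j + 2)) := by
          apply sum_le_sum
          intro j hj
          rw [mem_range] at hj
          rw [norm_mul, Complex.norm_real, Real.norm_eq_abs,
            abs_of_nonneg (sub_nonneg.2 (hg (Y + j + 1) (by omega)))]
          exact mul_le_mul_of_nonneg_right (hE _ (by omega))
            (sub_nonneg.2 (hg (Y + j + 1) (by omega)))
      _ = E * (g (Y + 1) - g (Y + m + 1)) := by
          rw [← mul_sum]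
          congr 1
          exact sum_range_sub' (fun j => g (Y + j + 1)) m
  have h6 : ‖(∑ n ∈ Icc 1 (Y + m), b n) * (g (Y + m + 1) : ℂ)‖ ≤ E * g (Y + m + 1) := by
    rw [norm_mul, Complex.norm_real, Real.norm_eq_abs, abs_of_nonneg (hg0 _ (by omega))]
    exact mul_le_mul_of_nonneg_right (hE _ le_rfl) (hg0 _ (by omega))
  have h7 : ‖(∑ n ∈ Icc 1 Y, b n) * (g (Y + 1) : ℂ)‖ ≤ E * g (Y + 1) := by
    rw [norm_mul, Complex.norm_real, Real.norm_eq_abs, abs_of_nonneg (hg0 _ (by omega))]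
    exact mul_le_mul_of_nonneg_right (hE _ hYx) (hg0 _ (by omega))
  calc _ ≤ ‖(∑ n ∈ Icc 1 (Y + m), b n) * (g (Y + m + 1) : ℂ)‖ +
        ‖(∑ n ∈ Icc 1 Y, b n) * (g (Y + 1) : ℂ)‖ + E * (g (Y + 1) - g (Y + m + 1)) :=
        (norm_add_le _ _).trans (add_le_add (norm_sub_le _ _) h5)
    _ ≤ E * g (Y + m + 1) + E * g (Y + 1) + E * (g (Y + 1) - g (Y + m + 1)) := by
        gcongr
    _ = 2 * E * g (Y + 1) := by ring

theorem remove_log (k : ℕ) (a : ℕ → ℂ) (ha : ∀ n, ‖a n‖ ≤ Real.log n) (x : ℕ) (hx : 3 ≤ x)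
    (E : ℝ) (hE : ∀ u ≤ x, ‖∑ n ∈ Icc 1 u, a n * ((Real.log n : ℝ) : ℂ) ^ k‖ ≤ E) :
    ‖∑ n ∈ Icc 1 x, a n‖ ≤ 2 ^ (k + 1) * E / (Real.log x) ^ k + Real.sqrt x * Real.log x := by
  have hE0 : 0 ≤ E := (norm_nonneg _).trans (hE 0 (Nat.zero_le _))
  have hx1 : (1 : ℝ) ≤ x := by exact_mod_cast (by omega : 1 ≤ x)
  have hlx : 0 < Real.log x := Real.log_pos (by exact_mod_cast (by omega : 1 < x))
  set Y := Nat.sqrt x with hY
  have hY1 : 1 ≤ Y := by
    rw [hY]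
    exact Nat.le_sqrt.2 (by omega)
  have hYx : Y ≤ x := Nat.sqrt_le_self x
  have hYr : (Y : ℝ) ≤ Real.sqrt x := by
    apply Real.le_sqrt_of_sq_le
    have := Nat.sqrt_le' x
    exact_mod_cast this
  have hsplit : ∑ n ∈ Icc 1 x, a n = ∑ n ∈ Icc 1 Y, a n + ∑ n ∈ Ioc Y x, a n := by
    rw [← sum_union]
    · congr 1
      ext n
      simp only [mem_Icc, mem_union, mem_Ioc]
      omega
    · rw [disjoint_left]
      intro n hn hn'
      rw [mem_Icc] at hn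
      rw [mem_Ioc] at hn'
      omega
  have hfirst : ‖∑ n ∈ Icc 1 Y, a n‖ ≤ Real.sqrt x * Real.log x := by
    calc ‖∑ n ∈ Icc 1 Y, a n‖ ≤ ∑ n ∈ Icc 1 Y, ‖a n‖ := norm_sum_le _ _
      _ ≤ ∑ n ∈ Icc 1 Y, Real.log x := by
          apply sum_le_sum
          intro n hn
          rw [mem_Icc] at hn
          apply (ha n).trans
          apply Real.log_le_log
          · exact_mod_cast hn.1
          · exact_mod_cast hn.2.trans hYx
      _ = Y * Real.log x := by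
          rw [sum_const, Nat.card_Icc, nsmul_eq_mul]
          simp
      _ ≤ Real.sqrt x * Real.log x := by gcongr
  have hlogY : ∀ n : ℕ, Y < n → Real.log x / 2 ≤ Real.log n := by
    intro n hn
    have h1 : (x : ℝ) ≤ (n : ℝ) ^ 2 := by
      have h2 : x < n * n := by
        have := Nat.sqrt_lt.1 hn
        exact this
      have h3 : x ≤ n ^ 2 := by nlinarith
      exact_mod_cast h3
    have h4 := Real.log_le_log (by linarith) h1
    rw [Real.log_pow] at h4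
    push_cast at h4
    linarith
  have hlogpos : ∀ n : ℕ, Y < n → 0 < Real.log n := fun n hn =>
    lt_of_lt_of_le (by linarith) (hlogY n hn)
  have hsecond : ‖∑ n ∈ Ioc Y x, a n‖ ≤ 2 * E * (1 / (Real.log ((Y + 1 : ℕ) : ℝ)) ^ k) := by
    have h1 : ∑ n ∈ Ioc Y x, a n = ∑ n ∈ Ioc Y x,
        (a n * ((Real.log n : ℝ) : ℂ) ^ k) * (((1 / (Real.log n) ^ k : ℝ)) : ℂ) := by
      apply sum_congr rfl
      intro n hn
      rw [mem_Ioc] at hn
      have h2 := hlogpos n hn.1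
      have h3 : ((Real.log n : ℝ) : ℂ) ≠ 0 := by exact_mod_cast h2.ne'
      rw [Complex.ofReal_div, Complex.ofReal_one, Complex.ofReal_pow, mul_assoc,
        mul_one_div_cancel (pow_ne_zero k h3), mul_one]
    rw [h1]
    apply abel_aux (fun n => a n * ((Real.log n : ℝ) : ℂ) ^ k) (fun n => 1 / (Real.log n) ^ k) E Y
      _ _ x hE hYx
    · intro n hn
      apply one_div_le_one_div_of_le (pow_pos (hlogpos n hn) k)
      apply pow_le_pow_left₀ (hlogpos n hn).le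
      apply Real.log_le_log
      · exact_mod_cast (by omega : 0 < n)
      · exact_mod_cast (by omega : n ≤ n + 1)
    · intro n hn
      have := hlogpos n hn
      positivity
  have hthird : 1 / (Real.log ((Y + 1 : ℕ) : ℝ)) ^ k ≤ 2 ^ k / (Real.log x) ^ k := by
    rw [div_le_div_iff₀ (pow_pos (hlogpos (Y + 1) (by omega)) k) (pow_pos hlx k), one_mul,
      ← mul_pow]
    apply pow_le_pow_left₀ hlx.le
    have := hlogY (Y + 1) (by omega)
    linarith
  rw [hsplit]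
  calc _ ≤ ‖∑ n ∈ Icc 1 Y, a n‖ + ‖∑ n ∈ Ioc Y x, a n‖ := norm_add_le _ _
    _ ≤ Real.sqrt x * Real.log x + 2 * E * (2 ^ k / (Real.log x) ^ k) := by
        apply add_le_add hfirst
        apply hsecond.trans
        apply mul_le_mul_of_nonneg_left hthird (by positivity)
    _ = _ := by ring

end Pool.Agent.BV
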