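import Pool.Agent.Work.BV.SmoothSum
import Pool.Agent.Work.BV.Unsmooth
import Pool.Agent.Work.BV.DivSum

/-! # Module SW: the Siegel-Walfisz theorem

`Dser_final` is in `SWDser.lean`, `smooth_sum` in `SmoothSum.lean`.

`smooth_sum`: `σ = 1 + 1/log x`, `u ≤ x` so `u^{σ+1} ≤ e u^2 * ...` (`u^{1/log x} ≤ e`). Bound
`ell q (σ+it) ≤ log(3q) (1 + log(|t|+3))`-type and `(1+log(|t|+3))^{11(k+1)} ≤ C √(1+|t|)`, and
`(log 3q)^{11(k+1)} q^{ε} ≤ C q^{2ε}`; with `q ≤ (log x)^B` and `ε = 1/(4(B+1))` the result is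
`≤ C √(log x) ≤ C log x`. Then `perron_bound`.

`siegel_walfisz`: `k = 2m`, `m = A+1`, `a n = Λ(n) χ(n) (log n)^k`. For `u ≤ x`:
if `u ≤ (log x)^{k}` trivially `‖T_k(u)‖ ≤ u (log x)^{k+1} ≤ (log x)^{2k+1} ≤ C x`; otherwise `unsmooth` with
`h = ⌊u/(log x)^{m}⌋ ≥ 1` (so `u + h ≤ 2u`; apply `smooth_sum` with `2x` or allow `u ≤ 2x` there):
`‖T_k(u)‖ ≤ C u^2 log x / h + h (log 2x)^{k+1} ≤ C u (log x)^{m+1}`. So `E = C x (log x)^{m+1}` in
`remove_log k` (for `a n = Λ(n)χ(n)`, `|Λ(n)| ≤ log n`): `‖psiC χ x‖ ≤ C x (log x)^{m+1-2m} + √x log x`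
`≤ C x (log x)^{-A}`. `χ ∈ prim q`, `q > 1`, implies `χ ≠ 1` (conductor of `1` is `1`). -/

namespace Pool.Agent.BV

open Finset DirichletCharacter Complex
open scoped ArithmeticFunction.vonMangoldt

/-- `(log x)^N ≤ N! x` -/
theorem sw_log_pow_le (N x : ℕ) (hx : 1 ≤ x) : (Real.log x) ^ N ≤ (N.factorial : ℝ) * x := by
  have hx1 : (1 : ℝ) ≤ x := by exact_mod_cast hx
  have h1 := Real.pow_div_factorial_le_exp (Real.log x) (Real.log_nonneg hx1) N
  rw [Real.exp_log (by linarith), div_le_iff₀ (by positivity)] at h1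
  linarith

/-- `(log x)^N ≤ 2^N N! √x` -/
theorem sw_log_pow_le_sqrt (N x : ℕ) (hx : 1 ≤ x) :
    (Real.log x) ^ N ≤ 2 ^ N * (N.factorial : ℝ) * Real.sqrt x := by
  have hx1 : (1 : ℝ) ≤ x := by exact_mod_cast hx
  have hl := Real.log_nonneg hx1
  have h1 := Real.pow_div_factorial_le_exp (Real.log x / 2) (by linarith) N
  have h2 : Real.exp (Real.log x / 2) = Real.sqrt x := by
    rw [Real.exp_half, Real.exp_log (by linarith)]
  rw [h2, div_le_iff₀ (by positivity), div_pow, div_le_iff₀ (by positivity)] at h1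
  linarith

theorem sw_norm_le {q : ℕ} (χ : DirichletCharacter ℂ q) (n : ℕ) :
    ‖((Λ n : ℝ) : ℂ) * χ (n : ZMod q)‖ ≤ Real.log n := by
  rw [norm_mul, Complex.norm_real, Real.norm_of_nonneg ArithmeticFunction.vonMangoldt_nonneg]
  have h1 := DirichletCharacter.norm_le_one χ (n : ZMod q)
  have h2 : (Λ n : ℝ) ≤ Real.log n := ArithmeticFunction.vonMangoldt_le_log
  have h3 : (0 : ℝ) ≤ Λ n := ArithmeticFunction.vonMangoldt_nonneg
  calc (Λ n : ℝ) * ‖χ (n : ZMod q)‖ ≤ Real.log n * 1 :=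
        mul_le_mul h2 h1 (norm_nonneg _) (h3.trans h2)
    _ = Real.log n := mul_one _

theorem sw_norm_le' {q : ℕ} (χ : DirichletCharacter ℂ q) (k n : ℕ) (T : ℝ)
    (hT : Real.log n ≤ T) :
    ‖((Λ n : ℝ) : ℂ) * χ (n : ZMod q) * ((Real.log n : ℝ) : ℂ) ^ k‖ ≤ T ^ (k + 1) := by
  have h0 : 0 ≤ Real.log n := Real.log_natCast_nonneg n
  rw [norm_mul, norm_pow, Complex.norm_real, Real.norm_of_nonneg h0, pow_succ']
  have h1 := sw_norm_le χ n
  exact mul_le_mul (h1.trans hT) (pow_le_pow_left₀ h0 hT k) (by positivity) (h0.trans hT)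

theorem siegel_walfisz (A B : ℕ) : ∃ C : ℝ, 0 < C ∧ ∀ x : ℕ, 3 ≤ x → ∀ q : ℕ, 1 < q →
    (q : ℝ) ≤ (Real.log x) ^ B → ∀ χ ∈ prim q, ‖psiC χ x‖ ≤ C * x / (Real.log x) ^ A := by
  set m : ℕ := A + 1 with hm
  set k : ℕ := 2 * m with hk
  obtain ⟨C1, hC10, hC1⟩ := smooth_sum k B
  set K : ℝ := 16 * C1 + 2 ^ (k + 1) + ((3 * m + 1).factorial : ℝ) with hK
  have hK0 : 0 < K := by positivity
  refine ⟨2 ^ (k + 1) * K + 2 ^ (A + 1) * ((A + 1).factorial : ℝ), by positivity, ?_⟩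
  intro x hx q hq hqx χ hχ
  have hx3 : (3 : ℝ) ≤ x := by exact_mod_cast hx
  have hx0 : (0 : ℝ) < x := by linarith
  set L : ℝ := Real.log x with hL
  have hL1 : 1 < L := by
    rw [hL, Real.lt_log_iff_exp_lt hx0]
    have := Real.exp_one_lt_d9
    linarith
  have hL0 : 0 < L := by linarith
  have hlog2x : ∀ n : ℕ, n ≤ 2 * x → Real.log n ≤ 2 * L := by
    intro n hn
    rcases Nat.eq_zero_or_pos n with h0 | h0
    · rw [h0]; simp; linarith
    · have h1 : (n : ℝ) ≤ x * x := by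
        have : (n : ℝ) ≤ 2 * x := by exact_mod_cast hn
        nlinarith
      have h2 := Real.log_le_log (by exact_mod_cast h0) h1
      rw [Real.log_mul hx0.ne' hx0.ne'] at h2
      linarith
  have hE : ∀ u ≤ x, ‖∑ n ∈ Icc 1 u, ((Λ n : ℝ) : ℂ) * χ (n : ZMod q) *
      ((Real.log n : ℝ) : ℂ) ^ k‖ ≤ K * x * L ^ (m + 1) := by
    intro u hu
    have hux : (u : ℝ) ≤ x := by exact_mod_cast hu
    have hu0 : (0 : ℝ) ≤ u := Nat.cast_nonneg u
    by_cases hcase : (u : ℝ) < L ^ m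
    · -- trivial bound
      have h1 : ‖∑ n ∈ Icc 1 u, ((Λ n : ℝ) : ℂ) * χ (n : ZMod q) *
          ((Real.log n : ℝ) : ℂ) ^ k‖ ≤ u * L ^ (k + 1) := by
        refine (norm_sum_le _ _).trans ?_
        refine (Finset.sum_le_sum (g := fun _ => L ^ (k + 1)) fun n hn => ?_).trans ?_
        · refine sw_norm_le' χ k n L ?_
          have hn' := Finset.mem_Icc.mp hn
          exact Real.log_le_log (by exact_mod_cast hn'.1) (by exact_mod_cast hn'.2.trans hu)
        · rw [Finset.sum_const, Nat.card_Icc, nsmul_eq_mul]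
          simp
      refine h1.trans ?_
      have h2 := sw_log_pow_le (3 * m + 1) x (by omega)
      rw [← hL] at h2
      have h3 : (u : ℝ) * L ^ (k + 1) ≤ L ^ (3 * m + 1) := by
        calc (u : ℝ) * L ^ (k + 1) ≤ L ^ m * L ^ (k + 1) := by gcongr
          _ = L ^ (3 * m + 1) := by rw [← pow_add]; congr 1; omega
      have h4 : (1 : ℝ) ≤ L ^ (m + 1) := one_le_pow₀ hL1.le
      calc (u : ℝ) * L ^ (k + 1) ≤ ((3 * m + 1).factorial : ℝ) * x := h3.trans h2
        _ ≤ K * x := by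
            gcongr
            rw [hK]
            have : 0 < 16 * C1 + 2 ^ (k + 1) := by positivity
            linarith
        _ ≤ K * x * L ^ (m + 1) := le_mul_of_one_le_right (by positivity) h4
    · push Not at hcase
      have hLm0 : 0 < L ^ m := pow_pos hL0 m
      have hLm1 : 1 ≤ L ^ m := one_le_pow₀ hL1.le
      have hu1 : 1 ≤ u := by
        have : (1 : ℝ) ≤ u := hLm1.trans hcase
        exact_mod_cast this
      have hu1r : (1 : ℝ) ≤ u := by exact_mod_cast hu1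
      set h : ℕ := ⌊(u : ℝ) / L ^ m⌋₊ with hh
      have hdiv1 : 1 ≤ (u : ℝ) / L ^ m := by rw [le_div_iff₀ hLm0]; linarith
      have hh1 : 1 ≤ h := by
        rw [hh]
        exact Nat.le_floor (by exact_mod_cast hdiv1)
      have hhle : (h : ℝ) ≤ (u : ℝ) / L ^ m := Nat.floor_le (by positivity)
      have hhlt : (u : ℝ) / L ^ m < h + 1 := Nat.lt_floor_add_one _
      have hh1r : (1 : ℝ) ≤ h := by exact_mod_cast hh1
      have hhalf : (u : ℝ) / L ^ m ≤ 2 * h := by linarith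
      have hhu : (h : ℝ) ≤ u := hhle.trans (div_le_self hu0 hLm1)
      have hhu' : h ≤ u := by exact_mod_cast hhu
      have hs1 := hC1 x hx q hq hqx χ hχ u hu1 (by omega)
      have hs2 := hC1 x hx q hq hqx χ hχ (u + h) (by omega) (by omega)
      rw [← hL] at hs1 hs2
      have hE1 : C1 * (u : ℝ) ^ 2 * L ≤ 4 * C1 * (u : ℝ) ^ 2 * L := by
        have : 0 < C1 * (u : ℝ) ^ 2 * L := by positivity
        linarith
      have hE2 : C1 * ((u + h : ℕ) : ℝ) ^ 2 * L ≤ 4 * C1 * (u : ℝ) ^ 2 * L := by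
        have h5 : ((u + h : ℕ) : ℝ) ^ 2 ≤ 4 * (u : ℝ) ^ 2 := by
          push_cast
          nlinarith
        calc C1 * ((u + h : ℕ) : ℝ) ^ 2 * L ≤ C1 * (4 * (u : ℝ) ^ 2) * L := by gcongr
          _ = _ := by ring
      have hM : ∀ n ∈ Ioc u (u + h), ‖((Λ n : ℝ) : ℂ) * χ (n : ZMod q) *
          ((Real.log n : ℝ) : ℂ) ^ k‖ ≤ (2 * L) ^ (k + 1) := by
        intro n hn
        have hn' := Finset.mem_Ioc.mp hn
        exact sw_norm_le' χ k n (2 * L) (hlog2x n (by omega))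
      have hun := unsmooth (fun n => ((Λ n : ℝ) : ℂ) * χ (n : ZMod q) *
        ((Real.log n : ℝ) : ℂ) ^ k) u h hh1 (4 * C1 * (u : ℝ) ^ 2 * L) ((2 * L) ^ (k + 1))
        (hs1.trans hE1) (hs2.trans hE2) hM
      refine hun.trans ?_
      have h6 : 2 * (4 * C1 * (u : ℝ) ^ 2 * L) / h ≤ 16 * C1 * u * L ^ (m + 1) := by
        rw [div_le_iff₀ (by linarith)]
        have h7 : (u : ℝ) ≤ 2 * h * L ^ m := by
          rw [div_le_iff₀ hLm0] at hhalf
          linarith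
        calc 2 * (4 * C1 * (u : ℝ) ^ 2 * L) = 8 * C1 * u * L * u := by ring
          _ ≤ 8 * C1 * u * L * (2 * h * L ^ m) := by gcongr
          _ = 16 * C1 * u * L ^ (m + 1) * h := by ring
      have h8 : (2 * L) ^ (k + 1) * h ≤ 2 ^ (k + 1) * u * L ^ (m + 1) := by
        calc (2 * L) ^ (k + 1) * h ≤ (2 * L) ^ (k + 1) * ((u : ℝ) / L ^ m) := by gcongr
          _ = 2 ^ (k + 1) * u * L ^ (m + 1) := by
              rw [mul_pow, show k + 1 = (m + 1) + m by omega, pow_add L (m + 1) m]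
              field_simp
      calc 2 * (4 * C1 * (u : ℝ) ^ 2 * L) / h + (2 * L) ^ (k + 1) * h
          ≤ 16 * C1 * u * L ^ (m + 1) + 2 ^ (k + 1) * u * L ^ (m + 1) := add_le_add h6 h8
        _ = (16 * C1 + 2 ^ (k + 1)) * u * L ^ (m + 1) := by ring
        _ ≤ K * x * L ^ (m + 1) := by
            gcongr
            rw [hK]
            have : (0 : ℝ) < ((3 * m + 1).factorial : ℝ) := by positivity
            linarith
  have hfin := remove_log k (fun n => ((Λ n : ℝ) : ℂ) * χ (n : ZMod q)) (sw_norm_le χ) x hx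
    (K * x * L ^ (m + 1)) hE
  unfold psiC
  refine hfin.trans ?_
  rw [← hL]
  have hLA : 0 < L ^ A := pow_pos hL0 A
  have h9 : 2 ^ (k + 1) * (K * x * L ^ (m + 1)) / L ^ k = 2 ^ (k + 1) * K * x / L ^ A := by
    have h10 : L ^ k = L ^ (m + 1) * L ^ A := by
      rw [← pow_add]; congr 1; omega
    rw [h10]
    field_simp
  have h11 : Real.sqrt x * L ≤ 2 ^ (A + 1) * ((A + 1).factorial : ℝ) * x / L ^ A := by
    rw [le_div_iff₀ hLA]
    have h12 := sw_log_pow_le_sqrt (A + 1) x (by omega)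
    rw [← hL] at h12
    have h13 : 0 ≤ Real.sqrt x := Real.sqrt_nonneg _
    have h14 : Real.sqrt x * Real.sqrt x = x := Real.mul_self_sqrt hx0.le
    calc Real.sqrt x * L * L ^ A = Real.sqrt x * L ^ (A + 1) := by ring
      _ ≤ Real.sqrt x * (2 ^ (A + 1) * ((A + 1).factorial : ℝ) * Real.sqrt x) := by gcongr
      _ = 2 ^ (A + 1) * ((A + 1).factorial : ℝ) * (Real.sqrt x * Real.sqrt x) := by ring
      _ = _ := by rw [h14]
  rw [h9]
  calc 2 ^ (k + 1) * K * x / L ^ A + Real.sqrt x * L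
      ≤ 2 ^ (k + 1) * K * x / L ^ A + 2 ^ (A + 1) * ((A + 1).factorial : ℝ) * x / L ^ A := by
        gcongr
    _ = _ := by ring

end Pool.Agent.BV
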