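import Pool.Agent.Work.BV.High
import Pool.Agent.Work.BV.SW
import Pool.Agent.Work.BV.Reduce

/-! # Module Final: the Bombieri-Vinogradov theorem with level `x^(9/20)`

`R₀ = ⌈(log x)^(A+6)⌉₊ ≤ 2 (log x)^(A+6) ≤ (log x)^(A+36)` (`log x ≥ 1.03`, `1.03^30 > 2`); conductors
`r ≤ R₀`: `siegel_walfisz (2A+8) (A+36)` gives `∑_{1<r≤R₀} (1/φ(r)) ∑* ≤ R₀ C x/(log x)^(2A+8)` (`card_prim_le`);
conductors `r > R₀`: `high (A+1)`. Then `reduce`, and `Q (log x)^2 ≤ x^{9/20} (log x)^2 ≪ x/(log x)^A`. -/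

namespace Pool.Agent.BV

open Finset

theorem bombieri_vinogradov (A : ℕ) : ∃ C : ℝ, 0 < C ∧ ∀ (x Q : ℕ) (a : ℕ → ℕ), 3 ≤ x →
    (Q : ℝ) ≤ (x : ℝ) ^ (9 / 20 : ℝ) → (∀ q ∈ Icc 1 Q, (a q).Coprime q) →
    ∑ q ∈ Icc 1 Q, |psiA q (a q) x - psi x / q.totient| ≤ C * x / (Real.log x) ^ A := by
  obtain ⟨Cr, hCr, hr⟩ := reduce
  obtain ⟨Ch, hCh, hh⟩ := high (A + 1)
  obtain ⟨Cs, hCs, hs⟩ := siegel_walfisz (2 * A + 8) (A + 36)
  set K : ℝ := (100 * (A + 2 : ℕ) : ℝ) ^ (A + 2) with hK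
  have hK0 : 0 < K := by positivity
  refine ⟨2 * Cr * Cs + Cr * Ch + Cr * K, by positivity, ?_⟩
  intro x Q a hx hQ ha
  have hxR : (3 : ℝ) ≤ x := by exact_mod_cast hx
  have hx0 : (0 : ℝ) < x := by linarith
  have hx1 : (1 : ℝ) ≤ x := by linarith
  set L : ℝ := Real.log x with hL
  have hL1' : 103 / 100 ≤ L := by
    have h1 : Real.log 3 ≤ L := Real.log_le_log (by norm_num) hxR
    have h2 : 3 * Real.log 2 ≤ 2 * Real.log 3 := by
      rw [← Real.log_rpow (by norm_num), ← Real.log_rpow (by norm_num)]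
      exact Real.log_le_log (by positivity) (by norm_num)
    have := Real.log_two_gt_d9
    linarith
  have hL1 : 1 ≤ L := by linarith
  have hL0 : 0 < L := by linarith
  have hlog := high_log_pow (A + 2) (by omega) x hx1
  rw [← hK, ← hL] at hlog
  set R₀ : ℕ := ⌈L ^ (A + 6)⌉₊ with hR₀
  have hRge : L ^ (A + 6) ≤ R₀ := Nat.le_ceil _
  have hLp : 1 ≤ L ^ (A + 6) := one_le_pow₀ hL1
  have hRle : (R₀ : ℝ) ≤ 2 * L ^ (A + 6) := by
    have := Nat.ceil_lt_add_one (show 0 ≤ L ^ (A + 6) by positivity)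
    rw [← hR₀] at this
    linarith
  have hRle2 : (R₀ : ℝ) ≤ L ^ (A + 36) := by
    refine hRle.trans ?_
    have h2 : (2 : ℝ) ≤ L ^ 30 := by
      calc (2 : ℝ) ≤ (103 / 100) ^ 30 := by norm_num
        _ ≤ L ^ 30 := pow_le_pow_left₀ (by norm_num) hL1' 30
    calc 2 * L ^ (A + 6) ≤ L ^ 30 * L ^ (A + 6) := by gcongr
      _ = L ^ (A + 36) := by ring
  have hQx : Q ≤ x := by
    have h1 : (Q : ℝ) ≤ x := by
      refine hQ.trans ?_
      calc (x : ℝ) ^ (9 / 20 : ℝ) ≤ (x : ℝ) ^ (1 : ℝ) :=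
            Real.rpow_le_rpow_of_exponent_le hx1 (by norm_num)
        _ = x := Real.rpow_one _
    exact_mod_cast h1
  have hf0 : ∀ r : ℕ, 0 ≤ (1 : ℝ) / r.totient * ∑ χ ∈ prim r, ‖psiC χ x‖ := fun r =>
    mul_nonneg (by positivity) (sum_nonneg fun _ _ => norm_nonneg _)
  have h1 : ∑ r ∈ Ioc 1 Q, (1 : ℝ) / r.totient * ∑ χ ∈ prim r, ‖psiC χ x‖ ≤
      ∑ r ∈ Ioc 1 R₀, (1 : ℝ) / r.totient * ∑ χ ∈ prim r, ‖psiC χ x‖ +
      ∑ r ∈ Ioc R₀ Q, (1 : ℝ) / r.totient * ∑ χ ∈ prim r, ‖psiC χ x‖ := by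
    rw [← sum_union]
    · refine sum_le_sum_of_subset_of_nonneg ?_ (fun r _ _ => hf0 r)
      intro r hr
      rw [mem_union, mem_Ioc, mem_Ioc]
      rw [mem_Ioc] at hr
      by_cases h : r ≤ R₀
      · exact Or.inl ⟨hr.1, h⟩
      · exact Or.inr ⟨by omega, hr.2⟩
    · rw [disjoint_left]
      intro r hr hr'
      rw [mem_Ioc] at hr hr'
      omega
  have h2 : ∑ r ∈ Ioc 1 R₀, (1 : ℝ) / r.totient * ∑ χ ∈ prim r, ‖psiC χ x‖ ≤
      2 * Cs * x / L ^ (A + 2) := by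
    have h3 : ∀ r ∈ Ioc 1 R₀, (1 : ℝ) / r.totient * ∑ χ ∈ prim r, ‖psiC χ x‖ ≤
        Cs * x / L ^ (2 * A + 8) := by
      intro r hr
      obtain ⟨hr1, hr2⟩ := mem_Ioc.1 hr
      have hφ : (0 : ℝ) < r.totient := by exact_mod_cast Nat.totient_pos.2 (by omega)
      have h4 : ∑ χ ∈ prim r, ‖psiC χ x‖ ≤ r.totient * (Cs * x / L ^ (2 * A + 8)) := by
        calc ∑ χ ∈ prim r, ‖psiC χ x‖ ≤ ∑ χ ∈ prim r, Cs * x / L ^ (2 * A + 8) := by
              refine sum_le_sum fun χ hχ => hs x hx r hr1 ?_ χ hχ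
              refine le_trans ?_ hRle2
              exact_mod_cast hr2
          _ = (prim r).card * (Cs * x / L ^ (2 * A + 8)) := by rw [sum_const, nsmul_eq_mul]
          _ ≤ r.totient * (Cs * x / L ^ (2 * A + 8)) := by
              refine mul_le_mul_of_nonneg_right ?_ (by positivity)
              exact_mod_cast card_prim_le r (by omega)
      calc (1 : ℝ) / r.totient * ∑ χ ∈ prim r, ‖psiC χ x‖
          ≤ (1 : ℝ) / r.totient * (r.totient * (Cs * x / L ^ (2 * A + 8))) :=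
            mul_le_mul_of_nonneg_left h4 (by positivity)
        _ = _ := by field_simp
    refine (sum_le_sum h3).trans ?_
    rw [sum_const, Nat.card_Ioc, nsmul_eq_mul]
    have h5 : ((R₀ - 1 : ℕ) : ℝ) ≤ 2 * L ^ (A + 6) := by
      refine le_trans ?_ hRle
      exact_mod_cast Nat.sub_le _ _
    calc ((R₀ - 1 : ℕ) : ℝ) * (Cs * x / L ^ (2 * A + 8))
        ≤ (2 * L ^ (A + 6)) * (Cs * x / L ^ (2 * A + 8)) :=
          mul_le_mul_of_nonneg_right h5 (by positivity)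
      _ = 2 * Cs * x / L ^ (A + 2) := by
          have : L ^ (2 * A + 8) = L ^ (A + 6) * L ^ (A + 2) := by ring
          rw [this]
          field_simp
  have h3 := hh x Q R₀ hx hQ (by rw [← hL]; exact hRge)
  rw [← hL] at h3
  have h4 := hr x Q a hx hQx ha
  rw [← hL] at h4
  have h5 : Cr * L * ∑ r ∈ Ioc 1 Q, (1 : ℝ) / r.totient * ∑ χ ∈ prim r, ‖psiC χ x‖ ≤
      Cr * L * (2 * Cs * x / L ^ (A + 2) + Ch * x / L ^ (A + 1)) := by
    refine mul_le_mul_of_nonneg_left ?_ (by positivity)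
    linarith
  have h6 : Cr * L * (2 * Cs * x / L ^ (A + 2) + Ch * x / L ^ (A + 1)) ≤
      (2 * Cr * Cs + Cr * Ch) * x / L ^ A := by
    have e1 : Cr * L * (2 * Cs * x / L ^ (A + 2)) ≤ 2 * Cr * Cs * x / L ^ A := by
      have : Cr * L * (2 * Cs * x / L ^ (A + 2)) = 2 * Cr * Cs * x / L ^ (A + 1) := by
        rw [pow_succ, pow_succ]; field_simp
      rw [this]
      refine div_le_div_of_nonneg_left (by positivity) (by positivity) ?_
      exact pow_le_pow_right₀ hL1 (by omega)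
    have e2 : Cr * L * (Ch * x / L ^ (A + 1)) = Cr * Ch * x / L ^ A := by
      rw [pow_succ]; field_simp
    have e3 : (2 * Cr * Cs + Cr * Ch) * x / L ^ A =
        2 * Cr * Cs * x / L ^ A + Cr * Ch * x / L ^ A := by ring
    rw [mul_add, e2, e3]
    linarith
  have h7 : Cr * Q * L ^ 2 ≤ Cr * K * x / L ^ A := by
    rw [le_div_iff₀ (by positivity)]
    calc Cr * Q * L ^ 2 * L ^ A = Cr * Q * L ^ (A + 2) := by ring
      _ ≤ Cr * (x : ℝ) ^ (9 / 20 : ℝ) * (K * (x : ℝ) ^ (1 / 100 : ℝ)) := by gcongr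
      _ = Cr * K * ((x : ℝ) ^ (9 / 20 : ℝ) * (x : ℝ) ^ (1 / 100 : ℝ)) := by ring
      _ ≤ Cr * K * x := by
          refine mul_le_mul_of_nonneg_left ?_ (by positivity)
          rw [← Real.rpow_add hx0]
          calc (x : ℝ) ^ (9 / 20 + 1 / 100 : ℝ) ≤ (x : ℝ) ^ (1 : ℝ) :=
                Real.rpow_le_rpow_of_exponent_le hx1 (by norm_num)
            _ = x := Real.rpow_one _
  calc ∑ q ∈ Icc 1 Q, |psiA q (a q) x - psi x / q.totient|
      ≤ (2 * Cr * Cs + Cr * Ch) * x / L ^ A + Cr * K * x / L ^ A := by linarith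
    _ = (2 * Cr * Cs + Cr * Ch + Cr * K) * x / L ^ A := by ring

end Pool.Agent.BV
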