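import Pool.Agent.Work.BV.Defs

/-! # Module Additive: the additive large sieve (duality + Fejer kernel)

DUAL FORM. Put `L := max N ⌈1/δ⌉₊`. For `j < L` and `1 ≤ m ≤ N` we have `j + m < 2L`, hence
`L * ∑_n ‖F n‖^2 ≤ ∑_{i, j < 2L} ‖F (M + i - j)‖^2 = ∑_{r,s} b_r conj(b_s) e(M β) ‖D β‖^2`,
`β = α_r - α_s`, `D β = ∑_{i < 2L} e(i β)`.  Moreover `‖D β‖ ≤ 2L` and `‖D β‖ ≤ 1/(2‖β‖)`.

PRIMAL FORM by duality.
-/

namespace Pool.Agent.BV

open Finset

theorem add_e_add (x y : ℝ) : e (x + y) = e x * e y := by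
  unfold e
  rw [← Complex.exp_add]
  congr 1
  push_cast
  ring

theorem add_norm_e (x : ℝ) : ‖e x‖ = 1 := by
  unfold e
  rw [show (2 * Real.pi * x * Complex.I : ℂ) = ((2 * Real.pi * x : ℝ) : ℂ) * Complex.I by
    push_cast; ring]
  exact Complex.norm_exp_ofReal_mul_I _

theorem add_e_zero : e 0 = 1 := by simp [e]

theorem add_e_neg (x : ℝ) : e (-x) = starRingEnd ℂ (e x) := by
  have h1 : e x * e (-x) = 1 := by rw [← add_e_add]; simp [add_e_zero]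
  have h2 : e x * starRingEnd ℂ (e x) = 1 := by
    rw [Complex.mul_conj, Complex.normSq_eq_norm_sq, add_norm_e]; simp
  have h3 : e x ≠ 0 := by
    intro h
    have := add_norm_e x
    rw [h] at this
    simp at this
  exact mul_left_cancel₀ h3 (h1.trans h2.symm)

theorem add_e_int (k : ℤ) : e k = 1 := by
  unfold e
  rw [Complex.exp_eq_one_iff]
  exact ⟨k, by push_cast; ring⟩

theorem add_e_sub_int (x : ℝ) (k : ℤ) : e (x - k) = e x := by
  rw [sub_eq_add_neg, add_e_add, add_e_neg, add_e_int]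
  simp

theorem add_e_pow (m : ℕ) (β : ℝ) : e (m * β) = e β ^ m := by
  induction m with
  | zero => simp [add_e_zero]
  | succ i ih =>
    rw [pow_succ, ← ih, ← add_e_add]
    congr 1
    push_cast
    ring

/-- the geometric sum -/
noncomputable def addD (L : ℕ) (β : ℝ) : ℂ := ∑ i ∈ range (2 * L), e (i * β)

theorem addD_le (L : ℕ) (β : ℝ) : ‖addD L β‖ ≤ 2 * L := by
  unfold addD
  refine (norm_sum_le _ _).trans ?_
  simp [add_norm_e]

theorem add_norm_e_sub_one (x : ℝ) (hx : |x| ≤ 1 / 2) : 4 * |x| ≤ ‖e x - 1‖ := by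
  have h1 : e x = Complex.exp (Complex.I * ((2 * Real.pi * x : ℝ) : ℂ)) := by
    unfold e
    congr 1
    push_cast
    ring
  rw [h1, Complex.norm_exp_I_mul_ofReal_sub_one]
  have h2 : 2 * Real.pi * x / 2 = Real.pi * x := by ring
  rw [h2, norm_mul, Real.norm_eq_abs, Real.norm_eq_abs, abs_of_pos (by norm_num : (0 : ℝ) < 2)]
  have hpi := Real.pi_pos
  have h3 : |Real.pi * x| ≤ Real.pi / 2 := by
    rw [abs_mul, abs_of_pos hpi]
    nlinarith
  have h4 := Real.mul_abs_le_abs_sin h3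
  rw [abs_mul, abs_of_pos hpi] at h4
  have h5 : 2 / Real.pi * (Real.pi * |x|) = 2 * |x| := by
    field_simp
  linarith

theorem addD_le' (L : ℕ) (β : ℝ) (k : ℤ) (h0 : β - k ≠ 0) (h : |β - k| ≤ 1 / 2) :
    ‖addD L β‖ ≤ 1 / (2 * |β - k|) := by
  have h1 : addD L β * (e (β - k) - 1) = e ((2 * L : ℕ) * β) - 1 := by
    have h2 : addD L β = ∑ i ∈ range (2 * L), e (β - k) ^ i := by
      unfold addD
      refine Finset.sum_congr rfl fun i _ => ?_
      rw [add_e_sub_int]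
      exact add_e_pow i β
    have h3 : e ((2 * L : ℕ) * β) = e (β - k) ^ (2 * L) := by
      rw [add_e_sub_int]
      exact add_e_pow _ β
    rw [h2, h3, geom_sum_mul]
  have h2 := congrArg norm h1
  rw [norm_mul] at h2
  have h3 : ‖e ((2 * L : ℕ) * β) - 1‖ ≤ 2 := by
    refine (norm_sub_le _ _).trans ?_
    rw [add_norm_e]
    norm_num
  have h4 := add_norm_e_sub_one _ h
  have h5 : 0 < |β - k| := abs_pos.2 h0
  rw [le_div_iff₀ (by positivity)]
  have h6 := norm_nonneg (addD L β)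
  nlinarith

/-- spacing, positive part -/
theorem add_spacing_pos {ι : Type*} (S : Finset ι) (γ : ι → ℝ) (δ : ℝ) (hδ : 0 < δ)
    (h1 : ∀ s ∈ S, δ ≤ γ s) (h2 : ∀ r ∈ S, ∀ s ∈ S, r ≠ s → δ ≤ |γ r - γ s|) :
    ∑ s ∈ S, 1 / (γ s) ^ 2 ≤ 2 / δ ^ 2 := by
  classical
  set f : ι → ℕ := fun s => ⌊γ s / δ⌋₊ with hf
  have hf1 : ∀ s ∈ S, 1 ≤ f s := fun s hs => by
    rw [hf]
    simp only
    rw [Nat.one_le_floor_iff, le_div_iff₀ hδ]
    linarith [h1 s hs]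
  have hfle : ∀ s ∈ S, (f s : ℝ) * δ ≤ γ s := fun s hs => by
    have := Nat.floor_le (a := γ s / δ) (div_nonneg (by linarith [h1 s hs]) hδ.le)
    rwa [le_div_iff₀ hδ] at this
  have hflt : ∀ s ∈ S, γ s < ((f s : ℝ) + 1) * δ := fun s hs => by
    have := Nat.lt_floor_add_one (γ s / δ)
    rwa [div_lt_iff₀ hδ] at this
  have hinj : Set.InjOn f S := by
    intro r hr s hs hrs
    by_contra hne
    have h3 := h2 r hr s hs hne
    have a1 := hfle r hr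
    have a2 := hflt r hr
    have a3 := hfle s hs
    have a4 := hflt s hs
    rw [hrs] at a1 a2
    have : |γ r - γ s| < δ := by
      rw [abs_lt]
      constructor <;> nlinarith
    linarith
  have h3 : ∀ s ∈ S, 1 / (γ s) ^ 2 ≤ ((f s : ℝ) ^ 2)⁻¹ * (1 / δ ^ 2) := fun s hs => by
    have a1 := hfle s hs
    have a0 : (0 : ℝ) < f s := by exact_mod_cast hf1 s hs
    have : ((f s : ℝ)) ^ 2 * δ ^ 2 ≤ (γ s) ^ 2 := by
      rw [← mul_pow]
      exact pow_le_pow_left₀ (by positivity) a1 2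
    have h7 : 1 / (γ s) ^ 2 ≤ 1 / (((f s : ℝ)) ^ 2 * δ ^ 2) :=
      one_div_le_one_div_of_le (by positivity) this
    refine h7.trans (le_of_eq ?_)
    field_simp
  refine (Finset.sum_le_sum h3).trans ?_
  rw [← Finset.sum_mul]
  have h4 : ∑ s ∈ S, ((f s : ℝ) ^ 2)⁻¹ = ∑ k ∈ S.image f, ((k : ℝ) ^ 2)⁻¹ := by
    rw [Finset.sum_image hinj]
  have h5 : ∑ k ∈ S.image f, ((k : ℝ) ^ 2)⁻¹ ≤ 2 := by
    have hsub : S.image f ⊆ Ioo 0 ((S.image f).sup id + 1) := by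
      intro k hk
      rw [mem_Ioo]
      refine ⟨?_, Nat.lt_succ_of_le (Finset.le_sup (f := id) hk)⟩
      obtain ⟨s, hs, rfl⟩ := mem_image.1 hk
      exact hf1 s hs
    refine (Finset.sum_le_sum_of_subset_of_nonneg hsub fun k _ _ => by positivity).trans ?_
    have := sum_Ioo_inv_sq_le (α := ℝ) 0 ((S.image f).sup id + 1)
    simpa using this
  rw [h4]
  calc (∑ k ∈ S.image f, ((k : ℝ) ^ 2)⁻¹) * (1 / δ ^ 2) ≤ 2 * (1 / δ ^ 2) :=
        mul_le_mul_of_nonneg_right h5 (by positivity)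
    _ = 2 / δ ^ 2 := by ring

/-- the sum over one row -/
theorem add_row {ι : Type*} (S : Finset ι) (γ : ι → ℝ) (δ : ℝ) (hδ : 0 < δ) (L : ℕ)
    (r : ι) (hr : r ∈ S) (h1 : ∀ s ∈ S, s ≠ r → ∀ k : ℤ, δ ≤ |γ s - k|)
    (h2 : ∀ s ∈ S, ∀ t ∈ S, s ≠ t → ∀ k : ℤ, δ ≤ |γ s - γ t - k|) :
    ∑ s ∈ S, ‖addD L (γ s)‖ ^ 2 ≤ 4 * (L : ℝ) ^ 2 + 1 / δ ^ 2 := by
  classical
  set β : ι → ℝ := fun s => γ s - round (γ s) with hβ
  have hβ1 : ∀ s ∈ S.erase r, δ ≤ |β s| := fun s hs =>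
    h1 s (mem_of_mem_erase hs) (ne_of_mem_erase hs) _
  have hβ2 : ∀ s ∈ S, ∀ t ∈ S, s ≠ t → δ ≤ |β s - β t| := fun s hs t ht hst => by
    have := h2 s hs t ht hst (round (γ s) - round (γ t))
    rw [hβ]
    simp only
    push_cast at this
    rwa [show γ s - (round (γ s) : ℝ) - (γ t - (round (γ t) : ℝ)) =
      γ s - γ t - ((round (γ s) : ℝ) - (round (γ t) : ℝ)) by ring]
  have hle : ∀ s ∈ S.erase r, ‖addD L (γ s)‖ ^ 2 ≤ 1 / 4 * (1 / (β s) ^ 2) := fun s hs => by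
    have h3 := hβ1 s hs
    have h5 : |β s| ≤ 1 / 2 := abs_sub_round _
    have h6 : β s ≠ 0 := abs_pos.1 (hδ.trans_le h3)
    have h4 := addD_le' L (γ s) (round (γ s)) h6 h5
    have h7 : ‖addD L (γ s)‖ ^ 2 ≤ (1 / (2 * |γ s - (round (γ s) : ℝ)|)) ^ 2 :=
      pow_le_pow_left₀ (norm_nonneg _) h4 2
    refine h7.trans (le_of_eq ?_)
    change (1 / (2 * |β s|)) ^ 2 = _
    rw [div_pow, mul_pow, sq_abs, one_pow]
    field_simp
    norm_num
  rw [← Finset.add_sum_erase S _ hr]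
  have hr' : ‖addD L (γ r)‖ ^ 2 ≤ 4 * (L : ℝ) ^ 2 := by
    have := pow_le_pow_left₀ (norm_nonneg _) (addD_le L (γ r)) 2
    refine this.trans (le_of_eq (by ring))
  have hsum : ∑ s ∈ S.erase r, ‖addD L (γ s)‖ ^ 2 ≤ 1 / δ ^ 2 := by
    refine (Finset.sum_le_sum hle).trans ?_
    rw [← Finset.mul_sum, ← Finset.sum_filter_add_sum_filter_not (S.erase r) (fun s => 0 < β s)]
    have p1 : ∑ s ∈ (S.erase r).filter (fun s => 0 < β s), 1 / (β s) ^ 2 ≤ 2 / δ ^ 2 := by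
      refine add_spacing_pos _ β δ hδ ?_ ?_
      · intro s hs
        rw [mem_filter] at hs
        have := hβ1 s hs.1
        rwa [abs_of_pos hs.2] at this
      · intro s hs t ht hst
        exact hβ2 s (mem_of_mem_erase (mem_filter.1 hs).1) t
          (mem_of_mem_erase (mem_filter.1 ht).1) hst
    have p2 : ∑ s ∈ (S.erase r).filter (fun s => ¬ 0 < β s), 1 / (β s) ^ 2 ≤ 2 / δ ^ 2 := by
      have := add_spacing_pos ((S.erase r).filter (fun s => ¬ 0 < β s)) (fun s => -β s) δ hδ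
        (by
          intro s hs
          rw [mem_filter] at hs
          have := hβ1 s hs.1
          rwa [abs_of_nonpos (not_lt.1 hs.2)] at this)
        (by
          intro s hs t ht hst
          have := hβ2 s (mem_of_mem_erase (mem_filter.1 hs).1) t
            (mem_of_mem_erase (mem_filter.1 ht).1) hst
          rwa [show -β s - -β t = -(β s - β t) by ring, abs_neg])
      simpa using this
    have : 1 / 4 * (2 / δ ^ 2 + 2 / δ ^ 2) = 1 / δ ^ 2 := by ring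
    linarith
  linarith

theorem dual_large_sieve {ι : Type*} (S : Finset ι) (α : ι → ℝ) (δ : ℝ) (hδ : 0 < δ)
    (hδ1 : δ ≤ 1 / 2)
    (hsp : ∀ r ∈ S, ∀ s ∈ S, r ≠ s → ∀ k : ℤ, δ ≤ |α r - α s - k|) (M N : ℕ) (b : ι → ℂ) :
    ∑ n ∈ Ioc M (M + N), ‖∑ r ∈ S, b r * e (n * α r)‖ ^ 2 ≤
      10 * (N + 1 / δ) * ∑ r ∈ S, ‖b r‖ ^ 2 := by
  classical
  set L : ℕ := max N ⌈1 / δ⌉₊ with hL
  have hδi : 0 < 1 / δ := by positivity
  have hδ2 : 2 ≤ 1 / δ := by
    rw [le_div_iff₀ hδ]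
    linarith
  have hNL : N ≤ L := le_max_left _ _
  have hdL : 1 / δ ≤ L := (Nat.le_ceil _).trans (by exact_mod_cast le_max_right _ _)
  have hL0 : (0 : ℝ) < L := by linarith
  have hLle : (L : ℝ) ≤ N + 1 / δ + 1 := by
    rw [hL, Nat.cast_max]
    refine max_le (by linarith) ?_
    have := (Nat.ceil_lt_add_one hδi.le).le
    have hN : (0 : ℝ) ≤ N := Nat.cast_nonneg _
    linarith
  set F : ℤ → ℂ := fun z => ∑ r ∈ S, b r * e (z * α r) with hF
  set X := ∑ n ∈ Ioc M (M + N), ‖∑ r ∈ S, b r * e (n * α r)‖ ^ 2 with hX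
  -- averaging
  have h1 : (L : ℝ) * X ≤
      ∑ j ∈ range (2 * L), ∑ i ∈ range (2 * L), ‖F ((M : ℤ) + i - j)‖ ^ 2 := by
    have hj : ∀ j ∈ range L, X ≤ ∑ i ∈ range (2 * L), ‖F ((M : ℤ) + i - j)‖ ^ 2 := by
      intro j hj
      rw [mem_range] at hj
      have hsub : Ioc j (j + N) ⊆ range (2 * L) := by
        intro i hi
        rw [mem_Ioc] at hi
        rw [mem_range]
        omega
      refine le_trans (le_of_eq ?_)
        (Finset.sum_le_sum_of_subset_of_nonneg hsub fun k _ _ => by positivity)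
      rw [hX]
      refine Finset.sum_nbij' (fun n => n - M + j) (fun i => i - j + M) ?_ ?_ ?_ ?_ ?_
      · intro n hn
        rw [mem_Ioc] at hn ⊢
        omega
      · intro i hi
        rw [mem_Ioc] at hi ⊢
        omega
      · intro n hn
        rw [mem_Ioc] at hn
        omega
      · intro i hi
        rw [mem_Ioc] at hi
        omega
      · intro n hn
        rw [mem_Ioc] at hn
        have : ((M : ℤ) + ((n - M + j : ℕ) : ℤ) - j) = (n : ℤ) := by omega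
        rw [this, hF]
        simp only [Int.cast_natCast]
    calc (L : ℝ) * X = ∑ _j ∈ range L, X := by simp
      _ ≤ ∑ j ∈ range L, ∑ i ∈ range (2 * L), ‖F ((M : ℤ) + i - j)‖ ^ 2 :=
          Finset.sum_le_sum hj
      _ ≤ _ := Finset.sum_le_sum_of_subset_of_nonneg
          (Finset.range_subset_range.2 (by omega)) fun k _ _ => by positivity
  -- expansion
  have h2 : ((∑ j ∈ range (2 * L), ∑ i ∈ range (2 * L), ‖F ((M : ℤ) + i - j)‖ ^ 2 : ℝ) : ℂ) =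
      ∑ r ∈ S, ∑ s ∈ S, b r * starRingEnd ℂ (b s) * e (M * (α r - α s)) *
        ((‖addD L (α r - α s)‖ ^ 2 : ℝ) : ℂ) := by
    have hD : ∀ β : ℝ, ((‖addD L β‖ ^ 2 : ℝ) : ℂ) =
        ∑ j ∈ range (2 * L), ∑ i ∈ range (2 * L), e ((i - j : ℝ) * β) := by
      intro β
      rw [← Complex.normSq_eq_norm_sq, ← Complex.mul_conj, addD, map_sum, Finset.mul_sum]
      refine Finset.sum_congr rfl fun j _ => ?_
      rw [Finset.sum_mul]
      refine Finset.sum_congr rfl fun i _ => ?_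
      rw [← add_e_neg, ← add_e_add]
      congr 1
      ring
    have hFF : ∀ z : ℤ, ((‖F z‖ ^ 2 : ℝ) : ℂ) =
        ∑ r ∈ S, ∑ s ∈ S, b r * starRingEnd ℂ (b s) * e (z * (α r - α s)) := by
      intro z
      rw [← Complex.normSq_eq_norm_sq, ← Complex.mul_conj, hF]
      simp only
      rw [map_sum, Finset.sum_mul]
      refine Finset.sum_congr rfl fun r _ => ?_
      rw [Finset.mul_sum]
      refine Finset.sum_congr rfl fun s _ => ?_
      rw [map_mul, ← add_e_neg, show (z : ℝ) * (α r - α s) = z * α r + -(z * α s) by ring,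
        add_e_add]
      ring
    push_cast
    simp only [← Complex.ofReal_pow, hFF]
    simp only [hD, Finset.mul_sum]
    rw [Finset.sum_congr rfl fun j _ => Finset.sum_comm]
    rw [Finset.sum_comm]
    refine Finset.sum_congr rfl fun r _ => ?_
    rw [Finset.sum_congr rfl fun j _ => Finset.sum_comm]
    rw [Finset.sum_comm]
    refine Finset.sum_congr rfl fun s _ => ?_
    refine Finset.sum_congr rfl fun j _ => ?_
    refine Finset.sum_congr rfl fun i _ => ?_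
    rw [mul_assoc (b r * _), ← add_e_add]
    congr 2
    push_cast
    ring
  have h3 : ∑ j ∈ range (2 * L), ∑ i ∈ range (2 * L), ‖F ((M : ℤ) + i - j)‖ ^ 2 ≤
      ∑ r ∈ S, ∑ s ∈ S, (‖b r‖ ^ 2 + ‖b s‖ ^ 2) / 2 * ‖addD L (α r - α s)‖ ^ 2 := by
    have h4 : ∑ j ∈ range (2 * L), ∑ i ∈ range (2 * L), ‖F ((M : ℤ) + i - j)‖ ^ 2 =
        ‖((∑ j ∈ range (2 * L), ∑ i ∈ range (2 * L), ‖F ((M : ℤ) + i - j)‖ ^ 2 : ℝ) : ℂ)‖ := by
      rw [Complex.norm_real, Real.norm_eq_abs, abs_of_nonneg]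
      exact Finset.sum_nonneg fun _ _ => Finset.sum_nonneg fun _ _ => by positivity
    rw [h4, h2]
    refine (norm_sum_le _ _).trans (Finset.sum_le_sum fun r _ => ?_)
    refine (norm_sum_le _ _).trans (Finset.sum_le_sum fun s _ => ?_)
    rw [norm_mul, norm_mul, norm_mul, add_norm_e, Complex.norm_conj, mul_one, Complex.norm_real,
      Real.norm_eq_abs, abs_of_nonneg (by positivity : (0 : ℝ) ≤ ‖addD L (α r - α s)‖ ^ 2)]
    refine mul_le_mul_of_nonneg_right ?_ (by positivity)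
    nlinarith [sq_nonneg (‖b r‖ - ‖b s‖)]
  have hC : (0 : ℝ) ≤ 4 * (L : ℝ) ^ 2 + 1 / δ ^ 2 := by positivity
  have h5 : ∑ r ∈ S, ∑ s ∈ S, (‖b r‖ ^ 2 + ‖b s‖ ^ 2) / 2 * ‖addD L (α r - α s)‖ ^ 2 ≤
      (4 * (L : ℝ) ^ 2 + 1 / δ ^ 2) * ∑ r ∈ S, ‖b r‖ ^ 2 := by
    have e1 : ∑ r ∈ S, ∑ s ∈ S, (‖b r‖ ^ 2 + ‖b s‖ ^ 2) / 2 * ‖addD L (α r - α s)‖ ^ 2 =
        (∑ r ∈ S, ‖b r‖ ^ 2 * ∑ s ∈ S, ‖addD L (α r - α s)‖ ^ 2) / 2 +
        (∑ s ∈ S, ‖b s‖ ^ 2 * ∑ r ∈ S, ‖addD L (α r - α s)‖ ^ 2) / 2 := by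
      simp only [Finset.mul_sum]
      rw [Finset.sum_comm (s := S) (t := S)
        (f := fun s r => ‖b s‖ ^ 2 * ‖addD L (α r - α s)‖ ^ 2)]
      rw [Finset.sum_div, Finset.sum_div, ← Finset.sum_add_distrib]
      refine Finset.sum_congr rfl fun r _ => ?_
      rw [Finset.sum_div, Finset.sum_div, ← Finset.sum_add_distrib]
      refine Finset.sum_congr rfl fun s _ => ?_
      ring
    rw [e1]
    have p1 : ∑ r ∈ S, ‖b r‖ ^ 2 * ∑ s ∈ S, ‖addD L (α r - α s)‖ ^ 2 ≤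
        ∑ r ∈ S, ‖b r‖ ^ 2 * (4 * (L : ℝ) ^ 2 + 1 / δ ^ 2) := by
      refine Finset.sum_le_sum fun r hr => mul_le_mul_of_nonneg_left ?_ (by positivity)
      refine add_row S (fun s => α r - α s) δ hδ L r hr ?_ ?_
      · intro s hs hsr k
        exact hsp r hr s hs (Ne.symm hsr) k
      · intro s hs t ht hst k
        have := hsp t ht s hs (Ne.symm hst) k
        rwa [show α r - α s - (α r - α t) - (k : ℝ) = α t - α s - k by ring]
    have p2 : ∑ s ∈ S, ‖b s‖ ^ 2 * ∑ r ∈ S, ‖addD L (α r - α s)‖ ^ 2 ≤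
        ∑ s ∈ S, ‖b s‖ ^ 2 * (4 * (L : ℝ) ^ 2 + 1 / δ ^ 2) := by
      refine Finset.sum_le_sum fun s hs => mul_le_mul_of_nonneg_left ?_ (by positivity)
      refine add_row S (fun r => α r - α s) δ hδ L s hs ?_ ?_
      · intro r hr hrs k
        exact hsp r hr s hs hrs k
      · intro r hr t ht hrt k
        have := hsp r hr t ht hrt k
        rwa [show α r - α s - (α t - α s) - (k : ℝ) = α r - α t - k by ring]
    rw [← Finset.sum_mul] at p1 p2
    linarith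
  have hB : (0 : ℝ) ≤ ∑ r ∈ S, ‖b r‖ ^ 2 := Finset.sum_nonneg fun _ _ => by positivity
  have h6 : (4 * (L : ℝ) ^ 2 + 1 / δ ^ 2) ≤ 5 * (L : ℝ) ^ 2 := by
    have : 1 / δ ^ 2 ≤ (L : ℝ) ^ 2 := by
      have := pow_le_pow_left₀ hδi.le hdL 2
      rwa [div_pow, one_pow] at this
    linarith
  have h7 : (L : ℝ) * X ≤ L * (5 * L * ∑ r ∈ S, ‖b r‖ ^ 2) := by
    refine (h1.trans (h3.trans h5)).trans ?_
    refine (mul_le_mul_of_nonneg_right h6 hB).trans (le_of_eq (by ring))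
  have h8 : X ≤ 5 * L * ∑ r ∈ S, ‖b r‖ ^ 2 := le_of_mul_le_mul_left h7 hL0
  refine h8.trans (mul_le_mul_of_nonneg_right ?_ hB)
  have hN : (0 : ℝ) ≤ N := Nat.cast_nonneg _
  linarith

theorem additive_large_sieve {ι : Type*} (S : Finset ι) (α : ι → ℝ) (δ : ℝ) (hδ : 0 < δ)
    (hδ1 : δ ≤ 1 / 2)
    (hsp : ∀ r ∈ S, ∀ s ∈ S, r ≠ s → ∀ k : ℤ, δ ≤ |α r - α s - k|) (M N : ℕ) (a : ℕ → ℂ) :
    ∑ r ∈ S, ‖∑ n ∈ Ioc M (M + N), a n * e (n * α r)‖ ^ 2 ≤
      10 * (N + 1 / δ) * ∑ n ∈ Ioc M (M + N), ‖a n‖ ^ 2 := by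
  set f : ι → ℂ := fun r => ∑ n ∈ Ioc M (M + N), a n * e (n * α r) with hf
  set T := ∑ r ∈ S, ‖f r‖ ^ 2 with hT
  set A := ∑ n ∈ Ioc M (M + N), ‖a n‖ ^ 2 with hA
  have hT0 : 0 ≤ T := Finset.sum_nonneg fun _ _ => by positivity
  have hA0 : 0 ≤ A := Finset.sum_nonneg fun _ _ => by positivity
  have hC0 : (0 : ℝ) ≤ 10 * (N + 1 / δ) := by positivity
  have h1 : (T : ℂ) = ∑ n ∈ Ioc M (M + N), a n * ∑ r ∈ S, starRingEnd ℂ (f r) * e (n * α r) := by
    rw [hT]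
    push_cast
    simp only [Finset.mul_sum]
    rw [Finset.sum_comm]
    refine Finset.sum_congr rfl fun r _ => ?_
    rw [← Complex.ofReal_pow, ← Complex.normSq_eq_norm_sq, ← Complex.mul_conj]
    nth_rewrite 1 [hf]
    simp only
    rw [Finset.sum_mul]
    refine Finset.sum_congr rfl fun n _ => ?_
    ring
  have h2 : T ≤ ∑ n ∈ Ioc M (M + N), ‖a n‖ *
      ‖∑ r ∈ S, starRingEnd ℂ (f r) * e (n * α r)‖ := by
    have h3 : T = ‖(T : ℂ)‖ := by
      rw [Complex.norm_real, Real.norm_eq_abs, abs_of_nonneg hT0]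
    rw [h3, h1]
    refine (norm_sum_le _ _).trans (le_of_eq ?_)
    simp only [norm_mul]
  have h3 := Finset.sum_mul_sq_le_sq_mul_sq (Ioc M (M + N)) (fun n => ‖a n‖)
    (fun n => ‖∑ r ∈ S, starRingEnd ℂ (f r) * e (n * α r)‖)
  have h4 := dual_large_sieve S α δ hδ hδ1 hsp M N (fun r => starRingEnd ℂ (f r))
  have h5 : ∑ r ∈ S, ‖starRingEnd ℂ (f r)‖ ^ 2 = T := by
    simp only [Complex.norm_conj]
    rfl
  rw [h5] at h4
  have h6 : T ^ 2 ≤ A * (10 * (N + 1 / δ) * T) := by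
    calc T ^ 2 ≤ (∑ n ∈ Ioc M (M + N), ‖a n‖ *
          ‖∑ r ∈ S, starRingEnd ℂ (f r) * e (n * α r)‖) ^ 2 := pow_le_pow_left₀ hT0 h2 2
      _ ≤ A * ∑ n ∈ Ioc M (M + N), ‖∑ r ∈ S, starRingEnd ℂ (f r) * e (n * α r)‖ ^ 2 := h3
      _ ≤ _ := mul_le_mul_of_nonneg_left h4 hA0
  rcases hT0.eq_or_lt with h0 | h0
  · rw [← h0]
    positivity
  · have h7 : T * T ≤ T * (10 * (N + 1 / δ) * A) := by
      calc T * T = T ^ 2 := by ring
        _ ≤ A * (10 * (N + 1 / δ) * T) := h6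
        _ = T * (10 * (N + 1 / δ) * A) := by ring
    exact le_of_mul_le_mul_left h7 h0

end Pool.Agent.BV
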