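import Mathlib

/-! Second moment of the divisor function. -/

namespace Pool.Agent.Work.BV

open Finset

noncomputable section

/-- the divisor function as a real arithmetic function -/
def tau : ArithmeticFunction ℝ := ⟨fun n => (n.divisors.card : ℝ), by simp⟩

/-- `1/n` -/
def rinv : ArithmeticFunction ℝ := ⟨fun n => 1 / (n : ℝ), by simp⟩

lemma tau_apply (n : ℕ) : tau n = (n.divisors.card : ℝ) := rfl

lemma rinv_apply (n : ℕ) : rinv n = 1 / (n : ℝ) := rfl

lemma sum_inv_le (N : ℕ) : ∑ n ∈ Ioc 0 N, 1 / (n : ℝ) ≤ 1 + Real.log N := by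
  have h := harmonic_le_one_add_log N
  have h2 : ((harmonic N : ℚ) : ℝ) = ∑ n ∈ Ioc 0 N, 1 / (n : ℝ) := by
    rw [harmonic_eq_sum_Icc]
    push_cast
    have : Finset.Icc 1 N = Ioc 0 N := by ext; simp [Nat.lt_iff_add_one_le]
    rw [this]
    refine Finset.sum_congr rfl fun n _ => by rw [one_div]
  rw [← h2]; exact h

lemma sum_tau_le (N : ℕ) : ∑ n ∈ Ioc 0 N, tau n ≤ N * (1 + Real.log N) := by
  have h1 := ArithmeticFunction.sum_Ioc_sigma0_eq_sum_div N
  simp only [ArithmeticFunction.sigma_zero_apply] at h1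
  have h2 : (∑ n ∈ Ioc 0 N, tau n) = ∑ n ∈ Ioc 0 N, ((N / n : ℕ) : ℝ) := by
    simp only [tau_apply]
    exact_mod_cast h1
  rw [h2]
  calc ∑ n ∈ Ioc 0 N, ((N / n : ℕ) : ℝ) ≤ ∑ n ∈ Ioc 0 N, (N : ℝ) * (1 / n) := by
        apply Finset.sum_le_sum
        intro n _
        refine Nat.cast_div_le.trans (le_of_eq ?_)
        ring
    _ = N * ∑ n ∈ Ioc 0 N, (1 : ℝ) / n := by rw [Finset.mul_sum]
    _ ≤ N * (1 + Real.log N) := by
        have := sum_inv_le N
        gcongr

lemma rinv_mul_rinv (n : ℕ) : (rinv * rinv) n = tau n / n := by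
  rw [ArithmeticFunction.mul_apply, tau_apply]
  have : ∀ x ∈ n.divisorsAntidiagonal, rinv x.1 * rinv x.2 = 1 / (n : ℝ) := by
    intro x hx
    rw [Nat.mem_divisorsAntidiagonal] at hx
    rw [rinv_apply, rinv_apply, ← hx.1]
    push_cast
    rw [div_mul_div_comm, one_mul]
  have hc : (n.divisorsAntidiagonal).card = n.divisors.card := by
    rw [← Nat.map_div_right_divisors, Finset.card_map]
  rw [Finset.sum_congr rfl this, Finset.sum_const, nsmul_eq_mul, hc]
  ring

lemma sum_tau_div_le (N : ℕ) : ∑ n ∈ Ioc 0 N, tau n / n ≤ (1 + Real.log N) ^ 2 := by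
  have h := ArithmeticFunction.sum_Ioc_mul_eq_sum_sum rinv rinv N
  simp only [rinv_mul_rinv] at h
  rw [h]
  have hL : 0 ≤ 1 + Real.log N := by have := Real.log_natCast_nonneg N; linarith
  calc ∑ n ∈ Ioc 0 N, rinv n * ∑ m ∈ Ioc 0 (N / n), rinv m
      ≤ ∑ n ∈ Ioc 0 N, rinv n * (1 + Real.log N) := by
        refine Finset.sum_le_sum fun n hn => ?_
        rw [Finset.mem_Ioc] at hn
        have h0 : 0 ≤ rinv n := by rw [rinv_apply]; positivity
        refine mul_le_mul_of_nonneg_left ?_ h0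
        refine le_trans (Finset.sum_le_sum_of_subset_of_nonneg ?_ fun m _ _ => ?_) (sum_inv_le N)
        · exact Finset.Ioc_subset_Ioc le_rfl (Nat.div_le_self _ _)
        · rw [rinv_apply]; positivity
    _ = (∑ n ∈ Ioc 0 N, rinv n) * (1 + Real.log N) := by rw [Finset.sum_mul]
    _ ≤ (1 + Real.log N) * (1 + Real.log N) :=
        mul_le_mul_of_nonneg_right (sum_inv_le N) hL
    _ = _ := by ring

lemma tau_mul_le (a b : ℕ) : tau (a * b) ≤ tau a * tau b := by
  rw [tau_apply, tau_apply, tau_apply]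
  have h : (a * b).divisors.card ≤ a.divisors.card * b.divisors.card := by
    classical
    rw [Nat.divisors_mul]
    exact Finset.card_mul_le
  exact_mod_cast h

lemma tau_sq_le (n : ℕ) : tau n ^ 2 ≤ (tau * tau) n := by
  rw [ArithmeticFunction.mul_apply]
  have h1 : tau n ^ 2 = ∑ x ∈ n.divisorsAntidiagonal, tau n := by
    rw [Finset.sum_const, nsmul_eq_mul, sq]
    congr 1
    rw [tau_apply, ← Nat.map_div_right_divisors, Finset.card_map]
  rw [h1]
  refine Finset.sum_le_sum fun x hx => ?_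
  rw [Nat.mem_divisorsAntidiagonal] at hx
  conv_lhs => rw [← hx.1]
  exact tau_mul_le _ _

theorem sum_tau_sq_le (N : ℕ) : ∑ n ∈ Ioc 0 N, tau n ^ 2 ≤ N * (1 + Real.log N) ^ 3 := by
  have hL : 0 ≤ 1 + Real.log N := by have := Real.log_natCast_nonneg N; linarith
  calc ∑ n ∈ Ioc 0 N, tau n ^ 2 ≤ ∑ n ∈ Ioc 0 N, (tau * tau) n :=
        Finset.sum_le_sum fun n _ => tau_sq_le n
    _ = ∑ n ∈ Ioc 0 N, tau n * ∑ m ∈ Ioc 0 (N / n), tau m :=
        ArithmeticFunction.sum_Ioc_mul_eq_sum_sum tau tau N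
    _ ≤ ∑ n ∈ Ioc 0 N, tau n * ((N : ℝ) / n * (1 + Real.log N)) := by
        refine Finset.sum_le_sum fun n hn => ?_
        rw [Finset.mem_Ioc] at hn
        refine mul_le_mul_of_nonneg_left ?_ (by rw [tau_apply]; positivity)
        refine (sum_tau_le (N / n)).trans ?_
        have h1 : ((N / n : ℕ) : ℝ) ≤ (N : ℝ) / n := Nat.cast_div_le
        have h2 : Real.log ((N / n : ℕ) : ℝ) ≤ Real.log N := by
          rcases Nat.eq_zero_or_pos (N / n) with h0 | hpos
          · rw [h0]; simp; exact Real.log_natCast_nonneg N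
          · exact Real.log_le_log (by exact_mod_cast hpos) (by exact_mod_cast Nat.div_le_self _ _)
        have h3 : 0 ≤ 1 + Real.log ((N / n : ℕ) : ℝ) := by
          have := Real.log_natCast_nonneg (N / n); linarith
        calc ((N / n : ℕ) : ℝ) * (1 + Real.log ((N / n : ℕ) : ℝ))
            ≤ ((N : ℝ) / n) * (1 + Real.log N) := by gcongr
          _ = _ := rfl
    _ = (N : ℝ) * (1 + Real.log N) * ∑ n ∈ Ioc 0 N, tau n / n := by
        rw [Finset.mul_sum]
        refine Finset.sum_congr rfl fun n _ => by ring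
    _ ≤ (N : ℝ) * (1 + Real.log N) * (1 + Real.log N) ^ 2 :=
        mul_le_mul_of_nonneg_left (sum_tau_div_le N) (by positivity)
    _ = _ := by ring

end

end Pool.Agent.Work.BV
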