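import Pool.Agent.Work.BV.Defs

/-! # Module Split: removing the condition `c k ≤ x` by binary digits (exact, no error term)

`bit_lemma`: for `a < b < 2^M` the largest binary digit `i < M` in which `a` and `b` differ is the unique
`i < M` with `a / 2^i` even and `b / 2^i = a / 2^i + 1` (above `i` the digits agree; `a / 2^i = 2h`,
`b / 2^i = 2h + 1`); for `a ≥ b` there is none.
`split`: `c k ≤ x ↔ c ≤ x / k ↔ c < x / k + 1` (natural division, `k ≥ 1`); apply `bit_lemma` with `a = c`,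
`b = x / k + 1 ≤ x + 1 ≤ 2^m`, `M = m + 1`, and write `c / 2^i = 2 j`, `j ≤ x`; then
`χ (c k) = χ c χ k`. -/

namespace Pool.Agent.BV

open Finset
open scoped ArithmeticFunction.vonMangoldt ArithmeticFunction.Moebius

noncomputable section

/-- block sum over `c` -/
def Ablk {q : ℕ} (χ : DirichletCharacter ℂ q) (V x i j : ℕ) : ℂ :=
  ∑ c ∈ (Ioc V x).filter (fun c => c / 2 ^ i = 2 * j), ((Λ c : ℝ) : ℂ) * χ (c : ZMod q)

/-- block sum over `k` -/
def Bblk {q : ℕ} (χ : DirichletCharacter ℂ q) (U x i j : ℕ) : ℂ :=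
  ∑ k ∈ (Ioc U x).filter (fun k => (x / k + 1) / 2 ^ i = 2 * j + 1),
    ((beta U k : ℝ) : ℂ) * χ (k : ZMod q)

theorem abs_beta_le (U k : ℕ) : |beta U k| ≤ k.divisors.card := by
  unfold beta
  refine (Finset.abs_sum_le_sum_abs _ _).trans ?_
  have h1 : ∑ b ∈ k.divisors.filter (fun b => U < b), |((μ b : ℤ) : ℝ)| ≤
      ∑ _b ∈ k.divisors.filter (fun b => U < b), (1 : ℝ) := by
    apply Finset.sum_le_sum
    intro b _
    have := ArithmeticFunction.abs_moebius_le_one (n := b)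
    exact_mod_cast this
  refine h1.trans ?_
  rw [Finset.sum_const, nsmul_eq_mul, mul_one]
  exact_mod_cast Finset.card_le_card (Finset.filter_subset _ _)

theorem bit_lemma (M a b : ℕ) (hb : b < 2 ^ M) :
    (∑ i ∈ range M, if a / 2 ^ i % 2 = 0 ∧ b / 2 ^ i = a / 2 ^ i + 1 then 1 else 0) =
      (if a < b then 1 else 0 : ℕ) := by
  induction M generalizing a b with
  | zero =>
    have hb0 : b = 0 := by simpa using hb
    subst hb0
    simp
  | succ M ih =>
    rw [Finset.sum_range_succ']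
    have h1 : ∀ c i : ℕ, c / 2 ^ (i + 1) = (c / 2) / 2 ^ i := by
      intro c i
      rw [Nat.div_div_eq_div_mul, pow_succ, mul_comm]
    simp only [h1]
    rw [ih (a / 2) (b / 2) (by rw [pow_succ] at hb; omega)]
    simp only [pow_zero, Nat.div_one]
    by_cases h : a < b
    · rw [if_pos h]
      by_cases h2 : a / 2 < b / 2
      · rw [if_pos h2, if_neg (by omega)]
      · rw [if_neg h2, if_pos (by omega)]
    · rw [if_neg h, if_neg (by omega), if_neg (by omega)]

/-- the indicator of `c k ≤ x` -/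
lemma Split_ind (x m c k : ℕ) (hm : x < 2 ^ m) (hk : 1 ≤ k) (hc : c ≤ x) :
    (if c * k ≤ x then (1 : ℂ) else 0) = ∑ i ∈ range (m + 1), ∑ j ∈ range (x + 1),
      (if c / 2 ^ i = 2 * j then (1 : ℂ) else 0) *
        (if (x / k + 1) / 2 ^ i = 2 * j + 1 then 1 else 0) := by
  have h1 : c * k ≤ x ↔ c < x / k + 1 := by
    rw [Nat.lt_succ_iff, Nat.le_div_iff_mul_le (by omega)]
  have h2 : x / k + 1 < 2 ^ (m + 1) := by
    have := Nat.div_le_self x k
    have h3 : 1 ≤ 2 ^ m := Nat.one_le_two_pow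
    rw [pow_succ]; omega
  have h3 := bit_lemma (m + 1) c (x / k + 1) h2
  have h4 : (if c * k ≤ x then (1 : ℂ) else 0) =
      (((if c < x / k + 1 then 1 else 0 : ℕ) : ℕ) : ℂ) := by
    by_cases h : c * k ≤ x
    · rw [if_pos h, if_pos (h1.mp h)]; simp
    · rw [if_neg h, if_neg (fun hh => h (h1.mpr hh))]; simp
  rw [h4, ← h3]
  push_cast
  apply Finset.sum_congr rfl
  intro i _
  by_cases h : c / 2 ^ i % 2 = 0
  · obtain ⟨j, hj⟩ : ∃ j, c / 2 ^ i = 2 * j := ⟨c / 2 ^ i / 2, by omega⟩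
    have hjx : j ∈ range (x + 1) := by
      have := Nat.div_le_self c (2 ^ i)
      rw [mem_range]; omega
    rw [Finset.sum_eq_single_of_mem j hjx]
    · rw [hj]
      by_cases h' : (x / k + 1) / 2 ^ i = 2 * j + 1
      · simp [h']
      · simp [h']
    · intro j' _ hne
      rw [if_neg (by omega), zero_mul]
  · rw [if_neg (fun hh => h hh.1)]
    symm
    apply Finset.sum_eq_zero
    intro j _
    rw [if_neg (by omega), zero_mul]

theorem split {q : ℕ} (χ : DirichletCharacter ℂ q) (x U V m : ℕ) (hm : x < 2 ^ m) :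
    S3 χ U V x = ∑ i ∈ range (m + 1), ∑ j ∈ range (x + 1), Ablk χ V x i j * Bblk χ U x i j := by
  unfold S3 Ablk Bblk
  have e1 : ∀ i j : ℕ, (∑ c ∈ (Ioc V x).filter (fun c => c / 2 ^ i = 2 * j),
      ((Λ c : ℝ) : ℂ) * χ (c : ZMod q)) *
      (∑ k ∈ (Ioc U x).filter (fun k => (x / k + 1) / 2 ^ i = 2 * j + 1),
    ((beta U k : ℝ) : ℂ) * χ (k : ZMod q)) = ∑ c ∈ Ioc V x, ∑ k ∈ Ioc U x,
      ((if c / 2 ^ i = 2 * j then (1 : ℂ) else 0) *
        (if (x / k + 1) / 2 ^ i = 2 * j + 1 then 1 else 0)) *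
        (((Λ c : ℝ) : ℂ) * ((beta U k : ℝ) : ℂ) * χ ((c * k : ℕ) : ZMod q)) := by
    intro i j
    rw [Finset.sum_filter, Finset.sum_filter, Finset.sum_mul_sum]
    apply Finset.sum_congr rfl
    intro c _
    apply Finset.sum_congr rfl
    intro k _
    by_cases h1 : c / 2 ^ i = 2 * j
    · by_cases h2 : (x / k + 1) / 2 ^ i = 2 * j + 1
      · rw [if_pos h1, if_pos h2, if_pos h1, if_pos h2]
        push_cast
        rw [map_mul]
        ring
      · rw [if_neg h2, if_neg h2]; simp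
    · rw [if_neg h1, if_neg h1]; simp
  simp only [e1]
  have e2 : ∀ F : ℕ → ℕ → ℕ → ℕ → ℂ, ∑ i ∈ range (m + 1), ∑ j ∈ range (x + 1),
      ∑ c ∈ Ioc V x, ∑ k ∈ Ioc U x, F i j c k =
      ∑ c ∈ Ioc V x, ∑ k ∈ Ioc U x, ∑ i ∈ range (m + 1), ∑ j ∈ range (x + 1), F i j c k := by
    intro F
    calc ∑ i ∈ range (m + 1), ∑ j ∈ range (x + 1), ∑ c ∈ Ioc V x, ∑ k ∈ Ioc U x, F i j c k
        = ∑ i ∈ range (m + 1), ∑ c ∈ Ioc V x, ∑ j ∈ range (x + 1), ∑ k ∈ Ioc U x, F i j c k := by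
          apply Finset.sum_congr rfl; intro i _; rw [Finset.sum_comm]
      _ = ∑ i ∈ range (m + 1), ∑ c ∈ Ioc V x, ∑ k ∈ Ioc U x, ∑ j ∈ range (x + 1), F i j c k := by
          apply Finset.sum_congr rfl; intro i _
          apply Finset.sum_congr rfl; intro c _; rw [Finset.sum_comm]
      _ = ∑ c ∈ Ioc V x, ∑ i ∈ range (m + 1), ∑ k ∈ Ioc U x, ∑ j ∈ range (x + 1), F i j c k := by
          rw [Finset.sum_comm]
      _ = _ := by
          apply Finset.sum_congr rfl; intro c _; rw [Finset.sum_comm]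
  rw [e2]
  apply Finset.sum_congr rfl
  intro c hc
  apply Finset.sum_congr rfl
  intro k hk
  rw [mem_Ioc] at hc hk
  simp only [← Finset.sum_mul]
  rw [← Split_ind x m c k hm (by omega) hc.2]
  by_cases h : c * k ≤ x
  · rw [if_pos h, if_pos h, one_mul]
  · rw [if_neg h, if_neg h, zero_mul]

end

end Pool.Agent.BV
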