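import Pool.Agent.Work.BV.GaussLS
import Pool.Agent.Work.BV.DivSum
import Pool.Agent.Work.BV.L_Tau
import Pool.Agent.Work.BV.Split

/-! # Module Block: the type II sum on average over primitive characters of conductor `≤ R`

Weights `w_r = r/φ(r)`; take `m` with `x < 2^m ≤ 2x`, apply `split`, and fix `i ≤ m`.
Let `D_j = (2j+1) 2^i`. `Ablk` is supported on `2j 2^i ≤ c < D_j`, an interval of length `2^i`;
`Bblk` on `x/k + 1 ≥ D_j`, so on `k ≤ K_j := 2x/D_j`.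
`large_sieve` and Cauchy-Schwarz in the sum over `(r, χ)`:
`∑ w_r ∑* |A_ij B_ij| ≤ 20 ((2^i + R^2)(K_j + R^2))^{1/2} ‖a_ij‖ ‖b_ij‖`.
If both supports are nonempty then
`(2^i + R^2)(K_j + R^2) ≤ 2 (x + R^2 x/U + R^2 x/V + R^4)`.
Weighted Cauchy-Schwarz in `j` (weights `D_j`): `∑_j ‖a_ij‖ ‖b_ij‖ ≤
(∑ Λ(c)^2/c)^{1/2} (∑ (2x/k) τ(k)^2)^{1/2} ≤ 8 √x (log x)^4`. -/

namespace Pool.Agent.BV

open Finset
open scoped ArithmeticFunction.vonMangoldt ArithmeticFunction.Moebius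

lemma Block_log {x : ℕ} (hx : 3 ≤ x) : 1 ≤ Real.log x := by
  have h3 : (3 : ℝ) ≤ x := by exact_mod_cast hx
  have he := Real.exp_one_lt_d9
  rw [Real.le_log_iff_exp_le (by linarith)]
  linarith

/-- Cauchy-Schwarz with weights over pairs `(r, χ)` -/
lemma Block_cs (R : ℕ) (w : ℕ → ℝ) (hw : ∀ r, 0 ≤ w r)
    (f g : (r : ℕ) → DirichletCharacter ℂ r → ℝ) :
    ∑ r ∈ Icc 1 R, w r * ∑ χ ∈ prim r, f r χ * g r χ ≤
      Real.sqrt (∑ r ∈ Icc 1 R, w r * ∑ χ ∈ prim r, (f r χ) ^ 2) *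
        Real.sqrt (∑ r ∈ Icc 1 R, w r * ∑ χ ∈ prim r, (g r χ) ^ 2) := by
  simp only [Finset.mul_sum]
  rw [Finset.sum_sigma', Finset.sum_sigma', Finset.sum_sigma']
  have h := Real.sum_mul_le_sqrt_mul_sqrt ((Icc 1 R).sigma fun r => prim r)
    (fun p => Real.sqrt (w p.1) * f p.1 p.2) (fun p => Real.sqrt (w p.1) * g p.1 p.2)
  have e1 : ∀ p : (r : ℕ) × DirichletCharacter ℂ r, Real.sqrt (w p.1) * f p.1 p.2 *
      (Real.sqrt (w p.1) * g p.1 p.2) = w p.1 * (f p.1 p.2 * g p.1 p.2) := by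
    intro p
    have := Real.mul_self_sqrt (hw p.1)
    calc _ = (Real.sqrt (w p.1) * Real.sqrt (w p.1)) * (f p.1 p.2 * g p.1 p.2) := by ring
      _ = _ := by rw [this]
  have e2 : ∀ (F : (r : ℕ) → DirichletCharacter ℂ r → ℝ) (p : (r : ℕ) × DirichletCharacter ℂ r),
      (Real.sqrt (w p.1) * F p.1 p.2) ^ 2 = w p.1 * (F p.1 p.2) ^ 2 := by
    intro F p
    rw [mul_pow, Real.sq_sqrt (hw p.1)]
  simp only [e1, e2] at h
  exact h

/-- the large sieve for coefficients on a subset of an interval -/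
lemma Block_ls (R : ℕ) (hR : 1 ≤ R) (M N : ℕ) (S : Finset ℕ) (hS : S ⊆ Ioc M (M + N))
    (f : ℕ → ℝ) :
    ∑ r ∈ Icc 1 R, (r : ℝ) / r.totient *
      ∑ χ ∈ prim r, ‖∑ n ∈ S, ((f n : ℝ) : ℂ) * χ (n : ZMod r)‖ ^ 2 ≤
      20 * (N + (R : ℝ) ^ 2) * ∑ n ∈ S, (f n) ^ 2 := by
  classical
  have h := large_sieve R hR M N (fun n => if n ∈ S then ((f n : ℝ) : ℂ) else 0)
  have e1 : ∀ (r : ℕ) (χ : DirichletCharacter ℂ r),
      ∑ n ∈ Ioc M (M + N), (if n ∈ S then ((f n : ℝ) : ℂ) else 0) * χ (n : ZMod r) =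
      ∑ n ∈ S, ((f n : ℝ) : ℂ) * χ (n : ZMod r) := by
    intro r χ
    rw [← Finset.sum_filter_add_sum_filter_not (Ioc M (M + N)) (fun n => n ∈ S)]
    have h1 : (Ioc M (M + N)).filter (fun n => n ∈ S) = S := by
      ext n; rw [mem_filter]; exact ⟨fun hh => hh.2, fun hh => ⟨hS hh, hh⟩⟩
    rw [h1]
    have h2 : ∑ n ∈ (Ioc M (M + N)).filter (fun n => n ∉ S),
        (if n ∈ S then ((f n : ℝ) : ℂ) else 0) * χ (n : ZMod r) = 0 := by
      apply Finset.sum_eq_zero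
      intro n hn
      rw [mem_filter] at hn
      rw [if_neg hn.2, zero_mul]
    rw [h2, add_zero]
    apply Finset.sum_congr rfl
    intro n hn
    rw [if_pos hn]
  have e2 : ∑ n ∈ Ioc M (M + N), ‖(if n ∈ S then ((f n : ℝ) : ℂ) else 0)‖ ^ 2 =
      ∑ n ∈ S, (f n) ^ 2 := by
    rw [← Finset.sum_filter_add_sum_filter_not (Ioc M (M + N)) (fun n => n ∈ S)]
    have h1 : (Ioc M (M + N)).filter (fun n => n ∈ S) = S := by
      ext n; rw [mem_filter]; exact ⟨fun hh => hh.2, fun hh => ⟨hS hh, hh⟩⟩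
    rw [h1]
    have h2 : ∑ n ∈ (Ioc M (M + N)).filter (fun n => n ∉ S),
        ‖(if n ∈ S then ((f n : ℝ) : ℂ) else 0)‖ ^ 2 = 0 := by
      apply Finset.sum_eq_zero
      intro n hn
      rw [mem_filter] at hn
      rw [if_neg hn.2]; simp
    rw [h2, add_zero]
    apply Finset.sum_congr rfl
    intro n hn
    rw [if_pos hn, Complex.norm_real, Real.norm_eq_abs, sq_abs]
  simp only [e1] at h
  rw [e2] at h
  exact h

/-- support of `Ablk` -/
def SA (V x i j : ℕ) : Finset ℕ := (Ioc V x).filter (fun c => c / 2 ^ i = 2 * j)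

/-- support of `Bblk` -/
def SB (U x i j : ℕ) : Finset ℕ :=
  (Ioc U x).filter (fun k => (x / k + 1) / 2 ^ i = 2 * j + 1)

lemma Block_SA (V x i j c : ℕ) (hc : c ∈ SA V x i j) :
    2 * j * 2 ^ i ≤ c ∧ c < (2 * j + 1) * 2 ^ i ∧ V < c ∧ c ≤ x := by
  unfold SA at hc
  rw [mem_filter, mem_Ioc] at hc
  have h2 : 0 < 2 ^ i := Nat.pos_of_ne_zero (by positivity)
  obtain ⟨⟨h3, h4⟩, h5⟩ := hc
  have h6 := Nat.div_mul_le_self c (2 ^ i)
  have h7 := Nat.lt_div_mul_add (a := c) h2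
  rw [h5] at h6 h7
  refine ⟨h6, ?_, h3, h4⟩
  calc c < 2 * j * 2 ^ i + 2 ^ i := h7
    _ = _ := by ring

lemma Block_SB (U x i j k : ℕ) (hk : k ∈ SB U x i j) :
    (2 * j + 1) * 2 ^ i ≤ x / k + 1 ∧ U < k ∧ k ≤ x := by
  unfold SB at hk
  rw [mem_filter, mem_Ioc] at hk
  obtain ⟨⟨h3, h4⟩, h5⟩ := hk
  have h6 := Nat.div_mul_le_self (x / k + 1) (2 ^ i)
  rw [h5] at h6
  exact ⟨h6, h3, h4⟩

/-- one block -/
lemma Block_pair (x U V R i j : ℕ) (hU : 1 ≤ U) (hV : 1 ≤ V) (hUx : U ≤ x)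
    (hR : 1 ≤ R) :
    ∑ r ∈ Icc 1 R, (r : ℝ) / r.totient * ∑ χ ∈ prim r, ‖Ablk χ V x i j‖ * ‖Bblk χ U x i j‖ ≤
      20 * Real.sqrt (2 * ((x : ℝ) + (R : ℝ) ^ 2 * x / U + (R : ℝ) ^ 2 * x / V + (R : ℝ) ^ 4)) *
        (Real.sqrt (∑ c ∈ SA V x i j, (Λ c) ^ 2) * Real.sqrt (∑ k ∈ SB U x i j, (beta U k) ^ 2)) := by
  have hw : ∀ r : ℕ, 0 ≤ (r : ℝ) / r.totient := fun r => by positivity
  have hRHS : 0 ≤ 20 * Real.sqrt (2 * ((x : ℝ) + (R : ℝ) ^ 2 * x / U + (R : ℝ) ^ 2 * x / V + (R : ℝ) ^ 4)) *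
        (Real.sqrt (∑ c ∈ SA V x i j, (Λ c) ^ 2) * Real.sqrt (∑ k ∈ SB U x i j, (beta U k) ^ 2)) := by
    positivity
  rcases (SA V x i j).eq_empty_or_nonempty with hA | ⟨c, hc⟩
  · have : ∀ (r : ℕ) (χ : DirichletCharacter ℂ r), Ablk χ V x i j = 0 := by
      intro r χ
      have : Ablk χ V x i j = ∑ c ∈ SA V x i j, ((Λ c : ℝ) : ℂ) * χ (c : ZMod r) := rfl
      rw [this, hA, Finset.sum_empty]
    simp only [this, norm_zero, zero_mul, Finset.sum_const_zero, mul_zero]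
    exact hRHS
  rcases (SB U x i j).eq_empty_or_nonempty with hB | ⟨k, hk⟩
  · have : ∀ (r : ℕ) (χ : DirichletCharacter ℂ r), Bblk χ U x i j = 0 := by
      intro r χ
      have : Bblk χ U x i j = ∑ k ∈ SB U x i j, ((beta U k : ℝ) : ℂ) * χ (k : ZMod r) := rfl
      rw [this, hB, Finset.sum_empty]
    simp only [this, norm_zero, mul_zero, Finset.sum_const_zero]
    exact hRHS
  have hc' := Block_SA V x i j c hc
  have hk' := Block_SB U x i j k hk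
  set D := (2 * j + 1) * 2 ^ i with hD
  have h2i : 1 ≤ 2 ^ i := Nat.one_le_two_pow
  have hDV : V < D := by omega
  have hD2 : 2 ≤ D := by omega
  have hDi : 2 ^ i ≤ D := by rw [hD]; exact Nat.le_mul_of_pos_left _ (by omega)
  -- the two large sieves
  have hLA := Block_ls R hR (2 * j * 2 ^ i - 1) (2 ^ i) (SA V x i j) (by
    intro c hc
    have := Block_SA V x i j c hc
    rw [mem_Ioc]
    have e : (2 * j + 1) * 2 ^ i = 2 * j * 2 ^ i + 2 ^ i := by ring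
    rw [e] at this
    omega) (fun c => Λ c)
  have hLB := Block_ls R hR 0 (2 * x / D) (SB U x i j) (by
    intro k hk
    have h1 := Block_SB U x i j k hk
    rw [mem_Ioc]
    refine ⟨by omega, ?_⟩
    rw [zero_add, Nat.le_div_iff_mul_le (by omega)]
    have h3 := Nat.div_mul_le_self x k
    have h4 : D ≤ x / k + 1 := h1.1
    have h5 : k * D ≤ 2 * (x / k * k) := by
      have h6 : D ≤ 2 * (x / k) := by omega
      calc k * D ≤ k * (2 * (x / k)) := Nat.mul_le_mul_left _ h6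
        _ = _ := by ring
    omega) (fun k => beta U k)
  have h := Block_cs R (fun r => (r : ℝ) / r.totient) hw (fun r χ => ‖Ablk χ V x i j‖)
    (fun r χ => ‖Bblk χ U x i j‖)
  refine h.trans ?_
  have hA2 : ∑ r ∈ Icc 1 R, (r : ℝ) / r.totient * ∑ χ ∈ prim r, ‖Ablk χ V x i j‖ ^ 2 ≤
      20 * (((2 ^ i : ℕ) : ℝ) + (R : ℝ) ^ 2) * ∑ n ∈ SA V x i j, (Λ n) ^ 2 := hLA
  have hB2 : ∑ r ∈ Icc 1 R, (r : ℝ) / r.totient * ∑ χ ∈ prim r, ‖Bblk χ U x i j‖ ^ 2 ≤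
      20 * (((2 * x / D : ℕ) : ℝ) + (R : ℝ) ^ 2) * ∑ n ∈ SB U x i j, (beta U n) ^ 2 := hLB
  refine (mul_le_mul (Real.sqrt_le_sqrt hA2) (Real.sqrt_le_sqrt hB2) (Real.sqrt_nonneg _)
    (Real.sqrt_nonneg _)).trans ?_
  rw [Real.sqrt_mul (show (0 : ℝ) ≤ 20 * (((2 ^ i : ℕ) : ℝ) + (R : ℝ) ^ 2) by positivity),
    Real.sqrt_mul (show (0 : ℝ) ≤ 20 * (((2 * x / D : ℕ) : ℝ) + (R : ℝ) ^ 2) by positivity)]
  have hsa := Real.sqrt_nonneg (∑ n ∈ SA V x i j, (Λ n) ^ 2)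
  have hsb := Real.sqrt_nonneg (∑ n ∈ SB U x i j, (beta U n) ^ 2)
  have key : Real.sqrt (20 * (((2 ^ i : ℕ) : ℝ) + (R : ℝ) ^ 2)) *
      Real.sqrt (20 * (((2 * x / D : ℕ) : ℝ) + (R : ℝ) ^ 2)) ≤
      20 * Real.sqrt (2 * ((x : ℝ) + (R : ℝ) ^ 2 * x / U + (R : ℝ) ^ 2 * x / V + (R : ℝ) ^ 4)) := by
    rw [← Real.sqrt_mul (by positivity)]
    have e20 : (20 : ℝ) = Real.sqrt (20 ^ 2) := by
      rw [Real.sqrt_sq (by norm_num)]
    conv_rhs => rw [e20]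
    rw [← Real.sqrt_mul (by positivity)]
    apply Real.sqrt_le_sqrt
    have hDr : (0 : ℝ) < D := by exact_mod_cast (by omega : 0 < D)
    have hxr : (0 : ℝ) ≤ x := Nat.cast_nonneg _
    have hUr : (1 : ℝ) ≤ U := by exact_mod_cast hU
    have hVr : (1 : ℝ) ≤ V := by exact_mod_cast hV
    have hK : ((2 * x / D : ℕ) : ℝ) ≤ 2 * x / D := by
      have := @Nat.cast_div_le ℝ _ _ _ (2 * x) D
      push_cast at this
      exact this
    have b1 : ((2 ^ i : ℕ) : ℝ) * ((2 * x / D : ℕ) : ℝ) ≤ 2 * x := by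
      have : ((2 ^ i : ℕ) : ℝ) ≤ D := by exact_mod_cast hDi
      calc ((2 ^ i : ℕ) : ℝ) * ((2 * x / D : ℕ) : ℝ) ≤ D * (2 * x / D) := by gcongr
        _ = 2 * x := by field_simp
    have b2 : ((2 * x / D : ℕ) : ℝ) ≤ 2 * x / V := by
      refine hK.trans ?_
      have : (V : ℝ) ≤ D := by exact_mod_cast hDV.le
      gcongr
    have b3 : ((2 ^ i : ℕ) : ℝ) ≤ 2 * x / U := by
      have h1 : 2 ^ i ≤ x / k + 1 := hDi.trans hk'.1
      have h2 : x / k ≤ x / U := Nat.div_le_div_left (by omega) hU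
      have h3 : ((2 ^ i : ℕ) : ℝ) ≤ ((x / U : ℕ) : ℝ) + 1 := by exact_mod_cast h1.trans (by omega)
      have h4 : ((x / U : ℕ) : ℝ) ≤ (x : ℝ) / U := Nat.cast_div_le
      have h5 : (1 : ℝ) ≤ (x : ℝ) / U := by
        rw [le_div_iff₀ (by linarith), one_mul]; exact_mod_cast hUx
      have : 2 * (x : ℝ) / U = x / U + x / U := by ring
      linarith
    have hR2 : (0 : ℝ) ≤ (R : ℝ) ^ 2 := by positivity
    have c2 := mul_le_mul_of_nonneg_left b2 hR2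
    have c3 := mul_le_mul_of_nonneg_left b3 hR2
    have e5 : (R : ℝ) ^ 2 * (2 * x / V) = 2 * ((R : ℝ) ^ 2 * x / V) := by ring
    have e6 : (R : ℝ) ^ 2 * (2 * x / U) = 2 * ((R : ℝ) ^ 2 * x / U) := by ring
    have e7 : (0 : ℝ) ≤ (R : ℝ) ^ 4 := by positivity
    have e8 : (((2 ^ i : ℕ) : ℝ) + (R : ℝ) ^ 2) * (((2 * x / D : ℕ) : ℝ) + (R : ℝ) ^ 2) =
      ((2 ^ i : ℕ) : ℝ) * ((2 * x / D : ℕ) : ℝ) + (R : ℝ) ^ 2 * ((2 * x / D : ℕ) : ℝ) +
        (R : ℝ) ^ 2 * ((2 ^ i : ℕ) : ℝ) + (R : ℝ) ^ 4 := by ring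
    have e9 : 20 * (((2 ^ i : ℕ) : ℝ) + (R : ℝ) ^ 2) * (20 * (((2 * x / D : ℕ) : ℝ) + (R : ℝ) ^ 2)) =
      20 ^ 2 * ((((2 ^ i : ℕ) : ℝ) + (R : ℝ) ^ 2) * (((2 * x / D : ℕ) : ℝ) + (R : ℝ) ^ 2)) := by ring
    rw [e9]
    apply mul_le_mul_of_nonneg_left _ (by norm_num)
    rw [e8]
    linarith
  calc Real.sqrt (20 * (((2 ^ i : ℕ) : ℝ) + (R : ℝ) ^ 2)) * Real.sqrt (∑ n ∈ SA V x i j, (Λ n) ^ 2) *
      (Real.sqrt (20 * (((2 * x / D : ℕ) : ℝ) + (R : ℝ) ^ 2)) * Real.sqrt (∑ n ∈ SB U x i j, (beta U n) ^ 2))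
      = (Real.sqrt (20 * (((2 ^ i : ℕ) : ℝ) + (R : ℝ) ^ 2)) *
      Real.sqrt (20 * (((2 * x / D : ℕ) : ℝ) + (R : ℝ) ^ 2))) *
        (Real.sqrt (∑ n ∈ SA V x i j, (Λ n) ^ 2) * Real.sqrt (∑ n ∈ SB U x i j, (beta U n) ^ 2)) := by
        ring
    _ ≤ _ := mul_le_mul_of_nonneg_right key (mul_nonneg hsa hsb)

/-- `∑ τ(k)^2/k` -/
lemma Block_tau (x : ℕ) :
    ∑ k ∈ Ioc 0 x, (k.divisors.card : ℝ) ^ 2 / k ≤ (1 + Real.log x) ^ 4 := by
  have h1 : ∀ k ∈ Ioc 0 x, (k.divisors.card : ℝ) ^ 2 / k ≤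
      ∑ p ∈ k.divisorsAntidiagonal, (Work.BV.tau p.1 / p.1) * (Work.BV.tau p.2 / p.2) := by
    intro k hk
    rw [mem_Ioc] at hk
    have h2 := Work.BV.tau_sq_le k
    rw [ArithmeticFunction.mul_apply, Work.BV.tau_apply] at h2
    have h3 : ∑ p ∈ k.divisorsAntidiagonal, (Work.BV.tau p.1 / p.1) * (Work.BV.tau p.2 / p.2) =
        (∑ p ∈ k.divisorsAntidiagonal, Work.BV.tau p.1 * Work.BV.tau p.2) / k := by
      rw [Finset.sum_div]
      apply Finset.sum_congr rfl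
      intro p hp
      rw [Nat.mem_divisorsAntidiagonal] at hp
      rw [← hp.1]
      push_cast
      rw [div_mul_div_comm]
    rw [h3]
    gcongr
  refine (Finset.sum_le_sum h1).trans ?_
  have h4 : ∑ k ∈ Ioc 0 x, ∑ p ∈ k.divisorsAntidiagonal,
      (Work.BV.tau p.1 / p.1) * (Work.BV.tau p.2 / p.2) ≤
      ∑ p ∈ (Ioc 0 x) ×ˢ (Ioc 0 x), (Work.BV.tau p.1 / p.1) * (Work.BV.tau p.2 / p.2) := by
    rw [← Finset.sum_biUnion]
    · apply Finset.sum_le_sum_of_subset_of_nonneg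
      · intro p hp
        rw [mem_biUnion] at hp
        obtain ⟨k, hk, hp⟩ := hp
        rw [mem_Ioc] at hk
        rw [Nat.mem_divisorsAntidiagonal] at hp
        rw [mem_product, mem_Ioc, mem_Ioc]
        have h1 : 0 < p.1 := Nat.pos_of_ne_zero (by rintro h; rw [h] at hp; simp at hp; omega)
        have h2 : 0 < p.2 := Nat.pos_of_ne_zero (by rintro h; rw [h] at hp; simp at hp; omega)
        refine ⟨⟨h1, ?_⟩, h2, ?_⟩
        · have := Nat.le_mul_of_pos_right p.1 h2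
          omega
        · have := Nat.le_mul_of_pos_left p.2 h1
          omega
      · intro p _ _
        rw [Work.BV.tau_apply, Work.BV.tau_apply]
        positivity
    · intro a _ b _ hab
      simp only [Function.onFun]
      rw [Finset.disjoint_left]
      intro p hp hq
      rw [Nat.mem_divisorsAntidiagonal] at hp hq
      exact hab (hp.1.symm.trans hq.1)
  refine h4.trans ?_
  rw [Finset.sum_product]
  simp only [← Finset.mul_sum, ← Finset.sum_mul]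
  have h5 := Work.BV.sum_tau_div_le x
  have h6 : 0 ≤ ∑ n ∈ Ioc 0 x, Work.BV.tau n / n := by
    apply Finset.sum_nonneg
    intro n _
    rw [Work.BV.tau_apply]; positivity
  calc (∑ n ∈ Ioc 0 x, Work.BV.tau n / n) * ∑ n ∈ Ioc 0 x, Work.BV.tau n / n
      ≤ (1 + Real.log x) ^ 2 * (1 + Real.log x) ^ 2 := mul_le_mul h5 h5 h6 (by positivity)
    _ = _ := by ring

/-- sum over `j` -/
lemma Block_sumj (x U V i : ℕ) (hx : 3 ≤ x) (hU : 1 ≤ U) (hV : 1 ≤ V) :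
    ∑ j ∈ range (x + 1), (Real.sqrt (∑ c ∈ SA V x i j, (Λ c) ^ 2) *
      Real.sqrt (∑ k ∈ SB U x i j, (beta U k) ^ 2)) ≤ 8 * Real.sqrt x * (Real.log x) ^ 4 := by
  have hlx := Block_log hx
  have hx0 : (0 : ℝ) < x := by exact_mod_cast (by omega : 0 < x)
  set D : ℕ → ℝ := fun j => (((2 * j + 1) * 2 ^ i : ℕ) : ℝ) with hDdef
  have hDpos : ∀ j, 0 < D j := by
    intro j
    have : 0 < (2 * j + 1) * 2 ^ i := Nat.mul_pos (by omega) (Nat.pos_of_ne_zero (by positivity))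
    show (0 : ℝ) < (((2 * j + 1) * 2 ^ i : ℕ) : ℝ)
    exact_mod_cast this
  have h1 := Real.sum_mul_le_sqrt_mul_sqrt (range (x + 1))
    (fun j => Real.sqrt ((∑ c ∈ SA V x i j, (Λ c) ^ 2) / D j))
    (fun j => Real.sqrt (D j * (∑ k ∈ SB U x i j, (beta U k) ^ 2)))
  have e1 : ∀ j, Real.sqrt ((∑ c ∈ SA V x i j, (Λ c) ^ 2) / D j) *
      Real.sqrt (D j * (∑ k ∈ SB U x i j, (beta U k) ^ 2)) =
      Real.sqrt (∑ c ∈ SA V x i j, (Λ c) ^ 2) * Real.sqrt (∑ k ∈ SB U x i j, (beta U k) ^ 2) := by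
    intro j
    have hd := hDpos j
    have ha : 0 ≤ ∑ c ∈ SA V x i j, (Λ c) ^ 2 := Finset.sum_nonneg fun _ _ => sq_nonneg _
    have hb : 0 ≤ ∑ k ∈ SB U x i j, (beta U k) ^ 2 := Finset.sum_nonneg fun _ _ => sq_nonneg _
    rw [← Real.sqrt_mul (by positivity), ← Real.sqrt_mul ha]
    congr 1
    field_simp
  simp only [e1] at h1
  refine h1.trans ?_
  have hs1 : ∀ j, (Real.sqrt ((∑ c ∈ SA V x i j, (Λ c) ^ 2) / D j)) ^ 2 =
      (∑ c ∈ SA V x i j, (Λ c) ^ 2) / D j := by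
    intro j
    apply Real.sq_sqrt
    exact div_nonneg (Finset.sum_nonneg fun _ _ => sq_nonneg _) (hDpos j).le
  have hs2 : ∀ j, (Real.sqrt (D j * (∑ k ∈ SB U x i j, (beta U k) ^ 2))) ^ 2 =
      D j * (∑ k ∈ SB U x i j, (beta U k) ^ 2) := by
    intro j
    apply Real.sq_sqrt
    exact mul_nonneg (hDpos j).le (Finset.sum_nonneg fun _ _ => sq_nonneg _)
  simp only [hs1, hs2]
  have bA : ∑ j ∈ range (x + 1), (∑ c ∈ SA V x i j, (Λ c) ^ 2) / D j ≤ 2 * (Real.log x) ^ 3 := by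
    have s1 : ∀ j ∈ range (x + 1), (∑ c ∈ SA V x i j, (Λ c) ^ 2) / D j ≤
        ∑ c ∈ Ioc V x, if c / 2 ^ i = 2 * j then (Λ c) ^ 2 / c else 0 := by
      intro j _
      rw [Finset.sum_div, ← Finset.sum_filter]
      apply Finset.sum_le_sum
      intro c hc
      have hc' := Block_SA V x i j c hc
      have hc0 : (0 : ℝ) < c := by exact_mod_cast (by omega : 0 < c)
      have hcD : (c : ℝ) ≤ D j := by
        show (c : ℝ) ≤ (((2 * j + 1) * 2 ^ i : ℕ) : ℝ)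
        exact_mod_cast hc'.2.1.le
      gcongr
    refine (Finset.sum_le_sum s1).trans ?_
    rw [Finset.sum_comm]
    have s2 : ∀ c ∈ Ioc V x, (∑ j ∈ range (x + 1), if c / 2 ^ i = 2 * j then (Λ c) ^ 2 / (c : ℝ) else 0) ≤
        (Real.log x) ^ 2 * (1 / (c : ℝ)) := by
      intro c hc
      rw [mem_Ioc] at hc
      have hc0 : (0 : ℝ) < c := by exact_mod_cast (by omega : 0 < c)
      have hL : (Λ c) ^ 2 / (c : ℝ) ≤ (Real.log x) ^ 2 * (1 / (c : ℝ)) := by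
        rw [mul_one_div]
        have h1 : Λ c ≤ Real.log x := ArithmeticFunction.vonMangoldt_le_log.trans
          (Real.log_le_log hc0 (by exact_mod_cast hc.2))
        have h0 : 0 ≤ Λ c := ArithmeticFunction.vonMangoldt_nonneg
        gcongr
      have h0 : 0 ≤ (Λ c) ^ 2 / (c : ℝ) := by positivity
      by_cases hj : ∃ j, c / 2 ^ i = 2 * j
      · obtain ⟨j0, hj0⟩ := hj
        have : ∀ j, (if c / 2 ^ i = 2 * j then (Λ c) ^ 2 / (c : ℝ) else 0) =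
            if j = j0 then (Λ c) ^ 2 / (c : ℝ) else 0 := by
          intro j
          by_cases h : j = j0
          · rw [if_pos h, if_pos (by rw [hj0, h])]
          · rw [if_neg h, if_neg (by omega)]
        simp only [this]
        rw [Finset.sum_ite_eq']
        split_ifs
        · exact hL
        · exact h0.trans hL
      · push Not at hj
        rw [Finset.sum_eq_zero]
        · exact h0.trans hL
        · intro j _
          rw [if_neg (hj j)]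
    refine (Finset.sum_le_sum s2).trans ?_
    rw [← Finset.mul_sum]
    have s3 : ∑ c ∈ Ioc V x, 1 / (c : ℝ) ≤ 1 + Real.log x := by
      refine le_trans ?_ (Work.BV.sum_inv_le x)
      apply Finset.sum_le_sum_of_subset_of_nonneg
      · exact Finset.Ioc_subset_Ioc_left (Nat.zero_le _)
      · intro c _ _; positivity
    calc (Real.log x) ^ 2 * ∑ c ∈ Ioc V x, 1 / (c : ℝ) ≤ (Real.log x) ^ 2 * (2 * Real.log x) := by
          gcongr; linarith
      _ = _ := by ring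
  have bB : ∑ j ∈ range (x + 1), D j * (∑ k ∈ SB U x i j, (beta U k) ^ 2) ≤
      32 * x * (Real.log x) ^ 4 := by
    have s1 : ∀ j ∈ range (x + 1), D j * (∑ k ∈ SB U x i j, (beta U k) ^ 2) ≤
        ∑ k ∈ Ioc U x, if (x / k + 1) / 2 ^ i = 2 * j + 1 then
          2 * (x : ℝ) * ((k.divisors.card : ℝ) ^ 2 / k) else 0 := by
      intro j _
      rw [Finset.mul_sum, ← Finset.sum_filter]
      apply Finset.sum_le_sum
      intro k hk
      have hk' := Block_SB U x i j k hk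
      have hk0 : (0 : ℝ) < k := by exact_mod_cast (by omega : 0 < k)
      have hkD : D j ≤ 2 * x / k := by
        have h1 : D j ≤ ((x / k : ℕ) : ℝ) + 1 := by
          show (((2 * j + 1) * 2 ^ i : ℕ) : ℝ) ≤ ((x / k : ℕ) : ℝ) + 1
          exact_mod_cast hk'.1
        have h2 : ((x / k : ℕ) : ℝ) ≤ (x : ℝ) / k := Nat.cast_div_le
        have h3 : (1 : ℝ) ≤ x / k := by
          rw [le_div_iff₀ hk0, one_mul]; exact_mod_cast hk'.2.2
        have : 2 * (x : ℝ) / k = x / k + x / k := by ring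
        linarith
      have hb : (beta U k) ^ 2 ≤ (k.divisors.card : ℝ) ^ 2 := by
        rw [← sq_abs]
        exact pow_le_pow_left₀ (abs_nonneg _) (abs_beta_le U k) 2
      calc D j * (beta U k) ^ 2 ≤ (2 * x / k) * (k.divisors.card : ℝ) ^ 2 :=
            mul_le_mul hkD hb (sq_nonneg _) (by positivity)
        _ = _ := by ring
    refine (Finset.sum_le_sum s1).trans ?_
    rw [Finset.sum_comm]
    have s2 : ∀ k ∈ Ioc U x, (∑ j ∈ range (x + 1), if (x / k + 1) / 2 ^ i = 2 * j + 1 then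
          2 * (x : ℝ) * ((k.divisors.card : ℝ) ^ 2 / k) else 0) ≤
        2 * (x : ℝ) * ((k.divisors.card : ℝ) ^ 2 / k) := by
      intro k _
      have h0 : 0 ≤ 2 * (x : ℝ) * ((k.divisors.card : ℝ) ^ 2 / k) := by positivity
      by_cases hj : ∃ j, (x / k + 1) / 2 ^ i = 2 * j + 1
      · obtain ⟨j0, hj0⟩ := hj
        have : ∀ j, (if (x / k + 1) / 2 ^ i = 2 * j + 1 then
            2 * (x : ℝ) * ((k.divisors.card : ℝ) ^ 2 / k) else 0) =
            if j = j0 then 2 * (x : ℝ) * ((k.divisors.card : ℝ) ^ 2 / k) else 0 := by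
          intro j
          by_cases h : j = j0
          · rw [if_pos h, if_pos (by rw [hj0, h])]
          · rw [if_neg h, if_neg (by omega)]
        simp only [this]
        rw [Finset.sum_ite_eq']
        split_ifs
        · exact le_refl _
        · exact h0
      · push Not at hj
        rw [Finset.sum_eq_zero]
        · exact h0
        · intro j _
          rw [if_neg (hj j)]
    refine (Finset.sum_le_sum s2).trans ?_
    rw [← Finset.mul_sum]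
    have s3 : ∑ k ∈ Ioc U x, (k.divisors.card : ℝ) ^ 2 / k ≤ (1 + Real.log x) ^ 4 := by
      refine le_trans ?_ (Block_tau x)
      apply Finset.sum_le_sum_of_subset_of_nonneg
      · exact Finset.Ioc_subset_Ioc_left (Nat.zero_le _)
      · intro c _ _; positivity
    calc 2 * (x : ℝ) * ∑ k ∈ Ioc U x, (k.divisors.card : ℝ) ^ 2 / k
        ≤ 2 * x * (2 * Real.log x) ^ 4 := by
          apply mul_le_mul_of_nonneg_left _ (by positivity)
          exact s3.trans (pow_le_pow_left₀ (by linarith) (by linarith) 4)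
      _ = _ := by ring
  refine (mul_le_mul (Real.sqrt_le_sqrt bA) (Real.sqrt_le_sqrt bB) (Real.sqrt_nonneg _)
    (Real.sqrt_nonneg _)).trans ?_
  rw [← Real.sqrt_mul (by positivity)]
  have e3 : 8 * Real.sqrt x * (Real.log x) ^ 4 = Real.sqrt (64 * x * ((Real.log x) ^ 4) ^ 2) := by
    rw [Real.sqrt_mul (by positivity), Real.sqrt_mul (by norm_num), Real.sqrt_sq (by positivity),
      show (64 : ℝ) = 8 ^ 2 by norm_num, Real.sqrt_sq (by norm_num)]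
  rw [e3]
  apply Real.sqrt_le_sqrt
  have e4 : (2 * (Real.log x) ^ 3) * (32 * x * (Real.log x) ^ 4) = 64 * x * (Real.log x) ^ 7 := by ring
  have e5 : 64 * x * ((Real.log x) ^ 4) ^ 2 = 64 * x * (Real.log x) ^ 8 := by ring
  rw [e4, e5]
  apply mul_le_mul_of_nonneg_left _ (by positivity)
  exact pow_le_pow_right₀ hlx (by norm_num)

theorem block : ∃ C : ℝ, 0 < C ∧ ∀ (x U V R : ℕ), 3 ≤ x → 1 ≤ U → 1 ≤ V → U * V ≤ x →
    1 ≤ R →
    ∑ r ∈ Icc 1 R, (r : ℝ) / r.totient * ∑ χ ∈ prim r, ‖S3 χ U V x‖ ≤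
      C * x * (Real.log x) ^ 5 *
        Real.sqrt (1 + (R : ℝ) ^ 2 / U + (R : ℝ) ^ 2 / V + (R : ℝ) ^ 4 / x) := by
  refine ⟨1000, by norm_num, ?_⟩
  intro x U V R hx hU hV hUV hR
  have hlx := Block_log hx
  have hx0 : (0 : ℝ) < x := by exact_mod_cast (by omega : 0 < x)
  have hUx : U ≤ x := le_trans (Nat.le_mul_of_pos_right U hV) hUV
  set m := Nat.log 2 x + 1 with hm
  have hm1 : x < 2 ^ m := Nat.lt_pow_succ_log_self (by norm_num) x
  have hm2 : ((m + 1 : ℕ) : ℝ) ≤ 4 * Real.log x := by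
    have h1 : (Nat.log 2 x : ℝ) * Real.log 2 ≤ Real.log x := by
      rw [← Real.log_pow]
      apply Real.log_le_log (by positivity)
      exact_mod_cast Nat.pow_log_le_self 2 (by omega)
    have h2 := Real.log_two_gt_d9
    have h3 : (Nat.log 2 x : ℝ) ≤ 2 * Real.log x := by
      have : (0 : ℝ) ≤ Nat.log 2 x := Nat.cast_nonneg _
      nlinarith
    rw [hm]; push_cast; linarith
  set E : ℝ := Real.sqrt (2 * ((x : ℝ) + (R : ℝ) ^ 2 * x / U + (R : ℝ) ^ 2 * x / V + (R : ℝ) ^ 4))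
    with hE
  have hE0 : 0 ≤ E := Real.sqrt_nonneg _
  have h1 : ∑ r ∈ Icc 1 R, (r : ℝ) / r.totient * ∑ χ ∈ prim r, ‖S3 χ U V x‖ ≤
      ∑ i ∈ range (m + 1), ∑ j ∈ range (x + 1), ∑ r ∈ Icc 1 R, (r : ℝ) / r.totient *
        ∑ χ ∈ prim r, ‖Ablk χ V x i j‖ * ‖Bblk χ U x i j‖ := by
    have s1 : ∀ r ∈ Icc 1 R, (r : ℝ) / r.totient * ∑ χ ∈ prim r, ‖S3 χ U V x‖ ≤
        ∑ i ∈ range (m + 1), ∑ j ∈ range (x + 1), (r : ℝ) / r.totient *
        ∑ χ ∈ prim r, ‖Ablk χ V x i j‖ * ‖Bblk χ U x i j‖ := by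
      intro r _
      simp only [← Finset.mul_sum]
      apply mul_le_mul_of_nonneg_left _ (by positivity)
      have s2 : ∀ χ ∈ prim r, ‖S3 χ U V x‖ ≤ ∑ i ∈ range (m + 1), ∑ j ∈ range (x + 1),
          ‖Ablk χ V x i j‖ * ‖Bblk χ U x i j‖ := by
        intro χ _
        rw [split χ x U V m hm1]
        refine (norm_sum_le _ _).trans (Finset.sum_le_sum fun i _ => ?_)
        refine (norm_sum_le _ _).trans (Finset.sum_le_sum fun j _ => ?_)
        rw [norm_mul]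
      refine (Finset.sum_le_sum s2).trans (le_of_eq ?_)
      rw [Finset.sum_comm]
      apply Finset.sum_congr rfl
      intro i _
      rw [Finset.sum_comm]
    refine (Finset.sum_le_sum s1).trans (le_of_eq ?_)
    rw [Finset.sum_comm]
    apply Finset.sum_congr rfl
    intro i _
    rw [Finset.sum_comm]
  refine h1.trans ?_
  have h2 : ∑ i ∈ range (m + 1), ∑ j ∈ range (x + 1), ∑ r ∈ Icc 1 R, (r : ℝ) / r.totient *
        ∑ χ ∈ prim r, ‖Ablk χ V x i j‖ * ‖Bblk χ U x i j‖ ≤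
      ∑ i ∈ range (m + 1), 20 * E * (8 * Real.sqrt x * (Real.log x) ^ 4) := by
    apply Finset.sum_le_sum
    intro i _
    refine (Finset.sum_le_sum fun j _ => Block_pair x U V R i j hU hV hUx hR).trans ?_
    rw [← Finset.mul_sum]
    apply mul_le_mul_of_nonneg_left (Block_sumj x U V i hx hU hV) (by positivity)
  refine h2.trans ?_
  rw [Finset.sum_const, Finset.card_range, nsmul_eq_mul]
  have h3 : E * Real.sqrt x ≤ 3 / 2 * (x * Real.sqrt (1 + (R : ℝ) ^ 2 / U + (R : ℝ) ^ 2 / V + (R : ℝ) ^ 4 / x)) := by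
    have hU0 : (0 : ℝ) < U := by exact_mod_cast hU
    have hV0 : (0 : ℝ) < V := by exact_mod_cast hV
    rw [hE, ← Real.sqrt_mul (by positivity)]
    have e1 : 3 / 2 * (x * Real.sqrt (1 + (R : ℝ) ^ 2 / U + (R : ℝ) ^ 2 / V + (R : ℝ) ^ 4 / x)) =
        Real.sqrt (9 / 4 * (x ^ 2 * (1 + (R : ℝ) ^ 2 / U + (R : ℝ) ^ 2 / V + (R : ℝ) ^ 4 / x))) := by
      rw [Real.sqrt_mul (by norm_num), Real.sqrt_mul (by positivity), Real.sqrt_sq (by positivity),
        show (9 / 4 : ℝ) = (3 / 2) ^ 2 by norm_num, Real.sqrt_sq (by norm_num)]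
    rw [e1]
    apply Real.sqrt_le_sqrt
    have e2 : (x : ℝ) ^ 2 * (1 + (R : ℝ) ^ 2 / U + (R : ℝ) ^ 2 / V + (R : ℝ) ^ 4 / x) =
        ((x : ℝ) + (R : ℝ) ^ 2 * x / U + (R : ℝ) ^ 2 * x / V + (R : ℝ) ^ 4) * x := by
      field_simp
    rw [e2]
    have : 0 ≤ ((x : ℝ) + (R : ℝ) ^ 2 * x / U + (R : ℝ) ^ 2 * x / V + (R : ℝ) ^ 4) * x := by
      positivity
    linarith
  set S : ℝ := Real.sqrt (1 + (R : ℝ) ^ 2 / U + (R : ℝ) ^ 2 / V + (R : ℝ) ^ 4 / x) with hS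
  have hS0 : 0 ≤ S := Real.sqrt_nonneg _
  calc ((m + 1 : ℕ) : ℝ) * (20 * E * (8 * Real.sqrt x * (Real.log x) ^ 4))
      = ((m + 1 : ℕ) : ℝ) * (160 * (E * Real.sqrt x) * (Real.log x) ^ 4) := by ring
    _ ≤ (4 * Real.log x) * (160 * (3 / 2 * (x * S)) * (Real.log x) ^ 4) := by
        gcongr
    _ = 960 * x * (Real.log x) ^ 5 * S := by ring
    _ ≤ 1000 * x * (Real.log x) ^ 5 * S := by gcongr; norm_num

end Pool.Agent.BV
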