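import Mathlib

/-! # Bombieri-Vinogradov toolkit: basic definitions

All moduli and all summation limits are natural numbers. `prim q` is the finset of primitive
Dirichlet characters mod `q`. -/

namespace Pool.Agent.BV

open Finset
open scoped ArithmeticFunction.vonMangoldt ArithmeticFunction.Moebius

noncomputable section

/-- `e(t) = exp (2 π i t)` -/
def e (t : ℝ) : ℂ := Complex.exp (2 * Real.pi * t * Complex.I)

/-- `ψ(x, χ)`, the sum of `Λ(n) χ(n)` over `1 ≤ n ≤ x` -/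
def psiC {q : ℕ} (χ : DirichletCharacter ℂ q) (x : ℕ) : ℂ :=
  ∑ n ∈ Icc 1 x, ((Λ n : ℝ) : ℂ) * χ (n : ZMod q)

/-- `ψ(x; q, a)`, the sum of `Λ(n)` over `1 ≤ n ≤ x`, `n ≡ a` mod `q` -/
def psiA (q a x : ℕ) : ℝ := ∑ n ∈ (Icc 1 x).filter (fun n => n ≡ a [MOD q]), Λ n

/-- `ψ(x)` -/
def psi (x : ℕ) : ℝ := ∑ n ∈ Icc 1 x, Λ n

open Classical in
/-- the primitive Dirichlet characters mod `q` -/
def prim (q : ℕ) : Finset (DirichletCharacter ℂ q) := univ.filter (fun χ => χ.IsPrimitive)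

/-- `β_U(k)`: the sum of `μ(b)` over the divisors `b > U` of `k` -/
def beta (U k : ℕ) : ℝ := ∑ b ∈ k.divisors.filter (fun b => U < b), ((μ b : ℤ) : ℝ)

/-- the type II sum of Vaughan's identity -/
def S3 {q : ℕ} (χ : DirichletCharacter ℂ q) (U V x : ℕ) : ℂ :=
  ∑ c ∈ Ioc V x, ∑ k ∈ Ioc U x, if c * k ≤ x then
    ((Λ c : ℝ) : ℂ) * ((beta U k : ℝ) : ℂ) * χ ((c * k : ℕ) : ZMod q) else 0

/-- the size parameter `ℓ = log (q (|t| + 3))` -/
def ell (q : ℕ) (s : ℂ) : ℝ := Real.log (q * (|s.im| + 3))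

/-- the Dirichlet series of `χ(n) (log n)^j` -/
def Lser {q : ℕ} (χ : DirichletCharacter ℂ q) (j : ℕ) (s : ℂ) : ℂ :=
  LSeries (fun n : ℕ => χ (n : ZMod q) * ((Real.log n : ℝ) : ℂ) ^ j) s

/-- the Dirichlet series of `χ(n) Λ(n) (log n)^j` -/
def Dser {q : ℕ} (χ : DirichletCharacter ℂ q) (j : ℕ) (s : ℂ) : ℂ :=
  LSeries (fun n : ℕ => χ (n : ZMod q) * ((Λ n : ℝ) : ℂ) * ((Real.log n : ℝ) : ℂ) ^ j) s

end

end Pool.Agent.BV
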