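import Pool.Agent.Work.BV.Defs

/-! # Module Estermann: Estermann's lemma

`F(s) = ζ(s) f(s)`; `G(s) = F(s) - f(1)/(s-1)` extends to an entire function
(`(ζ(s) - 1/(s-1)) f(s) + (f(s)-f(1))/(s-1)`). On the circle `|s-2| = 4/3` one has `|ζ| ≤ C0`,
`|s-1| ≥ 1/3`, so `|G| ≤ (C0+3) M`; by the Cauchy estimates the coefficients of
`G(s) = ∑ g_k (2-s)^k` satisfy `|g_k| ≤ (C0+3) M (3/4)^k`. Near `s = 2`,
`F(s) = ∑ b_k (2-s)^k` with `b_k = (1/k!) ∑_n r(n) (log n)^k n^{-2} ≥ 0`, `b_0 ≥ r(1) = 1`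
(`LSeries_iteratedDeriv`), and `1/(s-1) = ∑ (2-s)^k`, so `g_k = b_k - f(1)` (in particular `f(1)` is real
and, letting `s → 1+` in `(s-1)F(s)`, `f(1) ≥ 0`). The expansion of `G` is valid at `β`
(`2-β ≤ 9/8 < 4/3`), so for every `m`
`Re F(β) = -Re f(1)/(1-β) + ∑ Re g_k (2-β)^k ≥ 1 - Re f(1) (2-β)^m/(1-β) - (C0+3) M (27/32)^m (32/5)`.
Choose `m = ⌈K1 log M + K2⌉` with the last term `≤ 1/2`; `Re F(β) ≤ 0` gives
`Re f(1) ≥ (1-β)/2 * (2-β)^{-m} ≥ (1-β)/2 * exp(-m (1-β))`. -/

namespace Pool.Agent.BV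

open Finset Complex

theorem Estermann_h : ∃ h : ℂ → ℂ, Differentiable ℂ h ∧ h 1 = 1 ∧
    ∀ s, s ≠ 1 → h s = (s - 1) * riemannZeta s := by
  refine ⟨DirichletCharacter.LFunctionTrivChar₁ 1,
    DirichletCharacter.differentiable_LFunctionTrivChar₁ 1, ?_, ?_⟩
  · simp [DirichletCharacter.LFunctionTrivChar₁]
  · intro s hs
    rw [DirichletCharacter.LFunctionTrivChar₁, Function.update_of_ne hs,
      DirichletCharacter.LFunctionTrivChar, DirichletCharacter.LFunction_modOne_eq]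

theorem Estermann_inv (k : ℕ) :
    iteratedDeriv k (fun s : ℂ => (s - 1)⁻¹) 2 = (-1) ^ k * (k.factorial : ℂ) := by
  have h := congrFun (iter_deriv_inv_linear_sub k (1 : ℂ) (1 : ℂ)) 2
  rw [← iteratedDeriv_eq_iterate] at h
  simp only [one_mul] at h
  rw [h]
  norm_num

theorem Estermann_iter (r : ℕ → ℂ) (G : ℂ → ℂ) (c : ℂ)
    (hG : ∀ s : ℂ, 1 < s.re → G s = LSeries r s - c * (s - 1)⁻¹)
    (hr : LSeries.abscissaOfAbsConv r ≤ 1) (k : ℕ) :
    iteratedDeriv k G 2 = (-1) ^ k * (LSeries (LSeries.logMul^[k] r) 2 - c * k.factorial) := by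
  have hopen : IsOpen {s : ℂ | 1 < s.re} := isOpen_lt continuous_const Complex.continuous_re
  have h1 : G =ᶠ[nhds 2] (LSeries r - fun s => c * (s - 1)⁻¹) := by
    filter_upwards [hopen.mem_nhds (show (1 : ℝ) < (2 : ℂ).re by norm_num)] with s hs
    exact hG s hs
  have h2 : LSeries.abscissaOfAbsConv r < (2 : ℂ).re := by
    refine lt_of_le_of_lt hr ?_
    norm_num
    exact_mod_cast (one_lt_two : (1 : ℝ) < 2)
  have h3 : ContDiffAt ℂ k (LSeries r) 2 := by
    apply AnalyticAt.contDiffAt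
    exact LSeries_analyticOnNhd r 2 h2
  have h4 : ContDiffAt ℂ k (fun s : ℂ => c * (s - 1)⁻¹) 2 := by
    apply ContDiffAt.mul contDiffAt_const
    apply ContDiffAt.inv
    · exact contDiffAt_id.sub contDiffAt_const
    · norm_num
  rw [h1.iteratedDeriv_eq, iteratedDeriv_sub h3 h4, LSeries_iteratedDeriv k h2,
    iteratedDeriv_const_mul_field, Estermann_inv]
  ring

theorem Estermann_logMul (r : ℕ → ℂ) (k n : ℕ) :
    (LSeries.logMul^[k] r) n = ((Real.log n : ℝ) : ℂ) ^ k * r n := by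
  induction k with
  | zero => simp
  | succ k ih =>
    rw [Function.iterate_succ_apply', LSeries.logMul, ih, pow_succ, Complex.natCast_log]
    ring

theorem Estermann_term (r : ℕ → ℝ) (k n : ℕ) :
    LSeries.term (LSeries.logMul^[k] (fun n => (r n : ℂ))) 2 n =
      ((if n = 0 then 0 else (Real.log n) ^ k * r n / (n : ℝ) ^ 2 : ℝ) : ℂ) := by
  rcases eq_or_ne n 0 with rfl | hn
  · simp
  · rw [LSeries.term_of_ne_zero hn, Estermann_logMul, if_neg hn]
    have : (n : ℂ) ^ (2 : ℂ) = (n : ℂ) ^ (2 : ℕ) := by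
      rw [← Complex.cpow_natCast]
      norm_num
    rw [this]
    push_cast
    rfl

theorem Estermann_nonneg (r : ℕ → ℝ) (hr : ∀ n, 0 ≤ r n) (k : ℕ) :
    0 ≤ (LSeries (LSeries.logMul^[k] (fun n => (r n : ℂ))) 2).re := by
  rw [LSeries, tsum_congr (Estermann_term r k), ← Complex.ofReal_tsum, Complex.ofReal_re]
  apply tsum_nonneg
  intro n
  split_ifs with hn
  · exact le_rfl
  · have h1 : 0 ≤ Real.log n := Real.log_natCast_nonneg n
    have := hr n
    positivity

theorem Estermann_one_le (r : ℕ → ℝ) (hr : ∀ n, 0 ≤ r n) (h1 : r 1 = 1)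
    (hs : LSeriesSummable (fun n => (r n : ℂ)) 2) :
    1 ≤ (LSeries (fun n => (r n : ℂ)) 2).re := by
  have ht := Estermann_term r 0
  simp only [Function.iterate_zero, id_eq, pow_zero, one_mul] at ht
  have hsum : Summable (fun n : ℕ => (if n = 0 then 0 else r n / (n : ℝ) ^ 2 : ℝ)) := by
    rw [← Complex.summable_ofReal]
    refine Summable.congr hs fun n => ?_
    exact ht n
  rw [LSeries, tsum_congr ht, ← Complex.ofReal_tsum, Complex.ofReal_re]
  have h2 := hsum.le_tsum 1 (fun n _ => by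
    split_ifs
    · exact le_rfl
    · have := hr n
      positivity)
  refine le_trans ?_ h2
  simp [h1]

theorem Estermann_core (h : ℂ → ℂ) (hd : Differentiable ℂ h) (h1 : h 1 = 1)
    (hz : ∀ s, s ≠ 1 → h s = (s - 1) * riemannZeta s) (H0 : ℝ)
    (hH : ∀ s ∈ Metric.closedBall (2 : ℂ) (4 / 3), ‖h s‖ ≤ H0) (f : ℂ → ℂ) (r : ℕ → ℝ) (M β : ℝ)
    (hf : Differentiable ℂ f) (hr : ∀ n, 0 ≤ r n) (hr1 : r 1 = 1)
    (hser : ∀ s : ℂ, 1 < s.re → LSeriesSummable (fun n => (r n : ℂ)) s ∧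
      LSeries (fun n => (r n : ℂ)) s = riemannZeta s * f s)
    (hM : 1 ≤ M) (hfM : ∀ s ∈ Metric.closedBall (2 : ℂ) (4 / 3), ‖f s‖ ≤ M)
    (hβ : 7 / 8 ≤ β) (hβ1 : β < 1) (m : ℕ) (hm : 1 ≤ m) :
    1 - 3 * (H0 + 1) * M * (27 / 32) ^ m * (32 / 5) ≤
      (f 1).re * (2 - β) ^ m / (1 - β) + (riemannZeta (β : ℂ) * f (β : ℂ)).re := by
  have h1mem : (1 : ℂ) ∈ Metric.closedBall (2 : ℂ) (4 / 3) := by
    rw [Metric.mem_closedBall, dist_eq_norm]
    norm_num
  have hH0 : 0 ≤ H0 := (norm_nonneg _).trans (hH 1 h1mem)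
  set G : ℂ → ℂ := dslope (fun s => h s * f s) 1 with hGdef
  have hGd : Differentiable ℂ G := by
    rw [← differentiableOn_univ]
    rw [hGdef, Complex.differentiableOn_dslope Filter.univ_mem]
    exact (hd.mul hf).differentiableOn
  have hG : ∀ s, s ≠ 1 → G s = (s - 1)⁻¹ * (h s * f s - f 1) := by
    intro s hs
    rw [hGdef, dslope_of_ne _ hs, slope_def_field, h1, one_mul]
    ring
  have habs : LSeries.abscissaOfAbsConv (fun n => (r n : ℂ)) ≤ 1 := by
    have := LSeries.abscissaOfAbsConv_le_of_forall_lt_LSeriesSummable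
      (f := fun n => (r n : ℂ)) (x := 1) fun y hy => (hser y (by simpa using hy)).1
    exact_mod_cast this
  have hGL : ∀ s : ℂ, 1 < s.re → G s = LSeries (fun n => (r n : ℂ)) s - f 1 * (s - 1)⁻¹ := by
    intro s hs
    have hs1 : s ≠ 1 := by
      rintro rfl
      simp at hs
    have hs2 : s - 1 ≠ 0 := sub_ne_zero.2 hs1
    rw [hG s hs1, (hser s hs).2, hz s hs1]
    field_simp
  have hiter := Estermann_iter (fun n => (r n : ℂ)) G (f 1) hGL habs
  -- Cauchy estimates
  set C : ℝ := 3 * (H0 + 1) * M with hC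
  have hC0 : 0 ≤ C := by positivity
  have hsph : ∀ z ∈ Metric.sphere (2 : ℂ) (4 / 3), ‖G z‖ ≤ C := by
    intro z hz'
    have hz1 : z ∈ Metric.closedBall (2 : ℂ) (4 / 3) := Metric.sphere_subset_closedBall hz'
    have h3 : (1 : ℝ) / 3 ≤ ‖z - 1‖ := by
      rw [mem_sphere_iff_norm] at hz'
      have h4 : ‖z - 2‖ ≤ ‖z - 1‖ + ‖(1 : ℂ)‖ := by
        have : z - 2 = (z - 1) - 1 := by ring
        rw [this]
        exact norm_sub_le _ _
      rw [norm_one] at h4
      linarith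
    have hz2 : z ≠ 1 := by
      rintro rfl
      rw [sub_self, norm_zero] at h3
      norm_num at h3
    rw [hG z hz2, norm_mul, norm_inv]
    have h4 : ‖z - 1‖⁻¹ ≤ 3 := by
      rw [inv_le_comm₀ (by linarith) (by norm_num)]
      linarith
    have h5 : ‖h z * f z - f 1‖ ≤ H0 * M + M := by
      refine (norm_sub_le _ _).trans (add_le_add ?_ (hfM 1 h1mem))
      rw [norm_mul]
      exact mul_le_mul (hH z hz1) (hfM z hz1) (norm_nonneg _) hH0
    calc ‖z - 1‖⁻¹ * ‖h z * f z - f 1‖ ≤ 3 * (H0 * M + M) :=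
          mul_le_mul h4 h5 (norm_nonneg _) (by norm_num)
      _ = C := by rw [hC]; ring
  have hcauchy : ∀ k : ℕ, ‖iteratedDeriv k G 2‖ ≤ k.factorial * C / (4 / 3) ^ k := fun k =>
    Complex.norm_iteratedDeriv_le_of_forall_mem_sphere_norm_le k (by norm_num)
      hGd.diffContOnCl hsph
  -- the Taylor series
  have htay := Complex.hasSum_taylorSeries_of_entire hGd 2 (β : ℂ)
  set b : ℕ → ℝ := fun k =>
    (LSeries (LSeries.logMul^[k] (fun n => (r n : ℂ))) 2).re / k.factorial with hb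
  set u : ℕ → ℝ := fun k => (2 - β) ^ k * (b k - (f 1).re) with hu
  have hterm : ∀ k : ℕ, (((k.factorial : ℂ))⁻¹ • ((β : ℂ) - 2) ^ k • iteratedDeriv k G 2).re =
      u k := by
    intro k
    rw [hiter k]
    have h3 : ((β : ℂ) - 2) ^ k = (-1) ^ k * (((2 - β) ^ k : ℝ) : ℂ) := by
      push_cast
      rw [← mul_pow]
      congr 1
      ring
    have h4 : (-1 : ℂ) ^ k * (-1) ^ k = 1 := by
      rw [← mul_pow]
      norm_num
    have hfac : (k.factorial : ℂ) ≠ 0 := by exact_mod_cast k.factorial_ne_zero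
    have h5 : ((k.factorial : ℂ))⁻¹ • ((β : ℂ) - 2) ^ k • ((-1) ^ k *
        (LSeries (LSeries.logMul^[k] (fun n => (r n : ℂ))) 2 - f 1 * k.factorial)) =
        (((2 - β) ^ k : ℝ) : ℂ) * (((k.factorial : ℝ)⁻¹ : ℝ) *
          LSeries (LSeries.logMul^[k] (fun n => (r n : ℂ))) 2 - f 1) := by
      rw [smul_eq_mul, smul_eq_mul, h3]
      push_cast
      field_simp
      rw [sq] at *
      linear_combination ((2 - (β : ℂ)) ^ k * (LSeries (LSeries.logMul^[k] (fun n => (r n : ℂ))) 2 - f 1 * k.factorial)) * h4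
    rw [h5, Complex.re_ofReal_mul, Complex.sub_re, Complex.re_ofReal_mul, hu, hb]
    simp only
    ring
  have hre : HasSum u (G β).re := by
    have h3 := (Complex.hasSum_re htay)
    refine h3.congr_fun fun k => ?_
    exact (hterm k).symm
  have hub : ∀ k, |u k| ≤ C * (27 / 32) ^ k := by
    intro k
    rw [← hterm k]
    refine (Complex.abs_re_le_norm _).trans ?_
    rw [smul_eq_mul, smul_eq_mul, norm_mul, norm_mul, norm_inv, norm_pow, Complex.norm_natCast]
    have h3 : ‖(β : ℂ) - 2‖ ≤ 9 / 8 := by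
      have : (β : ℂ) - 2 = ((β - 2 : ℝ) : ℂ) := by push_cast; rfl
      rw [this, Complex.norm_real, Real.norm_eq_abs, abs_le]
      constructor <;> linarith
    have h4 : (0 : ℝ) < k.factorial := by exact_mod_cast k.factorial_pos
    calc (k.factorial : ℝ)⁻¹ * (‖(β : ℂ) - 2‖ ^ k * ‖iteratedDeriv k G 2‖)
        ≤ (k.factorial : ℝ)⁻¹ * ((9 / 8) ^ k * (k.factorial * C / (4 / 3) ^ k)) := by
          refine mul_le_mul_of_nonneg_left ?_ (by positivity)
          exact mul_le_mul (pow_le_pow_left₀ (norm_nonneg _) h3 k) (hcauchy k) (norm_nonneg _)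
            (by positivity)
      _ = C * ((9 / 8) ^ k / (4 / 3) ^ k) := by
          field_simp
      _ = C * (27 / 32) ^ k := by
          rw [← div_pow]
          norm_num
  have hgeo : Summable (fun k : ℕ => C * (27 / 32 : ℝ) ^ (k + m)) := by
    have h3 : Summable (fun k : ℕ => (27 / 32 : ℝ) ^ k) :=
      summable_geometric_of_lt_one (by norm_num) (by norm_num)
    have h4 := (h3.mul_left (C * (27 / 32 : ℝ) ^ m))
    refine h4.congr fun k => ?_
    rw [pow_add]
    ring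
  have htail : |∑' k, u (k + m)| ≤ C * (27 / 32) ^ m * (32 / 5) := by
    have h3 : ‖∑' k, u (k + m)‖ ≤ ∑' k : ℕ, C * (27 / 32 : ℝ) ^ (k + m) := by
      refine tsum_of_norm_bounded hgeo.hasSum fun k => ?_
      rw [Real.norm_eq_abs]
      exact hub (k + m)
    rw [Real.norm_eq_abs] at h3
    refine h3.trans_eq ?_
    have h4 : ∀ k : ℕ, C * (27 / 32 : ℝ) ^ (k + m) = (C * (27 / 32 : ℝ) ^ m) * (27 / 32) ^ k := by
      intro k
      rw [pow_add]
      ring
    rw [tsum_congr h4, tsum_mul_left, tsum_geometric_of_lt_one (by norm_num) (by norm_num)]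
    norm_num
  have hsplit : ∑ k ∈ Finset.range m, u k + ∑' k, u (k + m) = (G β).re := by
    rw [hre.summable.sum_add_tsum_nat_add m, hre.tsum_eq]
  -- the head
  have hhead : 1 - (f 1).re * (((2 - β) ^ m - 1) / (1 - β)) ≤ ∑ k ∈ Finset.range m, u k := by
    have h3 : ∑ k ∈ Finset.range m, u k = ∑ k ∈ Finset.range m, (2 - β) ^ k * b k -
        (f 1).re * ∑ k ∈ Finset.range m, (2 - β) ^ k := by
      rw [Finset.mul_sum, ← Finset.sum_sub_distrib]
      refine Finset.sum_congr rfl fun k _ => ?_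
      rw [hu]
      ring
    have h4 : ∑ k ∈ Finset.range m, (2 - β) ^ k = ((2 - β) ^ m - 1) / (1 - β) := by
      rw [geom_sum_eq (by linarith)]
      congr 1
      ring
    rw [h3, h4]
    have h5 : 1 ≤ ∑ k ∈ Finset.range m, (2 - β) ^ k * b k := by
      have h6 : (2 - β) ^ 0 * b 0 ≤ ∑ k ∈ Finset.range m, (2 - β) ^ k * b k := by
        refine Finset.single_le_sum (f := fun k => (2 - β) ^ k * b k) (fun k _ => ?_)
          (Finset.mem_range.2 hm)
        have h7 := Estermann_nonneg r hr k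
        have h8 : 0 ≤ 2 - β := by linarith
        simp only [hb]
        positivity
      refine le_trans ?_ h6
      have h9 := Estermann_one_le r hr hr1 (hser 2 (by norm_num)).1
      simp only [hb]
      simpa using h9
    linarith
  have hβne : (β : ℂ) ≠ 1 := by
    intro h3
    have h4 : β = 1 := by exact_mod_cast h3
    linarith
  have hGβ : (G β).re = (riemannZeta (β : ℂ) * f (β : ℂ)).re + (f 1).re / (1 - β) := by
    rw [hG _ hβne, hz _ hβne]
    have h3 : (β : ℂ) - 1 ≠ 0 := sub_ne_zero.2 hβne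
    have h4 : ((β : ℂ) - 1)⁻¹ * (((β : ℂ) - 1) * riemannZeta β * f β - f 1) =
        riemannZeta β * f β + (((1 - β)⁻¹ : ℝ) : ℂ) * f 1 := by
      have h5 : (1 : ℂ) - β ≠ 0 := by
        intro h6
        apply h3
        rw [← neg_eq_zero, neg_sub]
        exact h6
      push_cast
      field_simp
      ring
    rw [h4, Complex.add_re, Complex.re_ofReal_mul]
    ring
  rw [hGβ] at hsplit
  have h3 := (abs_le.1 htail).1
  have h4 : 0 < 1 - β := by linarith
  have h5 : (f 1).re * (((2 - β) ^ m - 1) / (1 - β)) =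
      (f 1).re * (2 - β) ^ m / (1 - β) - (f 1).re / (1 - β) := by
    field_simp
    try ring
  rw [h5] at hhead
  linarith

theorem estermann : ∃ c K : ℝ, 0 < c ∧ 0 < K ∧ ∀ (f : ℂ → ℂ) (r : ℕ → ℝ) (M β : ℝ),
    Differentiable ℂ f → (∀ n, 0 ≤ r n) → r 1 = 1 →
    (∀ s : ℂ, 1 < s.re → LSeriesSummable (fun n => (r n : ℂ)) s ∧
      LSeries (fun n => (r n : ℂ)) s = riemannZeta s * f s) →
    1 ≤ M → (∀ s ∈ Metric.closedBall (2 : ℂ) (4 / 3), ‖f s‖ ≤ M) →
    7 / 8 ≤ β → β < 1 → (riemannZeta (β : ℂ) * f (β : ℂ)).re ≤ 0 →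
    c * (1 - β) * M ^ (-(K * (1 - β))) ≤ (f 1).re := by
  obtain ⟨h, hd, h1, hz⟩ := Estermann_h
  obtain ⟨H0, hH⟩ := (isCompact_closedBall (2 : ℂ) (4 / 3)).exists_bound_of_continuousOn
    hd.continuous.continuousOn
  have h1mem : (1 : ℂ) ∈ Metric.closedBall (2 : ℂ) (4 / 3) := by
    rw [Metric.mem_closedBall, dist_eq_norm]
    norm_num
  have hH0 : 0 ≤ H0 := (norm_nonneg _).trans (hH 1 h1mem)
  set A : ℝ := 3 * (H0 + 1) * (64 / 5) with hA
  have hA1 : 1 < A := by nlinarith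
  have hlog : 0 < Real.log (32 / 27) := Real.log_pos (by norm_num)
  set K : ℝ := 1 / Real.log (32 / 27) with hK
  have hK0 : 0 < K := by positivity
  refine ⟨Real.exp (-(K * Real.log A + 1)) / 2, K, by positivity, hK0, ?_⟩
  intro f r M β hf hr hr1 hser hM hfM hβ hβ1 hneg
  have hAM : 1 < A * M := by nlinarith
  have hlogAM : 0 < Real.log (A * M) := Real.log_pos hAM
  set m : ℕ := ⌈K * Real.log (A * M)⌉₊ with hm
  have hm1 : 1 ≤ m := Nat.one_le_iff_ne_zero.2 (by
    rw [hm, Ne, Nat.ceil_eq_zero, not_le]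
    positivity)
  have hm2 : K * Real.log (A * M) ≤ m := Nat.le_ceil _
  have hm3 : (m : ℝ) ≤ K * Real.log (A * M) + 1 := (Nat.ceil_lt_add_one (by positivity)).le
  have hcore := Estermann_core h hd h1 hz H0 hH f r M β hf hr hr1 hser hM hfM hβ hβ1 m hm1
  have hpow : A * M * (27 / 32) ^ m ≤ 1 := by
    have h3 : Real.log (A * M) ≤ m * Real.log (32 / 27) := by
      rw [hK, one_div, inv_mul_eq_div, div_le_iff₀ hlog] at hm2
      exact hm2
    have h4 : A * M ≤ (32 / 27) ^ m := by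
      rw [← Real.log_le_log_iff (by linarith) (by positivity), Real.log_pow]
      exact h3
    calc A * M * (27 / 32) ^ m ≤ (32 / 27) ^ m * (27 / 32) ^ m :=
          mul_le_mul_of_nonneg_right h4 (by positivity)
      _ = 1 := by rw [← mul_pow]; norm_num
  have h5 : 1 / 2 ≤ (f 1).re * (2 - β) ^ m / (1 - β) := by
    have h6 : 3 * (H0 + 1) * M * (27 / 32) ^ m * (32 / 5) = A * M * (27 / 32) ^ m / 2 := by
      rw [hA]
      ring
    rw [h6] at hcore
    linarith
  have hb : 0 < 1 - β := by linarith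
  have h6 : (1 - β) / 2 ≤ (f 1).re * (2 - β) ^ m := by
    rw [le_div_iff₀ hb] at h5
    linarith
  have h7 : 0 < (2 - β) ^ m := pow_pos (by linarith) m
  have h8 : 0 < (f 1).re := by
    by_contra h9
    push Not at h9
    have := mul_nonpos_of_nonpos_of_nonneg h9 h7.le
    linarith
  have h9 : (2 - β) ^ m ≤ Real.exp (m * (1 - β)) := by
    rw [Real.exp_nat_mul]
    refine pow_le_pow_left₀ (by linarith) ?_ m
    have := Real.add_one_le_exp (1 - β)
    linarith
  have h10 : (1 - β) / 2 ≤ (f 1).re * Real.exp (m * (1 - β)) :=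
    h6.trans (mul_le_mul_of_nonneg_left h9 h8.le)
  have h11 : (1 - β) / 2 * Real.exp (-(m * (1 - β))) ≤ (f 1).re := by
    rw [Real.exp_neg, ← div_eq_mul_inv, div_le_iff₀ (Real.exp_pos _)]
    exact h10
  refine le_trans ?_ h11
  have hM0 : 0 < M := by linarith
  rw [Real.rpow_def_of_pos hM0]
  have h12 : Real.log (A * M) = Real.log A + Real.log M :=
    Real.log_mul (by linarith) (by linarith)
  have h13 : Real.exp (-(K * Real.log A + 1)) * Real.exp (Real.log M * -(K * (1 - β))) ≤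
      Real.exp (-(m * (1 - β))) := by
    rw [← Real.exp_add, Real.exp_le_exp]
    have h14 : (m : ℝ) * (1 - β) ≤ (K * (Real.log A + Real.log M) + 1) * (1 - β) := by
      rw [← h12]
      exact mul_le_mul_of_nonneg_right hm3 hb.le
    have h15 : 0 < Real.log A := Real.log_pos hA1
    have h16 : (K * Real.log A + 1) * (1 - β) ≤ (K * Real.log A + 1) * 1 :=
      mul_le_mul_of_nonneg_left (by linarith) (by positivity)
    nlinarith
  calc Real.exp (-(K * Real.log A + 1)) / 2 * (1 - β) * Real.exp (Real.log M * -(K * (1 - β)))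
      = (1 - β) / 2 * (Real.exp (-(K * Real.log A + 1)) *
          Real.exp (Real.log M * -(K * (1 - β)))) := by ring
    _ ≤ (1 - β) / 2 * Real.exp (-(m * (1 - β))) :=
        mul_le_mul_of_nonneg_left h13 (by linarith)

end Pool.Agent.BV
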