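import Pool.Agent.Work.BV.Additive

/-! # Module Farey: the large sieve at Farey fractions

Apply `additive_large_sieve` with the index set of pairs `(q, b)`, `q ∈ Icc 1 Q`, `b < q`,
`b` coprime to `q`, `α (q,b) = b/q` and `δ = 1/(Q^2+1)`. -/

namespace Pool.Agent.BV

open Finset

theorem farey_spacing {Q q q' b b' : ℕ} (hq : q ∈ Icc 1 Q) (hq' : q' ∈ Icc 1 Q)
    (hb : b ∈ (range q).filter (fun b => b.Coprime q))
    (hb' : b' ∈ (range q').filter (fun b => b.Coprime q')) (hne : ¬ (q = q' ∧ b = b')) (k : ℤ) :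
    1 / ((Q : ℝ) ^ 2 + 1) ≤ |(b : ℝ) / q - (b' : ℝ) / q' - k| := by
  rw [mem_Icc] at hq hq'
  rw [mem_filter, mem_range] at hb hb'
  have hq0 : (0 : ℝ) < q := by exact_mod_cast hq.1
  have hq0' : (0 : ℝ) < q' := by exact_mod_cast hq'.1
  set z : ℤ := (b : ℤ) * q' - b' * q - k * q * q' with hz
  have h1 : (b : ℝ) / q - (b' : ℝ) / q' - k = (z : ℝ) / (q * q') := by
    rw [hz]
    push_cast
    field_simp
  have hz0 : z ≠ 0 := by
    intro h0
    apply hne
    have h2 : (b : ℤ) * q' = q * (b' + k * q') := by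
      have : (b : ℤ) * q' - b' * q - k * q * q' = 0 := h0
      linear_combination this
    have h3 : (b' : ℤ) * q = q' * (b - k * q) := by
      have : (b : ℤ) * q' - b' * q - k * q * q' = 0 := h0
      linear_combination -this
    have d1 : q ∣ q' := by
      have : (q : ℤ) ∣ (b : ℤ) * q' := ⟨_, h2⟩
      have h4 : q ∣ b * q' := by exact_mod_cast this
      exact (Nat.Coprime.dvd_of_dvd_mul_left hb.2.symm h4)
    have d2 : q' ∣ q := by
      have : (q' : ℤ) ∣ (b' : ℤ) * q := ⟨_, h3⟩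
      have h4 : q' ∣ b' * q := by exact_mod_cast this
      exact (Nat.Coprime.dvd_of_dvd_mul_left hb'.2.symm h4)
    have heq : q = q' := Nat.dvd_antisymm d1 d2
    refine ⟨heq, ?_⟩
    subst heq
    have hq1 : (0 : ℤ) < q := by exact_mod_cast hq.1
    have h5 : (b : ℤ) = b' + k * q := by
      have : (q : ℤ) * b = q * (b' + k * q) := by linear_combination h2
      exact mul_left_cancel₀ hq1.ne' this
    have hb1 : (b : ℤ) < q := by exact_mod_cast hb.1
    have hb2 : (b' : ℤ) < q := by exact_mod_cast hb'.1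
    have hb3 : (0 : ℤ) ≤ b := Int.natCast_nonneg _
    have hb4 : (0 : ℤ) ≤ b' := Int.natCast_nonneg _
    have hk : k = 0 := by
      rcases lt_trichotomy k 0 with h | h | h
      · nlinarith
      · exact h
      · nlinarith
    rw [hk] at h5
    have : (b : ℤ) = b' := by linarith
    exact_mod_cast this
  rw [h1, abs_div, abs_of_pos (mul_pos hq0 hq0')]
  have h5 : (1 : ℝ) ≤ |(z : ℝ)| := by
    have : 1 ≤ |z| := Int.one_le_abs hz0
    exact_mod_cast this
  have h6 : (q : ℝ) * q' ≤ (Q : ℝ) ^ 2 + 1 := by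
    have a1 : (q : ℝ) ≤ Q := by exact_mod_cast hq.2
    have a2 : (q' : ℝ) ≤ Q := by exact_mod_cast hq'.2
    nlinarith [mul_le_mul a1 a2 hq0'.le (hq0.le.trans a1)]
  calc 1 / ((Q : ℝ) ^ 2 + 1) ≤ 1 / (q * q') := one_div_le_one_div_of_le (mul_pos hq0 hq0') h6
    _ ≤ |(z : ℝ)| / (q * q') := div_le_div_of_nonneg_right h5 (mul_pos hq0 hq0').le

theorem large_sieve_farey (Q : ℕ) (hQ : 1 ≤ Q) (M N : ℕ) (a : ℕ → ℂ) :
    ∑ q ∈ Icc 1 Q, ∑ b ∈ (range q).filter (fun b => b.Coprime q),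
      ‖∑ n ∈ Ioc M (M + N), a n * e (n * ((b : ℝ) / q))‖ ^ 2 ≤
      20 * (N + (Q : ℝ) ^ 2) * ∑ n ∈ Ioc M (M + N), ‖a n‖ ^ 2 := by
  have hQ1 : (1 : ℝ) ≤ Q := by exact_mod_cast hQ
  have hδ : (0 : ℝ) < 1 / ((Q : ℝ) ^ 2 + 1) := by positivity
  have hδ1 : 1 / ((Q : ℝ) ^ 2 + 1) ≤ 1 / 2 :=
    one_div_le_one_div_of_le (by norm_num) (by nlinarith)
  have h := additive_large_sieve
    ((Icc 1 Q).sigma fun q => (range q).filter (fun b => b.Coprime q))
    (fun p : (_ : ℕ) × ℕ => (p.2 : ℝ) / p.1) (1 / ((Q : ℝ) ^ 2 + 1)) hδ hδ1 (by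
      intro r hr s hs hne k
      rw [mem_sigma] at hr hs
      refine farey_spacing hr.1 hs.1 hr.2 hs.2 ?_ k
      rintro ⟨h1, h2⟩
      apply hne
      obtain ⟨r1, r2⟩ := r
      obtain ⟨s1, s2⟩ := s
      simp only at h1 h2
      subst h1 h2
      rfl) M N a
  rw [Finset.sum_sigma] at h
  refine h.trans (mul_le_mul_of_nonneg_right ?_ (Finset.sum_nonneg fun _ _ => by positivity))
  rw [one_div_one_div]
  have hN : (0 : ℝ) ≤ N := Nat.cast_nonneg _
  nlinarith

end Pool.Agent.BV
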