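import Pool.Agent.Work.BV.Farey

/-! # Module GaussLS: from additive to multiplicative characters -/

namespace Pool.Agent.BV

open Finset

/-- a sum over `ZMod q` of a function supported on the units -/
theorem gaussLS_sum_units {q : ℕ} [NeZero q] {E : Type*} [AddCommMonoid E] (g : ZMod q → E)
    (hg : ∀ b, ¬ IsUnit b → g b = 0) : ∑ b, g b = ∑ u : (ZMod q)ˣ, g u := by
  symm
  refine Finset.sum_of_injOn (fun u : (ZMod q)ˣ => (u : ZMod q)) (Units.val_injective.injOn)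
    (by intro x _; simp) ?_ (by simp)
  intro b _ hb
  apply hg
  intro hu
  exact hb ⟨hu.unit, by simp, by simp⟩

theorem gaussLS_sumsq {q : ℕ} [NeZero q] (χ : DirichletCharacter ℂ q) :
    ∑ b : ZMod q, ‖χ b‖ ^ 2 = q.totient := by
  rw [gaussLS_sum_units (fun b => ‖χ b‖ ^ 2) (fun b hb => by simp [MulChar.map_nonunit χ hb])]
  have : ∀ u : (ZMod q)ˣ, ‖χ (u : ZMod q)‖ ^ 2 = 1 := fun u => by
    rw [DirichletCharacter.unit_norm_eq_one χ u]; norm_num
  rw [sum_congr rfl fun u _ => this u]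
  simp [ZMod.card_units_eq_totient]

theorem gaussLS_normsq (z : ℂ) : ((‖z‖ ^ 2 : ℝ) : ℂ) = z * (starRingEnd ℂ) z := by
  rw [Complex.mul_conj, Complex.normSq_eq_norm_sq]

theorem gaussLS_conj {q : ℕ} [NeZero q] (x : ZMod q) :
    (starRingEnd ℂ) (ZMod.stdAddChar x) = ZMod.stdAddChar (-x) := by
  rw [AddChar.starComp_apply (by rw [ZMod.ringChar_zmod_n]; exact NeZero.pos q),
    AddChar.inv_apply]

/-- Parseval for the additive characters of `ZMod q`. -/
theorem gaussLS_parseval {q : ℕ} [NeZero q] (f : ZMod q → ℂ) :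
    ∑ n : ZMod q, ‖∑ b, f b * ZMod.stdAddChar (n * b)‖ ^ 2 = q * ∑ b, ‖f b‖ ^ 2 := by
  have h : ((∑ n : ZMod q, ‖∑ b, f b * ZMod.stdAddChar (n * b)‖ ^ 2 : ℝ) : ℂ) =
      ((q * ∑ b, ‖f b‖ ^ 2 : ℝ) : ℂ) := by
    push_cast
    have e1 : ∀ n : ZMod q, ((‖∑ b, f b * ZMod.stdAddChar (n * b)‖ : ℂ)) ^ 2 =
        ∑ b, ∑ c, f b * (starRingEnd ℂ) (f c) * ZMod.stdAddChar (n * (b - c)) := by
      intro n
      have := gaussLS_normsq (∑ b, f b * ZMod.stdAddChar (n * b))
      push_cast at this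
      rw [this, map_sum, Finset.sum_mul_sum]
      refine sum_congr rfl fun b _ => sum_congr rfl fun c _ => ?_
      rw [RingHom.map_mul (starRingEnd ℂ), gaussLS_conj, mul_sub, sub_eq_add_neg,
        AddChar.map_add_eq_mul]
      ring
    rw [sum_congr rfl fun n _ => e1 n, sum_comm, mul_sum]
    refine sum_congr rfl fun b _ => ?_
    rw [sum_comm]
    have e2 : ∀ c : ZMod q, ∑ n : ZMod q, f b * (starRingEnd ℂ) (f c) *
        ZMod.stdAddChar (n * (b - c)) = if b = c then q * (f b * (starRingEnd ℂ) (f b)) else 0 := by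
      intro c
      rw [← mul_sum, AddChar.sum_mulShift (b - c) (ZMod.isPrimitive_stdAddChar q)]
      by_cases hbc : b = c
      · subst hbc
        simp [ZMod.card]
        ring
      · have : b - c ≠ 0 := sub_ne_zero.2 hbc
        simp [this, hbc]
    rw [sum_congr rfl fun c _ => e2 c]
    have := gaussLS_normsq (f b)
    push_cast at this
    simp [this]
  exact_mod_cast h

theorem norm_gaussSum_sq {q : ℕ} [NeZero q] (χ : DirichletCharacter ℂ q) (hχ : χ.IsPrimitive) :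
    ‖gaussSum χ (ZMod.stdAddChar (N := q))‖ ^ 2 = q := by
  have h := gaussLS_parseval (fun b => χ b)
  rw [gaussLS_sumsq] at h
  have e1 : ∀ n : ZMod q, ∑ b, χ b * ZMod.stdAddChar (n * b) =
      χ⁻¹ n * gaussSum χ (ZMod.stdAddChar (N := q)) := by
    intro n
    rw [← gaussSum_mulShift_of_isPrimitive _ hχ n]
    simp [gaussSum, AddChar.mulShift_apply]
  have e2 : ∀ n : ZMod q, ‖∑ b, χ b * ZMod.stdAddChar (n * b)‖ ^ 2 =
      ‖χ⁻¹ n‖ ^ 2 * ‖gaussSum χ (ZMod.stdAddChar (N := q))‖ ^ 2 := by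
    intro n
    rw [e1, norm_mul, mul_pow]
  rw [sum_congr rfl fun n _ => e2 n, ← sum_mul, gaussLS_sumsq] at h
  have hq : (0 : ℝ) < q.totient := by exact_mod_cast Nat.totient_pos.2 (NeZero.pos q)
  have h' : (q.totient : ℝ) * ‖gaussSum χ (ZMod.stdAddChar (N := q))‖ ^ 2 = q.totient * q := by
    rw [h]; ring
  exact mul_left_cancel₀ hq.ne' h'

/-- orthogonality in quadratic form -/
theorem gaussLS_orth {q : ℕ} [NeZero q] (F : ZMod q → ℂ) :
    ∑ χ : DirichletCharacter ℂ q, ‖∑ b, χ⁻¹ b * F b‖ ^ 2 =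
      q.totient * ∑ u : (ZMod q)ˣ, ‖F u‖ ^ 2 := by
  have h : ((∑ χ : DirichletCharacter ℂ q, ‖∑ b, χ⁻¹ b * F b‖ ^ 2 : ℝ) : ℂ) =
      ((q.totient * ∑ u : (ZMod q)ˣ, ‖F u‖ ^ 2 : ℝ) : ℂ) := by
    push_cast
    have e1 : ∀ χ : DirichletCharacter ℂ q, ((‖∑ b, χ⁻¹ b * F b‖ : ℂ)) ^ 2 =
        ∑ u : (ZMod q)ˣ, ∑ v : (ZMod q)ˣ, F u * (starRingEnd ℂ) (F v) *
          (χ ((u : ZMod q)⁻¹) * χ (v : ZMod q)) := by
      intro χ
      rw [gaussLS_sum_units (fun b => χ⁻¹ b * F b)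
        (fun b hb => by rw [MulChar.map_nonunit _ hb, zero_mul])]
      have := gaussLS_normsq (∑ u : (ZMod q)ˣ, χ⁻¹ (u : ZMod q) * F u)
      push_cast at this
      rw [this, map_sum, Finset.sum_mul_sum]
      refine sum_congr rfl fun u _ => sum_congr rfl fun v _ => ?_
      have h1 : χ⁻¹ (u : ZMod q) = χ ((u : ZMod q)⁻¹) := by
        rw [MulChar.inv_apply, Ring.inverse_unit, ZMod.inv_coe_unit]
      have h2 : (starRingEnd ℂ) (χ⁻¹ (v : ZMod q)) = χ (v : ZMod q) := by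
        have := MulChar.star_apply' χ⁻¹ (v : ZMod q)
        rw [inv_inv] at this
        exact this
      rw [RingHom.map_mul (starRingEnd ℂ), h1, h2]
      ring
    rw [sum_congr rfl fun χ _ => e1 χ, sum_comm, mul_sum]
    refine sum_congr rfl fun u _ => ?_
    rw [sum_comm]
    have e2 : ∀ v : (ZMod q)ˣ, ∑ χ : DirichletCharacter ℂ q, F u * (starRingEnd ℂ) (F v) *
        (χ ((u : ZMod q)⁻¹) * χ (v : ZMod q)) =
        if u = v then (q.totient : ℂ) * (F u * (starRingEnd ℂ) (F u)) else 0 := by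
      intro v
      rw [← mul_sum, DirichletCharacter.sum_char_inv_mul_char_eq ℂ u.isUnit]
      by_cases huv : u = v
      · subst huv
        simp
        ring
      · have : (u : ZMod q) ≠ v := fun h => huv (Units.val_injective h)
        simp [this, huv]
    rw [sum_congr rfl fun v _ => e2 v]
    have := gaussLS_normsq (F u)
    push_cast at this
    simp [this]
  exact_mod_cast h

theorem gaussLS_e {q : ℕ} [NeZero q] (n b : ℕ) :
    e (n * ((b : ℝ) / q)) = ZMod.stdAddChar ((n : ZMod q) * (b : ZMod q)) := by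
  have h : ((n : ZMod q) * (b : ZMod q)) = (((n * b : ℕ) : ℤ) : ZMod q) := by push_cast; ring
  rw [h, ZMod.stdAddChar_coe, e]
  congr 1
  push_cast
  ring

theorem prim_le_additive (q : ℕ) (hq : 1 ≤ q) (M N : ℕ) (a : ℕ → ℂ) :
    (q : ℝ) / q.totient * ∑ χ ∈ prim q, ‖∑ n ∈ Ioc M (M + N), a n * χ (n : ZMod q)‖ ^ 2 ≤
      ∑ b ∈ (range q).filter (fun b => b.Coprime q),
        ‖∑ n ∈ Ioc M (M + N), a n * e (n * ((b : ℝ) / q))‖ ^ 2 := by
  have : NeZero q := ⟨by omega⟩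
  set F : ZMod q → ℂ := fun b => ∑ n ∈ Ioc M (M + N), a n * ZMod.stdAddChar ((n : ZMod q) * b)
    with hF
  have hR : ∑ b ∈ (range q).filter (fun b => b.Coprime q),
      ‖∑ n ∈ Ioc M (M + N), a n * e (n * ((b : ℝ) / q))‖ ^ 2 =
      ∑ u : (ZMod q)ˣ, ‖F u‖ ^ 2 := by
    symm
    refine Finset.sum_bij (fun (u : (ZMod q)ˣ) _ => (u : ZMod q).val) ?_ ?_ ?_ ?_
    · intro u _
      simp only [mem_filter, mem_range]
      exact ⟨ZMod.val_lt _, ZMod.val_coe_unit_coprime u⟩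
    · intro u _ v _ huv
      exact Units.val_injective (ZMod.val_injective q huv)
    · intro b hb
      simp only [mem_filter, mem_range] at hb
      exact ⟨ZMod.unitOfCoprime b hb.2, mem_univ _, by
        rw [ZMod.coe_unitOfCoprime, ZMod.val_cast_of_lt hb.1]⟩
    · intro u _
      congr 2
      rw [hF]
      refine sum_congr rfl fun n _ => ?_
      rw [gaussLS_e, ZMod.natCast_val, ZMod.cast_id', id]
  rw [hR]
  have hφ : (0 : ℝ) < q.totient := by exact_mod_cast Nat.totient_pos.2 (NeZero.pos q)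
  rw [div_mul_eq_mul_div, div_le_iff₀ hφ, mul_comm (∑ u : (ZMod q)ˣ, ‖F u‖ ^ 2), ← gaussLS_orth F,
    mul_sum]
  refine le_trans (sum_le_sum ?_) (sum_le_sum_of_subset_of_nonneg (subset_univ (prim q))
    (fun χ _ _ => by positivity))
  intro χ hχ
  have hp : χ.IsPrimitive := by
    simpa [prim] using hχ
  have hp' : (χ⁻¹).IsPrimitive := by
    rw [DirichletCharacter.isPrimitive_def, DirichletCharacter.conductor_inv]
    exact hp
  have e1 : ∀ n : ZMod q, ∑ b, χ⁻¹ b * ZMod.stdAddChar (n * b) =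
      χ n * gaussSum χ⁻¹ (ZMod.stdAddChar (N := q)) := by
    intro n
    have h := gaussSum_mulShift_of_isPrimitive (ZMod.stdAddChar (N := q)) hp' n
    rw [inv_inv] at h
    rw [← h]
    simp [gaussSum, AddChar.mulShift_apply]
  have e2 : ∑ b, χ⁻¹ b * F b =
      gaussSum χ⁻¹ (ZMod.stdAddChar (N := q)) * ∑ n ∈ Ioc M (M + N), a n * χ (n : ZMod q) := by
    calc ∑ b, χ⁻¹ b * F b
        = ∑ b, ∑ n ∈ Ioc M (M + N), a n * (χ⁻¹ b * ZMod.stdAddChar ((n : ZMod q) * b)) := by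
          refine sum_congr rfl fun b _ => ?_
          rw [hF, mul_sum]
          exact sum_congr rfl fun n _ => by ring
      _ = ∑ n ∈ Ioc M (M + N), a n * ∑ b, χ⁻¹ b * ZMod.stdAddChar ((n : ZMod q) * b) := by
          rw [sum_comm]
          exact sum_congr rfl fun n _ => by rw [mul_sum]
      _ = _ := by
          rw [mul_sum]
          refine sum_congr rfl fun n _ => ?_
          rw [e1]
          ring
  rw [e2, norm_mul, mul_pow, norm_gaussSum_sq _ hp']

/-- The multiplicative large sieve. -/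
theorem large_sieve (Q : ℕ) (hQ : 1 ≤ Q) (M N : ℕ) (a : ℕ → ℂ) :
    ∑ q ∈ Icc 1 Q, (q : ℝ) / q.totient *
      ∑ χ ∈ prim q, ‖∑ n ∈ Ioc M (M + N), a n * χ (n : ZMod q)‖ ^ 2 ≤
      20 * (N + (Q : ℝ) ^ 2) * ∑ n ∈ Ioc M (M + N), ‖a n‖ ^ 2 :=
  (Finset.sum_le_sum fun q hq => prim_le_additive q (mem_Icc.1 hq).1 M N a).trans
    (large_sieve_farey Q hQ M N a)

end Pool.Agent.BV
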