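import Pool.Agent.Work.BV.Defs
import Pool.Agent.Work.MP_92f640_nt.LConv

/-! # Module Vaughan: Vaughan's identity and the trivial type I bound

Arithmetic functions: with `μ = μ_{≤U} + μ_{>U}`, `Λ = Λ_{≤V} + Λ_{>V}`, `1 * μ = δ`, `1 * Λ = log`:
`Λ = Λ_{≤V} + μ_{≤U} * log - μ_{≤U} * Λ_{≤V} * 1 + Λ_{>V} * (μ_{>U} * 1)`, and
`(μ_{>U} * 1)(k) = beta U k`, which vanishes for `k ≤ U`. Multiply by `χ` (completely multiplicative)
and sum over `n ≤ x`; the last term gives `S3 χ U V x`, the first three are bounded by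
`V log x`, `U * 2 q log x` (Abel summation, `‖∑_{m≤y} χ m‖ ≤ q` for `χ ≠ 1`, see `char_sum_bound` in
`Pool.Agent.Work.MP_92f640_nt.LConv`), `U * (∑_{c≤V} Λ c) * q ≤ U V q log x`. -/

namespace Pool.Agent.BV

open Finset
open scoped ArithmeticFunction.vonMangoldt ArithmeticFunction.Moebius

theorem vaughan_sum_conv (f g : ℕ → ℂ) (x : ℕ) :
    ∑ n ∈ Icc 1 x, ∑ p ∈ n.divisorsAntidiagonal, f p.1 * g p.2 =
      ∑ a ∈ Icc 1 x, ∑ b ∈ Icc 1 (x / a), f a * g b := by
  rw [Finset.sum_sigma', Finset.sum_sigma']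
  refine Finset.sum_bij' (fun p _ => ⟨p.2.1, p.2.2⟩) (fun p _ => ⟨p.1 * p.2, (p.1, p.2)⟩)
    ?_ ?_ ?_ ?_ ?_
  · rintro ⟨n, a, b⟩ h
    simp only [mem_sigma, mem_Icc, Nat.mem_divisorsAntidiagonal] at h ⊢
    obtain ⟨⟨h1, h2⟩, rfl, h3⟩ := h
    have ha : 0 < a := Nat.pos_of_ne_zero (by rintro rfl; simp at h3)
    have hb : 0 < b := Nat.pos_of_ne_zero (by rintro rfl; simp at h3)
    refine ⟨⟨ha, ?_⟩, hb, ?_⟩
    · exact le_trans (Nat.le_mul_of_pos_right a hb) h2
    · rw [Nat.le_div_iff_mul_le ha, mul_comm]; exact h2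
  · rintro ⟨a, b⟩ h
    simp only [mem_sigma, mem_Icc, Nat.mem_divisorsAntidiagonal] at h ⊢
    obtain ⟨⟨h1, h2⟩, h3, h4⟩ := h
    rw [Nat.le_div_iff_mul_le h1, mul_comm] at h4
    have : 0 < a * b := Nat.mul_pos h1 h3
    exact ⟨⟨this, h4⟩, trivial, this.ne'⟩
  · rintro ⟨n, a, b⟩ h
    simp only [mem_sigma, mem_Icc, Nat.mem_divisorsAntidiagonal] at h
    obtain ⟨-, rfl, -⟩ := h
    rfl
  · rintro ⟨a, b⟩ h
    rfl
  · rintro ⟨n, a, b⟩ h
    rfl

theorem vaughan_conv {q : ℕ} (χ : DirichletCharacter ℂ q) (F G : ArithmeticFunction ℝ) (x : ℕ) :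
    ∑ n ∈ Icc 1 x, (((F * G) n : ℝ) : ℂ) * χ (n : ZMod q) =
      ∑ a ∈ Icc 1 x, ((F a : ℝ) : ℂ) * χ (a : ZMod q) *
        ∑ b ∈ Icc 1 (x / a), ((G b : ℝ) : ℂ) * χ (b : ZMod q) := by
  have h := vaughan_sum_conv (fun a => ((F a : ℝ) : ℂ) * χ (a : ZMod q))
    (fun b => ((G b : ℝ) : ℂ) * χ (b : ZMod q)) x
  simp_rw [Finset.mul_sum]
  rw [← h]
  refine Finset.sum_congr rfl (fun n _ => ?_)
  rw [ArithmeticFunction.mul_apply, Complex.ofReal_sum, Finset.sum_mul]
  refine Finset.sum_congr rfl (fun p hp => ?_)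
  have := (Nat.mem_divisorsAntidiagonal.mp hp).1
  rw [← this, Nat.cast_mul, map_mul]
  push_cast
  ring

/-- Abel summation with the logarithm -/
theorem vaughan_abel {q : ℕ} [NeZero q] (χ : DirichletCharacter ℂ q) (hχ : χ ≠ 1) (y : ℕ) :
    ‖∑ d ∈ Icc 1 y, ((Real.log d : ℝ) : ℂ) * χ (d : ZMod q)‖ ≤ 2 * q * Real.log (max y 1 : ℕ) := by
  set S : ℕ → ℂ := fun N => ∑ n ∈ Finset.Ioc 0 N, χ (n : ZMod q) with hS
  have hSb : ∀ N, ‖S N‖ ≤ q := fun N =>
    Pool.Agent.Work.MP_92f640_nt.char_sum_bound χ hχ N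
  have key : ∀ y : ℕ, 1 ≤ y → ∑ d ∈ Icc 1 y, ((Real.log d : ℝ) : ℂ) * χ (d : ZMod q) =
      S y * ((Real.log y : ℝ) : ℂ) -
        ∑ d ∈ Ico 1 y, S d * (((Real.log (d + 1 : ℕ) : ℝ) : ℂ) - ((Real.log d : ℝ) : ℂ)) := by
    intro y hy
    induction y, hy using Nat.le_induction with
    | base => simp
    | succ y hy ih =>
      rw [Finset.sum_Icc_succ_top (by omega), ih, Finset.sum_Ico_succ_top hy]
      have : S (y + 1) = S y + χ ((y + 1 : ℕ) : ZMod q) := by
        simp only [hS]
        rw [Finset.sum_Ioc_succ_top (Nat.zero_le y)]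
      rw [this]
      ring
  rcases Nat.eq_zero_or_pos y with rfl | hy
  · simp
  rw [key y hy, Nat.max_eq_left hy]
  have h1 : ‖S y * ((Real.log y : ℝ) : ℂ)‖ ≤ q * Real.log y := by
    rw [norm_mul, Complex.norm_real, Real.norm_of_nonneg (Real.log_natCast_nonneg y)]
    exact mul_le_mul_of_nonneg_right (hSb y) (Real.log_natCast_nonneg y)
  have h2 : ‖∑ d ∈ Ico 1 y, S d * (((Real.log (d + 1 : ℕ) : ℝ) : ℂ) - ((Real.log d : ℝ) : ℂ))‖ ≤
      q * Real.log y := by
    calc _ ≤ ∑ d ∈ Ico 1 y, ‖S d * (((Real.log (d + 1 : ℕ) : ℝ) : ℂ) - ((Real.log d : ℝ) : ℂ))‖ :=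
          norm_sum_le _ _
      _ ≤ ∑ d ∈ Ico 1 y, (q : ℝ) * (Real.log (d + 1 : ℕ) - Real.log d) := by
          refine Finset.sum_le_sum (fun d hd => ?_)
          have hd1 : 1 ≤ d := (Finset.mem_Ico.mp hd).1
          have hl : Real.log d ≤ Real.log (d + 1 : ℕ) :=
            Real.log_le_log (by exact_mod_cast hd1) (by push_cast; linarith)
          rw [norm_mul, ← Complex.ofReal_sub, Complex.norm_real, Real.norm_of_nonneg (by linarith)]
          exact mul_le_mul_of_nonneg_right (hSb d) (by linarith)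
      _ = q * Real.log y := by
          rw [← Finset.mul_sum, Finset.sum_Ico_eq_sum_range]
          congr 1
          have := Finset.sum_range_sub (fun i : ℕ => Real.log ((1 + i : ℕ) : ℝ)) (y - 1)
          simp only [add_zero, Nat.cast_one, Real.log_one, sub_zero] at this
          rw [show 1 + (y - 1) = y by omega] at this
          exact this
  calc _ ≤ ‖S y * ((Real.log y : ℝ) : ℂ)‖ + _ := norm_sub_le _ _
    _ ≤ 2 * q * Real.log y := by linarith

theorem vaughan_bound {q : ℕ} [NeZero q] (χ : DirichletCharacter ℂ q) (hχ : χ ≠ 1)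
    (U V x : ℕ) (hU : 1 ≤ U) (hV : 1 ≤ V) (hx : 3 ≤ x) (hUV : U * V ≤ x) :
    ‖psiC χ x - S3 χ U V x‖ ≤ 4 * q * U * V * Real.log x := by
  have hUx : U ≤ x := le_trans (Nat.le_mul_of_pos_right U hV) hUV
  have hVx : V ≤ x := le_trans (Nat.le_mul_of_pos_left V hU) hUV
  have hq : (1 : ℝ) ≤ q := by exact_mod_cast Nat.pos_of_ne_zero (NeZero.ne q)
  have hlogx : 0 ≤ Real.log x := Real.log_natCast_nonneg x
  let M1 : ArithmeticFunction ℝ := ⟨fun b => if b ≤ U then ((μ b : ℤ) : ℝ) else 0, by simp⟩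
  let L1 : ArithmeticFunction ℝ := ⟨fun c => if c ≤ V then Λ c else 0, by simp⟩
  let Z : ArithmeticFunction ℝ := (ArithmeticFunction.zeta : ArithmeticFunction ℝ)
  let Mu : ArithmeticFunction ℝ := ((ArithmeticFunction.moebius : ArithmeticFunction ℤ) : ArithmeticFunction ℝ)
  have hM1 : ∀ b, M1 b = if b ≤ U then ((μ b : ℤ) : ℝ) else 0 := fun _ => rfl
  have hL1 : ∀ c, L1 c = if c ≤ V then Λ c else 0 := fun _ => rfl
  have h1 : Mu * Z = 1 := ArithmeticFunction.coe_moebius_mul_coe_zeta
  have h2 : ArithmeticFunction.vonMangoldt * Z = ArithmeticFunction.log :=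
    ArithmeticFunction.vonMangoldt_mul_zeta
  have hid : ArithmeticFunction.vonMangoldt = L1 + M1 * ArithmeticFunction.log - M1 * (L1 * Z) +
      (ArithmeticFunction.vonMangoldt - L1) * ((Mu - M1) * Z) := by
    linear_combination (L1 - ArithmeticFunction.vonMangoldt) * h1 + M1 * h2
  -- the type II part
  have hbeta : ∀ k, ((Mu - M1) * Z) k = beta U k := by
    intro k
    rw [ArithmeticFunction.coe_mul_zeta_apply, beta, Finset.sum_filter]
    refine Finset.sum_congr rfl (fun b _ => ?_)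
    have : (Mu - M1) b = ((μ b : ℤ) : ℝ) - M1 b := rfl
    rw [this, hM1]
    by_cases hb : b ≤ U
    · rw [if_pos hb, if_neg (not_lt.mpr hb), sub_self]
    · rw [if_neg hb, if_pos (not_le.mp hb), sub_zero]
  have hbeta0 : ∀ k, k ≤ U → beta U k = 0 := by
    intro k hk
    rw [beta]
    refine Finset.sum_eq_zero (fun b hb => ?_)
    obtain ⟨hb1, hb2⟩ := Finset.mem_filter.mp hb
    rcases Nat.eq_zero_or_pos k with rfl | hk0
    · simp at hb1
    · have := Nat.le_of_dvd hk0 (Nat.dvd_of_mem_divisors hb1)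
      omega
  have hS3 : ∑ a ∈ Icc 1 x, (((ArithmeticFunction.vonMangoldt - L1) a : ℝ) : ℂ) * χ (a : ZMod q) *
        ∑ b ∈ Icc 1 (x / a), (((((Mu - M1) * Z) b) : ℝ) : ℂ) * χ (b : ZMod q) = S3 χ U V x := by
    rw [S3]
    have hsub : Ioc V x ⊆ Icc 1 x := by
      intro c hc
      rw [mem_Ioc] at hc
      rw [mem_Icc]
      omega
    rw [← Finset.sum_subset hsub]
    · refine Finset.sum_congr rfl (fun c hc => ?_)
      rw [mem_Ioc] at hc
      have hc0 : 0 < c := by omega
      have e1 : (ArithmeticFunction.vonMangoldt - L1) c = Λ c := by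
        have : (ArithmeticFunction.vonMangoldt - L1) c = Λ c - L1 c := rfl
        rw [this, hL1, if_neg (by omega), sub_zero]
      rw [e1, Finset.mul_sum, ← Finset.sum_filter]
      have hsub2 : (Ioc U x).filter (fun k => c * k ≤ x) ⊆ Icc 1 (x / c) := by
        intro k hk
        rw [mem_filter, mem_Ioc] at hk
        rw [mem_Icc, Nat.le_div_iff_mul_le hc0, mul_comm]
        omega
      rw [← Finset.sum_subset hsub2]
      · refine Finset.sum_congr rfl (fun k hk => ?_)
        rw [hbeta, Nat.cast_mul, map_mul]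
        ring
      · intro k hk hk2
        rw [mem_Icc, Nat.le_div_iff_mul_le hc0, mul_comm] at hk
        have : k ≤ U := by
          by_contra hcon
          apply hk2
          rw [mem_filter, mem_Ioc]
          refine ⟨⟨by omega, le_trans (Nat.le_mul_of_pos_left k hc0) hk.2⟩, hk.2⟩
        rw [hbeta, hbeta0 k this]
        simp
    · intro c hc hc2
      have : c ≤ V := by
        rw [mem_Icc] at hc
        rw [mem_Ioc] at hc2
        omega
      have e1 : (ArithmeticFunction.vonMangoldt - L1) c = 0 := by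
        have : (ArithmeticFunction.vonMangoldt - L1) c = Λ c - L1 c := rfl
        rw [this, hL1, if_pos (by omega), sub_self]
      rw [e1]
      simp
  have hpsi : psiC χ x = ∑ n ∈ Icc 1 x, ((L1 n : ℝ) : ℂ) * χ (n : ZMod q) +
      ∑ n ∈ Icc 1 x, (((M1 * ArithmeticFunction.log) n : ℝ) : ℂ) * χ (n : ZMod q) -
      ∑ n ∈ Icc 1 x, (((M1 * (L1 * Z)) n : ℝ) : ℂ) * χ (n : ZMod q) +
      ∑ n ∈ Icc 1 x, ((((ArithmeticFunction.vonMangoldt - L1) * ((Mu - M1) * Z)) n : ℝ) : ℂ) *
        χ (n : ZMod q) := by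
    rw [psiC, ← Finset.sum_add_distrib, ← Finset.sum_sub_distrib, ← Finset.sum_add_distrib]
    refine Finset.sum_congr rfl (fun n _ => ?_)
    have e : Λ n = L1 n + (M1 * ArithmeticFunction.log) n - (M1 * (L1 * Z)) n +
        ((ArithmeticFunction.vonMangoldt - L1) * ((Mu - M1) * Z)) n := by
      conv_lhs => rw [hid]
      rfl
    rw [e]
    push_cast
    ring
  rw [hpsi, vaughan_conv χ (ArithmeticFunction.vonMangoldt - L1) ((Mu - M1) * Z), hS3]
  rw [add_sub_cancel_right]
  have hL1le : ∀ c, c ≤ x → |L1 c| ≤ if c ≤ V then Real.log x else 0 := by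
    intro c hc
    rw [hL1]
    split_ifs with h
    · rw [abs_of_nonneg ArithmeticFunction.vonMangoldt_nonneg]
      refine le_trans ArithmeticFunction.vonMangoldt_le_log ?_
      rcases Nat.eq_zero_or_pos c with rfl | hc0
      · simpa using hlogx
      · exact Real.log_le_log (by exact_mod_cast hc0) (by exact_mod_cast hc)
    · simp
  have hM1le : ∀ b, |M1 b| ≤ if b ≤ U then 1 else 0 := by
    intro b
    rw [hM1]
    split_ifs with h
    · have := ArithmeticFunction.abs_moebius_le_one (n := b)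
      exact_mod_cast this
    · simp
  have hcard : ∀ (W y : ℕ) (B : ℝ), 0 ≤ B → ∑ c ∈ Icc 1 y, (if c ≤ W then B else 0) ≤ W * B := by
    intro W y B hB
    rw [← Finset.sum_filter, Finset.sum_const, nsmul_eq_mul]
    refine mul_le_mul_of_nonneg_right ?_ hB
    have : (Icc 1 y).filter (fun c => c ≤ W) ⊆ Icc 1 W := by
      intro c hc
      rw [mem_filter, mem_Icc] at hc
      rw [mem_Icc]
      omega
    have h := Finset.card_le_card this
    rw [Nat.card_Icc] at h
    exact_mod_cast (by omega : _ ≤ W)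
  have hchi : ∀ n : ℕ, ‖χ (n : ZMod q)‖ ≤ 1 := fun n => DirichletCharacter.norm_le_one χ _
  -- first term
  have hT1 : ‖∑ n ∈ Icc 1 x, ((L1 n : ℝ) : ℂ) * χ (n : ZMod q)‖ ≤ V * Real.log x := by
    calc _ ≤ ∑ n ∈ Icc 1 x, ‖((L1 n : ℝ) : ℂ) * χ (n : ZMod q)‖ := norm_sum_le _ _
      _ ≤ ∑ n ∈ Icc 1 x, (if n ≤ V then Real.log x else 0) := by
          refine Finset.sum_le_sum (fun n hn => ?_)
          rw [norm_mul, Complex.norm_real, Real.norm_eq_abs]
          calc |L1 n| * ‖χ (n : ZMod q)‖ ≤ |L1 n| * 1 :=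
                mul_le_mul_of_nonneg_left (hchi n) (abs_nonneg _)
            _ ≤ _ := by rw [mul_one]; exact hL1le n (mem_Icc.mp hn).2
      _ ≤ V * Real.log x := hcard V x _ hlogx
  -- second term
  have hT2 : ‖∑ n ∈ Icc 1 x, (((M1 * ArithmeticFunction.log) n : ℝ) : ℂ) * χ (n : ZMod q)‖ ≤
      U * (2 * q * Real.log x) := by
    rw [vaughan_conv]
    calc _ ≤ ∑ b ∈ Icc 1 x, ‖((M1 b : ℝ) : ℂ) * χ (b : ZMod q) *
          ∑ d ∈ Icc 1 (x / b), ((ArithmeticFunction.log d : ℝ) : ℂ) * χ (d : ZMod q)‖ :=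
          norm_sum_le _ _
      _ ≤ ∑ b ∈ Icc 1 x, (if b ≤ U then (2 * q * Real.log x) else 0) := by
          refine Finset.sum_le_sum (fun b hb => ?_)
          have hb1 : 1 ≤ b := (mem_Icc.mp hb).1
          have hinner : ‖∑ d ∈ Icc 1 (x / b), ((ArithmeticFunction.log d : ℝ) : ℂ) *
              χ (d : ZMod q)‖ ≤ 2 * q * Real.log x := by
            have := vaughan_abel χ hχ (x / b)
            refine le_trans this ?_
            refine mul_le_mul_of_nonneg_left ?_ (by positivity)
            refine Real.log_le_log ?_ ?_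
            · exact_mod_cast lt_of_lt_of_le Nat.one_pos (le_max_right _ _)
            · exact_mod_cast max_le (Nat.div_le_self x b) (by omega)
          rw [norm_mul, norm_mul, Complex.norm_real, Real.norm_eq_abs]
          have h3 := hM1le b
          by_cases hbU : b ≤ U
          · rw [if_pos hbU] at h3 ⊢
            calc |M1 b| * ‖χ (b : ZMod q)‖ * _ ≤ 1 * 1 * (2 * q * Real.log x) := by
                  refine mul_le_mul ?_ hinner (norm_nonneg _) (by norm_num)
                  exact mul_le_mul h3 (hchi b) (norm_nonneg _) (by norm_num)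
              _ = _ := by ring
          · rw [if_neg hbU] at h3 ⊢
            have : |M1 b| = 0 := le_antisymm h3 (abs_nonneg _)
            rw [this]
            simp
      _ ≤ U * (2 * q * Real.log x) := hcard U x _ (by positivity)
  -- third term
  have hT3 : ‖∑ n ∈ Icc 1 x, (((M1 * (L1 * Z)) n : ℝ) : ℂ) * χ (n : ZMod q)‖ ≤
      U * (V * (Real.log x * q)) := by
    rw [vaughan_conv]
    calc _ ≤ ∑ b ∈ Icc 1 x, ‖((M1 b : ℝ) : ℂ) * χ (b : ZMod q) *
          ∑ d ∈ Icc 1 (x / b), (((L1 * Z) d : ℝ) : ℂ) * χ (d : ZMod q)‖ :=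
          norm_sum_le _ _
      _ ≤ ∑ b ∈ Icc 1 x, (if b ≤ U then (V * (Real.log x * q)) else 0) := by
          refine Finset.sum_le_sum (fun b hb => ?_)
          have hb1 : 1 ≤ b := (mem_Icc.mp hb).1
          have hinner : ‖∑ d ∈ Icc 1 (x / b), (((L1 * Z) d : ℝ) : ℂ) * χ (d : ZMod q)‖ ≤
              V * (Real.log x * q) := by
            rw [vaughan_conv]
            calc _ ≤ ∑ c ∈ Icc 1 (x / b), ‖((L1 c : ℝ) : ℂ) * χ (c : ZMod q) *
                  ∑ d ∈ Icc 1 (x / b / c), ((Z d : ℝ) : ℂ) * χ (d : ZMod q)‖ :=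
                  norm_sum_le _ _
              _ ≤ ∑ c ∈ Icc 1 (x / b), (if c ≤ V then (Real.log x * q) else 0) := by
                  refine Finset.sum_le_sum (fun c hc => ?_)
                  have hc2 : c ≤ x := le_trans (mem_Icc.mp hc).2 (Nat.div_le_self x b)
                  have hin : ‖∑ d ∈ Icc 1 (x / b / c), ((Z d : ℝ) : ℂ) * χ (d : ZMod q)‖ ≤ q := by
                    have e : ∑ d ∈ Icc 1 (x / b / c), ((Z d : ℝ) : ℂ) * χ (d : ZMod q) =
                        ∑ n ∈ Finset.Ioc 0 (x / b / c), χ (n : ZMod q) := by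
                      refine Finset.sum_congr ?_ (fun d hd => ?_)
                      · ext d
                        simp only [mem_Icc, mem_Ioc]
                        omega
                      · have hd1 : d ≠ 0 := by
                          have := (mem_Ioc.mp hd).1
                          omega
                        have : Z d = 1 := by
                          show ((ArithmeticFunction.zeta : ArithmeticFunction ℝ)) d = 1
                          rw [ArithmeticFunction.natCoe_apply, ArithmeticFunction.zeta_apply,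
                            if_neg hd1, Nat.cast_one]
                        rw [this, Complex.ofReal_one, one_mul]
                    rw [e]
                    exact Pool.Agent.Work.MP_92f640_nt.char_sum_bound χ hχ _
                  rw [norm_mul, norm_mul, Complex.norm_real, Real.norm_eq_abs]
                  have h3 := hL1le c hc2
                  by_cases hcV : c ≤ V
                  · rw [if_pos hcV] at h3 ⊢
                    calc |L1 c| * ‖χ (c : ZMod q)‖ * _ ≤ Real.log x * 1 * q := by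
                          refine mul_le_mul ?_ hin (norm_nonneg _) (by positivity)
                          exact mul_le_mul h3 (hchi c) (norm_nonneg _) hlogx
                      _ = _ := by ring
                  · rw [if_neg hcV] at h3 ⊢
                    have : |L1 c| = 0 := le_antisymm h3 (abs_nonneg _)
                    rw [this]
                    simp
              _ ≤ V * (Real.log x * q) := hcard V _ _ (by positivity)
          rw [norm_mul, norm_mul, Complex.norm_real, Real.norm_eq_abs]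
          have h3 := hM1le b
          by_cases hbU : b ≤ U
          · rw [if_pos hbU] at h3 ⊢
            calc |M1 b| * ‖χ (b : ZMod q)‖ * _ ≤ 1 * 1 * (V * (Real.log x * q)) := by
                  refine mul_le_mul ?_ hinner (norm_nonneg _) (by norm_num)
                  exact mul_le_mul h3 (hchi b) (norm_nonneg _) (by norm_num)
              _ = _ := by ring
          · rw [if_neg hbU] at h3 ⊢
            have : |M1 b| = 0 := le_antisymm h3 (abs_nonneg _)
            rw [this]
            simp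
      _ ≤ U * (V * (Real.log x * q)) := hcard U x _ (by positivity)
  have hU1 : (1 : ℝ) ≤ U := by exact_mod_cast hU
  have hV1 : (1 : ℝ) ≤ V := by exact_mod_cast hV
  have hVle : (V : ℝ) * Real.log x ≤ q * U * V * Real.log x := by
    have : (1 : ℝ) ≤ q * U := by nlinarith
    have h4 : 0 ≤ (V : ℝ) * Real.log x := by positivity
    nlinarith
  have hUle : (U : ℝ) * (2 * q * Real.log x) ≤ 2 * (q * U * V * Real.log x) := by
    have h4 : 0 ≤ (q : ℝ) * U * Real.log x := by positivity
    nlinarith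
  calc _ ≤ ‖∑ n ∈ Icc 1 x, ((L1 n : ℝ) : ℂ) * χ (n : ZMod q) +
      ∑ n ∈ Icc 1 x, (((M1 * ArithmeticFunction.log) n : ℝ) : ℂ) * χ (n : ZMod q)‖ +
      ‖∑ n ∈ Icc 1 x, (((M1 * (L1 * Z)) n : ℝ) : ℂ) * χ (n : ZMod q)‖ := norm_sub_le _ _
    _ ≤ (V * Real.log x + U * (2 * q * Real.log x)) + U * (V * (Real.log x * q)) := by
        refine add_le_add (le_trans (norm_add_le _ _) (add_le_add hT1 hT2)) hT3
    _ ≤ 4 * q * U * V * Real.log x := by nlinarith

end Pool.Agent.BV
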