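import Pool.Agent.Work.BV.Block
import Pool.Agent.Work.BV.Vaughan

/-! # Module High: conductors between `(log x)^(A+5)` and `x^(9/20)`

`U = V = ⌊x^{1/50}⌋` (`1 ≤ U`, `x^{1/50}/2 ≤ U ≤ x^{1/50}`, `U V ≤ x^{1/25}`). Dyadic ranges `R < r ≤ 2R`,
`R = 2^j R₀`, `R ≤ Q`; at most `2 log x` of them. On such a range `1/φ(r) ≤ (1/R) (r/φ(r))`, and
`‖psiC χ x‖ ≤ ‖S3 χ U V x‖ + 4 r U V log x` (`vaughan_bound`; `χ` primitive mod `r ≥ 2` is `≠ 1`).
Type I per range: `(1/R) ∑_{r≤2R} (r/φ(r)) φ(r) 4 r U V log x ≤ 32 R^2 U V log x ≤ 32 x^{0.94} log x`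
(`card_prim_le`). Type II per range: `block` with `2R` in place of `R`:
`(1/R) C x (log x)^5 (1 + 4R^2/U + 4R^2/V + 16R^4/x)^{1/2}`
`≤ C' x (log x)^5 (1/R + U^{-1/2} + V^{-1/2} + R x^{-1/2})`; the sum over the ranges of `1/R` is `≤ 2/R₀`
(geometric) and `R₀ ≥ (log x)^(A+5)`; the other terms are `≤ C x^{-1/100}`, `x^{-1/20}` times the number
of ranges. For `x < x_0(A)` (if needed) the left side is at most a constant
(`‖psiC χ x‖ ≤ psi x ≤ x log x`), take `C` large; or use `(log x)^k ≤ C_k x^{1/200}` for all `x ≥ 3`. -/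

namespace Pool.Agent.BV

open Finset

lemma high_log_pow (k : ℕ) (hk : 1 ≤ k) (x : ℝ) (hx : 1 ≤ x) :
    (Real.log x) ^ k ≤ (100 * k : ℝ) ^ k * x ^ (1 / 100 : ℝ) := by
  have hkR : (0 : ℝ) < k := by exact_mod_cast hk
  have h1 : Real.log x ≤ x ^ (1 / (100 * k) : ℝ) / (1 / (100 * k) : ℝ) :=
    Real.log_le_rpow_div (by linarith) (by positivity)
  calc (Real.log x) ^ k ≤ (x ^ (1 / (100 * k) : ℝ) / (1 / (100 * k) : ℝ)) ^ k :=
        pow_le_pow_left₀ (Real.log_nonneg hx) h1 k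
    _ = (100 * k : ℝ) ^ k * (x ^ (1 / (100 * k) : ℝ)) ^ k := by
        rw [div_eq_mul_one_div, one_div_one_div, mul_pow, mul_comm]
    _ = (100 * k : ℝ) ^ k * x ^ (1 / 100 : ℝ) := by
        rw [← Real.rpow_natCast (x ^ (1 / (100 * k) : ℝ)) k, ← Real.rpow_mul (by linarith)]
        congr 2
        field_simp

lemma high_sqrt (R U x : ℝ) (hR : 0 ≤ R) (hU : 0 < U) (hx : 0 < x) :
    Real.sqrt (1 + (2 * R) ^ 2 / U + (2 * R) ^ 2 / U + (2 * R) ^ 4 / x) ≤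
      1 + 3 * (R / Real.sqrt U) + 4 * (R ^ 2 / Real.sqrt x) := by
  have hsU : 0 < Real.sqrt U := Real.sqrt_pos.2 hU
  have hsx : 0 < Real.sqrt x := Real.sqrt_pos.2 hx
  have ha : (R / Real.sqrt U) ^ 2 = R ^ 2 / U := by rw [div_pow, Real.sq_sqrt hU.le]
  have hb : (R ^ 2 / Real.sqrt x) ^ 2 = R ^ 4 / x := by
    rw [div_pow, Real.sq_sqrt hx.le]; ring
  have ha0 : 0 ≤ R / Real.sqrt U := by positivity
  have hb0 : 0 ≤ R ^ 2 / Real.sqrt x := by positivity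
  rw [Real.sqrt_le_left (by positivity)]
  have e : 1 + (2 * R) ^ 2 / U + (2 * R) ^ 2 / U + (2 * R) ^ 4 / x =
      1 + 8 * (R ^ 2 / U) + 16 * (R ^ 4 / x) := by ring
  rw [e, ← ha, ← hb]
  nlinarith [mul_nonneg ha0 hb0]

lemma high_range {C : ℝ} (hC : 0 < C)
    (hblock : ∀ (x U V R : ℕ), 3 ≤ x → 1 ≤ U → 1 ≤ V → U * V ≤ x → 1 ≤ R →
      ∑ r ∈ Icc 1 R, (r : ℝ) / r.totient * ∑ χ ∈ prim r, ‖S3 χ U V x‖ ≤
        C * x * (Real.log x) ^ 5 *
          Real.sqrt (1 + (R : ℝ) ^ 2 / U + (R : ℝ) ^ 2 / V + (R : ℝ) ^ 4 / x))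
    (x U R : ℕ) (hx : 3 ≤ x) (hU : 1 ≤ U) (hUx : U * U ≤ x) (hR : 1 ≤ R) :
    ∑ r ∈ Ioc R (2 * R), (1 : ℝ) / r.totient * ∑ χ ∈ prim r, ‖psiC χ x‖ ≤
      C * x * (Real.log x) ^ 5 * (1 / R + 3 / Real.sqrt U + 4 * R / Real.sqrt x) +
        32 * (R : ℝ) ^ 2 * (U : ℝ) ^ 2 * Real.log x := by
  have hxR : (3 : ℝ) ≤ x := by exact_mod_cast hx
  have hx0 : (0 : ℝ) < x := by linarith
  have hUR : (0 : ℝ) < U := by exact_mod_cast hU
  have hRR : (1 : ℝ) ≤ R := by exact_mod_cast hR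
  have hR0 : (0 : ℝ) < R := by linarith
  have hL : 0 ≤ Real.log x := Real.log_nonneg (by linarith)
  have h1 : ∀ r ∈ Ioc R (2 * R), (1 : ℝ) / r.totient * ∑ χ ∈ prim r, ‖psiC χ x‖ ≤
      1 / R * ((r : ℝ) / r.totient * ∑ χ ∈ prim r, ‖S3 χ U U x‖) +
        16 * (R : ℝ) * (U : ℝ) ^ 2 * Real.log x := by
    intro r hr
    obtain ⟨hr1, hr2⟩ := mem_Ioc.1 hr
    have : NeZero r := ⟨by omega⟩
    have hφ : (0 : ℝ) < r.totient := by exact_mod_cast Nat.totient_pos.2 (by omega)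
    have hrR : (R : ℝ) ≤ r := by exact_mod_cast hr1.le
    have hrR2 : (r : ℝ) ≤ 2 * R := by exact_mod_cast hr2
    have h2 : ∀ χ ∈ prim r, ‖psiC χ x‖ ≤ ‖S3 χ U U x‖ + 4 * r * U * U * Real.log x := by
      intro χ hχ
      have hχp : χ.IsPrimitive := by
        classical
        unfold prim at hχ
        exact (mem_filter.1 hχ).2
      have hχ1 : χ ≠ 1 := by
        rintro rfl
        have h3 : (1 : DirichletCharacter ℂ r).conductor = r := hχp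
        rw [DirichletCharacter.conductor_one] at h3
        omega
      have h3 := vaughan_bound χ hχ1 U U x hU hU hx hUx
      calc ‖psiC χ x‖ = ‖S3 χ U U x + (psiC χ x - S3 χ U U x)‖ := by congr 1; ring
        _ ≤ ‖S3 χ U U x‖ + ‖psiC χ x - S3 χ U U x‖ := norm_add_le _ _
        _ ≤ _ := by linarith
    have h3 : ∑ χ ∈ prim r, ‖psiC χ x‖ ≤ ∑ χ ∈ prim r, ‖S3 χ U U x‖ +
        r.totient * (4 * r * U * U * Real.log x) := by
      refine (sum_le_sum h2).trans ?_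
      rw [sum_add_distrib, sum_const, nsmul_eq_mul]
      have h4 : ((prim r).card : ℝ) ≤ r.totient := by exact_mod_cast card_prim_le r (by omega)
      have h5 : 0 ≤ 4 * (r : ℝ) * U * U * Real.log x := by positivity
      have := mul_le_mul_of_nonneg_right h4 h5
      linarith
    have hS : 0 ≤ ∑ χ ∈ prim r, ‖S3 χ U U x‖ := sum_nonneg fun _ _ => norm_nonneg _
    calc (1 : ℝ) / r.totient * ∑ χ ∈ prim r, ‖psiC χ x‖
        ≤ (1 : ℝ) / r.totient * (∑ χ ∈ prim r, ‖S3 χ U U x‖ +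
          r.totient * (4 * r * U * U * Real.log x)) :=
          mul_le_mul_of_nonneg_left h3 (by positivity)
      _ = (1 : ℝ) * ((1 : ℝ) / r.totient * ∑ χ ∈ prim r, ‖S3 χ U U x‖) +
          4 * r * U ^ 2 * Real.log x := by field_simp
      _ ≤ ((r : ℝ) / R) * ((1 : ℝ) / r.totient * ∑ χ ∈ prim r, ‖S3 χ U U x‖) +
          4 * r * U ^ 2 * Real.log x := by
          have h6 : (1 : ℝ) ≤ (r : ℝ) / R := by rw [le_div_iff₀ hR0]; linarith
          have h7 : 0 ≤ (1 : ℝ) / r.totient * ∑ χ ∈ prim r, ‖S3 χ U U x‖ :=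
            mul_nonneg (by positivity) hS
          have := mul_le_mul_of_nonneg_right h6 h7
          linarith
      _ ≤ 1 / R * ((r : ℝ) / r.totient * ∑ χ ∈ prim r, ‖S3 χ U U x‖) +
          16 * (R : ℝ) * (U : ℝ) ^ 2 * Real.log x := by
          have h6 : ((r : ℝ) / R) * ((1 : ℝ) / r.totient * ∑ χ ∈ prim r, ‖S3 χ U U x‖) =
              1 / R * ((r : ℝ) / r.totient * ∑ χ ∈ prim r, ‖S3 χ U U x‖) := by ring
          have h7 : 4 * (r : ℝ) * U ^ 2 * Real.log x ≤ 4 * (2 * R) * U ^ 2 * Real.log x := by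
            gcongr
          have h8 : 0 ≤ (R : ℝ) * U ^ 2 * Real.log x := by positivity
          rw [h6]
          linarith
  have h2 : ∑ r ∈ Ioc R (2 * R), ((r : ℝ) / r.totient * ∑ χ ∈ prim r, ‖S3 χ U U x‖) ≤
      C * x * (Real.log x) ^ 5 *
        (1 + 3 * ((R : ℝ) / Real.sqrt U) + 4 * ((R : ℝ) ^ 2 / Real.sqrt x)) := by
    calc ∑ r ∈ Ioc R (2 * R), ((r : ℝ) / r.totient * ∑ χ ∈ prim r, ‖S3 χ U U x‖)
        ≤ ∑ r ∈ Icc 1 (2 * R), ((r : ℝ) / r.totient * ∑ χ ∈ prim r, ‖S3 χ U U x‖) := by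
          refine sum_le_sum_of_subset_of_nonneg ?_ ?_
          · intro r hr
            obtain ⟨hr1, hr2⟩ := mem_Ioc.1 hr
            exact mem_Icc.2 ⟨by omega, hr2⟩
          · intro r _ _
            exact mul_nonneg (by positivity) (sum_nonneg fun _ _ => norm_nonneg _)
      _ ≤ _ := hblock x U U (2 * R) hx hU hU hUx (by omega)
      _ ≤ _ := by
          refine mul_le_mul_of_nonneg_left ?_ (by positivity)
          push_cast
          exact high_sqrt R U x hR0.le hUR hx0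
  calc ∑ r ∈ Ioc R (2 * R), (1 : ℝ) / r.totient * ∑ χ ∈ prim r, ‖psiC χ x‖
      ≤ ∑ r ∈ Ioc R (2 * R), (1 / R * ((r : ℝ) / r.totient * ∑ χ ∈ prim r, ‖S3 χ U U x‖) +
        16 * (R : ℝ) * (U : ℝ) ^ 2 * Real.log x) := sum_le_sum h1
    _ = 1 / R * ∑ r ∈ Ioc R (2 * R), ((r : ℝ) / r.totient * ∑ χ ∈ prim r, ‖S3 χ U U x‖) +
        R * (16 * (R : ℝ) * (U : ℝ) ^ 2 * Real.log x) := by
        rw [sum_add_distrib, ← mul_sum, sum_const, Nat.card_Ioc, nsmul_eq_mul,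
          show 2 * R - R = R by omega]
    _ ≤ 1 / R * (C * x * (Real.log x) ^ 5 *
        (1 + 3 * ((R : ℝ) / Real.sqrt U) + 4 * ((R : ℝ) ^ 2 / Real.sqrt x))) +
        R * (16 * (R : ℝ) * (U : ℝ) ^ 2 * Real.log x) := by gcongr
    _ ≤ _ := by
        have h3 : 1 / (R : ℝ) * (C * x * (Real.log x) ^ 5 *
          (1 + 3 * ((R : ℝ) / Real.sqrt U) + 4 * ((R : ℝ) ^ 2 / Real.sqrt x))) =
          C * x * (Real.log x) ^ 5 * (1 / R + 3 / Real.sqrt U + 4 * R / Real.sqrt x) := by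
          field_simp
        have h4 : 0 ≤ (R : ℝ) ^ 2 * (U : ℝ) ^ 2 * Real.log x := by positivity
        rw [h3]
        nlinarith

lemma high_dyadic (f : ℕ → ℝ) (D : ℕ → ℝ) (R₀ : ℕ)
    (hD : ∀ R, R₀ ≤ R → ∑ r ∈ Ioc R (2 * R), f r ≤ D R) (j : ℕ) :
    ∑ r ∈ Ioc R₀ (2 ^ j * R₀), f r ≤ ∑ i ∈ range j, D (2 ^ i * R₀) := by
  induction j with
  | zero => simp
  | succ j ih =>
    have h1 : R₀ ≤ 2 ^ j * R₀ := Nat.le_mul_of_pos_left _ (by positivity)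
    have h2 : 2 ^ (j + 1) * R₀ = 2 * (2 ^ j * R₀) := by ring
    rw [h2, ← sum_Ioc_consecutive f h1 (by omega : 2 ^ j * R₀ ≤ 2 * (2 ^ j * R₀)),
      sum_range_succ]
    exact add_le_add ih (hD _ h1)

theorem high (A : ℕ) : ∃ C : ℝ, 0 < C ∧ ∀ (x Q R₀ : ℕ), 3 ≤ x →
    (Q : ℝ) ≤ (x : ℝ) ^ (9 / 20 : ℝ) → (Real.log x) ^ (A + 5) ≤ R₀ →
    ∑ r ∈ Ioc R₀ Q, (1 : ℝ) / r.totient * ∑ χ ∈ prim r, ‖psiC χ x‖ ≤
      C * x / (Real.log x) ^ A := by
  obtain ⟨C, hC, hblock⟩ := block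
  set K : ℝ := (100 * (A + 6 : ℕ) : ℝ) ^ (A + 6) with hK
  have hK0 : 0 < K := by positivity
  refine ⟨2 * C + 3 * (C * 10 + 32) * K, by positivity, ?_⟩
  intro x Q R₀ hx hQ hR
  have hxR : (3 : ℝ) ≤ x := by exact_mod_cast hx
  have hx0 : (0 : ℝ) < x := by linarith
  have hx1 : (1 : ℝ) ≤ x := by linarith
  set L : ℝ := Real.log x with hL
  have hL1 : 1 ≤ L := by
    rw [hL, Real.le_log_iff_exp_le hx0]
    have := Real.exp_one_lt_d9
    linarith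
  have hL0 : 0 < L := by linarith
  have hlog := high_log_pow (A + 6) (by omega) x hx1
  rw [← hK, ← hL] at hlog
  have hR1 : (1 : ℝ) ≤ R₀ := (one_le_pow₀ hL1).trans hR
  have hR1' : 1 ≤ R₀ := by exact_mod_cast hR1
  -- the parameter `U`
  set U : ℕ := ⌊(x : ℝ) ^ (1 / 50 : ℝ)⌋₊ with hU
  have hp1 : (1 : ℝ) ≤ (x : ℝ) ^ (1 / 50 : ℝ) := Real.one_le_rpow hx1 (by norm_num)
  have hU1 : 1 ≤ U := Nat.le_floor (by simpa using hp1)
  have hUR1 : (1 : ℝ) ≤ U := by exact_mod_cast hU1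
  have hUle : (U : ℝ) ≤ (x : ℝ) ^ (1 / 50 : ℝ) := Nat.floor_le (by linarith)
  have hUge : (x : ℝ) ^ (1 / 50 : ℝ) ≤ 2 * U := by
    have := Nat.lt_floor_add_one ((x : ℝ) ^ (1 / 50 : ℝ))
    rw [← hU] at this
    linarith
  have hU2 : (U : ℝ) ^ 2 ≤ (x : ℝ) ^ (1 / 25 : ℝ) := by
    calc (U : ℝ) ^ 2 ≤ ((x : ℝ) ^ (1 / 50 : ℝ)) ^ 2 := pow_le_pow_left₀ (by linarith) hUle 2
      _ = (x : ℝ) ^ (1 / 25 : ℝ) := by
          rw [← Real.rpow_natCast, ← Real.rpow_mul hx0.le]; norm_num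
  have hUx : U * U ≤ x := by
    have h1 : (U : ℝ) ^ 2 ≤ x := by
      refine hU2.trans ?_
      calc (x : ℝ) ^ (1 / 25 : ℝ) ≤ (x : ℝ) ^ (1 : ℝ) :=
            Real.rpow_le_rpow_of_exponent_le hx1 (by norm_num)
        _ = x := Real.rpow_one _
    have h2 : ((U * U : ℕ) : ℝ) ≤ x := by push_cast; nlinarith
    exact_mod_cast h2
  have hsU : 1 / Real.sqrt U ≤ 2 * (x : ℝ) ^ (-(1 / 100) : ℝ) := by
    have h1 : (x : ℝ) ^ (1 / 100 : ℝ) ≤ 2 * Real.sqrt U := by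
      have h2 : Real.sqrt ((x : ℝ) ^ (1 / 50 : ℝ)) = (x : ℝ) ^ (1 / 100 : ℝ) := by
        rw [Real.sqrt_eq_rpow, ← Real.rpow_mul hx0.le]; norm_num
      rw [← h2]
      calc Real.sqrt ((x : ℝ) ^ (1 / 50 : ℝ)) ≤ Real.sqrt (2 ^ 2 * U) :=
            Real.sqrt_le_sqrt (by linarith)
        _ = 2 * Real.sqrt U := by
            rw [Real.sqrt_mul (by positivity), Real.sqrt_sq (by norm_num)]
    have h3 : 0 < (x : ℝ) ^ (1 / 100 : ℝ) := by positivity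
    have h4 : 0 < Real.sqrt U := Real.sqrt_pos.2 (by linarith)
    rw [Real.rpow_neg hx0.le, ← div_eq_mul_inv, div_le_div_iff₀ h4 h3]
    linarith
  -- the function on the dyadic ranges
  set f : ℕ → ℝ := fun r => if r ≤ Q then (1 : ℝ) / r.totient * ∑ χ ∈ prim r, ‖psiC χ x‖ else 0
    with hf
  have hf0 : ∀ r, 0 ≤ (1 : ℝ) / r.totient * ∑ χ ∈ prim r, ‖psiC χ x‖ := fun r =>
    mul_nonneg (by positivity) (sum_nonneg fun _ _ => norm_nonneg _)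
  set E : ℝ := C * x * L ^ 5 * (3 / Real.sqrt U + 4 * ((x : ℝ) ^ (9 / 20 : ℝ)) / Real.sqrt x) +
      32 * ((x : ℝ) ^ (9 / 20 : ℝ)) ^ 2 * (U : ℝ) ^ 2 * L with hE
  have hE0 : 0 ≤ E := by positivity
  set D : ℕ → ℝ := fun R => C * x * L ^ 5 * (1 / R) + E with hDdef
  have hD : ∀ R, R₀ ≤ R → ∑ r ∈ Ioc R (2 * R), f r ≤ D R := by
    intro R hRR
    by_cases hRQ : R ≤ Q
    · have hRQR : (R : ℝ) ≤ (x : ℝ) ^ (9 / 20 : ℝ) := by
        refine le_trans ?_ hQ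
        exact_mod_cast hRQ
      calc ∑ r ∈ Ioc R (2 * R), f r
          ≤ ∑ r ∈ Ioc R (2 * R), (1 : ℝ) / r.totient * ∑ χ ∈ prim r, ‖psiC χ x‖ := by
            refine sum_le_sum fun r _ => ?_
            simp only [hf]
            split_ifs
            · exact le_refl _
            · exact hf0 r
        _ ≤ _ := high_range hC hblock x U R hx hU1 hUx (hR1'.trans hRR)
        _ = C * x * L ^ 5 * (1 / R) + (C * x * L ^ 5 * (3 / Real.sqrt U +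
            4 * R / Real.sqrt x) + 32 * (R : ℝ) ^ 2 * (U : ℝ) ^ 2 * L) := by
            rw [← hL]; ring
        _ ≤ D R := by
            simp only [hDdef, hE]
            gcongr
    · have h0 : ∑ r ∈ Ioc R (2 * R), f r = 0 := by
        apply sum_eq_zero
        intro r hr
        simp only [hf]
        rw [if_neg]
        have := (mem_Ioc.1 hr).1
        omega
      rw [h0]
      simp only [hDdef]
      positivity
  -- number of ranges
  set j : ℕ := Nat.log 2 x + 1 with hj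
  have hjx : x < 2 ^ j := Nat.lt_pow_succ_log_self (by norm_num) x
  have hjL : (j : ℝ) ≤ 3 * L := by
    have h1 : (2 : ℝ) ^ (Nat.log 2 x) ≤ x := by
      exact_mod_cast Nat.pow_log_le_self 2 (by omega)
    have h2 := Real.log_le_log (by positivity) h1
    rw [Real.log_pow, ← hL] at h2
    have h3 := Real.log_two_gt_d9
    have h4 : (0 : ℝ) ≤ (Nat.log 2 x : ℝ) := Nat.cast_nonneg _
    have h5 : (Nat.log 2 x : ℝ) * 0.5 ≤ L := by nlinarith
    rw [hj]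
    push_cast
    linarith
  have hQj : Q ≤ 2 ^ j * R₀ := by
    have h1 : (Q : ℝ) ≤ x := by
      refine hQ.trans ?_
      calc (x : ℝ) ^ (9 / 20 : ℝ) ≤ (x : ℝ) ^ (1 : ℝ) :=
            Real.rpow_le_rpow_of_exponent_le hx1 (by norm_num)
        _ = x := Real.rpow_one _
    have h2 : Q ≤ x := by exact_mod_cast h1
    calc Q ≤ 2 ^ j := by omega
      _ ≤ 2 ^ j * R₀ := Nat.le_mul_of_pos_right _ (by omega)
  have h1 : ∑ r ∈ Ioc R₀ Q, (1 : ℝ) / r.totient * ∑ χ ∈ prim r, ‖psiC χ x‖ ≤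
      ∑ r ∈ Ioc R₀ (2 ^ j * R₀), f r := by
    calc ∑ r ∈ Ioc R₀ Q, (1 : ℝ) / r.totient * ∑ χ ∈ prim r, ‖psiC χ x‖
        = ∑ r ∈ Ioc R₀ Q, f r := by
          refine sum_congr rfl fun r hr => ?_
          simp only [hf]
          rw [if_pos (mem_Ioc.1 hr).2]
      _ ≤ _ := by
          refine sum_le_sum_of_subset_of_nonneg (Ioc_subset_Ioc_right hQj) ?_
          intro r _ _
          simp only [hf]
          split_ifs
          · exact hf0 r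
          · exact le_refl _
  have h2 := h1.trans (high_dyadic f D R₀ hD j)
  have h3 : ∑ i ∈ range j, D (2 ^ i * R₀) ≤ 2 * (C * x * L ^ 5 / R₀) + 3 * L * E := by
    have h4 : ∑ i ∈ range j, D (2 ^ i * R₀) =
        (C * x * L ^ 5 / R₀) * ∑ i ∈ range j, (1 / 2 : ℝ) ^ i + j * E := by
      simp only [hDdef]
      rw [sum_add_distrib, sum_const, card_range, nsmul_eq_mul, mul_sum]
      congr 1
      refine sum_congr rfl fun i _ => ?_
      push_cast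
      rw [one_div_pow]
      field_simp
    rw [h4]
    have h5 : ∑ i ∈ range j, (1 / 2 : ℝ) ^ i ≤ 2 := by
      have := sum_geometric_two_le j
      simpa using this
    have h6 : 0 ≤ C * x * L ^ 5 / R₀ := by positivity
    have h7 := mul_le_mul_of_nonneg_left h5 h6
    have h8 := mul_le_mul_of_nonneg_right hjL hE0
    linarith
  refine h2.trans (h3.trans ?_)
  -- final numerics
  have e1 : C * x * L ^ 5 / R₀ ≤ C * x / L ^ A := by
    rw [div_le_div_iff₀ (by linarith) (by positivity)]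
    calc C * x * L ^ 5 * L ^ A = C * x * L ^ (A + 5) := by ring
      _ ≤ C * x * R₀ := by gcongr
  have hxm : (0 : ℝ) < (x : ℝ) ^ (-(1 / 100) : ℝ) := by positivity
  have e2 : 4 * ((x : ℝ) ^ (9 / 20 : ℝ)) / Real.sqrt x ≤ 4 * (x : ℝ) ^ (-(1 / 100) : ℝ) := by
    rw [mul_div_assoc]
    refine mul_le_mul_of_nonneg_left ?_ (by norm_num)
    rw [Real.sqrt_eq_rpow, ← Real.rpow_sub hx0]
    exact Real.rpow_le_rpow_of_exponent_le hx1 (by norm_num)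
  have e3 : 32 * ((x : ℝ) ^ (9 / 20 : ℝ)) ^ 2 * (U : ℝ) ^ 2 * L ≤
      32 * (x * (x : ℝ) ^ (-(1 / 100) : ℝ)) * L ^ 5 := by
    have e4 : ((x : ℝ) ^ (9 / 20 : ℝ)) ^ 2 * (U : ℝ) ^ 2 ≤ x * (x : ℝ) ^ (-(1 / 100) : ℝ) := by
      calc ((x : ℝ) ^ (9 / 20 : ℝ)) ^ 2 * (U : ℝ) ^ 2
          ≤ ((x : ℝ) ^ (9 / 20 : ℝ)) ^ 2 * (x : ℝ) ^ (1 / 25 : ℝ) := by gcongr
        _ = (x : ℝ) ^ (47 / 50 : ℝ) := by
            rw [← Real.rpow_natCast, ← Real.rpow_mul hx0.le, ← Real.rpow_add hx0]; norm_num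
        _ ≤ (x : ℝ) ^ (99 / 100 : ℝ) := Real.rpow_le_rpow_of_exponent_le hx1 (by norm_num)
        _ = x * (x : ℝ) ^ (-(1 / 100) : ℝ) := by
            nth_rewrite 2 [← Real.rpow_one (x : ℝ)]
            rw [← Real.rpow_add hx0]; norm_num
    have e5 : L ≤ L ^ 5 := le_self_pow₀ hL1 (by norm_num)
    calc 32 * ((x : ℝ) ^ (9 / 20 : ℝ)) ^ 2 * (U : ℝ) ^ 2 * L
        = 32 * (((x : ℝ) ^ (9 / 20 : ℝ)) ^ 2 * (U : ℝ) ^ 2) * L := by ring
      _ ≤ 32 * (x * (x : ℝ) ^ (-(1 / 100) : ℝ)) * L ^ 5 := by gcongr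
  have e4 : E ≤ (C * 10 + 32) * (x * (x : ℝ) ^ (-(1 / 100) : ℝ)) * L ^ 5 := by
    have e5 : 3 / Real.sqrt U + 4 * ((x : ℝ) ^ (9 / 20 : ℝ)) / Real.sqrt x ≤
        10 * (x : ℝ) ^ (-(1 / 100) : ℝ) := by
      have : 3 / Real.sqrt U = 3 * (1 / Real.sqrt U) := by ring
      rw [this]
      linarith
    have e6 : C * x * L ^ 5 * (3 / Real.sqrt U + 4 * ((x : ℝ) ^ (9 / 20 : ℝ)) / Real.sqrt x) ≤
        C * x * L ^ 5 * (10 * (x : ℝ) ^ (-(1 / 100) : ℝ)) :=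
      mul_le_mul_of_nonneg_left e5 (by positivity)
    rw [hE]
    nlinarith
  have e5 : L ^ (A + 6) * (x : ℝ) ^ (-(1 / 100) : ℝ) ≤ K := by
    calc L ^ (A + 6) * (x : ℝ) ^ (-(1 / 100) : ℝ)
        ≤ (K * (x : ℝ) ^ (1 / 100 : ℝ)) * (x : ℝ) ^ (-(1 / 100) : ℝ) := by gcongr
      _ = K := by rw [mul_assoc, ← Real.rpow_add hx0]; norm_num
  have e6 : 3 * L * E ≤ 3 * (C * 10 + 32) * K * x / L ^ A := by
    rw [le_div_iff₀ (by positivity)]
    calc 3 * L * E * L ^ A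
        ≤ 3 * L * ((C * 10 + 32) * (x * (x : ℝ) ^ (-(1 / 100) : ℝ)) * L ^ 5) * L ^ A := by gcongr
      _ = 3 * (C * 10 + 32) * x * (L ^ (A + 6) * (x : ℝ) ^ (-(1 / 100) : ℝ)) := by ring
      _ ≤ 3 * (C * 10 + 32) * x * K := by gcongr
      _ = _ := by ring
  calc 2 * (C * x * L ^ 5 / R₀) + 3 * L * E
      ≤ 2 * (C * x / L ^ A) + 3 * (C * 10 + 32) * K * x / L ^ A := by linarith
    _ = (2 * C + 3 * (C * 10 + 32) * K) * x / L ^ A := by ring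

end Pool.Agent.BV
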