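import Pool.Agent.Work.BV.Defs

/-! # Module Kernel: a smooth Perron formula

`kernel`: the function `φ(u) = exp(-σ u)(1 - exp(-u))` for `u ≥ 0`, `0` for `u < 0` is continuous and
integrable, and `∫ φ(u) exp(-i t u) du = 1/(σ+it) - 1/(σ+1+it) = 1/((σ+it)(σ+1+it))`, which is
integrable in `t`. Fourier inversion (`MeasureTheory.Integrable.fourierInv_fourier_eq` and relatives)
gives `(1/2π) ∫ exp(i t u)/((σ+it)(σ+1+it)) dt = φ(u)`; multiply by `exp(σ u)`.

`perron`: expand `LSeries a (σ+it)`, interchange sum and integral (absolutely convergent: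
`∑ ‖a n‖ n^{-σ} * ∫ dt/(1+t^2) < ∞`), use `kernel` with `u = log (x/n)`; for `n > x` the value is 0 and for
`n = x` it is `0 = 1 - n/x`.

`perron_bound`: `|(σ+it)(σ+1+it)| ≥ 1 + t^2` for `σ ≥ 1`, and `∫ √(1+|t|)/(1+t^2) dt < ∞`. -/

namespace Pool.Agent.BV

open Finset Complex MeasureTheory

open scoped FourierTransform

/-- the function whose Fourier transform is the kernel -/
noncomputable def kernelF (σ : ℝ) (v : ℝ) : ℂ :=
  if 0 ≤ v then Complex.exp (-(σ : ℂ) * v) - Complex.exp (-((σ : ℂ) + 1) * v) else 0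

theorem kernel_re_ne {σ : ℝ} (hσ : 0 < σ) (t : ℝ) : (σ : ℂ) + t * I ≠ 0 := by
  intro h
  have := congrArg Complex.re h
  simp at this
  linarith

theorem kernel_re_ne' {σ : ℝ} (hσ : 0 < σ) (t : ℝ) : (σ : ℂ) + 1 + t * I ≠ 0 := by
  intro h
  have := congrArg Complex.re h
  simp at this
  linarith

theorem kernelF_cont (σ : ℝ) : Continuous (kernelF σ) := by
  unfold kernelF
  refine Continuous.if_le ?_ continuous_const continuous_const continuous_id ?_
  · fun_prop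
  · rintro x rfl
    simp

theorem kernelF_eq (σ : ℝ) : kernelF σ = (Set.Ioi (0 : ℝ)).indicator
    (fun v : ℝ => Complex.exp (-(σ : ℂ) * v) - Complex.exp (-((σ : ℂ) + 1) * v)) := by
  ext v
  unfold kernelF
  rcases lt_trichotomy v 0 with h | h | h
  · rw [if_neg (not_le.2 h), Set.indicator_of_notMem]
    simp [h.le]
  · subst h
    simp
  · rw [if_pos h.le, Set.indicator_of_mem]
    exact h

theorem kernelF_int {σ : ℝ} (hσ : 0 < σ) : Integrable (kernelF σ) := by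
  rw [kernelF_eq, integrable_indicator_iff measurableSet_Ioi]
  refine Integrable.sub ?_ ?_
  · exact integrableOn_exp_mul_complex_Ioi (by simpa using hσ) 0
  · exact integrableOn_exp_mul_complex_Ioi (by simp; linarith) 0

theorem kernelF_fourier {σ : ℝ} (hσ : 0 < σ) (w : ℝ) :
    𝓕 (kernelF σ) w = 1 / (((σ : ℂ) + ((2 * Real.pi * w : ℝ) : ℂ) * I) *
      ((σ : ℂ) + 1 + ((2 * Real.pi * w : ℝ) : ℂ) * I)) := by
  rw [Real.fourier_real_eq_integral_exp_smul]
  have h0 : (fun v : ℝ => Complex.exp (((-2 * Real.pi * v * w : ℝ) : ℂ) * I) • kernelF σ v)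
      = (Set.Ioi (0 : ℝ)).indicator (fun v : ℝ =>
        Complex.exp (-((σ : ℂ) + ((2 * Real.pi * w : ℝ) : ℂ) * I) * v)
        - Complex.exp (-((σ : ℂ) + 1 + ((2 * Real.pi * w : ℝ) : ℂ) * I) * v)) := by
    rw [kernelF_eq]
    ext v
    by_cases hv : v ∈ Set.Ioi (0 : ℝ)
    · rw [Set.indicator_of_mem hv, Set.indicator_of_mem hv, smul_eq_mul, mul_sub,
        ← Complex.exp_add, ← Complex.exp_add]
      congr 2 <;> push_cast <;> ring
    · rw [Set.indicator_of_notMem hv, Set.indicator_of_notMem hv, smul_zero]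
  rw [h0, integral_indicator measurableSet_Ioi]
  have h1 : (-((σ : ℂ) + ((2 * Real.pi * w : ℝ) : ℂ) * I)).re < 0 := by
    simp [hσ]
  have h2 : (-((σ : ℂ) + 1 + ((2 * Real.pi * w : ℝ) : ℂ) * I)).re < 0 := by
    simp; linarith
  rw [integral_sub (integrableOn_exp_mul_complex_Ioi h1 0)
    (integrableOn_exp_mul_complex_Ioi h2 0), integral_exp_mul_complex_Ioi h1,
    integral_exp_mul_complex_Ioi h2]
  have e1 := kernel_re_ne hσ (2 * Real.pi * w)
  have e2 := kernel_re_ne' hσ (2 * Real.pi * w)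
  simp only [Complex.ofReal_zero, mul_zero, Complex.exp_zero]
  rw [neg_div_neg_eq, neg_div_neg_eq, div_sub_div _ _ e1 e2]
  congr 1
  ring

theorem kernel_norm_ge {σ : ℝ} (hσ : 1 ≤ σ) (t : ℝ) :
    1 + t ^ 2 ≤ ‖((σ : ℂ) + t * I) * ((σ : ℂ) + 1 + t * I)‖ := by
  have h1 : Real.sqrt (1 + t ^ 2) ≤ ‖(σ : ℂ) + t * I‖ := by
    rw [Complex.norm_add_mul_I]
    exact Real.sqrt_le_sqrt (by nlinarith)
  have h2 : Real.sqrt (1 + t ^ 2) ≤ ‖(σ : ℂ) + 1 + t * I‖ := by
    have : (σ : ℂ) + 1 + t * I = ((σ + 1 : ℝ) : ℂ) + t * I := by push_cast; ring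
    rw [this, Complex.norm_add_mul_I]
    exact Real.sqrt_le_sqrt (by nlinarith)
  rw [norm_mul]
  calc 1 + t ^ 2 = Real.sqrt (1 + t ^ 2) * Real.sqrt (1 + t ^ 2) := by
        rw [Real.mul_self_sqrt (by positivity)]
    _ ≤ _ := mul_le_mul h1 h2 (Real.sqrt_nonneg _) (norm_nonneg _)

theorem kernel_int {σ : ℝ} (hσ : 0 < σ) :
    Integrable (fun t : ℝ => 1 / (((σ : ℂ) + t * I) * ((σ : ℂ) + 1 + t * I))) := by
  set c : ℝ := min 1 (σ ^ 2) with hc
  have hc0 : 0 < c := lt_min one_pos (by positivity)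
  have hb : Integrable (fun t : ℝ => c⁻¹ * (1 + t ^ 2)⁻¹) := integrable_inv_one_add_sq.const_mul _
  refine hb.mono' ?_ ?_
  · refine Continuous.aestronglyMeasurable ?_
    refine Continuous.div continuous_const (by fun_prop) fun t => ?_
    exact mul_ne_zero (kernel_re_ne hσ t) (kernel_re_ne' hσ t)
  · refine Filter.Eventually.of_forall fun t => ?_
    have h1 : Real.sqrt (c * (1 + t ^ 2)) ≤ ‖(σ : ℂ) + t * I‖ := by
      rw [Complex.norm_add_mul_I]
      refine Real.sqrt_le_sqrt ?_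
      have : c ≤ 1 := min_le_left _ _
      have : c ≤ σ ^ 2 := min_le_right _ _
      nlinarith [sq_nonneg t]
    have h2 : Real.sqrt (c * (1 + t ^ 2)) ≤ ‖(σ : ℂ) + 1 + t * I‖ := by
      have : (σ : ℂ) + 1 + t * I = ((σ + 1 : ℝ) : ℂ) + t * I := by push_cast; ring
      rw [this, Complex.norm_add_mul_I]
      refine Real.sqrt_le_sqrt ?_
      have : c ≤ 1 := min_le_left _ _
      have : c ≤ σ ^ 2 := min_le_right _ _
      nlinarith [sq_nonneg t]
    have h3 : c * (1 + t ^ 2) ≤ ‖((σ : ℂ) + t * I) * ((σ : ℂ) + 1 + t * I)‖ := by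
      rw [norm_mul]
      calc c * (1 + t ^ 2) = Real.sqrt (c * (1 + t ^ 2)) * Real.sqrt (c * (1 + t ^ 2)) := by
            rw [Real.mul_self_sqrt (by positivity)]
        _ ≤ _ := mul_le_mul h1 h2 (Real.sqrt_nonneg _) (norm_nonneg _)
    rw [norm_div, norm_one, one_div, ← mul_inv]
    exact inv_anti₀ (by positivity) h3

theorem kernel (σ u : ℝ) (hσ : 0 < σ) :
    ∫ t : ℝ, Complex.exp ((u : ℂ) * ((σ : ℂ) + t * I)) /
      (((σ : ℂ) + t * I) * ((σ : ℂ) + 1 + t * I)) =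
      2 * Real.pi * (if 0 ≤ u then 1 - Real.exp (-u) else 0 : ℝ) := by
  have hpi : (0 : ℝ) < 2 * Real.pi := by positivity
  have hF : Integrable (𝓕 (kernelF σ)) := by
    have : 𝓕 (kernelF σ) = fun w : ℝ => 1 / (((σ : ℂ) + ((2 * Real.pi * w : ℝ) : ℂ) * I) *
      ((σ : ℂ) + 1 + ((2 * Real.pi * w : ℝ) : ℂ) * I)) := by
      ext w; exact kernelF_fourier hσ w
    rw [this]
    exact (kernel_int hσ).comp_mul_left' hpi.ne'
  have hinv := (kernelF_int hσ).fourierInv_fourier_eq hF (v := u) (kernelF_cont σ).continuousAt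
  rw [Real.fourierInv_eq'] at hinv
  have h1 : (∫ v : ℝ, Complex.exp (((2 * Real.pi * (inner ℝ v u) : ℝ) : ℂ) * I) •
      𝓕 (kernelF σ) v)
      = ∫ v : ℝ, (fun t : ℝ => Complex.exp (((t * u : ℝ) : ℂ) * I) / (((σ : ℂ) + t * I) *
        ((σ : ℂ) + 1 + t * I))) (2 * Real.pi * v) := by
    refine integral_congr_ae (Filter.Eventually.of_forall fun v => ?_)
    simp only [kernelF_fourier hσ v, smul_eq_mul]
    rw [mul_one_div]
    congr 2
    rw [real_inner_comm]
    simp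
    ring
  have hinv' := (h1.trans (Measure.integral_comp_mul_left (fun t : ℝ =>
    Complex.exp (((t * u : ℝ) : ℂ) * I) / (((σ : ℂ) + t * I) *
        ((σ : ℂ) + 1 + t * I))) (2 * Real.pi))).symm.trans hinv
  have h2 : (∫ t : ℝ, Complex.exp (((t * u : ℝ) : ℂ) * I) / (((σ : ℂ) + t * I) *
      ((σ : ℂ) + 1 + t * I))) = 2 * Real.pi * kernelF σ u := by
    have hp : (Real.pi : ℂ) ≠ 0 := by exact_mod_cast Real.pi_ne_zero
    have hpp : (2 * (Real.pi : ℂ)) * (((2 * Real.pi)⁻¹ : ℝ) : ℂ) = 1 := by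
      push_cast
      field_simp
    rw [← hinv', abs_of_pos (by positivity), Complex.real_smul, ← mul_assoc, hpp, one_mul]
  have h3 : (∫ t : ℝ, Complex.exp ((u : ℂ) * ((σ : ℂ) + t * I)) /
      (((σ : ℂ) + t * I) * ((σ : ℂ) + 1 + t * I)))
      = Complex.exp (u * σ) * ∫ t : ℝ, Complex.exp (((t * u : ℝ) : ℂ) * I) / (((σ : ℂ) + t * I) *
        ((σ : ℂ) + 1 + t * I)) := by
    rw [← integral_const_mul]
    refine integral_congr_ae (Filter.Eventually.of_forall fun t => ?_)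
    simp only
    rw [← mul_div_assoc, ← Complex.exp_add]
    congr 2
    push_cast
    ring
  rw [h3, h2]
  unfold kernelF
  split_ifs with h
  · rw [mul_left_comm, mul_sub, ← Complex.exp_add, ← Complex.exp_add]
    have e1 : (u : ℂ) * σ + -(σ : ℂ) * u = 0 := by ring
    have e2 : (u : ℂ) * σ + -((σ : ℂ) + 1) * u = -u := by ring
    rw [e1, e2]
    push_cast
    simp
  · simp

theorem perron (a : ℕ → ℂ) (σ : ℝ) (hσ : 1 < σ) (ha : LSeriesSummable a σ) (x : ℕ)
    (hx : 1 ≤ x) :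
    ∑ n ∈ Icc 1 x, a n * (1 - (n : ℂ) / x) =
      (1 / (2 * Real.pi : ℝ) : ℂ) * ∫ t : ℝ, LSeries a ((σ : ℂ) + t * I) *
        (x : ℂ) ^ ((σ : ℂ) + t * I) / (((σ : ℂ) + t * I) * ((σ : ℂ) + 1 + t * I)) := by
  have hσ0 : 0 < σ := by linarith
  have hx0 : (0 : ℝ) < x := by exact_mod_cast hx
  have hxC : (x : ℂ) ≠ 0 := by exact_mod_cast hx0.ne'
  set F : ℕ → ℝ → ℂ := fun n t => LSeries.term a ((σ : ℂ) + t * I) n *
    (x : ℂ) ^ ((σ : ℂ) + t * I) / (((σ : ℂ) + t * I) * ((σ : ℂ) + 1 + t * I)) with hF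
  have hnorm : ∀ n t, ‖F n t‖ = ‖LSeries.term a σ n‖ * (x : ℝ) ^ σ *
      ‖1 / (((σ : ℂ) + t * I) * ((σ : ℂ) + 1 + t * I))‖ := by
    intro n t
    simp only [hF]
    rw [norm_div, norm_mul, norm_div, norm_one, mul_one_div]
    congr 2
    · rw [LSeries.norm_term_eq, LSeries.norm_term_eq]
      simp
    · rw [Complex.norm_natCast_cpow_of_pos (by omega)]
      simp
  have hmeas : ∀ n, AEStronglyMeasurable (F n) volume := by
    intro n
    refine Continuous.aestronglyMeasurable ?_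
    refine Continuous.div ?_ (by fun_prop) fun t =>
      mul_ne_zero (kernel_re_ne hσ0 t) (kernel_re_ne' hσ0 t)
    refine Continuous.mul ?_ ?_
    · rcases eq_or_ne n 0 with rfl | hn
      · simp only [LSeries.term_zero]
        exact continuous_const
      · simp only [LSeries.term_of_ne_zero hn]
        refine Continuous.div continuous_const ?_ fun t => ?_
        · exact Continuous.const_cpow (by fun_prop) (Or.inl (by exact_mod_cast hn))
        · simp [Complex.cpow_eq_zero_iff, hn]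
    · exact Continuous.const_cpow (by fun_prop) (Or.inl hxC)
  have hFint : ∀ n, Integrable (F n) := by
    intro n
    refine ((kernel_int hσ0).norm.const_mul (‖LSeries.term a σ n‖ * (x : ℝ) ^ σ)).mono' (hmeas n)
      (Filter.Eventually.of_forall fun t => ?_)
    rw [hnorm]
  have hFsum : Summable fun n => ∫ t, ‖F n t‖ := by
    have : (fun n => ∫ t, ‖F n t‖) = fun n => ‖LSeries.term a σ n‖ * ((x : ℝ) ^ σ *
        ∫ t : ℝ, ‖1 / (((σ : ℂ) + t * I) * ((σ : ℂ) + 1 + t * I))‖) := by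
      ext n
      simp_rw [hnorm]
      rw [integral_const_mul]
      ring
    rw [this]
    exact ha.norm.mul_right _
  have hmain := hasSum_integral_of_summable_integral_norm hFint hFsum
  have hcell : ∀ n, ∫ t, F n t = 2 * Real.pi * (if n ∈ Icc 1 x then a n * (1 - (n : ℂ) / x) else 0) := by
    intro n
    rcases eq_or_ne n 0 with rfl | hn
    · simp [hF]
    have hn0 : (0 : ℝ) < n := by exact_mod_cast Nat.pos_of_ne_zero hn
    have hnC : (n : ℂ) ≠ 0 := by exact_mod_cast hn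
    have h1 : ∀ t : ℝ, F n t = a n * (Complex.exp (((Real.log (x / n) : ℝ) : ℂ) *
        ((σ : ℂ) + t * I)) / (((σ : ℂ) + t * I) * ((σ : ℂ) + 1 + t * I))) := by
      intro t
      simp only [hF]
      rw [LSeries.term_of_ne_zero hn, ← mul_div_assoc]
      congr 1
      rw [div_mul_eq_mul_div, mul_div_assoc]
      congr 1
      rw [Complex.cpow_def_of_ne_zero hxC, Complex.cpow_def_of_ne_zero hnC, ← Complex.exp_sub,
        Real.log_div hx0.ne' hn0.ne']
      congr 1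
      rw [← Complex.natCast_log, ← Complex.natCast_log]
      push_cast
      ring
    simp_rw [h1]
    rw [integral_const_mul, kernel σ _ hσ0]
    by_cases hnx : n ≤ x
    · have hle : 0 ≤ Real.log (x / n) := Real.log_nonneg (by
        rw [le_div_iff₀ hn0]; simpa using (by exact_mod_cast hnx : (n : ℝ) ≤ x))
      rw [if_pos hle, if_pos (mem_Icc.2 ⟨Nat.pos_of_ne_zero hn, hnx⟩), Real.exp_neg,
        Real.exp_log (by positivity)]
      push_cast
      rw [inv_div]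
      ring
    · have hlt : Real.log (x / n) < 0 := Real.log_neg (by positivity) (by
        rw [div_lt_one hn0]; exact_mod_cast not_le.1 hnx)
      rw [if_neg (not_le.2 hlt), if_neg (by simp [hnx])]
      simp
  have hint : (∫ t : ℝ, LSeries a ((σ : ℂ) + t * I) *
        (x : ℂ) ^ ((σ : ℂ) + t * I) / (((σ : ℂ) + t * I) * ((σ : ℂ) + 1 + t * I)))
      = ∫ t, ∑' n, F n t := by
    refine integral_congr_ae (Filter.Eventually.of_forall fun t => ?_)
    simp only [hF]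
    rw [tsum_div_const, tsum_mul_right]
    rfl
  rw [hint, ← hmain.tsum_eq]
  simp_rw [hcell]
  rw [tsum_mul_left, tsum_eq_sum (s := Icc 1 x) (fun n hn => if_neg hn)]
  rw [Finset.sum_congr rfl fun n hn => if_pos hn, ← mul_assoc]
  have hp : (Real.pi : ℂ) ≠ 0 := by exact_mod_cast Real.pi_ne_zero
  have hpp : (1 / (2 * Real.pi : ℝ) : ℂ) * (2 * Real.pi) = 1 := by
    push_cast
    field_simp
  rw [hpp, one_mul]

theorem perron_bound : ∃ C : ℝ, 0 < C ∧ ∀ (a : ℕ → ℂ) (σ B : ℝ) (x : ℕ), 1 < σ → σ ≤ 2 →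
    LSeriesSummable a σ → 1 ≤ x → 0 ≤ B →
    (∀ t : ℝ, ‖LSeries a ((σ : ℂ) + t * I)‖ ≤ B * Real.sqrt (1 + |t|)) →
    ‖∑ n ∈ Icc 1 x, a n * ((x : ℂ) - n)‖ ≤ C * B * (x : ℝ) ^ (σ + 1) := by
  have hJ : Integrable (fun t : ℝ => 2 * (1 + ‖t‖) ^ (-(3 / 2 : ℝ))) :=
    (integrable_one_add_norm (by simp; norm_num)).const_mul 2
  set J : ℝ := ∫ t : ℝ, 2 * (1 + ‖t‖) ^ (-(3 / 2 : ℝ)) with hJd
  have hJ0 : 0 ≤ J := integral_nonneg fun t => by positivity
  refine ⟨J + 1, by positivity, ?_⟩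
  intro a σ B x hσ hσ2 ha hx hB hbd
  have hσ0 : 0 < σ := by linarith
  have hx0 : (0 : ℝ) < x := by exact_mod_cast hx
  have hxC : (x : ℂ) ≠ 0 := by exact_mod_cast hx0.ne'
  have h1 : ∑ n ∈ Icc 1 x, a n * ((x : ℂ) - n) = x * ∑ n ∈ Icc 1 x, a n * (1 - (n : ℂ) / x) := by
    rw [mul_sum]
    refine sum_congr rfl fun n _ => ?_
    field_simp
  rw [h1, perron a σ hσ ha x hx, norm_mul, norm_mul]
  have h2 : ‖∫ t : ℝ, LSeries a ((σ : ℂ) + t * I) *
        (x : ℂ) ^ ((σ : ℂ) + t * I) / (((σ : ℂ) + t * I) * ((σ : ℂ) + 1 + t * I))‖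
      ≤ ∫ t : ℝ, B * (x : ℝ) ^ σ * (2 * (1 + ‖t‖) ^ (-(3 / 2 : ℝ))) := by
    refine norm_integral_le_of_norm_le (hJ.const_mul _) (Filter.Eventually.of_forall fun t => ?_)
    rw [norm_div, norm_mul]
    have e1 : ‖(x : ℂ) ^ ((σ : ℂ) + t * I)‖ = (x : ℝ) ^ σ := by
      rw [Complex.norm_natCast_cpow_of_pos (by omega)]
      simp
    rw [e1]
    have e2 := kernel_norm_ge hσ.le t
    have e3 : (1 + |t|) ^ 2 / 2 ≤ 1 + t ^ 2 := by
      have := sq_nonneg (1 - |t|)
      nlinarith [sq_abs t]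
    have e4 : (0 : ℝ) < 1 + |t| := by positivity
    calc ‖LSeries a ((σ : ℂ) + t * I)‖ * (x : ℝ) ^ σ /
          ‖((σ : ℂ) + t * I) * ((σ : ℂ) + 1 + t * I)‖
        ≤ (B * Real.sqrt (1 + |t|)) * (x : ℝ) ^ σ / ((1 + |t|) ^ 2 / 2) := by
          refine div_le_div₀ (by positivity) ?_ (by positivity) (e3.trans e2)
          exact mul_le_mul_of_nonneg_right (hbd t) (by positivity)
      _ = B * (x : ℝ) ^ σ * (2 * (1 + ‖t‖) ^ (-(3 / 2 : ℝ))) := by
          rw [Real.norm_eq_abs]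
          have : (1 + |t|) ^ (-(3 / 2 : ℝ)) = Real.sqrt (1 + |t|) / (1 + |t|) ^ 2 := by
            rw [Real.sqrt_eq_rpow, ← Real.rpow_natCast, ← Real.rpow_sub e4]
            norm_num
          rw [this]
          field_simp
  rw [integral_const_mul, ← hJd] at h2
  have h3 : ‖(1 / (2 * Real.pi : ℝ) : ℂ)‖ ≤ 1 := by
    rw [← Complex.ofReal_one, ← Complex.ofReal_div, Complex.norm_real, Real.norm_eq_abs,
      abs_of_pos (by positivity), div_le_one (by positivity)]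
    linarith [Real.pi_gt_three]
  calc ‖(x : ℂ)‖ * (‖(1 / (2 * Real.pi : ℝ) : ℂ)‖ * ‖∫ t : ℝ, LSeries a ((σ : ℂ) + t * I) *
        (x : ℂ) ^ ((σ : ℂ) + t * I) / (((σ : ℂ) + t * I) * ((σ : ℂ) + 1 + t * I))‖)
      ≤ x * (1 * (B * (x : ℝ) ^ σ * J)) := by
        rw [Complex.norm_natCast]
        gcongr
    _ = J * B * (x : ℝ) ^ (σ + 1) := by
        rw [Real.rpow_add hx0, Real.rpow_one]; ring
    _ ≤ (J + 1) * B * (x : ℝ) ^ (σ + 1) := by
        gcongr
        linarith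

end Pool.Agent.BV
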