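import Pool.Agent.Work.BV.Defs
import Pool.Agent.Work.MP_92f640_nt.LConv

/-! # Module LBound: upper bounds for Dirichlet series just to the right of `Re s = 1`

`Lser_bound`: `N = ⌈q(|t|+3)⌉`; head `∑_{n≤N} (log n)^j/n ≪ ℓ^{j+1}`; tail by Abel summation with
`‖∑_{M<n≤y} χ n‖ ≤ 2q` (`char_sum_bound`, `χ ≠ 1`) and `g(n) = (log n)^j n^{-s}` (`LBound_tail`).
`Lser_triv_bound`: the same with `χ_0(n) - φ(q)/q`, plus the tail of `ζ`. -/

namespace Pool.Agent.BV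

open Finset DirichletCharacter Complex Filter Topology

theorem LBound_logMul_iter (j : ℕ) (f : ℕ → ℂ) (n : ℕ) :
    (LSeries.logMul^[j] f) n = ((Real.log n : ℝ) : ℂ) ^ j * f n := by
  induction j with
  | zero => simp
  | succ j ih =>
    rw [Function.iterate_succ', Function.comp_apply]
    simp only [LSeries.logMul, ih]
    rw [← natCast_log]
    ring

/-- the series converge absolutely -/
theorem Lser_summable {q : ℕ} (χ : DirichletCharacter ℂ q) (j : ℕ) {s : ℂ} (hs : 1 < s.re) :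
    LSeriesSummable (fun n : ℕ => χ (n : ZMod q) * ((Real.log n : ℝ) : ℂ) ^ j) s := by
  have h1 : LSeriesSummable (LSeries.logMul^[j] 1) s := by
    apply LSeriesSummable_of_abscissaOfAbsConv_lt_re
    rw [LSeries.absicssaOfAbsConv_logPowMul, LSeries.abscissaOfAbsConv_one]
    exact_mod_cast hs
  unfold LSeriesSummable at h1 ⊢
  refine Summable.of_norm_bounded h1.norm (fun n => ?_)
  rcases Nat.eq_zero_or_pos n with rfl | hn
  · simp
  · rw [LSeries.term_of_ne_zero hn.ne', LSeries.term_of_ne_zero hn.ne', LBound_logMul_iter,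
      norm_div, norm_div]
    gcongr
    rw [norm_mul, norm_mul, mul_comm]
    simp only [Pi.one_apply, norm_one]
    gcongr
    exact χ.norm_le_one _

theorem Lser_zero_eq {q : ℕ} [NeZero q] (χ : DirichletCharacter ℂ q) {s : ℂ} (hs : 1 < s.re) :
    Lser χ 0 s = χ.LFunction s := by
  rw [DirichletCharacter.LFunction_eq_LSeries χ hs]
  unfold Lser
  simp

theorem one_le_ell (q : ℕ) (hq : 1 ≤ q) (s : ℂ) : 1 ≤ ell q s := by
  unfold ell
  rw [Real.le_log_iff_exp_le (by positivity)]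
  have h1 : Real.exp 1 < 3 := by
    have := Real.exp_one_lt_d9
    linarith
  have h2 : (1 : ℝ) ≤ q := by exact_mod_cast hq
  have h3 := abs_nonneg s.im
  nlinarith

/-- Abel summation -/
theorem LBound_abel (a g : ℕ → ℂ) (N M : ℕ) (hNM : N ≤ M) :
    ∑ n ∈ Ioc N M, a n * g n = (∑ n ∈ Ioc N M, a n) * g (M + 1)
      - ∑ n ∈ Ioc N M, (∑ k ∈ Ioc N n, a k) * (g (n + 1) - g n) := by
  induction M, hNM using Nat.le_induction with
  | base => simp
  | succ M hM ih =>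
    rw [Finset.sum_Ioc_succ_top (by omega), ih, Finset.sum_Ioc_succ_top (by omega),
      Finset.sum_Ioc_succ_top (by omega), Finset.sum_Ioc_succ_top (by omega)]
    ring

theorem LBound_abel_norm (a g : ℕ → ℂ) (N M : ℕ) (hNM : N ≤ M) (B : ℝ) (D : ℕ → ℝ)
    (hB : ∀ m, N ≤ m → ‖∑ k ∈ Ioc N m, a k‖ ≤ B)
    (hD : ∀ n, N < n → ‖g (n + 1) - g n‖ ≤ D n) :
    ‖∑ n ∈ Ioc N M, a n * g n‖ ≤ B * ‖g (M + 1)‖ + B * ∑ n ∈ Ioc N M, D n := by
  have hB0 : 0 ≤ B := (norm_nonneg _).trans (hB N le_rfl)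
  rw [LBound_abel a g N M hNM]
  refine (norm_sub_le _ _).trans ?_
  gcongr
  · rw [norm_mul]
    gcongr
    exact hB M hNM
  · refine (norm_sum_le _ _).trans ?_
    rw [mul_sum]
    refine sum_le_sum (fun n hn => ?_)
    rw [mem_Ioc] at hn
    rw [norm_mul]
    exact mul_le_mul (hB n (by omega)) (hD n hn.1) (norm_nonneg _) hB0

/-- `(log n)^j ≤ C (log N)^j (n/N)^{1/2}` for `3 ≤ N ≤ n` -/
theorem LBound_log_pow (j : ℕ) : ∃ C : ℝ, 1 ≤ C ∧ ∀ x y : ℝ, 3 ≤ y → y ≤ x →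
    (Real.log x) ^ j ≤ C * (Real.log y) ^ j * Real.sqrt (x / y) := by
  refine ⟨(2 * j + 1 : ℝ) ^ j, one_le_pow₀ (by linarith [(Nat.cast_nonneg j : (0 : ℝ) ≤ j)]), ?_⟩
  intro x y hy hxy
  have hy0 : 0 < y := by linarith
  have hx0 : 0 < x := by linarith
  have hlogy : 1 ≤ Real.log y := by
    rw [Real.le_log_iff_exp_le hy0]
    have := Real.exp_one_lt_d9
    linarith
  have hd : 0 ≤ Real.log (x / y) := Real.log_nonneg (by rw [le_div_iff₀ hy0]; linarith)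
  have h1 : Real.log x ≤ Real.log y * (1 + Real.log (x / y)) := by
    have : Real.log x = Real.log y + Real.log (x / y) := by
      rw [Real.log_div hx0.ne' hy0.ne']; ring
    rw [this]; nlinarith
  have hlogx : 0 ≤ Real.log x := Real.log_nonneg (by linarith)
  have h2 : (1 + Real.log (x / y)) ^ j ≤ (2 * j + 1 : ℝ) ^ j * Real.sqrt (x / y) := by
    set d := Real.log (x / y) with hdd
    have e1 : Real.sqrt (x / y) = Real.exp (d / 2) := by
      rw [hdd, Real.exp_half, Real.exp_log (by positivity)]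
    rw [e1]
    rcases Nat.eq_zero_or_pos j with rfl | hj
    · simp only [pow_zero, one_mul, Real.one_le_exp_iff]; positivity
    · have hj' : (0 : ℝ) < j := by exact_mod_cast hj
      have h3 : 1 + d ≤ (2 * j + 1) * Real.exp (d / (2 * j)) := by
        have h4 := Real.add_one_le_exp (d / (2 * j))
        have h5 : (2 * j + 1 : ℝ) * (d / (2 * j) + 1) ≤ (2 * j + 1) * Real.exp (d / (2 * j)) := by
          gcongr
        have h6 : 1 + d ≤ (2 * j + 1 : ℝ) * (d / (2 * j) + 1) := by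
          have : (2 * j + 1 : ℝ) * (d / (2 * j) + 1) = d + d / (2 * j) + 2 * j + 1 := by
            field_simp
            ring
          rw [this]
          have : 0 ≤ d / (2 * j) := by positivity
          linarith
        linarith
      calc (1 + d) ^ j ≤ ((2 * j + 1) * Real.exp (d / (2 * j))) ^ j := by gcongr
        _ = (2 * j + 1 : ℝ) ^ j * Real.exp (d / 2) := by
            rw [mul_pow, ← Real.exp_nat_mul]
            congr 2
            field_simp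
  calc (Real.log x) ^ j ≤ (Real.log y * (1 + Real.log (x / y))) ^ j := by gcongr
    _ = (Real.log y) ^ j * (1 + Real.log (x / y)) ^ j := by rw [mul_pow]
    _ ≤ (Real.log y) ^ j * ((2 * j + 1 : ℝ) ^ j * Real.sqrt (x / y)) := by gcongr
    _ = _ := by ring

/-- `n^{-3/2} ≤ 2 ((n-1)^{-1/2} - n^{-1/2})` summed -/
theorem LBound_tail_sum (N M : ℕ) (hN : 1 ≤ N) (hNM : N ≤ M) :
    ∑ n ∈ Ioc N M, Real.sqrt n / (n : ℝ) ^ 2 ≤ 2 * (1 / Real.sqrt N - 1 / Real.sqrt M) := by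
  induction M, hNM using Nat.le_induction with
  | base => simp
  | succ M hM ih =>
    rw [Finset.sum_Ioc_succ_top (by omega)]
    have hM0 : (0 : ℝ) < M := by exact_mod_cast (by omega : 0 < M)
    set u := Real.sqrt (M : ℝ) with hu
    set v := Real.sqrt ((M + 1 : ℕ) : ℝ) with hv
    have hu0 : 0 < u := Real.sqrt_pos.mpr hM0
    have hu2 : u ^ 2 = M := Real.sq_sqrt hM0.le
    have hv2 : v ^ 2 = M + 1 := by
      rw [hv, Real.sq_sqrt (by positivity)]; push_cast; ring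
    have hv0 : 0 < v := Real.sqrt_pos.mpr (by positivity)
    have huv : u ≤ v := Real.sqrt_le_sqrt (by push_cast; linarith)
    have h1 : v / (((M + 1 : ℕ) : ℝ)) ^ 2 ≤ 2 * (1 / u - 1 / v) := by
      have e1 : (((M + 1 : ℕ) : ℝ)) = v ^ 2 := by rw [hv2]; push_cast; ring
      rw [e1]
      have e2 : v / (v ^ 2) ^ 2 = 1 / v ^ 3 := by field_simp
      have e3 : 1 / u - 1 / v = (v - u) / (u * v) := by field_simp
      have e4 : (v - u) * (v + u) = 1 := by
        have : (v - u) * (v + u) = v ^ 2 - u ^ 2 := by ring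
        rw [this, hv2, hu2]; ring
      rw [e2, e3, div_le_iff₀ (by positivity)]
      have e5 : 2 * ((v - u) / (u * v)) * v ^ 3 = 2 * (v - u) * v ^ 2 / u := by field_simp
      rw [e5, le_div_iff₀ hu0]
      have : 2 * (v - u) * v ^ 2 ≥ (v - u) * (v + u) * v := by
        have h0 : 0 ≤ v - u := by linarith
        nlinarith [mul_nonneg h0 (mul_nonneg hv0.le h0)]
      rw [e4] at this
      linarith
    linarith

theorem LBound_pow_sub (j : ℕ) {a b : ℝ} (ha : 0 ≤ a) (hab : a ≤ b) (hb : 1 ≤ b) :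
    b ^ j - a ^ j ≤ j * b ^ j * (b - a) := by
  have hb0 : 0 < b := by linarith
  have h1 : 1 + (j : ℝ) * (-((b - a) / b)) ≤ (1 + -((b - a) / b)) ^ j := by
    apply one_add_mul_le_pow
    have : (b - a) / b ≤ 1 := by rw [div_le_one hb0]; linarith
    linarith
  have h2 : 1 + -((b - a) / b) = a / b := by field_simp; ring
  rw [h2, div_pow, le_div_iff₀ (by positivity)] at h1
  have h3 : (1 + (j : ℝ) * (-((b - a) / b))) * b ^ j = b ^ j - j * b ^ j * (b - a) / b := by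
    ring
  rw [h3] at h1
  have h4 : j * b ^ j * (b - a) / b ≤ j * b ^ j * (b - a) := by
    apply div_le_self _ hb
    have : 0 ≤ b - a := by linarith
    positivity
  linarith

/-- the weight -/
noncomputable def LBound_g (j : ℕ) (s : ℂ) (n : ℕ) : ℂ := ((Real.log n : ℝ) : ℂ) ^ j * (n : ℂ) ^ (-s)

theorem LBound_cpow_norm {s : ℂ} (hs : 1 ≤ s.re) {n : ℕ} (hn : 1 ≤ n) :
    ‖(n : ℂ) ^ (-s)‖ ≤ 1 / (n : ℝ) := by
  have hn' : (1 : ℝ) ≤ n := by exact_mod_cast hn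
  rw [← Complex.ofReal_natCast, Complex.norm_cpow_eq_rpow_re_of_pos (by linarith)]
  simp only [neg_re]
  calc (n : ℝ) ^ (-s.re) ≤ (n : ℝ) ^ (-1 : ℝ) :=
        Real.rpow_le_rpow_of_exponent_le hn' (by linarith)
    _ = 1 / n := by rw [Real.rpow_neg_one]; simp

theorem LBound_g_norm (j : ℕ) {s : ℂ} (hs : 1 ≤ s.re) {n : ℕ} (hn : 1 ≤ n) :
    ‖LBound_g j s n‖ ≤ (Real.log n) ^ j / n := by
  unfold LBound_g
  have hn' : (1 : ℝ) ≤ n := by exact_mod_cast hn
  have h0 : 0 ≤ Real.log n := Real.log_nonneg hn'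
  rw [norm_mul, norm_pow, Complex.norm_real, Real.norm_eq_abs, abs_of_nonneg h0]
  calc Real.log n ^ j * ‖(n : ℂ) ^ (-s)‖ ≤ Real.log n ^ j * (1 / n) := by
        gcongr; exact LBound_cpow_norm hs hn
    _ = _ := by ring

theorem LBound_g_diff (j : ℕ) {s : ℂ} (hs : 1 < s.re) {n : ℕ} (hn : 3 ≤ n) :
    ‖LBound_g j s (n + 1) - LBound_g j s n‖ ≤
      (‖s‖ + j) * 2 ^ j * (Real.log n) ^ j / (n : ℝ) ^ 2 := by
  have hn' : (3 : ℝ) ≤ n := by exact_mod_cast hn
  have hn0 : (0 : ℝ) < n := by linarith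
  have hlogn : 1 ≤ Real.log n := by
    rw [Real.le_log_iff_exp_le hn0]
    have := Real.exp_one_lt_d9
    linarith
  set L := Real.log ((n + 1 : ℕ) : ℝ) with hL
  have hLn : Real.log n ≤ L := Real.log_le_log hn0 (by push_cast; linarith)
  have hL1 : L - Real.log n ≤ 1 / n := by
    rw [hL, ← Real.log_div (by positivity) hn0.ne']
    have := Real.log_le_sub_one_of_pos (x := ((n + 1 : ℕ) : ℝ) / n) (by positivity)
    refine this.trans (le_of_eq ?_)
    push_cast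
    field_simp
    ring
  have hL2 : L ≤ 2 * Real.log n := by
    have : (2 : ℝ) * Real.log n = Real.log ((n : ℝ) ^ 2) := by rw [Real.log_pow]; norm_num
    rw [this]
    apply Real.log_le_log (by positivity)
    push_cast
    nlinarith
  have e1 : LBound_g j s (n + 1) - LBound_g j s n =
      (L : ℂ) ^ j * (((n + 1 : ℕ) : ℂ) ^ (-s) - (n : ℂ) ^ (-s)) +
      ((L : ℂ) ^ j - ((Real.log n : ℝ) : ℂ) ^ j) * (n : ℂ) ^ (-s) := by
    unfold LBound_g
    ring
  rw [e1]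
  have h1 : ‖((n + 1 : ℕ) : ℂ) ^ (-s) - (n : ℂ) ^ (-s)‖ ≤ ‖s‖ / (n : ℝ) ^ 2 := by
    refine (Pool.Agent.Work.MP_92f640_nt.norm_cpow_sub_le (by linarith) (by omega)).trans ?_
    have : (n : ℝ) ^ (-(s.re + 1)) ≤ 1 / (n : ℝ) ^ 2 := by
      calc (n : ℝ) ^ (-(s.re + 1)) ≤ (n : ℝ) ^ (-2 : ℝ) :=
            Real.rpow_le_rpow_of_exponent_le (by linarith) (by linarith)
        _ = 1 / (n : ℝ) ^ 2 := by
            rw [Real.rpow_neg hn0.le]; norm_num
    calc ‖s‖ * (n : ℝ) ^ (-(s.re + 1)) ≤ ‖s‖ * (1 / (n : ℝ) ^ 2) := by gcongr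
      _ = _ := by ring
  have hL0 : 0 ≤ L := by linarith
  have h2 : ‖(L : ℂ) ^ j - ((Real.log n : ℝ) : ℂ) ^ j‖ ≤ j * L ^ j * (1 / n) := by
    rw [← Complex.ofReal_pow, ← Complex.ofReal_pow, ← Complex.ofReal_sub, Complex.norm_real,
      Real.norm_eq_abs, abs_of_nonneg (sub_nonneg.mpr (pow_le_pow_left₀ (by linarith) hLn j))]
    refine (LBound_pow_sub j (by linarith) hLn (by linarith)).trans ?_
    gcongr
  have h3 : ‖(L : ℂ) ^ j‖ = L ^ j := by
    rw [norm_pow, Complex.norm_real, Real.norm_eq_abs, abs_of_nonneg hL0]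
  have h4 : ‖(n : ℂ) ^ (-s)‖ ≤ 1 / (n : ℝ) := LBound_cpow_norm hs.le (by omega)
  calc ‖(L : ℂ) ^ j * (((n + 1 : ℕ) : ℂ) ^ (-s) - (n : ℂ) ^ (-s)) +
      ((L : ℂ) ^ j - ((Real.log n : ℝ) : ℂ) ^ j) * (n : ℂ) ^ (-s)‖
      ≤ L ^ j * (‖s‖ / (n : ℝ) ^ 2) + (j * L ^ j * (1 / n)) * (1 / n) := by
        refine (norm_add_le _ _).trans ?_
        rw [norm_mul, norm_mul, h3]
        gcongr
    _ = (‖s‖ + j) * L ^ j / (n : ℝ) ^ 2 := by field_simp
    _ ≤ (‖s‖ + j) * (2 * Real.log n) ^ j / (n : ℝ) ^ 2 := by gcongr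
    _ = _ := by rw [mul_pow]; ring

theorem LBound_tail (j : ℕ) : ∃ C : ℝ, 0 < C ∧ ∀ (q : ℕ), 1 ≤ q → ∀ s : ℂ, 1 < s.re → s.re ≤ 2 →
    ∀ a : ℕ → ℂ, (∀ N m, N ≤ m → ‖∑ k ∈ Ioc N m, a k‖ ≤ 2 * q) →
    ∀ N : ℕ, (q : ℝ) * (|s.im| + 3) ≤ N → ∀ M, N ≤ M →
    ‖∑ n ∈ Ioc N M, a n * LBound_g j s n‖ ≤ C * (Real.log N) ^ j := by
  obtain ⟨C, hC1, hC⟩ := LBound_log_pow j
  refine ⟨2 * C + 4 * 2 ^ j * C + 4 * j * 2 ^ j * C, by positivity, ?_⟩
  intro q hq s hs hs2 a ha N hN M hM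
  have hq' : (1 : ℝ) ≤ q := by exact_mod_cast hq
  have him := abs_nonneg s.im
  have hN3 : (3 : ℝ) ≤ N := by nlinarith
  have hN3' : 3 ≤ N := by exact_mod_cast hN3
  have hN0 : (0 : ℝ) < N := by linarith
  have hlogN : 0 ≤ Real.log N := Real.log_nonneg (by linarith)
  have hqN : (q : ℝ) ≤ N := by nlinarith
  have hsn : ‖s‖ ≤ |s.im| + 3 := by
    have := Complex.norm_le_abs_re_add_abs_im s
    rw [abs_of_pos (by linarith : (0 : ℝ) < s.re)] at this
    linarith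
  have hqsN : (q : ℝ) * ‖s‖ ≤ N := by
    refine le_trans ?_ hN
    gcongr
  set K := (‖s‖ + j) * 2 ^ j * C * (Real.log N) ^ j / Real.sqrt N with hK
  have hsqN : 0 < Real.sqrt (N : ℝ) := Real.sqrt_pos.mpr hN0
  have hsqN2 : Real.sqrt (N : ℝ) * Real.sqrt (N : ℝ) = N := Real.mul_self_sqrt hN0.le
  have h1 := LBound_abel_norm a (LBound_g j s) N M hM (2 * q)
    (fun n => K * (Real.sqrt n / (n : ℝ) ^ 2)) (fun m hm => ha N m hm) (by
      intro n hn
      have hn' : (N : ℝ) ≤ n := by exact_mod_cast hn.le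
      refine (LBound_g_diff j hs (by omega)).trans ?_
      have h2 := hC n N hN3 hn'
      have h3 : (‖s‖ + j) * 2 ^ j * (Real.log n) ^ j / (n : ℝ) ^ 2 ≤
          (‖s‖ + j) * 2 ^ j * (C * Real.log N ^ j * Real.sqrt (n / N)) / (n : ℝ) ^ 2 := by
        gcongr
      refine h3.trans (le_of_eq ?_)
      rw [hK, Real.sqrt_div (by positivity)]
      field_simp)
  have h2 : ‖LBound_g j s (M + 1)‖ ≤ C * (Real.log N) ^ j / N := by
    refine (LBound_g_norm j hs.le (by omega)).trans ?_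
    have hM' : (N : ℝ) ≤ ((M + 1 : ℕ) : ℝ) := by exact_mod_cast (by omega : N ≤ M + 1)
    have hM0 : (0 : ℝ) < ((M + 1 : ℕ) : ℝ) := by linarith
    have h3 := hC ((M + 1 : ℕ) : ℝ) N hN3 hM'
    rw [Real.sqrt_div hM0.le] at h3
    have h4 : Real.sqrt (N : ℝ) ≤ Real.sqrt ((M + 1 : ℕ) : ℝ) := Real.sqrt_le_sqrt hM'
    have h5 : Real.sqrt ((M + 1 : ℕ) : ℝ) * Real.sqrt ((M + 1 : ℕ) : ℝ) = ((M + 1 : ℕ) : ℝ) :=
      Real.mul_self_sqrt hM0.le
    have h6 : 0 < Real.sqrt ((M + 1 : ℕ) : ℝ) := by linarith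
    have h7 : Real.sqrt ((M + 1 : ℕ) : ℝ) / Real.sqrt N / ((M + 1 : ℕ) : ℝ) ≤ 1 / N := by
      rw [div_div, div_le_div_iff₀ (by positivity) hN0, one_mul]
      nth_rewrite 2 [← h5]
      nth_rewrite 1 [← hsqN2]
      have := mul_le_mul_of_nonneg_left h4 (mul_nonneg h6.le hsqN.le)
      linarith
    calc Real.log ((M + 1 : ℕ) : ℝ) ^ j / ((M + 1 : ℕ) : ℝ)
        ≤ C * Real.log N ^ j * (Real.sqrt ((M + 1 : ℕ) : ℝ) / Real.sqrt N) / ((M + 1 : ℕ) : ℝ) := by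
          gcongr
      _ = C * Real.log N ^ j * (Real.sqrt ((M + 1 : ℕ) : ℝ) / Real.sqrt N / ((M + 1 : ℕ) : ℝ)) := by
          ring
      _ ≤ C * Real.log N ^ j * (1 / N) := by gcongr
      _ = _ := by ring
  have h3 : ∑ n ∈ Ioc N M, K * (Real.sqrt n / (n : ℝ) ^ 2) ≤
      2 * ((‖s‖ + j) * 2 ^ j * C * (Real.log N) ^ j) / N := by
    rw [← mul_sum]
    have h4 := LBound_tail_sum N M (by omega) hM
    have h5 : 2 * (1 / Real.sqrt (N : ℝ) - 1 / Real.sqrt M) ≤ 2 / Real.sqrt (N : ℝ) := by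
      have : 0 ≤ 1 / Real.sqrt (M : ℝ) := by positivity
      have e : 2 / Real.sqrt (N : ℝ) = 2 * (1 / Real.sqrt (N : ℝ)) := by ring
      rw [e]; linarith
    have hK0 : 0 ≤ K := by positivity
    calc K * ∑ n ∈ Ioc N M, (Real.sqrt n / (n : ℝ) ^ 2) ≤ K * (2 / Real.sqrt (N : ℝ)) := by
          gcongr; exact h4.trans h5
      _ = 2 * ((‖s‖ + j) * 2 ^ j * C * (Real.log N) ^ j) / (Real.sqrt N * Real.sqrt N) := by
          rw [hK]; field_simp
      _ = _ := by rw [hsqN2]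
  refine h1.trans ?_
  have h4 : 2 * (q : ℝ) * ‖LBound_g j s (M + 1)‖ ≤ 2 * C * (Real.log N) ^ j := by
    calc 2 * (q : ℝ) * ‖LBound_g j s (M + 1)‖ ≤ 2 * q * (C * (Real.log N) ^ j / N) := by gcongr
      _ = 2 * C * (Real.log N) ^ j * (q / N) := by ring
      _ ≤ 2 * C * (Real.log N) ^ j * 1 := by
          gcongr
          rw [div_le_one hN0]; exact hqN
      _ = _ := by ring
  have h5 : 2 * (q : ℝ) * ∑ n ∈ Ioc N M, K * (Real.sqrt n / (n : ℝ) ^ 2) ≤
      (4 * 2 ^ j * C + 4 * j * 2 ^ j * C) * (Real.log N) ^ j := by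
    calc 2 * (q : ℝ) * ∑ n ∈ Ioc N M, K * (Real.sqrt n / (n : ℝ) ^ 2)
        ≤ 2 * q * (2 * ((‖s‖ + j) * 2 ^ j * C * (Real.log N) ^ j) / N) := by gcongr
      _ = 4 * 2 ^ j * C * (Real.log N) ^ j * (q * ‖s‖ / N) +
          4 * j * 2 ^ j * C * (Real.log N) ^ j * (q / N) := by ring
      _ ≤ 4 * 2 ^ j * C * (Real.log N) ^ j * 1 + 4 * j * 2 ^ j * C * (Real.log N) ^ j * 1 := by
          gcongr
          · rw [div_le_one hN0]; exact hqsN
          · rw [div_le_one hN0]; exact hqN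
      _ = _ := by ring
  calc _ ≤ 2 * C * (Real.log N) ^ j + (4 * 2 ^ j * C + 4 * j * 2 ^ j * C) * (Real.log N) ^ j :=
        add_le_add h4 h5
    _ = _ := by ring

theorem LBound_tendsto {f : ℕ → ℂ} {s : ℂ} (h : LSeriesSummable f s) :
    Tendsto (fun M : ℕ => ∑ n ∈ Ioc 0 M, f n * (n : ℂ) ^ (-s)) atTop (𝓝 (LSeries f s)) := by
  have h6 := h.hasSum.tendsto_sum_nat
  have h7 := (tendsto_add_atTop_iff_nat 1).2 h6
  refine h7.congr (fun N => ?_)
  rw [Finset.sum_range_succ']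
  simp only [LSeries.term_zero, add_zero]
  have h8 : Finset.Ioc 0 N =
      (Finset.range N).map ⟨fun i => i + 1, fun a b h => by simpa using h⟩ := by
    ext n
    simp only [Finset.mem_Ioc, Finset.mem_map, Finset.mem_range, Function.Embedding.coeFn_mk]
    constructor
    · rintro ⟨h9, h10⟩; exact ⟨n - 1, by omega, by omega⟩
    · rintro ⟨a, h9, rfl⟩; omega
  rw [h8, Finset.sum_map]
  apply Finset.sum_congr rfl
  intro n _
  simp only [Function.Embedding.coeFn_mk]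
  rw [LSeries.term_of_ne_zero (Nat.succ_ne_zero n), Complex.cpow_neg]
  rfl

theorem LBound_le_of_partial {f : ℕ → ℂ} {s : ℂ} (h : LSeriesSummable f s) {K : ℝ} (N : ℕ)
    (hK : ∀ M, N ≤ M → ‖∑ n ∈ Ioc 0 M, f n * (n : ℂ) ^ (-s)‖ ≤ K) : ‖LSeries f s‖ ≤ K := by
  refine le_of_tendsto (LBound_tendsto h).norm ?_
  filter_upwards [eventually_ge_atTop N] with M hM
  exact hK M hM

theorem LBound_harm (N : ℕ) : ∑ n ∈ Ioc 0 N, 1 / (n : ℝ) ≤ 1 + Real.log N := by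
  have h := harmonic_le_one_add_log N
  rw [harmonic_eq_sum_Icc] at h
  push_cast at h
  have e : Ioc 0 N = Icc 1 N := by ext; simp only [mem_Ioc, mem_Icc]; omega
  rw [e]
  simpa using h

theorem LBound_head (j : ℕ) {s : ℂ} (hs : 1 ≤ s.re) (a : ℕ → ℂ) (ha : ∀ n, ‖a n‖ ≤ 1) (N : ℕ)
    (hN : 1 ≤ N) :
    ‖∑ n ∈ Ioc 0 N, a n * LBound_g j s n‖ ≤ (Real.log N) ^ j * (1 + Real.log N) := by
  refine (norm_sum_le _ _).trans ?_
  calc ∑ n ∈ Ioc 0 N, ‖a n * LBound_g j s n‖ ≤ ∑ n ∈ Ioc 0 N, (Real.log N) ^ j * (1 / (n : ℝ)) := by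
        refine sum_le_sum (fun n hn => ?_)
        rw [mem_Ioc] at hn
        have hn1 : (1 : ℝ) ≤ n := by exact_mod_cast hn.1
        have hnN : (n : ℝ) ≤ N := by exact_mod_cast hn.2
        rw [norm_mul]
        calc ‖a n‖ * ‖LBound_g j s n‖ ≤ 1 * ((Real.log n) ^ j / n) := by
              gcongr
              · exact ha n
              · exact LBound_g_norm j hs hn.1
          _ ≤ 1 * ((Real.log N) ^ j / n) := by
              have : 0 ≤ Real.log n := Real.log_nonneg hn1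
              gcongr
          _ = _ := by ring
    _ = (Real.log N) ^ j * ∑ n ∈ Ioc 0 N, 1 / (n : ℝ) := by rw [mul_sum]
    _ ≤ _ := by
        have : 0 ≤ Real.log N := Real.log_nonneg (by exact_mod_cast hN)
        gcongr
        exact LBound_harm N

/-- the cut-off -/
theorem LBound_cut (q : ℕ) (hq : 1 ≤ q) (s : ℂ) : ∃ N : ℕ, 3 ≤ N ∧ (q : ℝ) * (|s.im| + 3) ≤ N ∧
    Real.log N ≤ 2 * ell q s ∧ 1 ≤ Real.log N := by
  have hq' : (1 : ℝ) ≤ q := by exact_mod_cast hq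
  have him := abs_nonneg s.im
  have h3 : (3 : ℝ) ≤ (q : ℝ) * (|s.im| + 3) := by nlinarith
  have hc := Nat.le_ceil ((q : ℝ) * (|s.im| + 3))
  have hc2 := Nat.ceil_lt_add_one (a := (q : ℝ) * (|s.im| + 3)) (by linarith)
  have hN3 : (3 : ℝ) ≤ (⌈(q : ℝ) * (|s.im| + 3)⌉₊ : ℝ) := h3.trans hc
  refine ⟨⌈(q : ℝ) * (|s.im| + 3)⌉₊, by exact_mod_cast hN3, hc, ?_, ?_⟩
  · unfold ell
    have : (2 : ℝ) * Real.log ((q : ℝ) * (|s.im| + 3)) =
        Real.log (((q : ℝ) * (|s.im| + 3)) ^ 2) := by rw [Real.log_pow]; norm_num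
    rw [this]
    apply Real.log_le_log (by linarith)
    nlinarith
  · rw [Real.le_log_iff_exp_le (by linarith)]
    have := Real.exp_one_lt_d9
    linarith

theorem Lser_bound (j : ℕ) : ∃ C : ℝ, 0 < C ∧ ∀ (q : ℕ) [NeZero q] (χ : DirichletCharacter ℂ q),
    χ ≠ 1 → ∀ s : ℂ, 1 < s.re → s.re ≤ 2 → ‖Lser χ j s‖ ≤ C * (ell q s) ^ (j + 1) := by
  obtain ⟨C, hC0, hC⟩ := LBound_tail j
  refine ⟨2 ^ j * 3 + 2 ^ j * C, by positivity, ?_⟩
  intro q _ χ hχ s hs hs2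
  have hq : 1 ≤ q := Nat.one_le_iff_ne_zero.mpr (NeZero.ne q)
  obtain ⟨N, hN3, hN, hN2, hN1⟩ := LBound_cut q hq s
  have hell := one_le_ell q hq s
  unfold Lser
  refine LBound_le_of_partial (Lser_summable χ j hs) N ?_
  intro M hM
  have e1 : ∀ n : ℕ, χ (n : ZMod q) * ((Real.log n : ℝ) : ℂ) ^ j * (n : ℂ) ^ (-s) =
      χ (n : ZMod q) * LBound_g j s n := by
    intro n; unfold LBound_g; ring
  simp only [e1]
  rw [← Finset.sum_Ioc_consecutive _ (Nat.zero_le N) hM]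
  refine (norm_add_le _ _).trans ?_
  have h1 := LBound_head j hs.le (fun n : ℕ => χ (n : ZMod q)) (fun n => χ.norm_le_one _) N
    (by omega)
  have h2 := hC q hq s hs hs2 (fun n : ℕ => χ (n : ZMod q)) (by
    intro N m hNm
    have h3 := Finset.sum_Ioc_consecutive (fun n => χ ((n : ℕ) : ZMod q)) (Nat.zero_le N) hNm
    have h4 : ∑ k ∈ Ioc N m, χ ((k : ℕ) : ZMod q) =
        ∑ k ∈ Ioc 0 m, χ ((k : ℕ) : ZMod q) - ∑ k ∈ Ioc 0 N, χ ((k : ℕ) : ZMod q) := by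
      rw [← h3]; ring
    rw [h4]
    refine (norm_sub_le _ _).trans ?_
    have h5 := Pool.Agent.Work.MP_92f640_nt.char_sum_bound χ hχ m
    have h6 := Pool.Agent.Work.MP_92f640_nt.char_sum_bound χ hχ N
    linarith) N hN M hM
  have h3 : (Real.log N) ^ j * (1 + Real.log N) ≤ 2 ^ j * 3 * (ell q s) ^ (j + 1) := by
    calc (Real.log N) ^ j * (1 + Real.log N) ≤ (2 * ell q s) ^ j * (ell q s + 2 * ell q s) := by
          gcongr
      _ = _ := by rw [mul_pow, pow_succ]; ring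
  have h4 : C * (Real.log N) ^ j ≤ 2 ^ j * C * (ell q s) ^ (j + 1) := by
    calc C * (Real.log N) ^ j ≤ C * (2 * ell q s) ^ j := by gcongr
      _ = 2 ^ j * C * (ell q s) ^ j * 1 := by rw [mul_pow]; ring
      _ ≤ 2 ^ j * C * (ell q s) ^ j * ell q s := by gcongr
      _ = _ := by rw [pow_succ]; ring
  calc _ ≤ (Real.log N) ^ j * (1 + Real.log N) + C * (Real.log N) ^ j := add_le_add h1 h2
    _ ≤ _ := by linarith

/-- comparison of `n^{-s}` with a telescoping sequence -/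
theorem LBound_F_diff {s : ℂ} (hs : 1 < s.re) {n : ℕ} (hn : 1 ≤ n) :
    ‖(n : ℂ) ^ (-s) - (((n + 1 : ℕ) : ℂ) ^ (1 - s) / (1 - s) - (n : ℂ) ^ (1 - s) / (1 - s))‖ ≤
      ‖s‖ / (n : ℝ) ^ 2 := by
  have hnR : (1 : ℝ) ≤ n := by exact_mod_cast hn
  have hn0 : (0 : ℝ) < n := by linarith
  have hne : (1 - s : ℂ) ≠ 0 := by
    intro h
    have : (1 - s : ℂ).re = 0 := by rw [h]; simp
    simp at this
    linarith
  have hne2 : (-s : ℂ) ≠ 0 := by
    intro h
    have : (-s : ℂ).re = 0 := by rw [h]; simp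
    simp at this
    linarith
  -- the difference on [n, t]
  have hdiff : ∀ t ∈ Set.Icc (n : ℝ) ((n : ℝ) + 1),
      ‖(t : ℂ) ^ (-s) - (n : ℂ) ^ (-s)‖ ≤ ‖s‖ / (n : ℝ) ^ 2 := by
    intro t ht
    have h := norm_image_sub_le_of_norm_deriv_le_segment' (f := fun t : ℝ => (t : ℂ) ^ (-s))
      (f' := fun t : ℝ => -s * (t : ℂ) ^ (-s - 1)) (C := ‖s‖ / (n : ℝ) ^ 2)
      (a := (n : ℝ)) (b := (n : ℝ) + 1) ?_ ?_ t ht
    · simp only [Complex.ofReal_natCast] at h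
      refine h.trans ?_
      have : t - n ≤ 1 := by linarith [ht.2]
      calc ‖s‖ / (n : ℝ) ^ 2 * (t - n) ≤ ‖s‖ / (n : ℝ) ^ 2 * 1 := by gcongr
        _ = _ := by ring
    · intro t ht
      have ht0 : (0 : ℝ) < t := lt_of_lt_of_le hn0 ht.1
      exact (hasDerivAt_ofReal_cpow_const (x := t) ht0.ne' (r := -s) hne2).hasDerivWithinAt
    · intro t ht
      have ht0 : (0 : ℝ) < t := lt_of_lt_of_le hn0 ht.1
      rw [norm_mul, norm_neg, Complex.norm_cpow_eq_rpow_re_of_pos ht0]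
      simp only [sub_re, neg_re, one_re]
      have e : t ^ (-s.re - 1) ≤ 1 / (n : ℝ) ^ 2 := by
        calc t ^ (-s.re - 1) ≤ (n : ℝ) ^ (-s.re - 1) := by
              apply Real.rpow_le_rpow_of_nonpos hn0 ht.1
              linarith
          _ ≤ (n : ℝ) ^ (-2 : ℝ) := Real.rpow_le_rpow_of_exponent_le hnR (by linarith)
          _ = 1 / (n : ℝ) ^ 2 := by rw [Real.rpow_neg hn0.le]; norm_num
      calc ‖s‖ * t ^ (-s.re - 1) ≤ ‖s‖ * (1 / (n : ℝ) ^ 2) := by gcongr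
        _ = _ := by ring
  have h := norm_image_sub_le_of_norm_deriv_le_segment'
    (f := fun t : ℝ => (t : ℂ) ^ (1 - s) / (1 - s) - (t : ℂ) * (n : ℂ) ^ (-s))
    (f' := fun t : ℝ => (t : ℂ) ^ (-s) - (n : ℂ) ^ (-s)) (C := ‖s‖ / (n : ℝ) ^ 2)
    (a := (n : ℝ)) (b := (n : ℝ) + 1) ?_ ?_ ((n : ℝ) + 1) ?_
  · have e1 : (fun t : ℝ => (t : ℂ) ^ (1 - s) / (1 - s) - (t : ℂ) * (n : ℂ) ^ (-s)) ((n : ℝ) + 1) -
        (fun t : ℝ => (t : ℂ) ^ (1 - s) / (1 - s) - (t : ℂ) * (n : ℂ) ^ (-s)) (n : ℝ) =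
        -((n : ℂ) ^ (-s) -
          (((n + 1 : ℕ) : ℂ) ^ (1 - s) / (1 - s) - (n : ℂ) ^ (1 - s) / (1 - s))) := by
      push_cast
      ring
    rw [e1, norm_neg] at h
    refine h.trans (le_of_eq ?_)
    ring
  · intro t ht
    have ht0 : (0 : ℝ) < t := lt_of_lt_of_le hn0 ht.1
    have h1 := (hasDerivAt_ofReal_cpow_const (x := t) ht0.ne' (r := 1 - s) hne).div_const (1 - s)
    have h2 : HasDerivAt (fun t : ℝ => (t : ℂ) * (n : ℂ) ^ (-s)) ((n : ℂ) ^ (-s)) t := by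
      simpa using (Complex.ofRealCLM.hasDerivAt (x := t)).mul_const ((n : ℂ) ^ (-s))
    have h3 := h1.sub h2
    have e : (1 - s) * (t : ℂ) ^ (1 - s - 1) / (1 - s) - (n : ℂ) ^ (-s) =
        (t : ℂ) ^ (-s) - (n : ℂ) ^ (-s) := by
      rw [show (1 : ℂ) - s - 1 = -s by ring]
      field_simp
    rw [e] at h3
    exact h3.hasDerivWithinAt
  · intro t ht
    exact hdiff t ⟨ht.1, ht.2.le⟩
  · exact ⟨by linarith, le_refl _⟩

theorem LBound_sq_sum (N M : ℕ) (hN : 1 ≤ N) (hNM : N ≤ M) :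
    ∑ n ∈ Ioc N M, 1 / (n : ℝ) ^ 2 ≤ 1 / (N : ℝ) - 1 / (M : ℝ) := by
  induction M, hNM using Nat.le_induction with
  | base => simp
  | succ M hM ih =>
    rw [Finset.sum_Ioc_succ_top (by omega)]
    have hM0 : (0 : ℝ) < M := by exact_mod_cast (by omega : 0 < M)
    have : 1 / (((M + 1 : ℕ) : ℝ)) ^ 2 ≤ 1 / (M : ℝ) - 1 / ((M + 1 : ℕ) : ℝ) := by
      push_cast
      rw [div_sub_div _ _ hM0.ne' (by positivity), div_le_div_iff₀ (by positivity) (by positivity)]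
      nlinarith
    linarith

theorem LBound_zeta_tail {s : ℂ} (hs : 1 < s.re) (N M : ℕ) (hN : 1 ≤ N) (hNM : N ≤ M) :
    ‖∑ n ∈ Ioc N M, (n : ℂ) ^ (-s)‖ ≤ 2 / ‖s - 1‖ + ‖s‖ / N := by
  set F : ℕ → ℂ := fun n => (n : ℂ) ^ (1 - s) / (1 - s) with hF
  have htel : ∑ n ∈ Ioc N M, (F (n + 1) - F n) = F (M + 1) - F (N + 1) := by
    induction M, hNM using Nat.le_induction with
    | base => simp
    | succ M hM ih => rw [Finset.sum_Ioc_succ_top (by omega), ih]; ring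
  have hFn : ∀ n : ℕ, 1 ≤ n → ‖F n‖ ≤ 1 / ‖s - 1‖ := by
    intro n hn
    have hn' : (1 : ℝ) ≤ n := by exact_mod_cast hn
    rw [hF]
    simp only
    rw [norm_div, norm_sub_rev 1 s]
    gcongr
    rw [← Complex.ofReal_natCast, Complex.norm_cpow_eq_rpow_re_of_pos (by linarith)]
    apply Real.rpow_le_one_of_one_le_of_nonpos hn'
    simp only [sub_re, one_re]
    linarith
  have e1 : ∑ n ∈ Ioc N M, (n : ℂ) ^ (-s) =
      ∑ n ∈ Ioc N M, ((n : ℂ) ^ (-s) - (F (n + 1) - F n)) + (F (M + 1) - F (N + 1)) := by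
    rw [← htel, ← sum_add_distrib]
    exact sum_congr rfl (fun n _ => by ring)
  rw [e1]
  have h1 : ‖∑ n ∈ Ioc N M, ((n : ℂ) ^ (-s) - (F (n + 1) - F n))‖ ≤ ‖s‖ / N := by
    refine (norm_sum_le _ _).trans ?_
    calc ∑ n ∈ Ioc N M, ‖(n : ℂ) ^ (-s) - (F (n + 1) - F n)‖
        ≤ ∑ n ∈ Ioc N M, ‖s‖ * (1 / (n : ℝ) ^ 2) := by
          refine sum_le_sum (fun n hn => ?_)
          rw [mem_Ioc] at hn
          refine (LBound_F_diff hs (by omega)).trans (le_of_eq (by ring))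
      _ = ‖s‖ * ∑ n ∈ Ioc N M, 1 / (n : ℝ) ^ 2 := by rw [mul_sum]
      _ ≤ ‖s‖ * (1 / (N : ℝ)) := by
          gcongr
          refine (LBound_sq_sum N M hN hNM).trans ?_
          have : 0 ≤ 1 / (M : ℝ) := by positivity
          linarith
      _ = _ := by ring
  have h2 : ‖F (M + 1) - F (N + 1)‖ ≤ 2 / ‖s - 1‖ := by
    refine (norm_sub_le _ _).trans ?_
    have a1 := hFn (M + 1) (by omega)
    have a2 := hFn (N + 1) (by omega)
    have : 2 / ‖s - 1‖ = 1 / ‖s - 1‖ + 1 / ‖s - 1‖ := by ring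
    rw [this]; linarith
  refine (norm_add_le _ _).trans ?_
  linarith

theorem LBound_triv_period (q : ℕ) [NeZero q] (N : ℕ) :
    ∑ n ∈ Ioc N (N + q), ((1 : DirichletCharacter ℂ q) (n : ZMod q) - (q.totient : ℂ) / q) = 0 := by
  have hq : (q : ℂ) ≠ 0 := by exact_mod_cast NeZero.ne q
  rw [sum_sub_distrib, sum_const, Nat.card_Ioc]
  have h1 : ∑ n ∈ Ioc N (N + q), (1 : DirichletCharacter ℂ q) (n : ZMod q) = q.totient := by
    have h2 := Nat.filter_coprime_Ico_eq_totient q (N + 1)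
    have e : Ioc N (N + q) = Ico (N + 1) (N + 1 + q) := by
      ext; simp only [mem_Ioc, mem_Ico]; omega
    rw [e, ← h2, card_filter]
    push_cast
    refine sum_congr rfl (fun n _ => ?_)
    by_cases hn : Nat.Coprime q n
    · rw [if_pos hn]
      have : IsUnit (n : ZMod q) := (ZMod.isUnit_iff_coprime n q).mpr hn.symm
      exact MulChar.one_apply this
    · rw [if_neg hn]
      have : ¬ IsUnit (n : ZMod q) := fun h => hn ((ZMod.isUnit_iff_coprime n q).mp h).symm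
      exact MulChar.map_nonunit _ this
  rw [h1]
  have : (N + q - N : ℕ) = q := by omega
  rw [this, nsmul_eq_mul]
  field_simp
  ring

theorem LBound_triv_norm (q : ℕ) [NeZero q] (n : ℕ) :
    ‖(1 : DirichletCharacter ℂ q) (n : ZMod q) - (q.totient : ℂ) / q‖ ≤ 1 := by
  have hq : (0 : ℝ) < q := by exact_mod_cast Nat.pos_of_ne_zero (NeZero.ne q)
  have h1 : (q.totient : ℝ) / q ≤ 1 := by
    rw [div_le_one hq]; exact_mod_cast Nat.totient_le q
  have h0 : 0 ≤ (q.totient : ℝ) / q := by positivity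
  have e : ((q.totient : ℂ) / q) = (((q.totient : ℝ) / q : ℝ) : ℂ) := by push_cast; ring
  by_cases hn : IsUnit (n : ZMod q)
  · rw [MulChar.one_apply hn, e, ← Complex.ofReal_one, ← Complex.ofReal_sub, Complex.norm_real,
      Real.norm_eq_abs, abs_of_nonneg (by linarith)]
    linarith
  · rw [MulChar.map_nonunit _ hn, e, zero_sub, norm_neg, Complex.norm_real,
      Real.norm_eq_abs, abs_of_nonneg h0]
    exact h1

theorem LBound_triv_sum (q : ℕ) [NeZero q] (N m : ℕ) (hNm : N ≤ m) :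
    ‖∑ n ∈ Ioc N m, ((1 : DirichletCharacter ℂ q) (n : ZMod q) - (q.totient : ℂ) / q)‖ ≤
      2 * q := by
  have hq : 0 < q := Nat.pos_of_ne_zero (NeZero.ne q)
  obtain ⟨d, rfl⟩ := Nat.exists_eq_add_of_le hNm
  clear hNm
  induction d using Nat.strong_induction_on with
  | _ d ih =>
    by_cases h : d ≤ q
    · calc _ ≤ ∑ n ∈ Ioc N (N + d),
            ‖(1 : DirichletCharacter ℂ q) (n : ZMod q) - (q.totient : ℂ) / q‖ := norm_sum_le _ _
        _ ≤ ∑ n ∈ Ioc N (N + d), (1 : ℝ) := sum_le_sum (fun n _ => LBound_triv_norm q n)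
        _ = d := by simp
        _ ≤ q := by exact_mod_cast h
        _ ≤ 2 * q := by
            have : (0 : ℝ) ≤ q := by positivity
            linarith
    · push Not at h
      have h1 := LBound_triv_period q (N + (d - q))
      rw [show N + (d - q) + q = N + d by omega] at h1
      rw [← Finset.sum_Ioc_consecutive _ (show N ≤ N + (d - q) by omega)
        (show N + (d - q) ≤ N + d by omega), h1, add_zero]
      exact ih (d - q) (by omega)

theorem Lser_triv_bound : ∃ C : ℝ, 0 < C ∧ ∀ (q : ℕ) [NeZero q], ∀ s : ℂ, 1 < s.re → s.re ≤ 2 →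
    ‖Lser (1 : DirichletCharacter ℂ q) 0 s‖ ≤ C * (ell q s + 1 / ‖s - 1‖) := by
  obtain ⟨C, hC0, hC⟩ := LBound_tail 0
  refine ⟨4 + C, by positivity, ?_⟩
  intro q _ s hs hs2
  have hq : 1 ≤ q := Nat.one_le_iff_ne_zero.mpr (NeZero.ne q)
  have hq0 : (0 : ℝ) < q := by exact_mod_cast hq
  obtain ⟨N, hN3, hN, hN2, hN1⟩ := LBound_cut q hq s
  have hell := one_le_ell q hq s
  have hN0 : (0 : ℝ) < N := by exact_mod_cast (by omega : 0 < N)
  unfold Lser
  refine LBound_le_of_partial (Lser_summable _ 0 hs) N ?_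
  intro M hM
  have e1 : ∀ n : ℕ, (1 : DirichletCharacter ℂ q) (n : ZMod q) * ((Real.log n : ℝ) : ℂ) ^ 0 *
      (n : ℂ) ^ (-s) = (1 : DirichletCharacter ℂ q) (n : ZMod q) * LBound_g 0 s n := by
    intro n; unfold LBound_g; ring
  simp only [e1]
  rw [← Finset.sum_Ioc_consecutive _ (Nat.zero_le N) hM]
  refine (norm_add_le _ _).trans ?_
  have h1 := LBound_head 0 hs.le (fun n : ℕ => (1 : DirichletCharacter ℂ q) (n : ZMod q))
    (fun n => DirichletCharacter.norm_le_one _ _) N (by omega)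
  simp only [pow_zero, one_mul] at h1
  have h2 := hC q hq s hs hs2
    (fun n : ℕ => (1 : DirichletCharacter ℂ q) (n : ZMod q) - (q.totient : ℂ) / q)
    (fun N m hNm => LBound_triv_sum q N m hNm) N hN M hM
  simp only [pow_zero, mul_one] at h2
  have h3 := LBound_zeta_tail hs N M (by omega) hM
  have e2 : ∑ n ∈ Ioc N M, (1 : DirichletCharacter ℂ q) (n : ZMod q) * LBound_g 0 s n =
      ∑ n ∈ Ioc N M, ((1 : DirichletCharacter ℂ q) (n : ZMod q) - (q.totient : ℂ) / q) *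
        LBound_g 0 s n + (q.totient : ℂ) / q * ∑ n ∈ Ioc N M, (n : ℂ) ^ (-s) := by
    rw [mul_sum, ← sum_add_distrib]
    refine sum_congr rfl (fun n _ => ?_)
    unfold LBound_g
    ring
  have h4 : ‖(q.totient : ℂ) / q‖ ≤ 1 := by
    rw [norm_div, Complex.norm_natCast, Complex.norm_natCast, div_le_one hq0]
    exact_mod_cast Nat.totient_le q
  have h5 : ‖(q.totient : ℂ) / q * ∑ n ∈ Ioc N M, (n : ℂ) ^ (-s)‖ ≤ 2 / ‖s - 1‖ + ‖s‖ / N := by
    rw [norm_mul]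
    calc _ ≤ 1 * (2 / ‖s - 1‖ + ‖s‖ / N) := by gcongr
      _ = _ := one_mul _
  have h6 : ‖s‖ / N ≤ 1 := by
    rw [div_le_one hN0]
    have hsn : ‖s‖ ≤ |s.im| + 3 := by
      have := Complex.norm_le_abs_re_add_abs_im s
      rw [abs_of_pos (by linarith : (0 : ℝ) < s.re)] at this
      linarith
    have hq' : (1 : ℝ) ≤ q := by exact_mod_cast hq
    have := abs_nonneg s.im
    nlinarith
  have h7 : ‖∑ n ∈ Ioc N M, (1 : DirichletCharacter ℂ q) (n : ZMod q) * LBound_g 0 s n‖ ≤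
      C + (2 / ‖s - 1‖ + 1) := by
    rw [e2]
    refine (norm_add_le _ _).trans ?_
    linarith
  have h8 : 0 ≤ 1 / ‖s - 1‖ := by positivity
  have e3 : 2 / ‖s - 1‖ = 2 * (1 / ‖s - 1‖) := by ring
  rw [e3] at h7
  have h9 : (0 : ℝ) ≤ C * (1 / ‖s - 1‖) := by positivity
  calc _ ≤ (1 + Real.log N) + (C + (2 * (1 / ‖s - 1‖) + 1)) := add_le_add h1 h7
    _ ≤ (4 + C) * (ell q s + 1 / ‖s - 1‖) := by nlinarith

end Pool.Agent.BV
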