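import Pool.Agent.Work.BV.LBound

/-! # Module LNear: continuity estimates for `L(s, χ)` near the line `Re s = 1` -/

namespace Pool.Agent.BV

open Finset DirichletCharacter Complex
open Filter Topology

lemma lnear_deriv {q : ℕ} [NeZero q] (χ : DirichletCharacter ℂ q) {s : ℂ} (hs : 1 < s.re) :
    deriv χ.LFunction s = - Lser χ 1 s := by
  rw [DirichletCharacter.deriv_LFunction_eq_deriv_LSeries χ hs, LSeries_deriv]
  · congr 1
    unfold Lser
    apply LSeries_congr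
    intro n hn
    simp only [LSeries.logMul, pow_one]
    rw [Complex.ofReal_log (by positivity), mul_comm]
    simp
  · exact lt_of_le_of_lt (DirichletCharacter.absicssaOfAbsConv_eq_one (NeZero.ne q) χ).le
      (by exact_mod_cast hs)

/-- the region -/
def lnearS (T : ℝ) : Set ℂ := {z | 1 < z.re ∧ z.re ≤ 2 ∧ |z.im| ≤ T}

lemma lnearS_convex (T : ℝ) : Convex ℝ (lnearS T) := by
  intro z hz w hw a b ha hb hab
  obtain ⟨h1, h2, h3⟩ := hz
  obtain ⟨h4, h5, h6⟩ := hw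
  have hb' : b = 1 - a := by linarith
  refine ⟨?_, ?_, ?_⟩
  · simp only [add_re, real_smul, re_ofReal_mul]
    rcases eq_or_lt_of_le ha with h | h
    · rw [← h] at hab ⊢
      rw [zero_add] at hab
      rw [hab]; linarith
    · nlinarith
  · simp only [add_re, real_smul, re_ofReal_mul]
    nlinarith
  · simp only [add_im, real_smul, im_ofReal_mul]
    calc |a * z.im + b * w.im| ≤ |a * z.im| + |b * w.im| := abs_add_le _ _
      _ = a * |z.im| + b * |w.im| := by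
          rw [abs_mul, abs_mul, abs_of_nonneg ha, abs_of_nonneg hb]
      _ ≤ a * T + b * T := by gcongr
      _ = T := by rw [← add_mul, hab, one_mul]

lemma lnear_main : ∃ C : ℝ, 0 < C ∧ ∀ (q : ℕ) [NeZero q]
    (χ : DirichletCharacter ℂ q), χ ≠ 1 → ∀ T : ℝ, 0 ≤ T → ∀ z ∈ lnearS T, ∀ w ∈ lnearS T,
    ‖χ.LFunction z - χ.LFunction w‖ ≤ C * (Real.log (q * (T + 3))) ^ 2 * ‖z - w‖ := by
  obtain ⟨C, hC, h⟩ := Lser_bound 1
  refine ⟨C, hC, ?_⟩
  intro q _ χ hχ T hT z hz w hw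
  have hq : (1 : ℝ) ≤ q := by exact_mod_cast Nat.one_le_iff_ne_zero.2 (NeZero.ne q)
  refine Convex.norm_image_sub_le_of_norm_deriv_le (𝕜 := ℂ) (s := lnearS T)
    (f := χ.LFunction) ?_ ?_ (lnearS_convex T) hw hz
  · intro x _
    exact (DirichletCharacter.differentiable_LFunction hχ) x
  · intro x hx
    obtain ⟨h1, h2, h3⟩ := hx
    rw [lnear_deriv χ h1, norm_neg]
    refine (h q χ hχ x h1 h2).trans ?_
    rw [show (1 + 1 : ℕ) = 2 from rfl]
    apply mul_le_mul_of_nonneg_left _ hC.le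
    apply pow_le_pow_left₀
    · exact le_trans zero_le_one (one_le_ell q (by exact_mod_cast hq) x)
    · unfold ell
      apply Real.log_le_log
      · positivity
      · gcongr

theorem LFunction_horizontal : ∃ C : ℝ, 0 < C ∧ ∀ (q : ℕ) [NeZero q]
    (χ : DirichletCharacter ℂ q), χ ≠ 1 → ∀ σ₁ σ₂ t : ℝ, 1 < σ₁ → σ₁ ≤ σ₂ → σ₂ ≤ 2 →
    ‖χ.LFunction ((σ₂ : ℂ) + t * I) - χ.LFunction ((σ₁ : ℂ) + t * I)‖ ≤
      C * (σ₂ - σ₁) * (Real.log (q * (|t| + 3))) ^ 2 := by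
  obtain ⟨C, hC, h⟩ := lnear_main
  refine ⟨C, hC, ?_⟩
  intro q _ χ hχ σ₁ σ₂ t h1 h2 h3
  have h4 := h q χ hχ |t| (abs_nonneg t) ((σ₂ : ℂ) + t * I) ⟨by simp; linarith, by simpa using h3,
    by simp⟩ ((σ₁ : ℂ) + t * I) ⟨by simpa using h1, by simp; linarith, by simp⟩
  refine h4.trans (le_of_eq ?_)
  have h5 : ((σ₂ : ℂ) + t * I) - ((σ₁ : ℂ) + t * I) = ((σ₂ - σ₁ : ℝ) : ℂ) := by
    push_cast; ring
  rw [h5, Complex.norm_real, Real.norm_eq_abs, abs_of_nonneg (show (0 : ℝ) ≤ σ₂ - σ₁ by linarith)]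
  ring

theorem LFunction_near_one : ∃ C : ℝ, 0 < C ∧ ∀ (q : ℕ) [NeZero q]
    (χ : DirichletCharacter ℂ q), χ ≠ 1 → ∀ s : ℂ, 1 < s.re → s.re ≤ 2 →
    ‖χ.LFunction s - χ.LFunction 1‖ ≤ C * ‖s - 1‖ * (ell q s) ^ 2 := by
  obtain ⟨C, hC, h⟩ := lnear_main
  refine ⟨C, hC, ?_⟩
  intro q _ χ hχ s hs hs2
  have hcont : Tendsto (fun ρ : ℝ => ‖χ.LFunction s - χ.LFunction (1 + ρ * (s - 1))‖)
      (𝓝[>] 0) (𝓝 ‖χ.LFunction s - χ.LFunction 1‖) := by
    have h1 : Continuous fun ρ : ℝ => ‖χ.LFunction s - χ.LFunction (1 + ρ * (s - 1))‖ := by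
      have h2 := (DirichletCharacter.differentiable_LFunction hχ).continuous
      fun_prop
    have h3 := h1.tendsto 0
    simp only [ofReal_zero, zero_mul, add_zero] at h3
    exact h3.mono_left nhdsWithin_le_nhds
  refine le_of_tendsto hcont ?_
  filter_upwards [Ioo_mem_nhdsGT (show (0 : ℝ) < 1 by norm_num)] with ρ hρ
  have h4 := h q χ hχ |s.im| (abs_nonneg _) s ⟨hs, hs2, le_rfl⟩ (1 + ρ * (s - 1))
    ⟨by
      simp only [add_re, one_re, re_ofReal_mul, sub_re]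
      nlinarith [hρ.1], by
      simp only [add_re, one_re, re_ofReal_mul, sub_re]
      nlinarith [hρ.1, hρ.2], by
      simp only [add_im, one_im, im_ofReal_mul, sub_im, zero_add, sub_zero]
      rw [abs_mul, abs_of_pos hρ.1]
      nlinarith [abs_nonneg s.im, hρ.2]⟩
  refine h4.trans ?_
  have h5 : s - (1 + ρ * (s - 1)) = ((1 - ρ : ℝ) : ℂ) * (s - 1) := by push_cast; ring
  rw [h5, norm_mul, Complex.norm_real, Real.norm_eq_abs,
    abs_of_nonneg (show (0 : ℝ) ≤ 1 - ρ by linarith [hρ.2])]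
  have h6 : (1 - ρ) * ‖s - 1‖ ≤ ‖s - 1‖ := by nlinarith [norm_nonneg (s - 1), hρ.1]
  have h7 : 0 ≤ C * ell q s ^ 2 := by positivity
  have h8 : C * Real.log (q * (|s.im| + 3)) ^ 2 * ((1 - ρ) * ‖s - 1‖) ≤
      C * ell q s ^ 2 * ‖s - 1‖ := mul_le_mul_of_nonneg_left h6 h7
  calc _ ≤ C * ell q s ^ 2 * ‖s - 1‖ := h8
    _ = C * ‖s - 1‖ * ell q s ^ 2 := by ring

theorem LFunction_one_le : ∃ C : ℝ, 0 < C ∧ ∀ (q : ℕ) [NeZero q]
    (χ : DirichletCharacter ℂ q), χ ≠ 1 → ‖χ.LFunction 1‖ ≤ C * Real.log (3 * q) := by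
  obtain ⟨C, hC, h⟩ := Lser_bound 0
  refine ⟨C, hC, ?_⟩
  intro q _ χ hχ
  have hcont : Tendsto (fun σ : ℝ => ‖χ.LFunction (σ : ℂ)‖)
      (𝓝[>] 1) (𝓝 ‖χ.LFunction 1‖) := by
    have h1 : Continuous fun σ : ℝ => ‖χ.LFunction (σ : ℂ)‖ := by
      have h2 := (DirichletCharacter.differentiable_LFunction hχ).continuous
      fun_prop
    have h3 := h1.tendsto 1
    simp only [ofReal_one] at h3
    exact h3.mono_left nhdsWithin_le_nhds
  refine le_of_tendsto hcont ?_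
  filter_upwards [Ioo_mem_nhdsGT (show (1 : ℝ) < 2 by norm_num)] with σ hσ
  have h4 := h q χ hχ (σ : ℂ) (by simpa using hσ.1) (by simpa using hσ.2.le)
  rw [Lser_zero_eq χ (by simpa using hσ.1)] at h4
  refine h4.trans (le_of_eq ?_)
  unfold ell
  simp only [zero_add, pow_one, ofReal_im, abs_zero]
  rw [mul_comm (q : ℝ)]

lemma lnear_cpow {s : ℂ} (hs : 0 < s.re) {n : ℕ} (hn : 0 < n) :
    ‖((n + 1 : ℕ) : ℂ) ^ (-s) - (n : ℂ) ^ (-s)‖ ≤
      ‖s‖ / s.re * ((n : ℝ) ^ (-s.re) - ((n + 1 : ℕ) : ℝ) ^ (-s.re)) := by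
  have hnR : (0 : ℝ) < n := by exact_mod_cast hn
  have hne : (-s : ℂ) ≠ 0 := by
    intro h
    have : (-s : ℂ).re = 0 := by rw [h]; simp
    simp at this
    linarith
  have key := image_norm_le_of_norm_deriv_right_le_deriv_boundary'
    (f := fun t : ℝ => (t : ℂ) ^ (-s) - ((n : ℝ) : ℂ) ^ (-s))
    (f' := fun t : ℝ => -s * (t : ℂ) ^ (-s - 1))
    (B := fun t : ℝ => ‖s‖ / s.re * ((n : ℝ) ^ (-s.re) - t ^ (-s.re)))
    (B' := fun t : ℝ => ‖s‖ * t ^ (-s.re - 1))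
    (a := (n : ℝ)) (b := (n : ℝ) + 1) ?_ ?_ ?_ ?_ ?_ ?_ (x := (n : ℝ) + 1) ?_
  · push_cast at key ⊢
    simpa using key
  · intro t ht
    have ht0 : (0 : ℝ) < t := lt_of_lt_of_le hnR ht.1
    have h1 := (hasDerivAt_ofReal_cpow_const (x := t) ht0.ne' (r := -s) hne)
    exact (h1.sub_const _).continuousAt.continuousWithinAt
  · intro t ht
    have ht0 : (0 : ℝ) < t := lt_of_lt_of_le hnR ht.1
    have h1 := (hasDerivAt_ofReal_cpow_const (x := t) ht0.ne' (r := -s) hne)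
    exact (h1.sub_const _).hasDerivWithinAt
  · simp
  · intro t ht
    have ht0 : (0 : ℝ) < t := lt_of_lt_of_le hnR ht.1
    have h2 := Real.hasDerivAt_rpow_const (x := t) (p := -s.re) (Or.inl ht0.ne')
    exact ((h2.const_sub _).const_mul _).continuousAt.continuousWithinAt
  · intro t ht
    have ht0 : (0 : ℝ) < t := lt_of_lt_of_le hnR ht.1
    have h2 := Real.hasDerivAt_rpow_const (x := t) (p := -s.re) (Or.inl ht0.ne')
    have h3 := ((h2.const_sub ((n : ℝ) ^ (-s.re))).const_mul (‖s‖ / s.re))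
    refine (h3.congr_deriv ?_).hasDerivWithinAt
    field_simp
  · intro t ht
    have ht0 : (0 : ℝ) < t := lt_of_lt_of_le hnR ht.1
    rw [norm_mul, norm_neg, Complex.norm_cpow_eq_rpow_re_of_pos ht0]
    simp only [sub_re, neg_re, one_re]
    exact le_rfl
  · exact ⟨by linarith, le_refl _⟩

theorem LFunction_disc (q : ℕ) [NeZero q] (χ : DirichletCharacter ℂ q) (hχ : χ ≠ 1) (s : ℂ)
    (hs : s ∈ Metric.closedBall (2 : ℂ) (4 / 3)) : ‖χ.LFunction s‖ ≤ 5 * q := by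
  rw [Metric.mem_closedBall, dist_eq_norm] at hs
  have hre : 2 / 3 ≤ s.re := by
    have h1 := Complex.abs_re_le_norm (s - 2)
    have h2 : (s - 2).re = s.re - 2 := by simp
    rw [h2] at h1
    have h3 := abs_le.1 (h1.trans hs)
    linarith [h3.1]
  have hs0 : 0 < s.re := by linarith
  have hn : ‖s‖ ≤ 10 / 3 := by
    have h1 : s = (s - 2) + 2 := by ring
    have h2 : ‖(2 : ℂ)‖ = 2 := by simp
    calc ‖s‖ = ‖(s - 2) + 2‖ := by rw [← h1]
      _ ≤ ‖s - 2‖ + ‖(2 : ℂ)‖ := norm_add_le _ _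
      _ ≤ 10 / 3 := by rw [h2]; linarith
  have hratio : ‖s‖ / s.re ≤ 5 := by
    rw [div_le_iff₀ hs0]; linarith
  have hq : (0 : ℝ) < q := by exact_mod_cast Nat.pos_of_ne_zero (NeZero.ne q)
  rw [← Pool.Agent.Work.MP_92f640_nt.abel_eq_LFunction χ hχ hs0]
  have hsum := Pool.Agent.Work.MP_92f640_nt.summable_abelTerm χ hχ hs0
  refine le_of_tendsto (hsum.hasSum.tendsto_sum_nat.norm) (Eventually.of_forall fun N => ?_)
  have hterm : ∀ n : ℕ, ‖Pool.Agent.Work.MP_92f640_nt.abelTerm χ s n‖ ≤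
      q * (5 * (((n + 1 : ℕ) : ℝ) ^ (-s.re) - ((n + 2 : ℕ) : ℝ) ^ (-s.re))) := by
    intro n
    unfold Pool.Agent.Work.MP_92f640_nt.abelTerm
    rw [norm_mul]
    have h1 := Pool.Agent.Work.MP_92f640_nt.char_sum_bound χ hχ (n + 1)
    have h2 := lnear_cpow hs0 (n := n + 1) (by omega)
    rw [norm_sub_rev] at h2
    have h3 : (0 : ℝ) ≤ ((n + 1 : ℕ) : ℝ) ^ (-s.re) - ((n + 1 + 1 : ℕ) : ℝ) ^ (-s.re) := by
      rw [sub_nonneg]
      apply Real.rpow_le_rpow_of_nonpos (by positivity)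
      · push_cast; linarith
      · linarith
    have h4 := h2.trans (mul_le_mul_of_nonneg_right hratio h3)
    exact mul_le_mul h1 h4 (norm_nonneg _) hq.le
  calc ‖∑ i ∈ range N, Pool.Agent.Work.MP_92f640_nt.abelTerm χ s i‖
      ≤ ∑ n ∈ range N, ‖Pool.Agent.Work.MP_92f640_nt.abelTerm χ s n‖ := norm_sum_le _ _
    _ ≤ ∑ n ∈ range N, q * (5 * (((n + 1 : ℕ) : ℝ) ^ (-s.re) - ((n + 2 : ℕ) : ℝ) ^ (-s.re))) :=
        sum_le_sum fun n _ => hterm n
    _ = q * (5 * (1 - ((N + 1 : ℕ) : ℝ) ^ (-s.re))) := by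
        rw [← mul_sum, ← mul_sum]
        have h5 := sum_range_sub' (fun n : ℕ => ((n + 1 : ℕ) : ℝ) ^ (-s.re)) N
        simp only [zero_add, Nat.cast_one, Real.one_rpow] at h5
        rw [← h5]
    _ ≤ 5 * q := by
        have : (0 : ℝ) ≤ ((N + 1 : ℕ) : ℝ) ^ (-s.re) := by positivity
        nlinarith

end Pool.Agent.BV
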