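import Mathlib

/-! Definitions for the Bombieri-Vinogradov modules: primitive characters of modulus at most `R`,
and smoothed prime sums twisted by a character. -/

namespace Pool.Agent.Work.BV

open Finset

noncomputable section

/-- pairs (modulus minus one, character) -/
abbrev CH := Σ r : ℕ, DirichletCharacter ℂ (r + 1)

open Classical in
/-- primitive characters of modulus at most `R` -/
def PC (R : ℕ) : Finset CH :=
  (Finset.range R).sigma fun _ => Finset.univ.filter fun χ => χ.IsPrimitive

/-- value of the character at a natural number -/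
def ev (i : CH) (n : ℕ) : ℂ := i.2 (n : ZMod (i.1 + 1))

/-- smoothed sum of the von Mangoldt function twisted by `χ` -/
def psiw (F : ℝ → ℝ) (X : ℝ) {q : ℕ} (χ : DirichletCharacter ℂ q) : ℂ :=
  ∑ n ∈ Finset.Icc 1 ⌊X * Real.exp 1⌋₊,
    (ArithmeticFunction.vonMangoldt n : ℂ) * χ (n : ZMod q) * (F (Real.log (n / X)) : ℂ)

lemma mem_PC {R : ℕ} {i : CH} : i ∈ PC R ↔ i.1 < R ∧ i.2.IsPrimitive := by
  classical
  unfold PC
  rw [Finset.mem_sigma]
  simp

lemma norm_ev_le (i : CH) (n : ℕ) : ‖ev i n‖ ≤ 1 := by
  unfold ev
  exact DirichletCharacter.norm_le_one i.2 _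

lemma card_PC_le (R : ℕ) : (PC R).card ≤ R ^ 2 := by
  classical
  unfold PC
  rw [Finset.card_sigma]
  calc ∑ a ∈ Finset.range R, (Finset.univ.filter fun χ : DirichletCharacter ℂ (a + 1) => χ.IsPrimitive).card
      ≤ ∑ a ∈ Finset.range R, R := by
        refine Finset.sum_le_sum fun a ha => ?_
        refine (Finset.card_filter_le _ _).trans ?_
        rw [Finset.card_univ, ← Nat.card_eq_fintype_card,
          DirichletCharacter.card_eq_totient_of_hasEnoughRootsOfUnity]
        exact (Nat.totient_le _).trans (Finset.mem_range.1 ha)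
    _ = R ^ 2 := by rw [Finset.sum_const, Finset.card_range, smul_eq_mul, sq]

end

end Pool.Agent.Work.BV
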