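import Mathlib
import Pool.Agent.Work.BV.L_Defs

/-! Duality and the trivial large sieve for primitive characters. -/

namespace Pool.Agent.Work.BV

open Finset

noncomputable section

/-- duality principle for finite matrices -/
theorem duality {ι κ : Type*} (I : Finset ι) (J : Finset κ) (M : ι → κ → ℂ) (Δ : ℝ)
    (hΔ : 0 ≤ Δ) (h : ∀ c : ι → ℂ, ∑ n ∈ J, ‖∑ i ∈ I, c i * M i n‖ ^ 2 ≤ Δ * ∑ i ∈ I, ‖c i‖ ^ 2)
    (a : κ → ℂ) :
    ∑ i ∈ I, ‖∑ n ∈ J, a n * M i n‖ ^ 2 ≤ Δ * ∑ n ∈ J, ‖a n‖ ^ 2 := by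
  classical
  set S : ι → ℂ := fun i => ∑ n ∈ J, a n * M i n with hS
  set T : ℝ := ∑ i ∈ I, ‖S i‖ ^ 2 with hT
  have hT0 : 0 ≤ T := Finset.sum_nonneg fun i _ => by positivity
  -- T = ∑ i conj (S i) * S i = ∑ n a n * (∑ i conj (S i) * M i n)
  have h1 : (T : ℂ) = ∑ n ∈ J, a n * ∑ i ∈ I, (starRingEnd ℂ) (S i) * M i n := by
    have : (T : ℂ) = ∑ i ∈ I, (starRingEnd ℂ) (S i) * S i := by
      rw [hT]; push_cast
      refine Finset.sum_congr rfl fun i _ => ?_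
      rw [← Complex.conj_mul']
    rw [this]
    have h2 : ∀ i ∈ I, (starRingEnd ℂ) (S i) * S i
        = ∑ n ∈ J, a n * ((starRingEnd ℂ) (S i) * M i n) := by
      intro i _
      conv_lhs => rw [hS]
      simp only
      rw [Finset.mul_sum]
      refine Finset.sum_congr rfl fun n _ => by ring
    rw [Finset.sum_congr rfl h2, Finset.sum_comm]
    refine Finset.sum_congr rfl fun n _ => ?_
    rw [Finset.mul_sum]
  have h3 : T ≤ ∑ n ∈ J, ‖a n‖ * ‖∑ i ∈ I, (starRingEnd ℂ) (S i) * M i n‖ := by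
    have : T = ‖(T : ℂ)‖ := by rw [Complex.norm_real, Real.norm_of_nonneg hT0]
    rw [this, h1]
    refine (norm_sum_le _ _).trans (le_of_eq ?_)
    exact Finset.sum_congr rfl fun n _ => norm_mul _ _
  have h4 : T ^ 2 ≤ (∑ n ∈ J, ‖a n‖ ^ 2) * ∑ n ∈ J, ‖∑ i ∈ I, (starRingEnd ℂ) (S i) * M i n‖ ^ 2 :=
    (pow_le_pow_left₀ hT0 h3 2).trans (Finset.sum_mul_sq_le_sq_mul_sq _ _ _)
  have h5 := h (fun i => (starRingEnd ℂ) (S i))
  have h6 : ∑ i ∈ I, ‖(starRingEnd ℂ) (S i)‖ ^ 2 = T := by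
    rw [hT]; refine Finset.sum_congr rfl fun i _ => by rw [RCLike.norm_conj]
  rw [h6] at h5
  have hA : 0 ≤ ∑ n ∈ J, ‖a n‖ ^ 2 := Finset.sum_nonneg fun i _ => by positivity
  have h7 : T ^ 2 ≤ (∑ n ∈ J, ‖a n‖ ^ 2) * (Δ * T) :=
    h4.trans (mul_le_mul_of_nonneg_left h5 hA)
  rcases hT0.eq_or_lt with h0 | hpos
  · rw [← h0]
    positivity
  · have : T * T ≤ (Δ * ∑ n ∈ J, ‖a n‖ ^ 2) * T := by nlinarith
    exact le_of_mul_le_mul_right this hpos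

end

end Pool.Agent.Work.BV
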