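import Mathlib
import Pool.Agent.Work.BV.L_Dual

/-! Sums of nonprincipal characters over intervals, and the trivial large sieve. -/

namespace Pool.Agent.Work.BV

open Finset

noncomputable section

lemma sum_shift {f : ℕ → ℂ} {m : ℕ} (hper : ∀ n, f (n + m) = f n) (a : ℕ) :
    ∑ n ∈ Finset.Ico a (a + m), f n = ∑ n ∈ Finset.range m, f n := by
  induction a with
  | zero => simp
  | succ a ih =>
    rw [← ih]
    rcases Nat.eq_zero_or_pos m with rfl | hm
    · simp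
    have h1 : ∑ n ∈ Finset.Ico a (a + m), f n = f a + ∑ n ∈ Finset.Ico (a + 1) (a + m), f n :=
      Finset.sum_eq_sum_Ico_succ_bot (by omega) _
    have h2 : ∑ n ∈ Finset.Ico (a + 1) (a + 1 + m), f n
        = ∑ n ∈ Finset.Ico (a + 1) (a + m), f n + f (a + m) := by
      rw [show a + 1 + m = (a + m) + 1 by ring, Finset.sum_Ico_succ_top (by omega)]
    rw [h1, h2, hper]; ring

lemma sum_periodic_le {f : ℕ → ℂ} {m : ℕ} (hm : 0 < m) (hper : ∀ n, f (n + m) = f n)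
    (hz : ∑ n ∈ Finset.range m, f n = 0) (h1 : ∀ n, ‖f n‖ ≤ 1) (a b : ℕ) :
    ‖∑ n ∈ Finset.Ico a b, f n‖ ≤ m := by
  suffices h : ∀ k a b : ℕ, b ≤ a + k → ‖∑ n ∈ Finset.Ico a b, f n‖ ≤ m from
    h b a b (by omega)
  intro k
  induction k using Nat.strong_induction_on with
  | _ k ih =>
    intro a b hab
    by_cases hb : b ≤ a + m
    · refine (norm_sum_le _ _).trans ?_
      refine (Finset.sum_le_card_nsmul _ _ 1 fun n _ => h1 n).trans ?_
      rw [Nat.card_Ico, nsmul_eq_mul, mul_one]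
      exact_mod_cast (by omega : b - a ≤ m)
    · push Not at hb
      rw [← Finset.sum_Ico_consecutive f (show a ≤ a + m by omega) hb.le, sum_shift hper, hz,
        zero_add]
      exact ih (k - m) (by omega) (a + m) b (by omega)

lemma sum_range_char {m : ℕ} [NeZero m] {θ : DirichletCharacter ℂ m} (hθ : θ ≠ 1) :
    ∑ n ∈ Finset.range m, θ (n : ZMod m) = 0 := by
  have h := MulChar.sum_eq_zero_of_ne_one hθ
  rw [← h]
  obtain ⟨k, rfl⟩ : ∃ k, m = k + 1 := ⟨m - 1, by have := NeZero.pos m; omega⟩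
  rw [← Fin.sum_univ_eq_sum_range (fun n => θ (n : ZMod (k + 1))) (k + 1)]
  refine Finset.sum_congr rfl fun x _ => ?_
  congr 1
  exact Fin.cast_val_eq_self x

lemma sum_char_le {m : ℕ} [NeZero m] {θ : DirichletCharacter ℂ m} (hθ : θ ≠ 1) (a b : ℕ) :
    ‖∑ n ∈ Finset.Ico a b, θ (n : ZMod m)‖ ≤ m := by
  refine sum_periodic_le (f := fun n => θ (n : ZMod m)) (NeZero.pos m) (fun n => ?_)
    (sum_range_char hθ) (fun n => DirichletCharacter.norm_le_one θ _) a b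
  simp

/-- the product character of two primitive characters -/
lemma exists_prod_char {i j : CH} (hi : i.2.IsPrimitive) (hj : j.2.IsPrimitive) (hij : i ≠ j) :
    ∃ θ : DirichletCharacter ℂ ((i.1 + 1) * (j.1 + 1)), θ ≠ 1 ∧
      ∀ n : ℕ, θ (n : ZMod ((i.1 + 1) * (j.1 + 1))) = ev i n * (starRingEnd ℂ) (ev j n) := by
  have h1 : (i.1 + 1) ∣ (i.1 + 1) * (j.1 + 1) := Dvd.intro _ rfl
  have h2 : (j.1 + 1) ∣ (i.1 + 1) * (j.1 + 1) := Dvd.intro_left _ rfl
  haveI : NeZero ((i.1 + 1) * (j.1 + 1)) := ⟨by positivity⟩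
  refine ⟨DirichletCharacter.changeLevel h1 i.2 * (DirichletCharacter.changeLevel h2 j.2)⁻¹, ?_, ?_⟩
  · intro h
    rw [mul_inv_eq_one] at h
    have hc := congrArg DirichletCharacter.conductor h
    rw [DirichletCharacter.conductor_changeLevel, DirichletCharacter.conductor_changeLevel,
      (DirichletCharacter.isPrimitive_def i.2).1 hi, (DirichletCharacter.isPrimitive_def j.2).1 hj] at hc
    obtain ⟨r, χ⟩ := i
    obtain ⟨s, ψ⟩ := j
    simp only at hc h h1 h2 hij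
    obtain rfl : r = s := by omega
    have := DirichletCharacter.changeLevel_injective h1 h
    exact hij (by rw [this])
  · intro n
    rw [MulChar.mul_apply]
    unfold ev
    by_cases hn : IsUnit (n : ZMod ((i.1 + 1) * (j.1 + 1)))
    · have hcop : IsCoprime ((n : ℤ)) (((i.1 + 1) * (j.1 + 1) : ℕ) : ℤ) := by
        have := (ZMod.isUnit_iff_coprime n _).1 hn
        exact Nat.isCoprime_iff_coprime.2 this
      have e1 := DirichletCharacter.changeLevel_eq_cast_of_dvd' i.2 h1 hcop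
      have e2 := DirichletCharacter.changeLevel_eq_cast_of_dvd' j.2 h2 hcop
      simp only [Int.cast_natCast] at e1 e2
      rw [e1, MulChar.inv_apply_eq_inv', e2]
      congr 1
      exact (MulChar.inv_apply_eq_inv' j.2 _).symm.trans (MulChar.star_apply' j.2 _).symm
    · rw [MulChar.map_nonunit _ hn, zero_mul]
      have hn' : ¬ IsUnit (n : ZMod (i.1 + 1)) ∨ ¬ IsUnit (n : ZMod (j.1 + 1)) := by
        by_contra hcon
        push Not at hcon
        rw [ZMod.isUnit_iff_coprime, ZMod.isUnit_iff_coprime] at hcon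
        exact hn ((ZMod.isUnit_iff_coprime n _).2 (Nat.Coprime.mul_right hcon.1 hcon.2))
      rcases hn' with h | h
      · rw [MulChar.map_nonunit _ h, zero_mul]
      · rw [MulChar.map_nonunit _ h, map_zero, mul_zero]

lemma offdiag_le {R : ℕ} {i j : CH} (hi : i ∈ PC R) (hj : j ∈ PC R) (hij : i ≠ j) (a b : ℕ) :
    ‖∑ n ∈ Finset.Ico a b, ev i n * (starRingEnd ℂ) (ev j n)‖ ≤ (R : ℝ) ^ 2 := by
  rw [mem_PC] at hi hj
  obtain ⟨θ, hθ, h⟩ := exists_prod_char hi.2 hj.2 hij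
  haveI : NeZero ((i.1 + 1) * (j.1 + 1)) := ⟨by positivity⟩
  have h1 := sum_char_le hθ a b
  rw [Finset.sum_congr rfl fun n _ => (h n).symm]
  refine h1.trans ?_
  have : (i.1 + 1) * (j.1 + 1) ≤ R ^ 2 := by
    rw [sq]; exact Nat.mul_le_mul hi.1 hj.1
  exact_mod_cast this

/-- trivial large sieve inequality -/
theorem large_sieve (R a b : ℕ) (c : ℕ → ℂ) :
    ∑ i ∈ PC R, ‖∑ n ∈ Finset.Ico a b, c n * ev i n‖ ^ 2
      ≤ (((b - a : ℕ) : ℝ) + (R : ℝ) ^ 4) * ∑ n ∈ Finset.Ico a b, ‖c n‖ ^ 2 := by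
  classical
  refine duality (PC R) (Finset.Ico a b) (fun i n => ev i n) _ (by positivity) ?_ c
  intro d
  -- expand the square
  have h1 : (((∑ n ∈ Finset.Ico a b, ‖∑ i ∈ PC R, d i * ev i n‖ ^ 2 : ℝ)) : ℂ)
      = ∑ i ∈ PC R, ∑ j ∈ PC R, d i * (starRingEnd ℂ) (d j) *
          ∑ n ∈ Finset.Ico a b, ev i n * (starRingEnd ℂ) (ev j n) := by
    push_cast
    have h2 : ∀ n ∈ Finset.Ico a b, ((‖∑ i ∈ PC R, d i * ev i n‖ : ℂ)) ^ 2
        = ∑ i ∈ PC R, ∑ j ∈ PC R, d i * (starRingEnd ℂ) (d j) *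
          (ev i n * (starRingEnd ℂ) (ev j n)) := by
      intro n _
      rw [← Complex.mul_conj', map_sum, Finset.sum_mul_sum]
      refine Finset.sum_congr rfl fun i _ => Finset.sum_congr rfl fun j _ => ?_
      rw [map_mul]; ring
    rw [Finset.sum_congr rfl h2, Finset.sum_comm]
    refine Finset.sum_congr rfl fun i _ => ?_
    rw [Finset.sum_comm]
    refine Finset.sum_congr rfl fun j _ => ?_
    rw [Finset.mul_sum]
  set D : ℝ := ∑ n ∈ Finset.Ico a b, ‖∑ i ∈ PC R, d i * ev i n‖ ^ 2 with hD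
  have hD0 : 0 ≤ D := Finset.sum_nonneg fun i _ => by positivity
  have h3 : D ≤ ∑ i ∈ PC R, ∑ j ∈ PC R, ‖d i‖ * ‖d j‖ *
      ‖∑ n ∈ Finset.Ico a b, ev i n * (starRingEnd ℂ) (ev j n)‖ := by
    have : D = ‖(D : ℂ)‖ := by rw [Complex.norm_real, Real.norm_of_nonneg hD0]
    rw [this, h1]
    refine (norm_sum_le _ _).trans (Finset.sum_le_sum fun i _ => ?_)
    refine (norm_sum_le _ _).trans (Finset.sum_le_sum fun j _ => le_of_eq ?_)
    rw [norm_mul, norm_mul, RCLike.norm_conj]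
  refine h3.trans ?_
  -- split diagonal / off-diagonal
  have h4 : ∀ i ∈ PC R, ∀ j ∈ PC R, ‖d i‖ * ‖d j‖ *
      ‖∑ n ∈ Finset.Ico a b, ev i n * (starRingEnd ℂ) (ev j n)‖
      ≤ (if i = j then ((b - a : ℕ) : ℝ) * ‖d i‖ ^ 2 else 0) + (R : ℝ) ^ 2 * (‖d i‖ * ‖d j‖) := by
    intro i hi j hj
    by_cases hij : i = j
    · subst hij
      rw [if_pos rfl]
      have : ‖∑ n ∈ Finset.Ico a b, ev i n * (starRingEnd ℂ) (ev i n)‖ ≤ ((b - a : ℕ) : ℝ) := by
        refine (norm_sum_le _ _).trans ?_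
        refine (Finset.sum_le_card_nsmul _ _ 1 fun n _ => ?_).trans ?_
        · rw [norm_mul, RCLike.norm_conj]
          exact mul_le_one₀ (norm_ev_le i n) (norm_nonneg _) (norm_ev_le i n)
        · rw [Nat.card_Ico, nsmul_eq_mul, mul_one]
      have h5 : ‖d i‖ * ‖d i‖ * ‖∑ n ∈ Finset.Ico a b, ev i n * (starRingEnd ℂ) (ev i n)‖
          ≤ ‖d i‖ * ‖d i‖ * ((b - a : ℕ) : ℝ) := mul_le_mul_of_nonneg_left this (by positivity)
      have h6 : 0 ≤ (R : ℝ) ^ 2 * (‖d i‖ * ‖d i‖) := by positivity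
      nlinarith
    · rw [if_neg hij, zero_add]
      have h5 := offdiag_le hi hj hij a b
      calc _ ≤ ‖d i‖ * ‖d j‖ * (R : ℝ) ^ 2 := mul_le_mul_of_nonneg_left h5 (by positivity)
        _ = _ := by ring
  refine (Finset.sum_le_sum fun i hi => Finset.sum_le_sum fun j hj => h4 i hi j hj).trans ?_
  simp only [Finset.sum_add_distrib]
  rw [add_mul]
  refine add_le_add ?_ ?_
  · rw [Finset.mul_sum]
    refine Finset.sum_le_sum fun i hi => ?_
    rw [Finset.sum_ite_eq (PC R) i]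
    simp [hi]
  · have h7 : ∑ i ∈ PC R, ∑ j ∈ PC R, (R : ℝ) ^ 2 * (‖d i‖ * ‖d j‖)
        = (R : ℝ) ^ 2 * (∑ i ∈ PC R, ‖d i‖) ^ 2 := by
      rw [sq (∑ i ∈ PC R, ‖d i‖), Finset.sum_mul_sum, Finset.mul_sum]
      refine Finset.sum_congr rfl fun i _ => ?_
      rw [Finset.mul_sum]
    rw [h7]
    have h8 : (∑ i ∈ PC R, ‖d i‖) ^ 2 ≤ (PC R).card * ∑ i ∈ PC R, ‖d i‖ ^ 2 :=
      sq_sum_le_card_mul_sum_sq
    have h9 : ((PC R).card : ℝ) ≤ (R : ℝ) ^ 2 := by exact_mod_cast card_PC_le R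
    have h10 : 0 ≤ ∑ i ∈ PC R, ‖d i‖ ^ 2 := Finset.sum_nonneg fun i _ => by positivity
    calc (R : ℝ) ^ 2 * (∑ i ∈ PC R, ‖d i‖) ^ 2
        ≤ (R : ℝ) ^ 2 * ((PC R).card * ∑ i ∈ PC R, ‖d i‖ ^ 2) :=
          mul_le_mul_of_nonneg_left h8 (by positivity)
      _ ≤ (R : ℝ) ^ 2 * ((R : ℝ) ^ 2 * ∑ i ∈ PC R, ‖d i‖ ^ 2) := by gcongr
      _ = (R : ℝ) ^ 4 * ∑ i ∈ PC R, ‖d i‖ ^ 2 := by ring

end

end Pool.Agent.Work.BV
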