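import Mathlib
import Pool.Agent.Work.BV.L_Dual2

/-! Vaughan's identity and convolution sums. -/

namespace Pool.Agent.Work.BV

open Finset ArithmeticFunction

open scoped ArithmeticFunction.Moebius ArithmeticFunction.zeta

noncomputable section

/-- the von Mangoldt function cut at `V` -/
def FF (V : ℕ) : ArithmeticFunction ℝ := ⟨fun n => if n ≤ V then Λ n else 0, by simp⟩

/-- the Moebius function cut at `U` -/
def GG (U : ℕ) : ArithmeticFunction ℝ := ⟨fun n => if n ≤ U then (μ n : ℝ) else 0, by simp⟩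

/-- the type II coefficient -/
def BB (U : ℕ) : ArithmeticFunction ℝ := 1 - (ζ : ArithmeticFunction ℝ) * GG U

/-- the long von Mangoldt coefficient -/
def LF (V : ℕ) : ArithmeticFunction ℝ := Λ - FF V

/-- the type I coefficient -/
def CC (U V : ℕ) : ArithmeticFunction ℝ := FF V * GG U

theorem vaughan (U V : ℕ) :
    Λ = FF V + log * GG U - (ζ : ArithmeticFunction ℝ) * CC U V + LF V * BB U := by
  have h : Λ * (ζ : ArithmeticFunction ℝ) = log := vonMangoldt_mul_zeta
  unfold BB LF CC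
  rw [← h]
  ring

lemma FF_apply (V n : ℕ) : FF V n = if n ≤ V then Λ n else 0 := rfl

lemma GG_apply (U n : ℕ) : GG U n = if n ≤ U then (μ n : ℝ) else 0 := rfl

lemma LF_apply (V n : ℕ) : LF V n = if n ≤ V then 0 else Λ n := by
  unfold LF
  rw [sub_eq_add_neg, ArithmeticFunction.add_apply, ArithmeticFunction.neg_apply, FF_apply]
  split_ifs <;> simp

lemma LF_nonneg (V n : ℕ) : 0 ≤ LF V n := by
  rw [LF_apply]; split_ifs
  · exact le_rfl
  · exact vonMangoldt_nonneg

lemma LF_le (V n : ℕ) : LF V n ≤ Real.log n := by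
  rw [LF_apply]; split_ifs
  · exact Real.log_natCast_nonneg n
  · exact vonMangoldt_le_log

lemma FF_nonneg (V n : ℕ) : 0 ≤ FF V n := by
  rw [FF_apply]; split_ifs
  · exact vonMangoldt_nonneg
  · exact le_rfl

lemma FF_le (V n : ℕ) : FF V n ≤ Λ n := by
  rw [FF_apply]; split_ifs
  · exact le_rfl
  · exact vonMangoldt_nonneg

lemma abs_GG_le (U n : ℕ) : |GG U n| ≤ 1 := by
  rw [GG_apply]; split_ifs
  · have := abs_moebius_le_one (n := n)
    exact_mod_cast this
  · simp

lemma GG_of_lt {U n : ℕ} (h : U < n) : GG U n = 0 := by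
  rw [GG_apply, if_neg (by omega)]

lemma CC_apply (U V n : ℕ) :
    CC U V n = ∑ x ∈ n.divisorsAntidiagonal, FF V x.1 * GG U x.2 := by
  unfold CC; rw [mul_apply]

lemma abs_CC_le (U V n : ℕ) : |CC U V n| ≤ Real.log n := by
  rw [CC_apply]
  refine (Finset.abs_sum_le_sum_abs _ _).trans ?_
  calc ∑ x ∈ n.divisorsAntidiagonal, |FF V x.1 * GG U x.2|
      ≤ ∑ x ∈ n.divisorsAntidiagonal, Λ x.1 := by
        refine Finset.sum_le_sum fun x _ => ?_
        rw [abs_mul, abs_of_nonneg (FF_nonneg V x.1)]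
        calc FF V x.1 * |GG U x.2| ≤ FF V x.1 * 1 :=
              mul_le_mul_of_nonneg_left (abs_GG_le _ _) (FF_nonneg _ _)
          _ ≤ Λ x.1 := by rw [mul_one]; exact FF_le _ _
    _ = ∑ d ∈ n.divisors, Λ d := by
        exact Nat.sum_divisorsAntidiagonal (fun a _ => Λ a)
    _ = Real.log n := vonMangoldt_sum

lemma CC_of_lt {U V n : ℕ} (h : U * V < n) : CC U V n = 0 := by
  rw [CC_apply]
  refine Finset.sum_eq_zero fun x hx => ?_
  rw [Nat.mem_divisorsAntidiagonal] at hx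
  by_cases h1 : x.1 ≤ V
  · have h2 : U < x.2 := by
      by_contra hcon
      push Not at hcon
      have : x.1 * x.2 ≤ V * U := Nat.mul_le_mul h1 hcon
      rw [hx.1] at this
      have h3 := mul_comm U V
      omega
    rw [GG_of_lt h2, mul_zero]
  · rw [FF_apply, if_neg h1, zero_mul]

lemma BB_apply {U n : ℕ} : BB U n = (if n = 1 then 1 else 0) - ∑ d ∈ n.divisors, GG U d := by
  unfold BB
  rw [sub_eq_add_neg, ArithmeticFunction.add_apply, ArithmeticFunction.neg_apply, one_apply, coe_zeta_mul_apply]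
  ring

lemma BB_of_le {U n : ℕ} (hn : n ≤ U) : BB U n = 0 := by
  rcases Nat.eq_zero_or_pos n with rfl | hpos
  · exact ArithmeticFunction.map_zero
  rw [BB_apply]
  have h1 : ∑ d ∈ n.divisors, GG U d = ∑ d ∈ n.divisors, (μ d : ℝ) := by
    refine Finset.sum_congr rfl fun d hd => ?_
    rw [GG_apply, if_pos ((Nat.divisor_le hd).trans hn)]
  rw [h1]
  have h2 : ((ζ : ArithmeticFunction ℝ) * (μ : ArithmeticFunction ℝ)) n = (1 : ArithmeticFunction ℝ) n := by
    rw [coe_zeta_mul_coe_moebius]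
  rw [coe_zeta_mul_apply, one_apply] at h2
  simp only [intCoe_apply] at h2
  rw [h2, sub_self]

lemma abs_BB_le (U n : ℕ) : |BB U n| ≤ n.divisors.card := by
  by_cases hn : n ≤ U
  · rw [BB_of_le hn]; simp
  push Not at hn
  rw [BB_apply]
  by_cases h1 : n = 1
  · subst h1
    have hU : U = 0 := by omega
    subst hU
    simp [GG_apply]
  rw [if_neg h1, zero_sub, abs_neg]
  refine (Finset.abs_sum_le_sum_abs _ _).trans ?_
  refine (Finset.sum_le_card_nsmul _ _ 1 fun d _ => abs_GG_le U d).trans ?_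
  rw [nsmul_eq_mul, mul_one]

/-- sums over convolutions against a function vanishing beyond `Y` -/
theorem sum_conv (f g : ArithmeticFunction ℝ) (h : ℕ → ℂ) (Y : ℕ) (hh : ∀ n, Y < n → h n = 0) :
    ∑ n ∈ Finset.Icc 1 Y, (((f * g) n : ℝ) : ℂ) * h n
      = ∑ a ∈ Finset.Icc 1 Y, ∑ b ∈ Finset.Icc 1 Y, (f a : ℂ) * (g b : ℂ) * h (a * b) := by
  classical
  have h1 : ∀ n ∈ Finset.Icc 1 Y, (((f * g) n : ℝ) : ℂ) * h n
      = ∑ x ∈ (Finset.Icc 1 Y ×ˢ Finset.Icc 1 Y).filter (fun x => x.1 * x.2 = n),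
        (f x.1 : ℂ) * (g x.2 : ℂ) * h (x.1 * x.2) := by
    intro n hn
    rw [Finset.mem_Icc] at hn
    rw [mul_apply]
    have : n.divisorsAntidiagonal
        = (Finset.Icc 1 Y ×ˢ Finset.Icc 1 Y).filter (fun x => x.1 * x.2 = n) := by
      ext ⟨a, b⟩
      simp only [Nat.mem_divisorsAntidiagonal, Finset.mem_filter, Finset.mem_product, Finset.mem_Icc]
      constructor
      · rintro ⟨rfl, h0⟩
        have ha : 0 < a := Nat.pos_of_ne_zero (left_ne_zero_of_mul h0)
        have hb : 0 < b := Nat.pos_of_ne_zero (right_ne_zero_of_mul h0)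
        exact ⟨⟨⟨ha, (Nat.le_mul_of_pos_right a hb).trans hn.2⟩,
          ⟨hb, (Nat.le_mul_of_pos_left b ha).trans hn.2⟩⟩, rfl⟩
      · rintro ⟨_, rfl⟩
        exact ⟨rfl, by omega⟩
    rw [this]
    push_cast
    rw [Finset.sum_mul]
    refine Finset.sum_congr rfl fun x hx => ?_
    rw [Finset.mem_filter] at hx
    rw [hx.2]
  rw [Finset.sum_congr rfl h1, ← Finset.sum_product']
  set P := Finset.Icc 1 Y ×ˢ Finset.Icc 1 Y with hP
  have h3 : ∑ x ∈ P, (f x.1 : ℂ) * (g x.2 : ℂ) * h (x.1 * x.2)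
      = ∑ x ∈ P.filter (fun x => x.1 * x.2 ≤ Y), (f x.1 : ℂ) * (g x.2 : ℂ) * h (x.1 * x.2) := by
    rw [Finset.sum_filter]
    refine Finset.sum_congr rfl fun x _ => ?_
    split_ifs with hx
    · rfl
    · rw [hh _ (by omega), mul_zero]
  rw [h3, ← Finset.sum_fiberwise_of_maps_to (s := P.filter (fun x => x.1 * x.2 ≤ Y))
    (t := Finset.Icc 1 Y) (g := fun x => x.1 * x.2)]
  · refine Finset.sum_congr rfl fun n hn => ?_
    rw [Finset.mem_Icc] at hn
    refine Finset.sum_congr ?_ fun _ _ => rfl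
    ext x
    simp only [Finset.mem_filter]
    constructor
    · rintro ⟨hx, rfl⟩; exact ⟨⟨hx, hn.2⟩, rfl⟩
    · rintro ⟨⟨hx, _⟩, rfl⟩; exact ⟨hx, rfl⟩
  · intro x hx
    rw [Finset.mem_filter, hP, Finset.mem_product, Finset.mem_Icc, Finset.mem_Icc] at hx
    rw [Finset.mem_Icc]
    exact ⟨Nat.mul_pos hx.1.1.1 hx.1.2.1, hx.2⟩

end

end Pool.Agent.Work.BV
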