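import Mathlib
import Pool.Agent.Work.BV.L_Vaughan

/-! Type I sums. -/

namespace Pool.Agent.Work.BV

open Finset

noncomputable section

lemma abel_id (f : ℕ → ℂ) (φ : ℕ → ℝ) (Y : ℕ) (hY : 1 ≤ Y) :
    ∑ n ∈ Finset.Icc 1 Y, f n * (φ n : ℂ)
      = (∑ n ∈ Finset.Icc 1 Y, f n) * (φ Y : ℂ)
        - ∑ n ∈ Finset.Ico 1 Y, (∑ k ∈ Finset.Icc 1 n, f k) * ((φ (n + 1) - φ n : ℝ) : ℂ) := by
  induction Y, hY using Nat.le_induction with
  | base => simp
  | succ Y hY ih =>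
    rw [Finset.sum_Icc_succ_top (by omega), Finset.sum_Icc_succ_top (by omega), ih,
      Finset.sum_Ico_succ_top hY]
    push_cast
    ring

lemma abel_le {f : ℕ → ℂ} {B : ℝ} (hB : ∀ n, ‖∑ k ∈ Finset.Icc 1 n, f k‖ ≤ B) (φ : ℕ → ℝ)
    (Y : ℕ) :
    ‖∑ n ∈ Finset.Icc 1 Y, f n * (φ n : ℂ)‖
      ≤ B * (|φ Y| + ∑ n ∈ Finset.Ico 1 Y, |φ (n + 1) - φ n|) := by
  have hB0 : 0 ≤ B := (norm_nonneg _).trans (hB 0)
  rcases Nat.eq_zero_or_pos Y with rfl | hY
  · simp; positivity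
  rw [abel_id f φ Y hY, mul_add, Finset.mul_sum]
  refine (norm_sub_le _ _).trans (add_le_add ?_ ?_)
  · rw [norm_mul, Complex.norm_real, Real.norm_eq_abs]
    exact mul_le_mul_of_nonneg_right (hB _) (abs_nonneg _)
  · refine (norm_sum_le _ _).trans (Finset.sum_le_sum fun n _ => ?_)
    rw [norm_mul, Complex.norm_real, Real.norm_eq_abs]
    exact mul_le_mul_of_nonneg_right (hB _) (abs_nonneg _)

/-- hypotheses on the smooth weight -/
structure Wt (F : ℝ → ℝ) (L : ℝ) : Prop where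
  nonneg : ∀ u, 0 ≤ F u
  le_one : ∀ u, F u ≤ 1
  supp : ∀ u, 1 ≤ |u| → F u = 0
  L_nonneg : 0 ≤ L
  lip : ∀ u v, |F u - F v| ≤ L * |u - v|

lemma log_succ_sub_le {n : ℕ} (hn : 1 ≤ n) :
    Real.log ((n + 1 : ℕ) : ℝ) - Real.log n ≤ 1 / n := by
  have hn0 : (0 : ℝ) < n := by exact_mod_cast hn
  rw [← Real.log_div (by positivity) (by positivity)]
  refine (Real.log_le_sub_one_of_pos (by positivity)).trans (le_of_eq ?_)
  push_cast; field_simp; ring

lemma log_succ_sub_nonneg {n : ℕ} (hn : 1 ≤ n) :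
    0 ≤ Real.log ((n + 1 : ℕ) : ℝ) - Real.log n := by
  have hn0 : (0 : ℝ) < n := by exact_mod_cast hn
  have : Real.log n ≤ Real.log ((n + 1 : ℕ) : ℝ) := Real.log_le_log hn0 (by push_cast; linarith)
  linarith

lemma weight_diff {F : ℝ → ℝ} {L : ℝ} (hF : Wt F L) {X : ℝ} (hX : 0 < X) {k n : ℕ} (hk : 1 ≤ k)
    (hn : 1 ≤ n) :
    |F (Real.log (((k * (n + 1) : ℕ) : ℝ) / X)) - F (Real.log (((k * n : ℕ) : ℝ) / X))| ≤ L / n := by
  have hn0 : (0 : ℝ) < n := by exact_mod_cast hn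
  have hk0 : (0 : ℝ) < k := by exact_mod_cast hk
  refine (hF.lip _ _).trans ?_
  have h1 : Real.log (((k * (n + 1) : ℕ) : ℝ) / X) - Real.log (((k * n : ℕ) : ℝ) / X)
      = Real.log ((n + 1 : ℕ) : ℝ) - Real.log n := by
    rw [Real.log_div (by positivity) (by positivity), Real.log_div (by positivity) (by positivity)]
    push_cast
    rw [Real.log_mul (by positivity) (by positivity), Real.log_mul (by positivity) (by positivity)]
    ring
  rw [h1, abs_of_nonneg (log_succ_sub_nonneg hn), div_eq_mul_one_div]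
  exact mul_le_mul_of_nonneg_left (log_succ_sub_le hn) hF.L_nonneg

lemma sum_inv_Ico_le (Y : ℕ) : ∑ n ∈ Finset.Ico 1 Y, 1 / (n : ℝ) ≤ 1 + Real.log Y := by
  refine le_trans (Finset.sum_le_sum_of_subset_of_nonneg ?_ fun _ _ _ => by positivity)
    (show ∑ n ∈ Finset.Icc 1 Y, 1 / (n : ℝ) ≤ 1 + Real.log Y from ?_)
  · intro n hn; rw [Finset.mem_Ico] at hn; rw [Finset.mem_Icc]; omega
  · have h := harmonic_le_one_add_log Y
    have h2 : ((harmonic Y : ℚ) : ℝ) = ∑ n ∈ Finset.Icc 1 Y, 1 / (n : ℝ) := by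
      rw [harmonic_eq_sum_Icc]
      push_cast
      refine Finset.sum_congr rfl fun n _ => by rw [one_div]
    rw [← h2]; exact h

/-- the inner sum without logarithm -/
lemma typeI_inner {F : ℝ → ℝ} {L : ℝ} (hF : Wt F L) {X : ℝ} (hX : 0 < X) {f : ℕ → ℂ} {B : ℝ}
    (hB : ∀ n, ‖∑ k ∈ Finset.Icc 1 n, f k‖ ≤ B) {k : ℕ} (hk : 1 ≤ k) (Y : ℕ) :
    ‖∑ n ∈ Finset.Icc 1 Y, f n * (F (Real.log (((k * n : ℕ) : ℝ) / X)) : ℂ)‖
      ≤ B * ((1 + L) * (2 + Real.log Y)) := by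
  have hB0 : 0 ≤ B := (norm_nonneg _).trans (hB 0)
  refine (abel_le hB (fun n => F (Real.log (((k * n : ℕ) : ℝ) / X))) Y).trans ?_
  refine mul_le_mul_of_nonneg_left ?_ hB0
  have h1 : |F (Real.log (((k * Y : ℕ) : ℝ) / X))| ≤ 1 := by
    rw [abs_of_nonneg (hF.nonneg _)]; exact hF.le_one _
  have h2 : ∑ n ∈ Finset.Ico 1 Y, |F (Real.log (((k * (n + 1) : ℕ) : ℝ) / X))
      - F (Real.log (((k * n : ℕ) : ℝ) / X))| ≤ L * (1 + Real.log Y) := by
    calc _ ≤ ∑ n ∈ Finset.Ico 1 Y, L * (1 / (n : ℝ)) := by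
          refine Finset.sum_le_sum fun n hn => ?_
          rw [Finset.mem_Ico] at hn
          exact (weight_diff hF hX hk hn.1).trans (le_of_eq (by ring))
      _ = L * ∑ n ∈ Finset.Ico 1 Y, 1 / (n : ℝ) := by rw [Finset.mul_sum]
      _ ≤ _ := mul_le_mul_of_nonneg_left (sum_inv_Ico_le Y) hF.L_nonneg
  have hL := hF.L_nonneg
  have hY := Real.log_natCast_nonneg Y
  nlinarith

/-- the inner sum with a logarithm -/
lemma typeI_inner_log {F : ℝ → ℝ} {L : ℝ} (hF : Wt F L) {X : ℝ} (hX : 0 < X) {f : ℕ → ℂ} {B : ℝ}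
    (hB : ∀ n, ‖∑ k ∈ Finset.Icc 1 n, f k‖ ≤ B) {k : ℕ} (hk : 1 ≤ k) (Y : ℕ) :
    ‖∑ n ∈ Finset.Icc 1 Y, f n * ((Real.log n * F (Real.log (((k * n : ℕ) : ℝ) / X)) : ℝ) : ℂ)‖
      ≤ B * ((1 + L) * (2 + Real.log Y) ^ 2) := by
  have hB0 : 0 ≤ B := (norm_nonneg _).trans (hB 0)
  refine (abel_le hB (fun n => Real.log n * F (Real.log (((k * n : ℕ) : ℝ) / X))) Y).trans ?_
  refine mul_le_mul_of_nonneg_left ?_ hB0
  have hL := hF.L_nonneg
  have hY := Real.log_natCast_nonneg Y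
  have h1 : |Real.log Y * F (Real.log (((k * Y : ℕ) : ℝ) / X))| ≤ Real.log Y := by
    rw [abs_mul, abs_of_nonneg hY, abs_of_nonneg (hF.nonneg _)]
    exact mul_le_of_le_one_right hY (hF.le_one _)
  have h2 : ∑ n ∈ Finset.Ico 1 Y, |Real.log ((n + 1 : ℕ) : ℝ) * F (Real.log (((k * (n + 1) : ℕ) : ℝ) / X))
      - Real.log n * F (Real.log (((k * n : ℕ) : ℝ) / X))|
      ≤ (1 + L * Real.log Y) * (1 + Real.log Y) := by
    calc _ ≤ ∑ n ∈ Finset.Ico 1 Y, (1 + L * Real.log Y) * (1 / (n : ℝ)) := by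
          refine Finset.sum_le_sum fun n hn => ?_
          rw [Finset.mem_Ico] at hn
          have e : Real.log ((n + 1 : ℕ) : ℝ) * F (Real.log (((k * (n + 1) : ℕ) : ℝ) / X))
              - Real.log n * F (Real.log (((k * n : ℕ) : ℝ) / X))
              = (Real.log ((n + 1 : ℕ) : ℝ) - Real.log n) * F (Real.log (((k * n : ℕ) : ℝ) / X))
                + Real.log ((n + 1 : ℕ) : ℝ) * (F (Real.log (((k * (n + 1) : ℕ) : ℝ) / X))
                  - F (Real.log (((k * n : ℕ) : ℝ) / X))) := by ring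
          rw [e]
          refine (abs_add_le _ _).trans ?_
          rw [abs_mul, abs_mul, abs_of_nonneg (log_succ_sub_nonneg hn.1),
            abs_of_nonneg (hF.nonneg _), abs_of_nonneg (Real.log_natCast_nonneg (n + 1))]
          have a1 := log_succ_sub_le hn.1
          have a2 := weight_diff hF hX hk hn.1
          have a3 : Real.log ((n + 1 : ℕ) : ℝ) ≤ Real.log Y :=
            Real.log_le_log (by positivity) (by exact_mod_cast hn.2)
          have a4 : (Real.log ((n + 1 : ℕ) : ℝ) - Real.log n) * F (Real.log (((k * n : ℕ) : ℝ) / X))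
              ≤ 1 / n * 1 :=
            mul_le_mul a1 (hF.le_one _) (hF.nonneg _) (by positivity)
          have a5 : Real.log ((n + 1 : ℕ) : ℝ) * |F (Real.log (((k * (n + 1) : ℕ) : ℝ) / X))
                  - F (Real.log (((k * n : ℕ) : ℝ) / X))| ≤ Real.log Y * (L / n) :=
            mul_le_mul a3 a2 (abs_nonneg _) hY
          calc _ ≤ 1 / (n : ℝ) * 1 + Real.log Y * (L / n) := add_le_add a4 a5
            _ = _ := by ring
      _ = (1 + L * Real.log Y) * ∑ n ∈ Finset.Ico 1 Y, 1 / (n : ℝ) := by rw [Finset.mul_sum]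
      _ ≤ _ := mul_le_mul_of_nonneg_left (sum_inv_Ico_le Y) (by positivity)
  have h3 : (1 + L * Real.log Y) * (1 + Real.log Y) ≤ (1 + L) * (1 + Real.log Y) ^ 2 := by
    nlinarith [mul_nonneg hL hY, mul_nonneg hY hY, mul_nonneg hL (mul_nonneg hY hY)]
  nlinarith [mul_nonneg hL hY, mul_nonneg hY hY, mul_nonneg hL (mul_nonneg hY hY)]

lemma sum_ev_le {i : CH} (hi : i.2.IsPrimitive) (h0 : i.1 ≠ 0) (n : ℕ) :
    ‖∑ k ∈ Finset.Icc 1 n, ev i k‖ ≤ (i.1 : ℝ) + 1 := by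
  have h1 : i.2 ≠ 1 := by
    intro h
    have hc := (DirichletCharacter.isPrimitive_def i.2).1 hi
    rw [h, DirichletCharacter.conductor_one] at hc
    omega
  have h2 := sum_char_le h1 1 (n + 1)
  have h3 : Finset.Icc 1 n = Finset.Ico 1 (n + 1) := by ext; simp [Nat.lt_succ_iff]
  rw [h3]
  refine h2.trans (le_of_eq ?_)
  push_cast; ring

end

end Pool.Agent.Work.BV
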