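import Mathlib
import Pool.Agent.Work.BV.L_TypeI

/-! Type II sums: bilinear forms over primitive characters with a separated weight. -/

namespace Pool.Agent.Work.BV

open Finset MeasureTheory

noncomputable section

lemma ev_mul (i : CH) (m k : ℕ) : ev i (m * k) = ev i m * ev i k := by
  unfold ev
  push_cast
  rw [map_mul]

/-- a Dirichlet polynomial twisted by a character -/
def DP (a b : ℕ) (α : ℕ → ℂ) (i : CH) (t : ℝ) : ℂ :=
  ∑ m ∈ Finset.Ico a b, α m * Complex.exp (-(Complex.I * t * Real.log m)) * ev i m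

lemma continuous_DP (a b : ℕ) (α : ℕ → ℂ) (i : CH) : Continuous (DP a b α i) := by
  unfold DP
  fun_prop

lemma norm_exp_it (t : ℝ) (x : ℝ) : ‖Complex.exp (-(Complex.I * t * x))‖ = 1 := by
  have : -(Complex.I * t * x) = ((-(t * x) : ℝ) : ℂ) * Complex.I := by push_cast; ring
  rw [this, Complex.norm_exp_ofReal_mul_I]

lemma norm_DP_le (a b : ℕ) (α : ℕ → ℂ) (i : CH) (t : ℝ) :
    ‖DP a b α i t‖ ≤ ∑ m ∈ Finset.Ico a b, ‖α m‖ := by
  unfold DP
  refine (norm_sum_le _ _).trans (Finset.sum_le_sum fun m _ => ?_)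
  rw [norm_mul, norm_mul, norm_exp_it, mul_one]
  exact mul_le_of_le_one_right (norm_nonneg _) (norm_ev_le i m)

lemma DP_sq_le (R a b : ℕ) (α : ℕ → ℂ) (t : ℝ) :
    ∑ i ∈ PC R, ‖DP a b α i t‖ ^ 2
      ≤ (((b - a : ℕ) : ℝ) + (R : ℝ) ^ 4) * ∑ m ∈ Finset.Ico a b, ‖α m‖ ^ 2 := by
  unfold DP
  refine (large_sieve R a b (fun m => α m * Complex.exp (-(Complex.I * t * Real.log m)))).trans
    (le_of_eq ?_)
  congr 1
  refine Finset.sum_congr rfl fun m _ => ?_
  rw [norm_mul, norm_exp_it, mul_one]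

lemma DP_prod_le (R a b c d : ℕ) (α β : ℕ → ℂ) (t : ℝ) :
    ∑ i ∈ PC R, ‖DP a b α i t‖ * ‖DP c d β i t‖
      ≤ Real.sqrt ((((b - a : ℕ) : ℝ) + (R : ℝ) ^ 4) * ∑ m ∈ Finset.Ico a b, ‖α m‖ ^ 2)
        * Real.sqrt ((((d - c : ℕ) : ℝ) + (R : ℝ) ^ 4) * ∑ m ∈ Finset.Ico c d, ‖β m‖ ^ 2) := by
  refine (Real.sum_mul_le_sqrt_mul_sqrt _ _ _).trans ?_
  exact mul_le_mul (Real.sqrt_le_sqrt (DP_sq_le R a b α t)) (Real.sqrt_le_sqrt (DP_sq_le R c d β t))
    (Real.sqrt_nonneg _) (Real.sqrt_nonneg _)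

lemma block_eq {F : ℝ → ℝ} {g : ℝ → ℂ} (hg : Integrable g)
    (hF : ∀ u : ℝ, (F u : ℂ) = ∫ t : ℝ, g t * Complex.exp (-(Complex.I * t * u)))
    {a b c d : ℕ} (ha : 1 ≤ a) (hc : 1 ≤ c) (α β : ℕ → ℂ) {X : ℝ} (hX : 0 < X) (i : CH) :
    ∑ m ∈ Finset.Ico a b, ∑ k ∈ Finset.Ico c d,
        α m * β k * ev i (m * k) * (F (Real.log (((m * k : ℕ) : ℝ) / X)) : ℂ)
      = ∫ t : ℝ, g t * Complex.exp (Complex.I * t * Real.log X) * (DP a b α i t * DP c d β i t) := by
  have h1 : ∀ m ∈ Finset.Ico a b, ∀ k ∈ Finset.Ico c d,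
      α m * β k * ev i (m * k) * (F (Real.log (((m * k : ℕ) : ℝ) / X)) : ℂ)
      = ∫ t : ℝ, g t * Complex.exp (Complex.I * t * Real.log X) *
        ((α m * Complex.exp (-(Complex.I * t * Real.log m)) * ev i m) *
         (β k * Complex.exp (-(Complex.I * t * Real.log k)) * ev i k)) := by
    intro m hm k hk
    rw [Finset.mem_Ico] at hm hk
    have hm0 : (0 : ℝ) < m := by exact_mod_cast (by omega : 0 < m)
    have hk0 : (0 : ℝ) < k := by exact_mod_cast (by omega : 0 < k)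
    rw [hF, ← integral_const_mul]
    refine integral_congr_ae (Filter.Eventually.of_forall fun t => ?_)
    simp only
    have e : Real.log (((m * k : ℕ) : ℝ) / X) = Real.log m + Real.log k - Real.log X := by
      rw [Real.log_div (by push_cast; exact (mul_pos hm0 hk0).ne') hX.ne']
      push_cast
      rw [Real.log_mul hm0.ne' hk0.ne']
    rw [e, ev_mul]
    have e2 : Complex.exp (-(Complex.I * t * ((Real.log m + Real.log k - Real.log X : ℝ) : ℂ)))
        = Complex.exp (Complex.I * t * Real.log X) * Complex.exp (-(Complex.I * t * Real.log m))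
          * Complex.exp (-(Complex.I * t * Real.log k)) := by
      rw [← Complex.exp_add, ← Complex.exp_add]
      congr 1
      push_cast; ring
    rw [e2]; ring
  have hint : ∀ m k : ℕ, Integrable (fun t : ℝ => g t * Complex.exp (Complex.I * t * Real.log X) *
        ((α m * Complex.exp (-(Complex.I * t * Real.log m)) * ev i m) *
         (β k * Complex.exp (-(Complex.I * t * Real.log k)) * ev i k))) := by
    intro m k
    have : (fun t : ℝ => g t * Complex.exp (Complex.I * t * Real.log X) *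
        ((α m * Complex.exp (-(Complex.I * t * Real.log m)) * ev i m) *
         (β k * Complex.exp (-(Complex.I * t * Real.log k)) * ev i k)))
        = fun t : ℝ => (Complex.exp (Complex.I * t * Real.log X) *
        ((α m * Complex.exp (-(Complex.I * t * Real.log m)) * ev i m) *
         (β k * Complex.exp (-(Complex.I * t * Real.log k)) * ev i k))) * g t := by
      funext t; ring
    rw [this]
    refine hg.bdd_mul (c := ‖α m‖ * ‖β k‖) (by fun_prop) (Filter.Eventually.of_forall fun t => ?_)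
    have e1 : ‖Complex.exp (Complex.I * t * Real.log X)‖ = 1 := by
      have : Complex.I * t * (Real.log X : ℂ) = ((t * Real.log X : ℝ) : ℂ) * Complex.I := by
        push_cast; ring
      rw [this, Complex.norm_exp_ofReal_mul_I]
    rw [norm_mul, e1, one_mul, norm_mul, norm_mul, norm_mul, norm_mul, norm_mul, norm_exp_it,
      norm_exp_it, mul_one, mul_one]
    exact mul_le_mul (mul_le_of_le_one_right (norm_nonneg _) (norm_ev_le i m))
      (mul_le_of_le_one_right (norm_nonneg _) (norm_ev_le i k)) (by positivity) (norm_nonneg _)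
  rw [Finset.sum_congr rfl fun m hm => Finset.sum_congr rfl fun k hk => h1 m hm k hk]
  rw [Finset.sum_congr rfl fun m _ => (integral_finsetSum _ fun k _ => hint m k).symm]
  rw [← integral_finsetSum _ fun m _ => integrable_finsetSum _ fun k _ => hint m k]
  refine integral_congr_ae (Filter.Eventually.of_forall fun t => ?_)
  simp only
  unfold DP
  rw [Finset.sum_mul_sum, Finset.mul_sum]
  refine Finset.sum_congr rfl fun m _ => ?_
  rw [Finset.mul_sum]

theorem typeII {F : ℝ → ℝ} {g : ℝ → ℂ} (hg : Integrable g)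
    (hF : ∀ u : ℝ, (F u : ℂ) = ∫ t : ℝ, g t * Complex.exp (-(Complex.I * t * u)))
    {a b c d : ℕ} (ha : 1 ≤ a) (hc : 1 ≤ c) (α β : ℕ → ℂ) {X : ℝ} (hX : 0 < X) (R : ℕ) :
    ∑ i ∈ PC R, ‖∑ m ∈ Finset.Ico a b, ∑ k ∈ Finset.Ico c d,
        α m * β k * ev i (m * k) * (F (Real.log (((m * k : ℕ) : ℝ) / X)) : ℂ)‖
      ≤ (∫ t : ℝ, ‖g t‖) *
        (Real.sqrt ((((b - a : ℕ) : ℝ) + (R : ℝ) ^ 4) * ∑ m ∈ Finset.Ico a b, ‖α m‖ ^ 2)
        * Real.sqrt ((((d - c : ℕ) : ℝ) + (R : ℝ) ^ 4) * ∑ m ∈ Finset.Ico c d, ‖β m‖ ^ 2)) := by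
  set S : ℝ := Real.sqrt ((((b - a : ℕ) : ℝ) + (R : ℝ) ^ 4) * ∑ m ∈ Finset.Ico a b, ‖α m‖ ^ 2)
        * Real.sqrt ((((d - c : ℕ) : ℝ) + (R : ℝ) ^ 4) * ∑ m ∈ Finset.Ico c d, ‖β m‖ ^ 2) with hS
  have hint : ∀ i : CH, Integrable (fun t : ℝ => ‖g t‖ * (‖DP a b α i t‖ * ‖DP c d β i t‖)) := by
    intro i
    have : (fun t : ℝ => ‖g t‖ * (‖DP a b α i t‖ * ‖DP c d β i t‖))
        = fun t : ℝ => (‖DP a b α i t‖ * ‖DP c d β i t‖) * ‖g t‖ := by funext t; ring
    rw [this]
    refine hg.norm.bdd_mul (c := (∑ m ∈ Finset.Ico a b, ‖α m‖) * (∑ m ∈ Finset.Ico c d, ‖β m‖))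
      ?_ (Filter.Eventually.of_forall fun t => ?_)
    · exact (((continuous_DP a b α i).norm.mul (continuous_DP c d β i).norm)).aestronglyMeasurable
    · rw [Real.norm_of_nonneg (by positivity)]
      exact mul_le_mul (norm_DP_le _ _ _ _ _) (norm_DP_le _ _ _ _ _) (norm_nonneg _)
        (Finset.sum_nonneg fun _ _ => norm_nonneg _)
  calc _ ≤ ∑ i ∈ PC R, ∫ t : ℝ, ‖g t‖ * (‖DP a b α i t‖ * ‖DP c d β i t‖) := by
        refine Finset.sum_le_sum fun i _ => ?_
        rw [block_eq hg hF ha hc α β hX i]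
        refine (norm_integral_le_integral_norm _).trans (le_of_eq ?_)
        refine integral_congr_ae (Filter.Eventually.of_forall fun t => ?_)
        simp only
        have e1 : ‖Complex.exp (Complex.I * t * Real.log X)‖ = 1 := by
          have : Complex.I * t * (Real.log X : ℂ) = ((t * Real.log X : ℝ) : ℂ) * Complex.I := by
            push_cast; ring
          rw [this, Complex.norm_exp_ofReal_mul_I]
        rw [norm_mul, norm_mul, e1, mul_one, norm_mul]
    _ = ∫ t : ℝ, ∑ i ∈ PC R, ‖g t‖ * (‖DP a b α i t‖ * ‖DP c d β i t‖) :=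
        (integral_finsetSum _ fun i _ => hint i).symm
    _ ≤ ∫ t : ℝ, ‖g t‖ * S := by
        refine integral_mono (integrable_finsetSum _ fun i _ => hint i) (hg.norm.mul_const _) ?_
        intro t
        simp only
        rw [← Finset.mul_sum]
        exact mul_le_mul_of_nonneg_left (DP_prod_le R a b c d α β t) (norm_nonneg _)
    _ = _ := by rw [integral_mul_const]

end

end Pool.Agent.Work.BV
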