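import Mathlib
import Pool.Agent.Work.BV.L_TypeII
import Pool.Agent.Work.BV.L_Tau

/-! The large conductor estimate. -/

namespace Pool.Agent.Work.BV

open Finset MeasureTheory

noncomputable section

/-- the test function -/
def hh (F : ℝ → ℝ) (X : ℝ) (i : CH) (n : ℕ) : ℂ := ev i n * (F (Real.log ((n : ℝ) / X)) : ℂ)

lemma hh_zero {F : ℝ → ℝ} {L : ℝ} (hF : Wt F L) {X : ℝ} (hX : 0 < X) (i : CH) {n : ℕ}
    (hn : X * Real.exp 1 ≤ n) : hh F X i n = 0 := by
  unfold hh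
  have h1 : 1 ≤ Real.log ((n : ℝ) / X) := by
    rw [Real.le_log_iff_exp_le (by
      have : 0 < X * Real.exp 1 := by positivity
      have h2 : (0 : ℝ) < n := lt_of_lt_of_le this hn
      positivity), le_div_iff₀ hX, mul_comm]
    exact hn
  rw [hF.supp _ (by rw [abs_of_nonneg (by linarith)]; exact h1)]
  simp

lemma hh_zero' {F : ℝ → ℝ} {L : ℝ} (hF : Wt F L) {X : ℝ} (hX : 0 < X) (i : CH) {n : ℕ}
    (hn : ⌊X * Real.exp 1⌋₊ < n) : hh F X i n = 0 :=
  hh_zero hF hX i (Nat.lt_of_floor_lt hn).le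

lemma hh_small {F : ℝ → ℝ} {L : ℝ} (hF : Wt F L) {X : ℝ} (hX : 0 < X) (i : CH) {n : ℕ}
    (hn0 : 1 ≤ n) (hn : (n : ℝ) * Real.exp 1 ≤ X) : hh F X i n = 0 := by
  unfold hh
  have hn1 : (0 : ℝ) < n := by exact_mod_cast hn0
  have h1 : Real.log ((n : ℝ) / X) ≤ -1 := by
    rw [Real.log_le_iff_le_exp (by positivity), div_le_iff₀ hX, Real.exp_neg,
      ← div_eq_inv_mul, le_div_iff₀ (Real.exp_pos 1)]
    exact hn
  rw [hF.supp _ (by rw [abs_of_nonpos (by linarith)]; linarith)]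
  simp

lemma psiw_eq (F : ℝ → ℝ) (X : ℝ) (i : CH) :
    psiw F X i.2 = ∑ n ∈ Finset.Icc 1 ⌊X * Real.exp 1⌋₊,
      ((ArithmeticFunction.vonMangoldt n : ℝ) : ℂ) * hh F X i n := by
  unfold psiw hh ev
  refine Finset.sum_congr rfl fun n _ => by ring

lemma psiw_split {F : ℝ → ℝ} {L : ℝ} (hF : Wt F L) {X : ℝ} (hX : 0 < X) (i : CH) (U V : ℕ)
    (hV : (V : ℝ) * Real.exp 1 ≤ X) :
    psiw F X i.2
      = (∑ b ∈ Finset.Icc 1 ⌊X * Real.exp 1⌋₊, ∑ a ∈ Finset.Icc 1 ⌊X * Real.exp 1⌋₊,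
          ((Real.log a : ℝ) : ℂ) * (GG U b : ℂ) * hh F X i (a * b))
        - (∑ k ∈ Finset.Icc 1 ⌊X * Real.exp 1⌋₊, ∑ m ∈ Finset.Icc 1 ⌊X * Real.exp 1⌋₊,
          (CC U V k : ℂ) * hh F X i (m * k))
        + (∑ m ∈ Finset.Icc 1 ⌊X * Real.exp 1⌋₊, ∑ k ∈ Finset.Icc 1 ⌊X * Real.exp 1⌋₊,
          (LF V m : ℂ) * (BB U k : ℂ) * hh F X i (m * k)) := by
  set Y := ⌊X * Real.exp 1⌋₊ with hY
  have hh0 : ∀ n, Y < n → hh F X i n = 0 := fun n hn => hh_zero' hF hX i hn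
  rw [psiw_eq]
  have h1 : ∀ n ∈ Finset.Icc 1 Y, ((ArithmeticFunction.vonMangoldt n : ℝ) : ℂ) * hh F X i n
      = (((ArithmeticFunction.log * GG U : ArithmeticFunction ℝ) n : ℝ) : ℂ) * hh F X i n
        - ((((ArithmeticFunction.zeta : ArithmeticFunction ℝ) * CC U V : ArithmeticFunction ℝ) n : ℝ) : ℂ)
          * hh F X i n
        + (((LF V * BB U : ArithmeticFunction ℝ) n : ℝ) : ℂ) * hh F X i n := by
    intro n hn
    rw [Finset.mem_Icc] at hn
    have hv := congrArg (fun f : ArithmeticFunction ℝ => f n) (vaughan U V)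
    simp only [ArithmeticFunction.add_apply, sub_eq_add_neg, ArithmeticFunction.neg_apply] at hv
    rw [hv]
    by_cases hnV : n ≤ V
    · have : hh F X i n = 0 := by
        refine hh_small hF hX i hn.1 (le_trans ?_ hV)
        have : (n : ℝ) ≤ V := by exact_mod_cast hnV
        exact mul_le_mul_of_nonneg_right this (Real.exp_pos 1).le
      rw [this]; ring
    · rw [FF_apply, if_neg hnV]
      push_cast; ring
  rw [Finset.sum_congr rfl h1, Finset.sum_add_distrib, Finset.sum_sub_distrib,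
    sum_conv _ _ _ Y hh0, sum_conv _ _ _ Y hh0, sum_conv _ _ _ Y hh0]
  congr 1
  congr 1
  · rw [Finset.sum_comm]
    refine Finset.sum_congr rfl fun b _ => Finset.sum_congr rfl fun a _ => ?_
    rw [ArithmeticFunction.log_apply]
  · rw [Finset.sum_comm]
    refine Finset.sum_congr rfl fun k _ => Finset.sum_congr rfl fun m hm => ?_
    rw [Finset.mem_Icc] at hm
    rw [ArithmeticFunction.natCoe_apply, ArithmeticFunction.zeta_apply_ne (by omega)]
    simp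

lemma hh_mul (F : ℝ → ℝ) (X : ℝ) (i : CH) (m k : ℕ) :
    hh F X i (m * k) = ev i m * ev i k * (F (Real.log (((m * k : ℕ) : ℝ) / X)) : ℂ) := by
  unfold hh; rw [ev_mul]

lemma term2_le {F : ℝ → ℝ} {L : ℝ} (hF : Wt F L) {X : ℝ} (hX : 0 < X) {i : CH}
    (hi : i.2.IsPrimitive) (h0 : i.1 ≠ 0) (U Y : ℕ) :
    ‖∑ b ∈ Finset.Icc 1 Y, ∑ a ∈ Finset.Icc 1 Y,
          ((Real.log a : ℝ) : ℂ) * (GG U b : ℂ) * hh F X i (a * b)‖
      ≤ U * (((i.1 : ℝ) + 1) * ((1 + L) * (2 + Real.log Y) ^ 2)) := by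
  set K : ℝ := ((i.1 : ℝ) + 1) * ((1 + L) * (2 + Real.log Y) ^ 2) with hK
  have hL := hF.L_nonneg
  have hlY := Real.log_natCast_nonneg Y
  have hK0 : 0 ≤ K := by positivity
  have h1 : ∀ b ∈ Finset.Icc 1 Y, ‖∑ a ∈ Finset.Icc 1 Y,
      ((Real.log a : ℝ) : ℂ) * (GG U b : ℂ) * hh F X i (a * b)‖ ≤ if b ≤ U then K else 0 := by
    intro b hb
    rw [Finset.mem_Icc] at hb
    have e : ∑ a ∈ Finset.Icc 1 Y, ((Real.log a : ℝ) : ℂ) * (GG U b : ℂ) * hh F X i (a * b)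
        = (GG U b : ℂ) * ev i b * ∑ a ∈ Finset.Icc 1 Y, ev i a *
          ((Real.log a * F (Real.log (((b * a : ℕ) : ℝ) / X)) : ℝ) : ℂ) := by
      rw [Finset.mul_sum]
      refine Finset.sum_congr rfl fun a _ => ?_
      rw [hh_mul, mul_comm a b]
      push_cast; ring
    rw [e]
    split_ifs with hbU
    · rw [norm_mul, norm_mul, Complex.norm_real, Real.norm_eq_abs]
      have h2 := typeI_inner_log hF hX (sum_ev_le hi h0) hb.1 Y
      calc |GG U b| * ‖ev i b‖ * _ ≤ 1 * 1 * K := by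
            refine mul_le_mul (mul_le_mul (abs_GG_le U b) (norm_ev_le i b) (norm_nonneg _) zero_le_one)
              h2 (norm_nonneg _) (by norm_num)
        _ = K := by ring
    · rw [GG_of_lt (by omega)]; simp
  refine (norm_sum_le _ _).trans ((Finset.sum_le_sum h1).trans ?_)
  rw [← Finset.sum_filter, Finset.sum_const, nsmul_eq_mul]
  refine mul_le_mul_of_nonneg_right ?_ hK0
  have : ((Finset.Icc 1 Y).filter fun b => b ≤ U).card ≤ U := by
    calc _ ≤ (Finset.Icc 1 U).card := Finset.card_le_card fun b hb => by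
          rw [Finset.mem_filter, Finset.mem_Icc] at hb; rw [Finset.mem_Icc]; omega
      _ = U := by simp
  exact_mod_cast this

lemma term3_le {F : ℝ → ℝ} {L : ℝ} (hF : Wt F L) {X : ℝ} (hX : 0 < X) {i : CH}
    (hi : i.2.IsPrimitive) (h0 : i.1 ≠ 0) (U V Y : ℕ) :
    ‖∑ k ∈ Finset.Icc 1 Y, ∑ m ∈ Finset.Icc 1 Y, (CC U V k : ℂ) * hh F X i (m * k)‖
      ≤ (U * V : ℕ) * (Real.log Y * (((i.1 : ℝ) + 1) * ((1 + L) * (2 + Real.log Y)))) := by
  set K : ℝ := ((i.1 : ℝ) + 1) * ((1 + L) * (2 + Real.log Y)) with hK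
  have hL := hF.L_nonneg
  have hlY := Real.log_natCast_nonneg Y
  have hK0 : 0 ≤ K := by positivity
  have h1 : ∀ k ∈ Finset.Icc 1 Y, ‖∑ m ∈ Finset.Icc 1 Y, (CC U V k : ℂ) * hh F X i (m * k)‖
      ≤ if k ≤ U * V then Real.log Y * K else 0 := by
    intro k hk
    rw [Finset.mem_Icc] at hk
    have e : ∑ m ∈ Finset.Icc 1 Y, (CC U V k : ℂ) * hh F X i (m * k)
        = (CC U V k : ℂ) * ev i k * ∑ m ∈ Finset.Icc 1 Y, ev i m *
          (F (Real.log (((k * m : ℕ) : ℝ) / X)) : ℂ) := by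
      rw [Finset.mul_sum]
      refine Finset.sum_congr rfl fun a _ => ?_
      rw [hh_mul, mul_comm a k]
      ring
    rw [e]
    split_ifs with hbU
    · rw [norm_mul, norm_mul, Complex.norm_real, Real.norm_eq_abs]
      have h2 := typeI_inner hF hX (sum_ev_le hi h0) hk.1 Y
      have h3 : |CC U V k| ≤ Real.log Y := (abs_CC_le U V k).trans
        (Real.log_le_log (by exact_mod_cast hk.1) (by exact_mod_cast hk.2))
      calc |CC U V k| * ‖ev i k‖ * _ ≤ Real.log Y * 1 * K := by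
            refine mul_le_mul (mul_le_mul h3 (norm_ev_le i k) (norm_nonneg _) hlY)
              h2 (norm_nonneg _) (by positivity)
        _ = _ := by ring
    · rw [CC_of_lt (by omega)]; simp
  refine (norm_sum_le _ _).trans ((Finset.sum_le_sum h1).trans ?_)
  rw [← Finset.sum_filter, Finset.sum_const, nsmul_eq_mul]
  refine mul_le_mul_of_nonneg_right ?_ (by positivity)
  have : ((Finset.Icc 1 Y).filter fun b => b ≤ U * V).card ≤ U * V := by
    calc _ ≤ (Finset.Icc 1 (U * V)).card := Finset.card_le_card fun b hb => by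
          rw [Finset.mem_filter, Finset.mem_Icc] at hb; rw [Finset.mem_Icc]; omega
      _ = U * V := by simp
  exact_mod_cast this

lemma dyadic_sum (T : ℕ → ℂ) (J : ℕ) :
    ∑ j ∈ Finset.range J, ∑ m ∈ Finset.Ico (2 ^ j) (2 ^ (j + 1)), T m
      = ∑ m ∈ Finset.Ico 1 (2 ^ J), T m := by
  induction J with
  | zero => simp
  | succ J ih =>
    rw [Finset.sum_range_succ, ih, Finset.sum_Ico_consecutive _ Nat.one_le_two_pow
      (Nat.pow_le_pow_right (by norm_num) (by omega))]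

lemma term4_eq {F : ℝ → ℝ} {L : ℝ} (hF : Wt F L) {X : ℝ} (hX : 0 < X) (i : CH) (U V : ℕ) :
    ∑ m ∈ Finset.Icc 1 ⌊X * Real.exp 1⌋₊, ∑ k ∈ Finset.Icc 1 ⌊X * Real.exp 1⌋₊,
          (LF V m : ℂ) * (BB U k : ℂ) * hh F X i (m * k)
      = ∑ j ∈ Finset.range (Nat.log 2 ⌊X * Real.exp 1⌋₊ + 1),
          ∑ m ∈ Finset.Ico (2 ^ j) (2 ^ (j + 1)),
          ∑ k ∈ Finset.Ico 1 (⌊X * Real.exp 1 / (2 : ℝ) ^ j⌋₊ + 1),
            (LF V m : ℂ) * (BB U k : ℂ) * hh F X i (m * k) := by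
  set Y := ⌊X * Real.exp 1⌋₊ with hY
  have hXe : 0 < X * Real.exp 1 := by positivity
  have h1 : ∀ j ∈ Finset.range (Nat.log 2 Y + 1), ∀ m ∈ Finset.Ico (2 ^ j) (2 ^ (j + 1)),
      ∑ k ∈ Finset.Ico 1 (⌊X * Real.exp 1 / (2 : ℝ) ^ j⌋₊ + 1),
            (LF V m : ℂ) * (BB U k : ℂ) * hh F X i (m * k)
      = ∑ k ∈ Finset.Icc 1 Y, (LF V m : ℂ) * (BB U k : ℂ) * hh F X i (m * k) := by
    intro j _ m hm
    rw [Finset.mem_Ico] at hm
    refine Finset.sum_subset ?_ ?_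
    · intro k hk
      rw [Finset.mem_Ico] at hk
      rw [Finset.mem_Icc]
      refine ⟨hk.1, ?_⟩
      have : ⌊X * Real.exp 1 / (2 : ℝ) ^ j⌋₊ ≤ Y := Nat.floor_le_floor
        (div_le_self hXe.le (one_le_pow₀ (by norm_num)))
      omega
    · intro k hk hk2
      rw [Finset.mem_Icc] at hk
      rw [Finset.mem_Ico] at hk2
      push Not at hk2
      have h2 := hk2 hk.1
      have h3 : X * Real.exp 1 / (2 : ℝ) ^ j < k := Nat.lt_of_floor_lt (by omega)
      rw [div_lt_iff₀ (by positivity)] at h3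
      rw [hh_zero hF hX i, mul_zero]
      have h4 : ((2 : ℝ) ^ j) ≤ m := by exact_mod_cast hm.1
      push_cast
      have hk0 : (0 : ℝ) ≤ k := by positivity
      nlinarith
  rw [Finset.sum_congr rfl fun j hj => Finset.sum_congr rfl fun m hm => h1 j hj m hm]
  rw [dyadic_sum (fun m => ∑ k ∈ Finset.Icc 1 Y, (LF V m : ℂ) * (BB U k : ℂ) * hh F X i (m * k))]
  refine Finset.sum_subset ?_ ?_
  · intro m hm
    rw [Finset.mem_Icc] at hm
    rw [Finset.mem_Ico]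
    refine ⟨hm.1, lt_of_le_of_lt hm.2 (Nat.lt_pow_succ_log_self (by norm_num) _)⟩
  · intro m hm hm2
    rw [Finset.mem_Ico] at hm
    rw [Finset.mem_Icc] at hm2
    push Not at hm2
    have h2 := hm2 hm.1
    refine Finset.sum_eq_zero fun k hk => ?_
    rw [Finset.mem_Icc] at hk
    rw [hh_zero' hF hX i (lt_of_lt_of_le h2 (Nat.le_mul_of_pos_right m hk.1)), mul_zero]

end

end Pool.Agent.Work.BV
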