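import Pool.Agent.Work.BV.LBound

/-! # Module LogDer: derivatives of `L'/L` as Dirichlet series

`recursion`: `log` acts as a derivation on Dirichlet convolution, so multiplying
`χ log = χ * (χ Λ)` by `(log n)^k` gives
`χ log^{k+1} = ∑_{j≤k} binom(k,j) (χ log^j) * (χ Λ log^{k-j})` (for `d e = n`:
`(log n)^k = (log d + log e)^k`). Take `LSeries` (`LSeries_convolution'`, absolute convergence for
`Re s > 1`).
`Dser_bound` by strong induction on `k`:
`D_k = (L_{k+1} - ∑_{1≤j≤k} binom(k,j) L_j D_{k-j})/L_0`, `|L_j| ≤ C ℓ^{j+1}`, `|L_0| = |LFunction χ s| ≥ m`;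
since `m ≤ 1 ≤ ℓ` every term is `≤ C ℓ^{2k+2} m^{-k}` before dividing by `L_0`. -/

namespace Pool.Agent.BV

open Finset DirichletCharacter

theorem logDer_norm_char_le {q : ℕ} (χ : DirichletCharacter ℂ q) (n : ℕ) :
    ‖χ (n : ZMod q)‖ ≤ 1 := by
  exact DirichletCharacter.norm_le_one χ _

theorem Dser_summable {q : ℕ} (χ : DirichletCharacter ℂ q) (j : ℕ) {s : ℂ} (hs : 1 < s.re) :
    LSeriesSummable
      (fun n : ℕ => χ (n : ZMod q) * ((ArithmeticFunction.vonMangoldt n : ℝ) : ℂ) *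
        ((Real.log n : ℝ) : ℂ) ^ j) s := by
  set x : ℝ := (1 + s.re) / 2 with hx
  have hx1 : 1 < x := by rw [hx]; linarith
  have hxs : x < s.re := by rw [hx]; linarith
  set δ : ℝ := (x - 1) / (j + 1) with hδ
  have hδ0 : 0 < δ := div_pos (by linarith) (by positivity)
  refine LSeriesSummable_of_le_const_mul_rpow (x := x) hxs ⟨(1 / δ) ^ (j + 1), fun n hn => ?_⟩
  have hn1 : (1 : ℝ) ≤ n := by exact_mod_cast Nat.one_le_iff_ne_zero.mpr hn
  have hlog0 : 0 ≤ Real.log n := Real.log_nonneg hn1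
  have h1 : ‖((ArithmeticFunction.vonMangoldt n : ℝ) : ℂ)‖ ≤ Real.log n := by
    rw [Complex.norm_real, Real.norm_of_nonneg ArithmeticFunction.vonMangoldt_nonneg]
    exact ArithmeticFunction.vonMangoldt_le_log
  have h2 : ‖((Real.log n : ℝ) : ℂ) ^ j‖ = Real.log n ^ j := by
    rw [norm_pow, Complex.norm_real, Real.norm_of_nonneg hlog0]
  have h3 : Real.log n ≤ (n : ℝ) ^ δ * (1 / δ) := by
    have := Real.log_natCast_le_rpow_div n hδ0
    rwa [div_eq_mul_one_div] at this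
  have h4 : ((n : ℝ) ^ δ) ^ (j + 1) = (n : ℝ) ^ (x - 1) := by
    rw [← Real.rpow_natCast, ← Real.rpow_mul (by positivity)]
    congr 1
    rw [hδ]
    push_cast
    field_simp
  calc ‖χ (n : ZMod q) * ((ArithmeticFunction.vonMangoldt n : ℝ) : ℂ) *
        ((Real.log n : ℝ) : ℂ) ^ j‖
      = ‖χ (n : ZMod q)‖ * ‖((ArithmeticFunction.vonMangoldt n : ℝ) : ℂ)‖ *
        ‖((Real.log n : ℝ) : ℂ) ^ j‖ := by rw [norm_mul, norm_mul]
    _ ≤ 1 * Real.log n * Real.log n ^ j := by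
        rw [h2]
        have := logDer_norm_char_le χ n
        gcongr
    _ = Real.log n ^ (j + 1) := by ring
    _ ≤ ((n : ℝ) ^ δ * (1 / δ)) ^ (j + 1) := by gcongr
    _ = (1 / δ) ^ (j + 1) * (n : ℝ) ^ (x - 1) := by rw [mul_pow, h4]; ring

/-- the pointwise identity behind `recursion` -/
theorem logDer_pointwise {q : ℕ} (χ : DirichletCharacter ℂ q) (k n : ℕ) (hn : n ≠ 0) :
    χ (n : ZMod q) * ((Real.log n : ℝ) : ℂ) ^ (k + 1) =
      ∑ j ∈ range (k + 1), (k.choose j : ℂ) *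
        LSeries.convolution (fun n : ℕ => χ (n : ZMod q) * ((Real.log n : ℝ) : ℂ) ^ j)
          (fun n : ℕ => χ (n : ZMod q) * ((ArithmeticFunction.vonMangoldt n : ℝ) : ℂ) *
            ((Real.log n : ℝ) : ℂ) ^ (k - j)) n := by
  simp only [LSeries.convolution_def]
  simp_rw [Finset.mul_sum]
  rw [Finset.sum_comm]
  have h1 : ∀ p ∈ n.divisorsAntidiagonal,
      ∑ j ∈ range (k + 1), (k.choose j : ℂ) *
        (χ (p.1 : ZMod q) * ((Real.log p.1 : ℝ) : ℂ) ^ j *
          (χ (p.2 : ZMod q) * ((ArithmeticFunction.vonMangoldt p.2 : ℝ) : ℂ) *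
            ((Real.log p.2 : ℝ) : ℂ) ^ (k - j))) =
      χ (n : ZMod q) * ((Real.log n : ℝ) : ℂ) ^ k *
        ((ArithmeticFunction.vonMangoldt p.2 : ℝ) : ℂ) := by
    intro p hp
    have hpn := (Nat.mem_divisorsAntidiagonal.mp hp).1
    have hp1 : p.1 ≠ 0 := by rintro h; rw [h, zero_mul] at hpn; exact hn hpn.symm
    have hp2 : p.2 ≠ 0 := by rintro h; rw [h, mul_zero] at hpn; exact hn hpn.symm
    have hχ : χ (n : ZMod q) = χ (p.1 : ZMod q) * χ (p.2 : ZMod q) := by
      rw [← hpn, Nat.cast_mul, map_mul]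
    have hlog : ((Real.log n : ℝ) : ℂ) = ((Real.log p.1 : ℝ) : ℂ) + ((Real.log p.2 : ℝ) : ℂ) := by
      rw [← hpn, Nat.cast_mul, Real.log_mul (by exact_mod_cast hp1) (by exact_mod_cast hp2)]
      push_cast
      rfl
    rw [hχ, hlog, add_pow]
    simp_rw [Finset.mul_sum, Finset.sum_mul]
    refine Finset.sum_congr rfl fun j _ => ?_
    ring
  rw [Finset.sum_congr rfl h1, ← Finset.mul_sum]
  have h2 : ∑ p ∈ n.divisorsAntidiagonal, ((ArithmeticFunction.vonMangoldt p.2 : ℝ) : ℂ) =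
      ((Real.log n : ℝ) : ℂ) := by
    rw [Nat.sum_divisorsAntidiagonal' (fun _ i => ((ArithmeticFunction.vonMangoldt i : ℝ) : ℂ)),
      ← Complex.ofReal_sum, ArithmeticFunction.vonMangoldt_sum]
  rw [h2]
  ring

theorem recursion {q : ℕ} (χ : DirichletCharacter ℂ q) (k : ℕ) {s : ℂ} (hs : 1 < s.re) :
    Lser χ (k + 1) s =
      ∑ j ∈ range (k + 1), (k.choose j : ℂ) * Lser χ j s * Dser χ (k - j) s := by
  have h0 : Lser χ (k + 1) s = LSeries (∑ j ∈ range (k + 1), (k.choose j : ℂ) •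
        LSeries.convolution (fun n : ℕ => χ (n : ZMod q) * ((Real.log n : ℝ) : ℂ) ^ j)
          (fun n : ℕ => χ (n : ZMod q) * ((ArithmeticFunction.vonMangoldt n : ℝ) : ℂ) *
            ((Real.log n : ℝ) : ℂ) ^ (k - j))) s := by
    unfold Lser
    refine LSeries_congr (fun {n} hn => ?_) s
    rw [logDer_pointwise χ k n hn, Finset.sum_apply]
    rfl
  rw [h0, LSeries_sum]
  · refine Finset.sum_congr rfl fun j _ => ?_
    rw [LSeries_smul, LSeries_convolution' (Lser_summable χ j hs) (Dser_summable χ (k - j) hs)]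
    unfold Lser Dser
    ring
  · intro j _
    exact ((Lser_summable χ j hs).convolution (Dser_summable χ (k - j) hs)).smul _

/-- the recursion solved for `D_k` -/
theorem logDer_solve {q : ℕ} (χ : DirichletCharacter ℂ q) (k : ℕ) {s : ℂ} (hs : 1 < s.re) :
    Lser χ 0 s * Dser χ k s = Lser χ (k + 1) s -
      ∑ j ∈ range k, (k.choose (j + 1) : ℂ) * Lser χ (j + 1) s * Dser χ (k - (j + 1)) s := by
  rw [recursion χ k hs, Finset.sum_range_succ' _ k]
  simp

theorem Dser_bound (k : ℕ) : ∃ C : ℝ, 0 < C ∧ ∀ (q : ℕ) [NeZero q]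
    (χ : DirichletCharacter ℂ q), χ ≠ 1 → ∀ s : ℂ, 1 < s.re → s.re ≤ 2 →
    ∀ m : ℝ, 0 < m → m ≤ 1 → m ≤ ‖χ.LFunction s‖ →
    ‖Dser χ k s‖ ≤ C * (ell q s) ^ (2 * k + 2) / m ^ (k + 1) := by
  induction k using Nat.strong_induction_on with
  | _ k ih =>
    choose C hC0 hC using Lser_bound
    have ih' : ∀ i : ℕ, ∃ D : ℝ, 0 < D ∧ (i < k → ∀ (q : ℕ) [NeZero q]
      (χ : DirichletCharacter ℂ q), χ ≠ 1 → ∀ s : ℂ, 1 < s.re → s.re ≤ 2 →
      ∀ m : ℝ, 0 < m → m ≤ 1 → m ≤ ‖χ.LFunction s‖ →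
      ‖Dser χ i s‖ ≤ D * (ell q s) ^ (2 * i + 2) / m ^ (i + 1)) := by
      intro i
      by_cases hi : i < k
      · obtain ⟨D, hD0, hD⟩ := ih i hi
        exact ⟨D, hD0, fun _ => hD⟩
      · exact ⟨1, one_pos, fun h => absurd h hi⟩
    choose D hD0 hD using ih'
    refine ⟨C (k + 1) + ∑ j ∈ range k, (k.choose (j + 1) : ℝ) * C (j + 1) * D (k - (j + 1)),
      ?_, ?_⟩
    · have : 0 ≤ ∑ j ∈ range k, (k.choose (j + 1) : ℝ) * C (j + 1) * D (k - (j + 1)) :=
        Finset.sum_nonneg fun j _ => by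
          have h1 := (hC0 (j + 1)).le
          have h2 := (hD0 (k - (j + 1))).le
          positivity
      linarith [hC0 (k + 1)]
    · intro q _ χ hχ s hs hs2 m hm0 hm1 hmL
      have hq : 1 ≤ q := Nat.one_le_iff_ne_zero.mpr (NeZero.ne q)
      have hl : 1 ≤ ell q s := one_le_ell q hq s
      set l := ell q s with hldef
      have hl0 : 0 < l := by linarith
      have hsolve := logDer_solve χ k hs
      rw [Lser_zero_eq χ hs] at hsolve
      have hLpos : 0 < ‖χ.LFunction s‖ := lt_of_lt_of_le hm0 hmL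
      -- bound for the first term
      have hmk : 0 < m ^ k := pow_pos hm0 k
      have hmk1 : m ^ k ≤ 1 := pow_le_one₀ hm0.le hm1
      have h1 : ‖Lser χ (k + 1) s‖ ≤ C (k + 1) * (l ^ (2 * k + 2) / m ^ k) := by
        refine (hC (k + 1) q χ hχ s hs hs2).trans ?_
        have h3 : l ^ (k + 1 + 1) ≤ l ^ (2 * k + 2) := pow_le_pow_right₀ hl (by omega)
        have h4 : l ^ (2 * k + 2) ≤ l ^ (2 * k + 2) / m ^ k := by
          rw [le_div_iff₀ hmk]
          have : 0 ≤ l ^ (2 * k + 2) := by positivity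
          nlinarith
        have h5 := (hC0 (k + 1)).le
        gcongr
        exact h3.trans h4
      have h2 : ∀ j ∈ range k,
          ‖(k.choose (j + 1) : ℂ) * Lser χ (j + 1) s * Dser χ (k - (j + 1)) s‖ ≤
          (k.choose (j + 1) : ℝ) * C (j + 1) * D (k - (j + 1)) * (l ^ (2 * k + 2) / m ^ k) := by
        intro j hj
        have hjk : j < k := Finset.mem_range.mp hj
        have hb := hD (k - (j + 1)) (by omega) q χ hχ s hs hs2 m hm0 hm1 hmL
        have ha := hC (j + 1) q χ hχ s hs hs2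
        rw [norm_mul, norm_mul, Complex.norm_natCast]
        have hC1 := (hC0 (j + 1)).le
        have hD1 := (hD0 (k - (j + 1))).le
        have h6 : l ^ (j + 1 + 1) * (l ^ (2 * (k - (j + 1)) + 2) / m ^ (k - (j + 1) + 1)) ≤
            l ^ (2 * k + 2) / m ^ k := by
          rw [← mul_div_assoc, ← pow_add]
          have h7 : l ^ (j + 1 + 1 + (2 * (k - (j + 1)) + 2)) ≤ l ^ (2 * k + 2) :=
            pow_le_pow_right₀ hl (by omega)
          have h8 : m ^ k ≤ m ^ (k - (j + 1) + 1) :=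
            pow_le_pow_of_le_one hm0.le hm1 (by omega)
          gcongr
        calc (k.choose (j + 1) : ℝ) * ‖Lser χ (j + 1) s‖ * ‖Dser χ (k - (j + 1)) s‖
            ≤ (k.choose (j + 1) : ℝ) * (C (j + 1) * l ^ (j + 1 + 1)) *
              (D (k - (j + 1)) * l ^ (2 * (k - (j + 1)) + 2) / m ^ (k - (j + 1) + 1)) := by
              gcongr
          _ = (k.choose (j + 1) : ℝ) * C (j + 1) * D (k - (j + 1)) *
              (l ^ (j + 1 + 1) * (l ^ (2 * (k - (j + 1)) + 2) / m ^ (k - (j + 1) + 1))) := by ring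
          _ ≤ _ := by gcongr
      have h3 : ‖χ.LFunction s‖ * ‖Dser χ k s‖ ≤
          (C (k + 1) + ∑ j ∈ range k, (k.choose (j + 1) : ℝ) * C (j + 1) * D (k - (j + 1))) *
            (l ^ (2 * k + 2) / m ^ k) := by
        rw [← norm_mul, hsolve]
        refine (norm_sub_le _ _).trans ?_
        rw [add_mul, Finset.sum_mul]
        exact add_le_add h1 ((norm_sum_le _ _).trans (Finset.sum_le_sum h2))
      set K := C (k + 1) + ∑ j ∈ range k, (k.choose (j + 1) : ℝ) * C (j + 1) * D (k - (j + 1))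
      have h4 : m * ‖Dser χ k s‖ ≤ K * (l ^ (2 * k + 2) / m ^ k) :=
        (mul_le_mul_of_nonneg_right hmL (norm_nonneg _)).trans h3
      rw [le_div_iff₀ (pow_pos hm0 _)]
      calc ‖Dser χ k s‖ * m ^ (k + 1) = (m * ‖Dser χ k s‖) * m ^ k := by ring
        _ ≤ (K * (l ^ (2 * k + 2) / m ^ k)) * m ^ k := by gcongr
        _ = K * l ^ (2 * k + 2) := by field_simp

end Pool.Agent.BV
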