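import Pool.Agent.Work.BV.LNear

/-! # Module Lower: lower bounds for `L(s, χ)`, `1 < Re s ≤ 2` (3-4-1 and the derivative trick) -/

namespace Pool.Agent.BV

open Finset DirichletCharacter Complex
open scoped ArithmeticFunction.Moebius

lemma lower_zeta {σ : ℝ} (h1 : 1 < σ) (h2 : σ ≤ 2) :
    ∑' n : ℕ, 1 / (n : ℝ) ^ σ ≤ 2 / (σ - 1) := by
  have hsum : Summable (fun n : ℕ => 1 / (n : ℝ) ^ σ) := Real.summable_one_div_nat_rpow.2 h1
  rw [hsum.tsum_eq_zero_add]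
  have h0 : (1 : ℝ) / ((0 : ℕ) : ℝ) ^ σ = 0 := by
    rw [Nat.cast_zero, Real.zero_rpow (by linarith), div_zero]
  rw [h0, zero_add]
  have h3 := ZetaAsymptotics.zeta_limit_aux1 h1
  have h4 : 0 ≤ ZetaAsymptotics.termTSum σ := tsum_nonneg fun n => ZetaAsymptotics.term_nonneg _ _
  push_cast at h3 ⊢
  have h5 : 0 ≤ σ * ZetaAsymptotics.termTSum σ := mul_nonneg (by linarith) h4
  have h6 : (1 : ℝ) ≤ 1 / (σ - 1) := by
    rw [le_div_iff₀ (by linarith)]; linarith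
  have h7 : 2 / (σ - 1) = 1 / (σ - 1) + 1 / (σ - 1) := by ring
  linarith

lemma lower_norm_le {f : ℕ → ℂ} (hf : ∀ n ≠ 0, ‖f n‖ ≤ 1) {s : ℂ} (hs : 1 < s.re)
    (hs2 : s.re ≤ 2) : ‖LSeries f s‖ ≤ 2 / (s.re - 1) := by
  have hsum : Summable (fun n : ℕ => 1 / (n : ℝ) ^ s.re) := Real.summable_one_div_nat_rpow.2 hs
  have hle : ∀ n, ‖LSeries.term f s n‖ ≤ 1 / (n : ℝ) ^ s.re := by
    intro n
    rcases eq_or_ne n 0 with rfl | hn
    · simp only [LSeries.term_zero, norm_zero]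
      positivity
    · rw [LSeries.norm_term_eq, if_neg hn]
      gcongr
      exact hf n hn
  calc ‖LSeries f s‖ = ‖∑' n, LSeries.term f s n‖ := rfl
    _ ≤ ∑' n : ℕ, 1 / (n : ℝ) ^ s.re := tsum_of_norm_bounded hsum.hasSum hle
    _ ≤ 2 / (s.re - 1) := lower_zeta hs hs2

lemma lower_L_le {q : ℕ} [NeZero q] (χ : DirichletCharacter ℂ q) {s : ℂ} (hs : 1 < s.re)
    (hs2 : s.re ≤ 2) : ‖χ.LFunction s‖ ≤ 2 / (s.re - 1) := by
  rw [DirichletCharacter.LFunction_eq_LSeries χ hs]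
  exact lower_norm_le (fun n _ => χ.norm_le_one _) hs hs2

theorem lower_trivial (q : ℕ) [NeZero q] (χ : DirichletCharacter ℂ q) (s : ℂ) (hs : 1 < s.re)
    (hs2 : s.re ≤ 2) : s.re - 1 ≤ 2 * ‖χ.LFunction s‖ := by
  have h1 := LSeries.mul_mu_eq_one χ hs
  rw [← DirichletCharacter.LFunction_eq_LSeries χ hs] at h1
  have h2 : ‖LSeries ((fun n : ℕ => χ (n : ZMod q)) * (fun n : ℕ => ((μ n : ℤ) : ℂ))) s‖ ≤ 2 / (s.re - 1) := by
    apply lower_norm_le _ hs hs2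
    intro n _
    simp only [Pi.mul_apply, norm_mul]
    have h3 : ‖χ (n : ZMod q)‖ ≤ 1 := χ.norm_le_one _
    have h4 : ‖((μ n : ℤ) : ℂ)‖ ≤ 1 := by
      rw [Complex.norm_intCast]
      exact_mod_cast ArithmeticFunction.abs_moebius_le_one
    calc _ ≤ (1 : ℝ) * 1 := mul_le_mul h3 h4 (norm_nonneg _) zero_le_one
      _ = 1 := one_mul 1
  have h5 := congrArg norm h1
  rw [norm_mul, norm_one] at h5
  have h6 : 0 < s.re - 1 := by linarith
  have h7 : 1 ≤ ‖χ.LFunction s‖ * (2 / (s.re - 1)) :=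
    h5.symm.le.trans (mul_le_mul_of_nonneg_left h2 (norm_nonneg _))
  rw [mul_div_assoc', le_div_iff₀ h6] at h7
  linarith

lemma lower_341 {q : ℕ} [NeZero q] (χ : DirichletCharacter ℂ q) {x : ℝ} (hx : 0 < x)
    (hx1 : x ≤ 1) (t : ℝ) {B : ℝ}
    (hB : ‖(χ ^ 2).LFunction (1 + x + 2 * I * t)‖ ≤ B) :
    x ^ 3 ≤ 8 * B * ‖χ.LFunction (1 + x + I * t)‖ ^ 4 := by
  have h1 := χ.norm_LFunction_product_ge_one hx t
  have h2 : ‖LFunctionTrivChar q (1 + x)‖ ≤ 2 / x := by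
    have h3 := lower_L_le (1 : DirichletCharacter ℂ q) (s := 1 + x) (by simpa using hx)
      (by simp; linarith)
    simpa [LFunctionTrivChar] using h3
  rw [ge_iff_le, norm_mul, norm_mul, norm_pow, norm_pow] at h1
  have h3 : ‖LFunctionTrivChar q (1 + x)‖ ^ 3 ≤ (2 / x) ^ 3 :=
    pow_le_pow_left₀ (norm_nonneg _) h2 3
  have h4 : 0 ≤ ‖χ.LFunction (1 + x + I * t)‖ ^ 4 := by positivity
  have h5 : 1 ≤ (2 / x) ^ 3 * ‖χ.LFunction (1 + x + I * t)‖ ^ 4 * B := by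
    refine h1.trans ?_
    apply mul_le_mul (mul_le_mul_of_nonneg_right h3 h4) hB (norm_nonneg _)
    positivity
  have h6 : (2 / x) ^ 3 * ‖χ.LFunction (1 + x + I * t)‖ ^ 4 * B =
      (8 * B * ‖χ.LFunction (1 + x + I * t)‖ ^ 4) / x ^ 3 := by
    rw [div_pow]; ring
  rw [h6, le_div_iff₀ (by positivity)] at h5
  linarith

lemma lower_core (K C2 : ℝ) (hK : 1 ≤ K) (hC2 : 0 < C2) : ∃ C : ℝ, 0 < C ∧ ∀ l τ : ℝ, 1 ≤ l →
    0 < τ → τ ≤ 1 → ∀ a : ℝ → ℝ, (∀ x, 0 ≤ a x) →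
    (∀ x, 0 < x → x ≤ 1 → x ^ 3 * τ ≤ K * l * a x ^ 4) →
    (∀ x y, 0 < x → x ≤ y → y ≤ 1 → a y ≤ a x + C2 * (y - x) * l ^ 2) →
    ∀ x, 0 < x → x ≤ 1 → τ ≤ C * l ^ 7 * a x := by
  set m : ℝ := 2 * (C2 + 1) with hm
  have hm1 : 1 ≤ m := by rw [hm]; linarith
  set d : ℝ := 1 / (K ^ 4 * m ^ 3) with hd
  set c : ℝ := 1 / (K ^ 5 * m ^ 4) with hc
  have hK0 : 0 < K := by linarith
  have hm0 : 0 < m := by linarith
  have hd0 : 0 < d := by positivity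
  have hc0 : 0 < c := by positivity
  have hc1 : c ≤ 1 := by
    rw [hc, div_le_one (by positivity)]
    exact one_le_mul_of_one_le_of_one_le (one_le_pow₀ hK) (one_le_pow₀ hm1)
  have hcd : c ^ 3 = K * d ^ 4 := by
    rw [hc, hd]
    field_simp
  have hC2c : C2 * c ≤ d / 2 := by
    have h1 : c = d / (K * m) := by
      rw [hc, hd]; field_simp
    rw [h1, mul_div_assoc', div_le_div_iff₀ (by positivity) (by norm_num)]
    have h2 : 2 * C2 ≤ K * m := by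
      calc 2 * C2 ≤ 1 * m := by rw [hm]; linarith
        _ ≤ K * m := mul_le_mul_of_nonneg_right hK hm0.le
    nlinarith
  refine ⟨2 / d, by positivity, ?_⟩
  intro l τ hl hτ hτ1 a ha h1 h2 x hx hx1
  have hl0 : 0 < l := by linarith
  set x0 : ℝ := c * τ / l ^ 9 with hx0
  have hx00 : 0 < x0 := by positivity
  have hx01 : x0 ≤ 1 := by
    rw [hx0, div_le_one (by positivity)]
    calc c * τ ≤ 1 * 1 := mul_le_mul hc1 hτ1 hτ.le zero_le_one
      _ ≤ l ^ 9 := by rw [one_mul]; exact one_le_pow₀ hl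
  -- the bound for `y ≥ x0`
  have key : ∀ y, x0 ≤ y → y ≤ 1 → d * τ / l ^ 7 ≤ a y := by
    intro y hy hy1
    have hy0 : 0 < y := lt_of_lt_of_le hx00 hy
    have h3 := h1 y hy0 hy1
    have h4 : x0 ^ 3 ≤ y ^ 3 := pow_le_pow_left₀ hx00.le hy 3
    have h5 : (d * τ / l ^ 7) ^ 4 * (K * l) ≤ a y ^ 4 * (K * l) := by
      have h6 : (d * τ / l ^ 7) ^ 4 * (K * l) = x0 ^ 3 * τ := by
        rw [hx0, div_pow, div_pow, mul_pow, mul_pow, hcd]
        field_simp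
      rw [h6]
      calc x0 ^ 3 * τ ≤ y ^ 3 * τ := mul_le_mul_of_nonneg_right h4 hτ.le
        _ ≤ K * l * a y ^ 4 := h3
        _ = a y ^ 4 * (K * l) := by ring
    have h7 := le_of_mul_le_mul_right h5 (by positivity)
    exact (pow_le_pow_iff_left₀ (by positivity) (ha y) (by norm_num)).1 h7
  have hfin : d / 2 * τ / l ^ 7 ≤ a x := by
    rcases le_total x0 x with h | h
    · have h3 := key x h hx1
      have h4 : d / 2 * τ / l ^ 7 ≤ d * τ / l ^ 7 := by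
        gcongr
        linarith
      linarith
    · have h3 := key x0 le_rfl hx01
      have h4 := h2 x x0 hx h hx01
      have h5 : C2 * (x0 - x) * l ^ 2 ≤ d / 2 * τ / l ^ 7 := by
        calc C2 * (x0 - x) * l ^ 2 ≤ C2 * x0 * l ^ 2 := by gcongr; linarith
          _ = C2 * c * τ / l ^ 7 := by
              rw [hx0]; field_simp
          _ ≤ d / 2 * τ / l ^ 7 := by gcongr
      have h6 : d * τ / l ^ 7 = d / 2 * τ / l ^ 7 + d / 2 * τ / l ^ 7 := by ring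
      linarith
  rw [div_le_iff₀ (by positivity)] at hfin
  have h8 : 2 / d * l ^ 7 * a x = (a x * l ^ 7) * (2 / d) := by ring
  rw [h8]
  calc τ = d / 2 * τ * (2 / d) := by field_simp
    _ ≤ (a x * l ^ 7) * (2 / d) := mul_le_mul_of_nonneg_right hfin (by positivity)

lemma lower_ell_two {q : ℕ} (hq : 1 ≤ q) (t : ℝ) :
    Real.log (q * (|2 * t| + 3)) ≤ 2 * Real.log (q * (|t| + 3)) := by
  have hq' : (1 : ℝ) ≤ q := by exact_mod_cast hq
  have ht := abs_nonneg t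
  rw [← Real.log_rpow (by positivity)]
  apply Real.log_le_log (by positivity)
  rw [Real.rpow_ofNat, abs_mul, abs_of_pos (show (0 : ℝ) < 2 by norm_num)]
  calc (q : ℝ) * (2 * |t| + 3) ≤ (q * q) * ((|t| + 3) * (|t| + 3)) := by
        apply mul_le_mul _ (by nlinarith) (by positivity) (by positivity)
        nlinarith
    _ = (q * (|t| + 3)) ^ 2 := by ring

/-- the data of a character on a vertical coordinate -/
lemma lower_combine {C2 : ℝ}
    (hH : ∀ (q : ℕ) [NeZero q] (χ : DirichletCharacter ℂ q), χ ≠ 1 → ∀ σ₁ σ₂ t : ℝ, 1 < σ₁ →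
      σ₁ ≤ σ₂ → σ₂ ≤ 2 →
      ‖χ.LFunction ((σ₂ : ℂ) + t * I) - χ.LFunction ((σ₁ : ℂ) + t * I)‖ ≤
      C2 * (σ₂ - σ₁) * (Real.log (q * (|t| + 3))) ^ 2)
    {C K : ℝ} (hcore : ∀ l τ : ℝ, 1 ≤ l →
    0 < τ → τ ≤ 1 → ∀ a : ℝ → ℝ, (∀ x, 0 ≤ a x) →
    (∀ x, 0 < x → x ≤ 1 → x ^ 3 * τ ≤ K * l * a x ^ 4) →
    (∀ x y, 0 < x → x ≤ y → y ≤ 1 → a y ≤ a x + C2 * (y - x) * l ^ 2) →
    ∀ x, 0 < x → x ≤ 1 → τ ≤ C * l ^ 7 * a x)
    {q : ℕ} [NeZero q] (χ : DirichletCharacter ℂ q) (hχ : χ ≠ 1) (s : ℂ) (hs : 1 < s.re)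
    (hs2 : s.re ≤ 2) (τ : ℝ) (hτ : 0 < τ) (hτ1 : τ ≤ 1)
    (h : ∀ x : ℝ, 0 < x → x ≤ 1 →
      8 * ‖(χ ^ 2).LFunction (1 + x + 2 * I * s.im)‖ * τ ≤ K * ell q s) :
    τ ≤ C * (ell q s) ^ 7 * ‖χ.LFunction s‖ := by
  have hq : 1 ≤ q := Nat.one_le_iff_ne_zero.2 (NeZero.ne q)
  have h1 := hcore (ell q s) τ (one_le_ell q hq s) hτ hτ1
    (fun x => ‖χ.LFunction (1 + x + I * s.im)‖) (fun x => norm_nonneg _) ?_ ?_ (s.re - 1)
    (by linarith) (by linarith)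
  · convert h1 using 4
    apply Complex.ext
    · simp
    · simp
  · intro x hx hx1
    have h2 := lower_341 χ hx hx1 s.im le_rfl
    have h3 := h x hx hx1
    calc x ^ 3 * τ ≤ (8 * ‖(χ ^ 2).LFunction (1 + x + 2 * I * s.im)‖ *
          ‖χ.LFunction (1 + x + I * s.im)‖ ^ 4) * τ := mul_le_mul_of_nonneg_right h2 hτ.le
      _ = (8 * ‖(χ ^ 2).LFunction (1 + x + 2 * I * s.im)‖ * τ) *
          ‖χ.LFunction (1 + x + I * s.im)‖ ^ 4 := by ring
      _ ≤ K * ell q s * ‖χ.LFunction (1 + x + I * s.im)‖ ^ 4 :=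
          mul_le_mul_of_nonneg_right h3 (by positivity)
  · intro x y hx hxy hy
    have h2 := hH q χ hχ (1 + x) (1 + y) s.im (by linarith) (by linarith) (by linarith)
    have h3 : ∀ z : ℝ, (((1 + z : ℝ) : ℂ) + s.im * I) = 1 + z + I * s.im := by
      intro z; push_cast; ring
    rw [h3, h3] at h2
    have h4 := norm_sub_norm_le (χ.LFunction (1 + y + I * s.im)) (χ.LFunction (1 + x + I * s.im))
    have h5 : (1 + y) - (1 + x) = y - x := by ring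
    rw [h5] at h2
    unfold ell
    linarith

theorem lower_complex : ∃ C : ℝ, 0 < C ∧ ∀ (q : ℕ) [NeZero q] (χ : DirichletCharacter ℂ q),
    χ ≠ 1 → χ ^ 2 ≠ 1 → ∀ s : ℂ, 1 < s.re → s.re ≤ 2 →
    1 ≤ C * (ell q s) ^ 7 * ‖χ.LFunction s‖ := by
  obtain ⟨C1, hC1, h1⟩ := Lser_bound 0
  obtain ⟨C2, hC2, h2⟩ := LFunction_horizontal
  obtain ⟨C, hC, hcore⟩ := lower_core (16 * C1 + 1) C2 (by linarith) hC2
  refine ⟨C, hC, ?_⟩
  intro q _ χ hχ hχ2 s hs hs2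
  have hq : 1 ≤ q := Nat.one_le_iff_ne_zero.2 (NeZero.ne q)
  refine lower_combine h2 hcore χ hχ s hs hs2 1 one_pos le_rfl ?_
  intro x hx hx1
  have hre : (1 + x + 2 * I * s.im : ℂ).re = 1 + x := by simp
  have him : (1 + x + 2 * I * s.im : ℂ).im = 2 * s.im := by simp
  have h3 := h1 q (χ ^ 2) hχ2 (1 + x + 2 * I * s.im) (by rw [hre]; linarith)
    (by rw [hre]; linarith)
  rw [Lser_zero_eq (χ ^ 2) (by rw [hre]; linarith), zero_add, pow_one] at h3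
  have h4 : ell q (1 + x + 2 * I * s.im) ≤ 2 * ell q s := by
    unfold ell
    rw [him]
    exact lower_ell_two hq s.im
  have h5 : ‖(χ ^ 2).LFunction (1 + x + 2 * I * s.im)‖ ≤ C1 * (2 * ell q s) :=
    h3.trans (mul_le_mul_of_nonneg_left h4 hC1.le)
  have h6 := one_le_ell q hq s
  nlinarith

theorem lower_real_tau : ∃ C : ℝ, 0 < C ∧ ∀ (q : ℕ) [NeZero q] (χ : DirichletCharacter ℂ q),
    χ ≠ 1 → χ ^ 2 = 1 → ∀ s : ℂ, 1 < s.re → s.re ≤ 2 →
    min 1 |s.im| ≤ C * (ell q s) ^ 7 * ‖χ.LFunction s‖ := by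
  obtain ⟨C1, hC1, h1⟩ := Lser_triv_bound
  obtain ⟨C2, hC2, h2⟩ := LFunction_horizontal
  obtain ⟨C, hC, hcore⟩ := lower_core (24 * C1 + 1) C2 (by linarith) hC2
  refine ⟨C, hC, ?_⟩
  intro q _ χ hχ hχ2 s hs hs2
  have hq : 1 ≤ q := Nat.one_le_iff_ne_zero.2 (NeZero.ne q)
  have h6 := one_le_ell q hq s
  rcases eq_or_ne s.im 0 with ht | ht
  · rw [ht, abs_zero, min_eq_right zero_le_one]
    positivity
  have ht0 : 0 < |s.im| := abs_pos.2 ht
  have hτ0 : 0 < min 1 |s.im| := lt_min one_pos ht0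
  refine lower_combine h2 hcore χ hχ s hs hs2 _ hτ0 (min_le_left _ _) ?_
  intro x hx hx1
  have hre : (1 + x + 2 * I * s.im : ℂ).re = 1 + x := by simp
  have him : (1 + x + 2 * I * s.im : ℂ).im = 2 * s.im := by simp
  have h3 := h1 q (1 + x + 2 * I * s.im) (by rw [hre]; linarith) (by rw [hre]; linarith)
  rw [Lser_zero_eq (1 : DirichletCharacter ℂ q) (by rw [hre]; linarith)] at h3
  rw [hχ2]
  have h4 : ell q (1 + x + 2 * I * s.im) ≤ 2 * ell q s := by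
    unfold ell
    rw [him]
    exact lower_ell_two hq s.im
  have h7 : min 1 |s.im| ≤ ‖(1 + x + 2 * I * s.im : ℂ) - 1‖ := by
    have h8 := Complex.abs_im_le_norm ((1 + x + 2 * I * s.im : ℂ) - 1)
    have h9 : ((1 + x + 2 * I * s.im : ℂ) - 1).im = 2 * s.im := by simp
    rw [h9, abs_mul, abs_of_pos (show (0 : ℝ) < 2 by norm_num)] at h8
    have h10 := min_le_right 1 |s.im|
    linarith
  have h8 : 1 / ‖(1 + x + 2 * I * s.im : ℂ) - 1‖ ≤ 1 / min 1 |s.im| :=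
    one_div_le_one_div_of_le hτ0 h7
  have h9 : ‖(1 : DirichletCharacter ℂ q).LFunction (1 + x + 2 * I * s.im)‖ ≤
      C1 * (2 * ell q s + 1 / min 1 |s.im|) :=
    h3.trans (mul_le_mul_of_nonneg_left (add_le_add h4 h8) hC1.le)
  set τ := min 1 |s.im| with hτ
  have hτ1 : τ ≤ 1 := min_le_left _ _
  calc 8 * ‖(1 : DirichletCharacter ℂ q).LFunction (1 + x + 2 * I * s.im)‖ * τ
      ≤ 8 * (C1 * (2 * ell q s + 1 / τ)) * τ := by gcongr
    _ = 16 * C1 * ell q s * τ + 8 * C1 := by field_simp; ring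
    _ ≤ 16 * C1 * ell q s * 1 + 8 * C1 * ell q s := by
        have h11 : 16 * C1 * ell q s * τ ≤ 16 * C1 * ell q s * 1 := by gcongr
        nlinarith
    _ ≤ (24 * C1 + 1) * ell q s := by nlinarith

theorem lower_real : ∃ C : ℝ, 0 < C ∧ ∀ (q : ℕ) [NeZero q] (χ : DirichletCharacter ℂ q),
    χ ≠ 1 → χ ^ 2 = 1 → ∀ s : ℂ, 1 < s.re → s.re ≤ 2 →
    ‖χ.LFunction 1‖ ≤ C * (ell q s) ^ 9 * ‖χ.LFunction s‖ := by
  obtain ⟨C0, hC0, h0⟩ := LFunction_near_one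
  obtain ⟨C1, hC1, h1⟩ := LFunction_one_le
  obtain ⟨C, hC, h⟩ := lower_real_tau
  refine ⟨2 + C1 * C + 4 * C0 * C + 8 * C0, by positivity, ?_⟩
  intro q _ χ hχ hχ2 s hs hs2
  have hq : 1 ≤ q := Nat.one_le_iff_ne_zero.2 (NeZero.ne q)
  have hl := one_le_ell q hq s
  have g0 := h0 q χ hχ s hs hs2
  have g1 := h1 q χ hχ
  have g2 := h q χ hχ hχ2 s hs hs2
  have g3 := lower_trivial q χ s hs hs2
  set l := ell q s with hl'
  set a := ‖χ.LFunction s‖ with ha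
  set lam := ‖χ.LFunction 1‖ with hlam
  have ha0 : 0 ≤ a := norm_nonneg _
  have hl0 : 0 < l := by linarith
  have hl79 : l ^ 7 ≤ l ^ 9 := pow_le_pow_right₀ hl (by norm_num)
  have hl29 : l ^ 2 ≤ l ^ 9 := pow_le_pow_right₀ hl (by norm_num)
  have hl89 : l ^ 8 ≤ l ^ 9 := pow_le_pow_right₀ hl (by norm_num)
  have hl09 : 1 ≤ l ^ 9 := one_le_pow₀ hl
  have P1 : 0 ≤ C1 * C * (l ^ 9 * a) := by positivity
  have P2 : 0 ≤ 4 * C0 * C * (l ^ 9 * a) := by positivity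
  have P3 : 0 ≤ 8 * C0 * (l ^ 9 * a) := by positivity
  have P4 : 0 ≤ 2 * (l ^ 9 * a) := by positivity
  have hexp : (2 + C1 * C + 4 * C0 * C + 8 * C0) * l ^ 9 * a =
      2 * (l ^ 9 * a) + C1 * C * (l ^ 9 * a) + 4 * C0 * C * (l ^ 9 * a) +
        8 * C0 * (l ^ 9 * a) := by ring
  rw [hexp]
  rcases le_total (C0 * ‖s - 1‖ * l ^ 2) (lam / 2) with hc | hc
  · have g4 : lam ≤ 2 * a := by
      have g5 := norm_sub_norm_le (χ.LFunction 1) (χ.LFunction s)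
      rw [norm_sub_rev] at g5
      linarith
    have g6 : 2 * a ≤ 2 * (l ^ 9 * a) := by nlinarith
    linarith
  · have g4 : ‖s - 1‖ ≤ (s.re - 1) + |s.im| := by
      have g5 := Complex.norm_le_abs_re_add_abs_im (s - 1)
      have g6 : (s - 1).re = s.re - 1 := by simp
      have g7 : (s - 1).im = s.im := by simp
      rw [g6, g7, abs_of_nonneg (by linarith)] at g5
      exact g5
    have hCl : 0 < C0 * l ^ 2 := by positivity
    have g5 : lam / 2 ≤ C0 * l ^ 2 * (s.re - 1) + C0 * l ^ 2 * |s.im| := by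
      have g6 : C0 * ‖s - 1‖ * l ^ 2 = C0 * l ^ 2 * ‖s - 1‖ := by ring
      rw [g6] at hc
      have g7 := mul_le_mul_of_nonneg_left g4 hCl.le
      linarith
    rcases le_total (lam / 4) (C0 * l ^ 2 * (s.re - 1)) with hcc | hcc
    · have g6 : C0 * l ^ 2 * (s.re - 1) ≤ C0 * l ^ 2 * (2 * a) :=
        mul_le_mul_of_nonneg_left g3 hCl.le
      have g7 : C0 * l ^ 2 * (2 * a) ≤ C0 * l ^ 9 * (2 * a) := by gcongr
      linarith
    · have g6 : lam / 4 ≤ C0 * l ^ 2 * |s.im| := by linarith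
      rcases le_total 1 |s.im| with ht | ht
      · rw [min_eq_left ht] at g2
        have g7 : Real.log (3 * q) ≤ l := by
          rw [hl']
          unfold ell
          apply Real.log_le_log (by positivity)
          rw [mul_comm]
          gcongr
          linarith [abs_nonneg s.im]
        have g8 : lam ≤ C1 * l := g1.trans (mul_le_mul_of_nonneg_left g7 hC1.le)
        have g9 : C1 * l * 1 ≤ C1 * l * (C * l ^ 7 * a) :=
          mul_le_mul_of_nonneg_left g2 (by positivity)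
        have g10 : C1 * l * (C * l ^ 7 * a) = C1 * C * (l ^ 8 * a) := by ring
        have g11 : C1 * C * (l ^ 8 * a) ≤ C1 * C * (l ^ 9 * a) := by gcongr
        linarith
      · rw [min_eq_right ht] at g2
        have g9 : C0 * l ^ 2 * |s.im| ≤ C0 * l ^ 2 * (C * l ^ 7 * a) :=
          mul_le_mul_of_nonneg_left g2 hCl.le
        have g10 : C0 * l ^ 2 * (C * l ^ 7 * a) = C0 * C * (l ^ 9 * a) := by ring
        linarith

end Pool.Agent.BV
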