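import Pool.Agent.Work.BV.Unif

/-! # Module Primes: Bombieri-Vinogradov for `θ` and for `π`, uniformly in `y ≤ x`

`thetaA`, `theta`: logarithms of primes only. Prime powers: `0 ≤ psiA q a y - thetaA q a y ≤ psi y - theta y`
`≤ 2 √x log x` (Mathlib `Chebyshev.psi_sub_theta_le` or a direct count), times `Q ≤ x^(4/9)`:
negligible (`x^{17/18} log x`). `bv_theta` follows from `bv_uniform`.

`bv_primes`: `piA q a y = ∑_{n ≤ y} (thetaA q a n - thetaA q a (n-1))/log n`, Abel summation: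
`E^π_q(y) = E^θ_q(y)/log y + ∑_{2 ≤ n < y} E^θ_q(n) (1/log n - 1/log(n+1))` (for `y ≥ 2`), where
`E^θ_q(n) = thetaA q (a q) n - theta n/φ(q)`. Sum absolute values over `q`, use `bv_theta` (constant `y`) for
every `n` (bound `C x/(log x)^A` for all `n ≤ x`), and `∑_n (1/log n - 1/log(n+1)) ≤ 1/log 2`. -/

namespace Pool.Agent.BV

open Finset
open scoped ArithmeticFunction.vonMangoldt

noncomputable section

def thetaA (q a x : ℕ) : ℝ :=
  ∑ p ∈ (Icc 1 x).filter (fun p => p.Prime ∧ p ≡ a [MOD q]), Real.log p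

def theta (x : ℕ) : ℝ := ∑ p ∈ (Icc 1 x).filter Nat.Prime, Real.log p

def piA (q a x : ℕ) : ℝ := ((Icc 1 x).filter (fun p => p.Prime ∧ p ≡ a [MOD q])).card

/-- powers of the logarithm are negligible -/
theorem primes_logpow (k : ℕ) (δ : ℝ) (hδ : 0 < δ) : ∃ C : ℝ, 0 < C ∧ ∀ x : ℝ, 1 ≤ x →
    (Real.log x) ^ k ≤ C * x ^ δ := by
  set ε : ℝ := δ / (k + 1) with hε
  have hk : (0 : ℝ) < (k : ℝ) + 1 := by positivity
  have hε0 : 0 < ε := div_pos hδ hk
  refine ⟨(1 / ε) ^ k, by positivity, fun x hx => ?_⟩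
  have h0 : (0 : ℝ) ≤ x := by linarith
  have h1 := Real.log_le_rpow_div h0 hε0
  have h2 : (Real.log x) ^ k ≤ (x ^ ε / ε) ^ k :=
    pow_le_pow_left₀ (Real.log_nonneg hx) h1 k
  have h3 : (x ^ ε / ε) ^ k = (1 / ε) ^ k * (x ^ ε) ^ k := by
    rw [← mul_pow]
    congr 1
    ring
  rw [h3] at h2
  refine h2.trans ?_
  apply mul_le_mul_of_nonneg_left _ (by positivity)
  rw [← Real.rpow_natCast, ← Real.rpow_mul h0]
  apply Real.rpow_le_rpow_of_exponent_le hx
  rw [hε, div_mul_eq_mul_div, div_le_iff₀ hk]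
  nlinarith

theorem primes_psi_eq (y : ℕ) : psi y = Chebyshev.psi (y : ℝ) := by
  unfold psi Chebyshev.psi
  rw [Nat.floor_natCast]
  apply sum_congr _ (fun _ _ => rfl)
  ext n
  simp
  omega

theorem primes_theta_eq (y : ℕ) : theta y = Chebyshev.theta (y : ℝ) := by
  unfold theta Chebyshev.theta
  rw [Nat.floor_natCast]
  apply sum_congr _ (fun _ _ => rfl)
  ext n
  simp
  omega

theorem primes_sub_le {x y : ℕ} (hx : 3 ≤ x) (hy : y ≤ x) :
    psi y - theta y ≤ 2 * Real.sqrt x * Real.log x := by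
  rw [primes_psi_eq, primes_theta_eq]
  have hx' : (1 : ℝ) ≤ x := by exact_mod_cast (by omega : 1 ≤ x)
  rcases Nat.eq_zero_or_pos y with h | h
  · subst h
    simp only [Nat.cast_zero, Chebyshev.psi_zero, Chebyshev.theta_zero, sub_zero]
    have := Real.log_nonneg hx'
    positivity
  · have hy' : (1 : ℝ) ≤ y := by exact_mod_cast h
    have hyx : (y : ℝ) ≤ x := by exact_mod_cast hy
    refine (Chebyshev.psi_sub_theta_le hy').trans ?_
    have h1 := Real.sqrt_le_sqrt hyx
    have h2 := Real.log_le_log (by linarith) hyx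
    have h3 := Real.log_nonneg hy'
    have h4 := Real.sqrt_nonneg (y : ℝ)
    exact mul_le_mul (mul_le_mul_of_nonneg_left h1 two_pos.le) h2 h3 (by positivity)

theorem primes_diff_nonneg (q a y : ℕ) : 0 ≤ psiA q a y - thetaA q a y ∧
    psiA q a y - thetaA q a y ≤ psi y - theta y := by
  have e : psiA q a y - thetaA q a y =
      ∑ n ∈ Icc 1 y, if n ≡ a [MOD q] then (if n.Prime then 0 else Λ n) else 0 := by
    unfold psiA thetaA
    rw [sum_filter, sum_filter, ← sum_sub_distrib]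
    refine sum_congr rfl fun n _ => ?_
    by_cases h1 : n ≡ a [MOD q]
    · by_cases h2 : n.Prime
      · simp [h1, h2, ArithmeticFunction.vonMangoldt_apply_prime h2]
      · simp [h1, h2]
    · simp [h1]
  have e2 : psi y - theta y = ∑ n ∈ Icc 1 y, (if n.Prime then 0 else Λ n) := by
    unfold psi theta
    rw [sum_filter, ← sum_sub_distrib]
    refine sum_congr rfl fun n _ => ?_
    by_cases h2 : n.Prime
    · simp [h2, ArithmeticFunction.vonMangoldt_apply_prime h2]
    · simp [h2]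
  rw [e, e2]
  have h0 : ∀ n : ℕ, 0 ≤ (if n.Prime then 0 else Λ n : ℝ) := by
    intro n
    split_ifs
    · exact le_rfl
    · exact ArithmeticFunction.vonMangoldt_nonneg
  constructor
  · apply sum_nonneg
    intro n _
    split_ifs
    · exact le_rfl
    · exact ArithmeticFunction.vonMangoldt_nonneg
    · exact le_rfl
  · apply sum_le_sum
    intro n _
    by_cases h1 : n ≡ a [MOD q]
    · rw [if_pos h1]
    · rw [if_neg h1]
      exact h0 n

theorem bv_theta (A : ℕ) : ∃ C : ℝ, 0 < C ∧ ∀ (x Q : ℕ) (a y : ℕ → ℕ), 3 ≤ x →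
    (Q : ℝ) ≤ (x : ℝ) ^ (4 / 9 : ℝ) → (∀ q ∈ Icc 1 Q, (a q).Coprime q) →
    (∀ q ∈ Icc 1 Q, y q ≤ x) →
    ∑ q ∈ Icc 1 Q, |thetaA q (a q) (y q) - theta (y q) / q.totient| ≤
      C * x / (Real.log x) ^ A := by
  obtain ⟨C₁, hC₁, h1⟩ := bv_uniform A
  obtain ⟨C₂, hC₂, h2⟩ := primes_logpow (A + 1) (1 / 18) (by norm_num)
  refine ⟨C₁ + 4 * C₂, by positivity, fun x Q a y hx hQ ha hy => ?_⟩
  have hx' : (1 : ℝ) ≤ x := by exact_mod_cast (by omega : 1 ≤ x)
  have hx0 : (0 : ℝ) < x := by linarith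
  have hlog : 0 < Real.log x := Real.log_pos (by exact_mod_cast (by omega : 1 < x))
  have key : ∀ q ∈ Icc 1 Q, |thetaA q (a q) (y q) - theta (y q) / q.totient| ≤
      |psiA q (a q) (y q) - psi (y q) / q.totient| + 4 * Real.sqrt x * Real.log x := by
    intro q hq
    have hφ : (1 : ℝ) ≤ q.totient := by
      exact_mod_cast Nat.totient_pos.2 (mem_Icc.1 hq).1
    have b1 := primes_diff_nonneg q (a q) (y q)
    have b2 := primes_sub_le hx (hy q hq)
    have b0 : 0 ≤ psi (y q) - theta (y q) := by linarith [b1.1, b1.2]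
    have b3 : (psi (y q) - theta (y q)) / q.totient ≤ psi (y q) - theta (y q) :=
      div_le_self b0 hφ
    have b4 : 0 ≤ (psi (y q) - theta (y q)) / q.totient := by positivity
    have e : thetaA q (a q) (y q) - theta (y q) / q.totient =
        (psiA q (a q) (y q) - psi (y q) / q.totient) -
          ((psiA q (a q) (y q) - thetaA q (a q) (y q)) -
            (psi (y q) - theta (y q)) / q.totient) := by ring
    rw [e]
    refine (abs_sub _ _).trans ?_
    have b5 : |(psiA q (a q) (y q) - thetaA q (a q) (y q)) -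
            (psi (y q) - theta (y q)) / q.totient| ≤ 4 * Real.sqrt x * Real.log x := by
      rw [abs_le]
      constructor
      · nlinarith [b1.1, b1.2]
      · nlinarith [b1.1, b1.2]
    linarith
  have hsum := (sum_le_sum key).trans (by rw [sum_add_distrib])
  refine hsum.trans ?_
  have h3 := h1 x Q a y hx hQ ha hy
  have h4 : ∑ _q ∈ Icc 1 Q, 4 * Real.sqrt x * Real.log x ≤ 4 * C₂ * x / (Real.log x) ^ A := by
    rw [sum_const, Nat.card_Icc, nsmul_eq_mul, Nat.add_sub_cancel]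
    rw [le_div_iff₀ (by positivity)]
    have h5 := h2 x hx'
    calc (Q : ℝ) * (4 * Real.sqrt x * Real.log x) * (Real.log x) ^ A
        = 4 * (Q * (Real.sqrt x * (Real.log x) ^ (A + 1))) := by ring
      _ ≤ 4 * ((x : ℝ) ^ (4 / 9 : ℝ) * ((x : ℝ) ^ (1 / 2 : ℝ) * (C₂ * (x : ℝ) ^ (1 / 18 : ℝ)))) := by
          rw [Real.sqrt_eq_rpow]
          gcongr
      _ = 4 * C₂ * ((x : ℝ) ^ (4 / 9 : ℝ) * (x : ℝ) ^ (1 / 2 : ℝ) * (x : ℝ) ^ (1 / 18 : ℝ)) := by
          ring
      _ = 4 * C₂ * x := by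
          rw [← Real.rpow_add hx0, ← Real.rpow_add hx0]
          norm_num
  calc ∑ q ∈ Icc 1 Q, |psiA q (a q) (y q) - psi (y q) / q.totient| +
        ∑ _q ∈ Icc 1 Q, 4 * Real.sqrt x * Real.log x
      ≤ C₁ * x / (Real.log x) ^ A + 4 * C₂ * x / (Real.log x) ^ A := add_le_add h3 h4
    _ = (C₁ + 4 * C₂) * x / (Real.log x) ^ A := by ring

theorem primes_abel (f : ℕ → ℝ) (h1 : f 1 = 0) (y : ℕ) (hy : 2 ≤ y) :
    ∑ n ∈ Icc 1 y, f n / Real.log n = (∑ n ∈ Icc 1 y, f n) / Real.log y +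
      ∑ n ∈ Ico 2 y, (∑ m ∈ Icc 1 n, f m) * (1 / Real.log n - 1 / Real.log ((n + 1 : ℕ) : ℝ)) := by
  induction y, hy using Nat.le_induction with
  | base =>
    have e : Icc 1 2 = ({1, 2} : Finset ℕ) := by decide
    simp [e, h1]
  | succ y hy ih =>
    rw [sum_Icc_succ_top (by omega), sum_Icc_succ_top (by omega), sum_Ico_succ_top hy, ih]
    ring

theorem primes_tele (x : ℕ) (hx : 2 ≤ x) :
    ∑ n ∈ Ico 2 x, (1 / Real.log n - 1 / Real.log ((n + 1 : ℕ) : ℝ)) =
      1 / Real.log 2 - 1 / Real.log x := by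
  induction x, hx using Nat.le_induction with
  | base => simp
  | succ y hy ih =>
    rw [sum_Ico_succ_top hy, ih]
    ring

theorem primes_w_nonneg (n : ℕ) (hn : 2 ≤ n) :
    0 ≤ 1 / Real.log n - 1 / Real.log ((n + 1 : ℕ) : ℝ) := by
  have h1 : 0 < Real.log n := Real.log_pos (by exact_mod_cast (by omega : 1 < n))
  have h2 : Real.log n ≤ Real.log ((n + 1 : ℕ) : ℝ) := by
    apply Real.log_le_log
    · exact_mod_cast (by omega : 0 < n)
    · exact_mod_cast (by omega : n ≤ n + 1)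
  have := one_div_le_one_div_of_le h1 h2
  linarith

theorem primes_piA_eq (q a y : ℕ) : piA q a y =
    ∑ n ∈ Icc 1 y, (if n.Prime ∧ n ≡ a [MOD q] then Real.log n else 0) / Real.log n := by
  unfold piA
  rw [card_filter]
  push_cast
  refine sum_congr rfl fun n _ => ?_
  by_cases h : n.Prime ∧ n ≡ a [MOD q]
  · have h2 : Real.log n ≠ 0 := (Real.log_pos (by exact_mod_cast h.1.one_lt)).ne'
    rw [if_pos h, if_pos h, div_self h2]
  · rw [if_neg h, if_neg h, zero_div]

theorem primes_pi_eq (y : ℕ) : (Nat.primeCounting y : ℝ) =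
    ∑ n ∈ Icc 1 y, (if n.Prime then Real.log n else 0) / Real.log n := by
  have e : Nat.primeCounting y = ((Icc 1 y).filter Nat.Prime).card := by
    rw [Nat.primeCounting, Nat.primeCounting', Nat.count_eq_card_filter_range]
    congr 1
    ext n
    simp only [mem_filter, mem_range, mem_Icc]
    constructor
    · rintro ⟨h1, h2⟩
      exact ⟨⟨h2.one_le, by omega⟩, h2⟩
    · rintro ⟨h1, h2⟩
      exact ⟨by omega, h2⟩
  rw [e, card_filter]
  push_cast
  refine sum_congr rfl fun n _ => ?_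
  by_cases h : n.Prime
  · have h2 : Real.log n ≠ 0 := (Real.log_pos (by exact_mod_cast h.one_lt)).ne'
    rw [if_pos h, if_pos h, div_self h2]
  · rw [if_neg h, if_neg h, zero_div]

theorem primes_E (q a y : ℕ) (hy : 2 ≤ y) :
    piA q a y - (Nat.primeCounting y : ℝ) / q.totient =
      (thetaA q a y - theta y / q.totient) / Real.log y +
      ∑ n ∈ Ico 2 y, (thetaA q a n - theta n / q.totient) *
        (1 / Real.log n - 1 / Real.log ((n + 1 : ℕ) : ℝ)) := by
  have t1 : ∀ n : ℕ, thetaA q a n =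
      ∑ m ∈ Icc 1 n, (if m.Prime ∧ m ≡ a [MOD q] then Real.log m else 0) := by
    intro n
    unfold thetaA
    rw [sum_filter]
  have t2 : ∀ n : ℕ, theta n = ∑ m ∈ Icc 1 n, (if m.Prime then Real.log m else 0) := by
    intro n
    unfold theta
    rw [sum_filter]
  rw [primes_piA_eq, primes_pi_eq, primes_abel _ (by simp) y hy, primes_abel _ (by simp) y hy]
  simp only [← t1, ← t2]
  rw [add_div, sum_div]
  have : ∑ n ∈ Ico 2 y, (thetaA q a n - theta n / q.totient) *
        (1 / Real.log n - 1 / Real.log ((n + 1 : ℕ) : ℝ)) =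
      ∑ n ∈ Ico 2 y, thetaA q a n * (1 / Real.log n - 1 / Real.log ((n + 1 : ℕ) : ℝ)) -
      ∑ n ∈ Ico 2 y, theta n * (1 / Real.log n - 1 / Real.log ((n + 1 : ℕ) : ℝ)) / q.totient := by
    rw [← sum_sub_distrib]
    refine sum_congr rfl fun n _ => ?_
    ring
  rw [this]
  ring

theorem bv_primes (A : ℕ) : ∃ C : ℝ, 0 < C ∧ ∀ (x Q : ℕ) (a y : ℕ → ℕ), 3 ≤ x →
    (Q : ℝ) ≤ (x : ℝ) ^ (4 / 9 : ℝ) → (∀ q ∈ Icc 1 Q, (a q).Coprime q) →
    (∀ q ∈ Icc 1 Q, y q ≤ x) →
    ∑ q ∈ Icc 1 Q, |piA q (a q) (y q) - (Nat.primeCounting (y q) : ℝ) / q.totient| ≤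
      C * x / (Real.log x) ^ A := by
  obtain ⟨C, hC, h⟩ := bv_theta A
  have hl2 : 0 < Real.log 2 := Real.log_pos (by norm_num)
  refine ⟨2 * C / Real.log 2, by positivity, fun x Q a y hx hQ ha hy => ?_⟩
  have hx' : (1 : ℝ) ≤ x := by exact_mod_cast (by omega : 1 ≤ x)
  have hlog : 0 < Real.log x := Real.log_pos (by exact_mod_cast (by omega : 1 < x))
  set W : ℕ → ℝ := fun n => 1 / Real.log n - 1 / Real.log ((n + 1 : ℕ) : ℝ) with hW
  have hW0 : ∀ n ∈ Ico 2 x, 0 ≤ W n := fun n hn => primes_w_nonneg n (mem_Ico.1 hn).1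
  have key : ∀ q ∈ Icc 1 Q, |piA q (a q) (y q) - (Nat.primeCounting (y q) : ℝ) / q.totient| ≤
      |thetaA q (a q) (y q) - theta (y q) / q.totient| / Real.log 2 +
      ∑ n ∈ Ico 2 x, |thetaA q (a q) n - theta n / q.totient| * W n := by
    intro q hq
    have hr : 0 ≤ ∑ n ∈ Ico 2 x, |thetaA q (a q) n - theta n / q.totient| * W n :=
      sum_nonneg fun n hn => mul_nonneg (abs_nonneg _) (hW0 n hn)
    have hl : 0 ≤ |thetaA q (a q) (y q) - theta (y q) / q.totient| / Real.log 2 := by positivity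
    by_cases hy2 : 2 ≤ y q
    · rw [primes_E q (a q) (y q) hy2]
      refine (abs_add_le _ _).trans (add_le_add ?_ ?_)
      · rw [abs_div]
        apply div_le_div_of_nonneg_left (abs_nonneg _) hl2
        have h3 : Real.log 2 ≤ Real.log (y q) := by
          apply Real.log_le_log two_pos
          exact_mod_cast hy2
        rwa [abs_of_pos (by linarith)]
      · refine (abs_sum_le_sum_abs _ _).trans ?_
        refine le_trans (sum_le_sum fun n hn => ?_)
          (sum_le_sum_of_subset_of_nonneg (s := Ico 2 (y q)) ?_ ?_)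
        · rw [abs_mul, abs_of_nonneg (primes_w_nonneg n (mem_Ico.1 hn).1)]
        · exact Ico_subset_Ico_right (hy q hq)
        · intro n hn _
          exact mul_nonneg (abs_nonneg _) (hW0 n hn)
    · have e1 : piA q (a q) (y q) = 0 := by
        unfold piA
        rw [Nat.cast_eq_zero, card_eq_zero, filter_eq_empty_iff]
        intro n hn hp
        have := hp.1.two_le
        have := (mem_Icc.1 hn).2
        omega
      have e2 : Nat.primeCounting (y q) = 0 := by
        rw [Nat.primeCounting_eq_zero_iff]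
        omega
      rw [e1, e2]
      simp only [Nat.cast_zero, zero_div, sub_zero, abs_zero]
      linarith
  refine (sum_le_sum key).trans ?_
  rw [sum_add_distrib, ← sum_div, sum_comm]
  have h3 := h x Q a y hx hQ ha hy
  have h4 : ∑ n ∈ Ico 2 x, ∑ q ∈ Icc 1 Q, |thetaA q (a q) n - theta n / q.totient| * W n ≤
      C * x / (Real.log x) ^ A * (1 / Real.log 2) := by
    calc ∑ n ∈ Ico 2 x, ∑ q ∈ Icc 1 Q, |thetaA q (a q) n - theta n / q.totient| * W n
        ≤ ∑ n ∈ Ico 2 x, C * x / (Real.log x) ^ A * W n := by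
          refine sum_le_sum fun n hn => ?_
          rw [← sum_mul]
          apply mul_le_mul_of_nonneg_right _ (hW0 n hn)
          exact h x Q a (fun _ => n) hx hQ ha (fun q _ => (mem_Ico.1 hn).2.le)
      _ = C * x / (Real.log x) ^ A * (1 / Real.log 2 - 1 / Real.log x) := by
          rw [← mul_sum, primes_tele x (by omega)]
      _ ≤ _ := by
          apply mul_le_mul_of_nonneg_left _ (by positivity)
          have : 0 < 1 / Real.log x := by positivity
          linarith
  have h5 : (∑ q ∈ Icc 1 Q, |thetaA q (a q) (y q) - theta (y q) / q.totient|) / Real.log 2 ≤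
      C * x / (Real.log x) ^ A * (1 / Real.log 2) := by
    rw [div_eq_mul_one_div]
    exact mul_le_mul_of_nonneg_right h3 (by positivity)
  calc _ ≤ C * x / (Real.log x) ^ A * (1 / Real.log 2) +
      C * x / (Real.log x) ^ A * (1 / Real.log 2) := add_le_add h5 h4
    _ = _ := by
      field_simp
      ring

end

end Pool.Agent.BV
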