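import Pool.Agent.Work.BV.Siegel
import Pool.Agent.Work.BV.Lower
import Pool.Agent.Work.BV.LogDer

/-! # Module SWDser: the bound for `Dser` used in `SW`

`Dser_final`: by `lower_complex`, resp. `lower_real` and `siegel ε'` with `ε' = ε/(k+1)`,
`‖L(s,χ)‖ ≥ m := c q^{-ε'} ℓ^{-9}` (`≤ 1` after shrinking `c`); insert in `Dser_bound k`:
`ℓ^{2k+2} m^{-(k+1)} = C q^ε ℓ^{2k+2+9k+9}`. -/

namespace Pool.Agent.BV

open Finset DirichletCharacter Complex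

theorem Dser_final (k : ℕ) (ε : ℝ) (hε : 0 < ε) : ∃ C : ℝ, 0 < C ∧ ∀ (q : ℕ) [NeZero q]
    (χ : DirichletCharacter ℂ q), χ.IsPrimitive → χ ≠ 1 → ∀ s : ℂ, 1 < s.re → s.re ≤ 2 →
    ‖Dser χ k s‖ ≤ C * (q : ℝ) ^ ε * (ell q s) ^ (11 * (k + 1)) := by
  have hk1 : (0 : ℝ) < (k : ℝ) + 1 := by positivity
  set ε' : ℝ := ε / (k + 1) with hε'
  have hε'0 : 0 < ε' := div_pos hε hk1
  obtain ⟨c1, hc10, hc1⟩ := siegel ε' hε'0
  obtain ⟨C1, hC10, hC1⟩ := lower_complex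
  obtain ⟨C2, hC20, hC2⟩ := lower_real
  obtain ⟨C0, hC00, hC0⟩ := Dser_bound k
  set c : ℝ := min 1 (min (1 / C1) (c1 / C2)) with hc
  have hc0 : 0 < c := by
    rw [hc]
    exact lt_min one_pos (lt_min (by positivity) (by positivity))
  have hcle1 : c ≤ 1 := min_le_left _ _
  have hcC1 : c ≤ 1 / C1 := (min_le_right _ _).trans (min_le_left _ _)
  have hcC2 : c ≤ c1 / C2 := (min_le_right _ _).trans (min_le_right _ _)
  refine ⟨C0 / c ^ (k + 1), by positivity, ?_⟩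
  intro q _ χ hprim hχ s hs hs2
  have hq : 1 ≤ q := Nat.one_le_iff_ne_zero.mpr (NeZero.ne q)
  have hqr : (1 : ℝ) ≤ q := by exact_mod_cast hq
  have hq0 : (0 : ℝ) < q := by linarith
  have hl : 1 ≤ ell q s := one_le_ell q hq s
  set l := ell q s with hldef
  have hl0 : 0 < l := by linarith
  have hl9 : 1 ≤ l ^ 9 := one_le_pow₀ hl
  have hQ0 : 0 < (q : ℝ) ^ (-ε') := Real.rpow_pos_of_pos hq0 _
  have hQ1 : (q : ℝ) ^ (-ε') ≤ 1 := Real.rpow_le_one_of_one_le_of_nonpos hqr (by linarith)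
  set m : ℝ := c * (q : ℝ) ^ (-ε') / l ^ 9 with hm
  have hm0 : 0 < m := by positivity
  have hcQ : c * (q : ℝ) ^ (-ε') ≤ 1 := mul_le_one₀ hcle1 hQ0.le hQ1
  have hm1 : m ≤ 1 := by
    rw [hm, div_le_one (by positivity)]
    linarith
  have hmL : m ≤ ‖χ.LFunction s‖ := by
    by_cases h2 : χ ^ 2 = 1
    · have h3 := hC2 q χ hχ h2 s hs hs2
      have h4 := hc1 q χ hprim hχ h2
      rw [hm, div_le_iff₀ (by positivity)]
      have h5 : c * (q : ℝ) ^ (-ε') * C2 ≤ ‖χ.LFunction s‖ * l ^ 9 * C2 := by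
        calc c * (q : ℝ) ^ (-ε') * C2 ≤ (c1 / C2) * (q : ℝ) ^ (-ε') * C2 := by gcongr
          _ = c1 * (q : ℝ) ^ (-ε') := by field_simp
          _ ≤ _ := h4
          _ ≤ _ := h3
          _ = _ := by ring
      exact le_of_mul_le_mul_right h5 hC20
    · have h3 := hC1 q χ hχ h2 s hs hs2
      rw [hm, div_le_iff₀ (by positivity)]
      have h79 : l ^ 7 ≤ l ^ 9 := pow_le_pow_right₀ hl (by norm_num)
      have h5 : c * (q : ℝ) ^ (-ε') * C1 ≤ ‖χ.LFunction s‖ * l ^ 9 * C1 := by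
        calc c * (q : ℝ) ^ (-ε') * C1 ≤ (1 / C1) * 1 * C1 := by gcongr
          _ = 1 := by field_simp
          _ ≤ _ := h3
          _ ≤ C1 * l ^ 9 * ‖χ.LFunction s‖ := by gcongr
          _ = _ := by ring
      exact le_of_mul_le_mul_right h5 hC10
  refine (hC0 q χ hχ s hs hs2 m hm0 hm1 hmL).trans (le_of_eq ?_)
  have h6 : ((q : ℝ) ^ (-ε')) ^ (k + 1) = ((q : ℝ) ^ ε)⁻¹ := by
    rw [← Real.rpow_natCast, ← Real.rpow_mul hq0.le, ← Real.rpow_neg hq0.le]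
    congr 1
    rw [hε']
    push_cast
    field_simp
  rw [hm, div_pow, mul_pow, h6]
  have hqe : 0 < (q : ℝ) ^ ε := Real.rpow_pos_of_pos hq0 _
  have h7 : l ^ (11 * (k + 1)) = l ^ (2 * k + 2) * (l ^ 9) ^ (k + 1) := by
    rw [← pow_mul, ← pow_add]
    congr 1
    ring
  rw [h7, ← hldef]
  field_simp

end Pool.Agent.BV
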