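import Pool.Agent.Work.BV.SiegelCoef
import Pool.Agent.Work.BV.Estermann
import Pool.Agent.Work.BV.LNear

/-! # Module Siegel: Siegel's theorem

Let `η > 0` be small: `η ≤ 1/8`, `6 K η ≤ ε/2` (`K` from `estermann`), and `(s-1) ζ(s) > 1/2` for real
`s ∈ [1-η, 1)` (`riemannZeta_residue_one`), so `Re ζ(β) < 0` there.
CASE A: some `q1`, `χ1 ≠ 1` mod `q1` with `χ1^2 = 1` and `β ∈ [1-η,1)` have `L(β,χ1) = 0`. Then use
`f = L(.,ψ1) L(.,ψ2) L(.,ψ1ψ2)` (`siegel_coef`, `estermann`) at `β`.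
CASE B: there is no such pair. Then `L(β, χ) > 0` for `β = 1 - η` (intermediate value theorem) and
`estermann` applies to `f = L(., χ)` itself. -/

namespace Pool.Agent.BV

open Finset DirichletCharacter
open scoped ArithmeticFunction.vonMangoldt

theorem Siegel_real {q : ℕ} [NeZero q] (χ : DirichletCharacter ℂ q) (hχ : χ ≠ 1) (h2 : χ ^ 2 = 1)
    (x : ℝ) (hx : 0 < x) : (χ.LFunction (x : ℂ)).im = 0 := by
  have h := Pool.Agent.Work.MP_92f640_nt.tendsto_LFunction χ hχ (s := (x : ℂ)) (by simpa using hx)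
  have h3 := (Complex.continuous_im.tendsto _).comp h
  refine tendsto_nhds_unique h3 ?_
  have h4 : (Complex.im ∘ fun N : ℕ => ∑ n ∈ Finset.Ioc 0 N, χ (n : ZMod q) *
      (n : ℂ) ^ (-(x : ℂ))) = fun _ => 0 := by
    funext N
    rw [Function.comp_apply, Complex.im_sum]
    refine Finset.sum_eq_zero fun n hn => ?_
    obtain ⟨a, ha, -⟩ := SiegelCoef_val χ h2 n
    have h5 : (n : ℂ) ^ (-(x : ℂ)) = (((n : ℝ) ^ (-x) : ℝ) : ℂ) := by
      rw [Complex.ofReal_cpow (Nat.cast_nonneg n)]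
      push_cast
      rfl
    rw [ha, h5, ← Complex.ofReal_mul, Complex.ofReal_im]
  rw [h4]
  exact tendsto_const_nhds

/-- the coefficients of `ζ(s) L(s, χ)` -/
theorem Siegel_coef1 {q : ℕ} [NeZero q] (χ : DirichletCharacter ℂ q) (h2 : χ ^ 2 = 1) :
    ∃ r : ℕ → ℝ, (∀ n, 0 ≤ r n) ∧ r 1 = 1 ∧ ∀ s : ℂ, 1 < s.re →
    LSeriesSummable (fun n => (r n : ℂ)) s ∧
    LSeries (fun n => (r n : ℂ)) s = riemannZeta s * χ.LFunction s := by
  set P : ArithmeticFunction ℂ := toArithmeticFunction (fun _ => (1 : ℂ)) *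
    toArithmeticFunction (fun n : ℕ => χ (n : ZMod q)) with hP
  have hPn : ∀ n, P n = ∑ x ∈ n.divisorsAntidiagonal, χ (x.2 : ZMod q) := by
    intro n
    rw [hP, ArithmeticFunction.mul_apply]
    refine Finset.sum_congr rfl fun x hx => ?_
    obtain ⟨h5, h6⟩ := Nat.mem_divisorsAntidiagonal.1 hx
    have h9 : x.1 ≠ 0 := fun h => h6 (by rw [← h5, h, zero_mul])
    have h10 : x.2 ≠ 0 := fun h => h6 (by rw [← h5, h, mul_zero])
    simp [toArithmeticFunction, h9, h10]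
  have hPz : ∀ n, P n = χ.zetaMul n := by
    intro n
    rw [DirichletCharacter.zetaMul, hPn, ArithmeticFunction.mul_apply]
    refine Finset.sum_congr rfl fun x hx => ?_
    obtain ⟨h5, h6⟩ := Nat.mem_divisorsAntidiagonal.1 hx
    have h9 : x.1 ≠ 0 := fun h => h6 (by rw [← h5, h, zero_mul])
    have h10 : x.2 ≠ 0 := fun h => h6 (by rw [← h5, h, mul_zero])
    simp [toArithmeticFunction, h9, h10]
  have hreal : ∀ n, ∃ a : ℝ, P n = a ∧ 0 ≤ a := by
    intro n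
    have h3 := DirichletCharacter.zetaMul_nonneg h2 n
    rw [← hPz] at h3
    obtain ⟨h4, h5⟩ := Complex.nonneg_iff.1 h3
    exact ⟨(P n).re, Complex.ext rfl h5.symm, h4⟩
  choose r hr hr0 using hreal
  refine ⟨r, hr0, ?_, fun s hs => ?_⟩
  · have h3 := hr 1
    rw [hPn] at h3
    simp at h3
    exact_mod_cast h3.symm
  have hfun : (fun n => (r n : ℂ)) = fun n => P n := funext fun n => (hr n).symm
  rw [hfun]
  have hz : LSeriesSummable (toArithmeticFunction (fun _ => (1 : ℂ))) s := by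
    refine (LSeriesSummable_congr s fun {n} hn => ?_).1 (LSeriesSummable_one_iff.2 hs)
    simp [toArithmeticFunction, hn]
  have hzL : LSeries (toArithmeticFunction (fun _ => (1 : ℂ))) s = riemannZeta s := by
    rw [← LSeries_one_eq_riemannZeta hs]
    refine LSeries_congr (fun {n} hn => ?_) s
    simp [toArithmeticFunction, hn]
  refine ⟨ArithmeticFunction.LSeriesSummable_mul hz (SiegelCoef_summable χ hs), ?_⟩
  have h5 := ArithmeticFunction.LSeries_mul' hz (SiegelCoef_summable χ hs)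
  rw [hzL, SiegelCoef_LSeries χ hs] at h5
  exact h5

/-- `L(x, χ) > 0` if there is no real zero in `[x, 1)` -/
theorem Siegel_pos {q : ℕ} [NeZero q] (χ : DirichletCharacter ℂ q) (hχ : χ ≠ 1) (h2 : χ ^ 2 = 1)
    (x : ℝ) (hx : 0 < x) (hx1 : x < 1) (hz : ∀ y : ℝ, x ≤ y → y < 1 → χ.LFunction (y : ℂ) ≠ 0) :
    0 < (χ.LFunction (x : ℂ)).re := by
  obtain ⟨r, hr0, hr1, hr⟩ := Siegel_coef1 χ h2
  have h3 := Estermann_one_le r hr0 hr1 (hr 2 (by norm_num)).1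
  rw [(hr 2 (by norm_num)).2] at h3
  have h4 : 0 < (χ.LFunction ((2 : ℝ) : ℂ)).re := by
    have h5 := Siegel_real χ hχ h2 2 (by norm_num)
    have h6 := riemannZeta_re_pos_of_one_lt (x := 2) (by norm_num)
    push_cast at h5 h6 ⊢
    rw [Complex.mul_re, h5, mul_zero, sub_zero] at h3
    by_contra h7
    push Not at h7
    have := mul_nonpos_of_nonneg_of_nonpos h6.le h7
    linarith
  by_contra h5
  push Not at h5
  have hcont : ContinuousOn (fun y : ℝ => (χ.LFunction (y : ℂ)).re) (Set.Icc x 2) :=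
    (Complex.continuous_re.comp ((differentiable_LFunction hχ).continuous.comp
      Complex.continuous_ofReal)).continuousOn
  obtain ⟨y, hy, hy0⟩ := intermediate_value_Icc (by linarith) hcont ⟨h5, h4.le⟩
  have hy1 : χ.LFunction (y : ℂ) = 0 :=
    Complex.ext hy0 (Siegel_real χ hχ h2 y (lt_of_lt_of_le hx hy.1))
  rcases lt_or_ge y 1 with h | h
  · exact hz y hy.1 h hy1
  · exact DirichletCharacter.LFunction_ne_zero_of_one_le_re χ (Or.inl hχ) (by simpa using h) hy1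

/-- `∏_{i ∈ s} (1 + 1/i) ≤ |s| + 1` for sets of integers `≥ 2` -/
theorem Siegel_prod (s : Finset ℕ) (hs : ∀ i ∈ s, 2 ≤ i) :
    ∏ i ∈ s, (1 + (i : ℝ)⁻¹) ≤ s.card + 1 := by
  induction s using Finset.induction_on_max with
  | empty => simp
  | insert a t hat ih =>
    have hna : a ∉ t := fun h => lt_irrefl _ (hat a h)
    have h1 := ih fun i hi => hs i (Finset.mem_insert_of_mem hi)
    rw [Finset.prod_insert hna, Finset.card_insert_of_notMem hna]
    have h2 : t.card + 2 ≤ a := by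
      have h3 : t ⊆ Finset.Ico 2 a := fun i hi => Finset.mem_Ico.2
        ⟨hs i (Finset.mem_insert_of_mem hi), hat i hi⟩
      have h4 := Finset.card_le_card h3
      rw [Nat.card_Ico] at h4
      have := hs a (Finset.mem_insert_self _ _)
      omega
    have h3 : ((t.card : ℝ) + 2) ≤ a := by exact_mod_cast h2
    have h4 : (0 : ℝ) ≤ t.card := Nat.cast_nonneg _
    have h5 : (a : ℝ)⁻¹ ≤ ((t.card : ℝ) + 2)⁻¹ := inv_anti₀ (by linarith) h3
    push_cast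
    calc (1 + (a : ℝ)⁻¹) * ∏ i ∈ t, (1 + (i : ℝ)⁻¹)
        ≤ (1 + ((t.card : ℝ) + 2)⁻¹) * (t.card + 1) := by
          refine mul_le_mul (by linarith) h1 (Finset.prod_nonneg fun i _ => by positivity)
            (by positivity)
      _ ≤ t.card + 1 + 1 := by
          rw [← sub_nonneg]
          have : (t.card : ℝ) + 1 + 1 - (1 + ((t.card : ℝ) + 2)⁻¹) * (t.card + 1) =
              ((t.card : ℝ) + 2)⁻¹ := by
            field_simp
            ring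
          rw [this]
          positivity

theorem Siegel_euler (N : ℕ) (hN : 1 ≤ N) (g : ℕ → ℂ) (hg : ∀ p, ‖g p‖ ≤ 1) :
    ‖∏ p ∈ N.primeFactors, (1 - g p * (p : ℂ) ^ (-(1 : ℂ)))‖ ≤ 2 * Real.log (3 * N) := by
  have h1 : ‖∏ p ∈ N.primeFactors, (1 - g p * (p : ℂ) ^ (-(1 : ℂ)))‖ ≤
      ∏ p ∈ N.primeFactors, (1 + (p : ℝ)⁻¹) := by
    rw [norm_prod]
    refine Finset.prod_le_prod (fun _ _ => norm_nonneg _) fun p hp => ?_
    refine (norm_sub_le _ _).trans ?_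
    rw [norm_one, norm_mul, Complex.cpow_neg_one, norm_inv, Complex.norm_natCast]
    have : ‖g p‖ * (p : ℝ)⁻¹ ≤ 1 * (p : ℝ)⁻¹ :=
      mul_le_mul_of_nonneg_right (hg p) (by positivity)
    linarith
  refine h1.trans ((Siegel_prod _ fun i hi => (Nat.prime_of_mem_primeFactors hi).two_le).trans ?_)
  have h2 : 2 ^ N.primeFactors.card ≤ N := by
    refine le_trans ?_ (Nat.le_of_dvd hN (Nat.prod_primeFactors_dvd N))
    exact Finset.pow_card_le_prod _ _ _ fun p hp => (Nat.prime_of_mem_primeFactors hp).two_le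
  have h3 : (N.primeFactors.card : ℝ) * Real.log 2 ≤ Real.log N := by
    rw [← Real.log_pow]
    exact Real.log_le_log (by positivity) (by exact_mod_cast h2)
  have h4 : (1 : ℝ) / 2 ≤ Real.log 2 := by
    have := Real.log_two_gt_d9
    linarith
  have h5 : (1 : ℝ) ≤ Real.log 3 := by
    rw [← Real.log_exp 1]
    refine Real.log_le_log (Real.exp_pos 1) ?_
    have := Real.exp_one_lt_d9
    linarith
  rw [Real.log_mul (by norm_num) (by exact_mod_cast (by omega : N ≠ 0))]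
  have h6 : (0 : ℝ) ≤ N.primeFactors.card := Nat.cast_nonneg _
  nlinarith

/-- a lower bound for finitely many moduli -/
theorem Siegel_finite (n : ℕ) : ∃ c : ℝ, 0 < c ∧ ∀ (q : ℕ) [NeZero q]
    (χ : DirichletCharacter ℂ q), q ≤ n → χ ≠ 1 → c ≤ ‖χ.LFunction 1‖ := by
  induction n with
  | zero => exact ⟨1, one_pos, fun q _ χ hq => absurd (Nat.le_zero.1 hq) (NeZero.ne q)⟩
  | succ n ih =>
    obtain ⟨c, hc, h⟩ := ih
    have hne : Nonempty (DirichletCharacter ℂ (n + 1)) := ⟨1⟩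
    obtain ⟨χ0, hχ0⟩ := Finite.exists_min
      (fun χ : DirichletCharacter ℂ (n + 1) => if χ = 1 then (1 : ℝ) else ‖χ.LFunction 1‖)
    have h0 : 0 < (if χ0 = 1 then (1 : ℝ) else ‖χ0.LFunction 1‖) := by
      split_ifs with h1
      · exact one_pos
      · exact norm_pos_iff.2 (DirichletCharacter.LFunction_apply_one_ne_zero h1)
    refine ⟨min c (if χ0 = 1 then (1 : ℝ) else ‖χ0.LFunction 1‖), lt_min hc h0, ?_⟩
    intro q _ χ hq hχ
    rcases Nat.lt_or_ge n q with h1 | h1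
    · have h2 : q = n + 1 := by omega
      subst h2
      refine (min_le_right _ _).trans ((hχ0 χ).trans ?_)
      rw [if_neg hχ]
    · exact (min_le_left _ _).trans (h q χ h1 hχ)

/-- the value of `η` -/
theorem Siegel_eta (δ : ℝ) (hδ : 0 < δ) : ∃ η : ℝ, 0 < η ∧ η ≤ 1 / 8 ∧ η ≤ δ ∧
    ∀ β : ℝ, 1 - η ≤ β → β < 1 → (riemannZeta (β : ℂ)).re ≤ 0 := by
  have h := riemannZeta_residue_one
  have h1 := (Complex.continuous_re.tendsto _).comp h
  rw [Complex.one_re] at h1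
  have h2 : ∀ᶠ s : ℂ in nhdsWithin 1 {1}ᶜ, 0 < ((s - 1) * riemannZeta s).re :=
    h1.eventually (lt_mem_nhds one_pos)
  rw [eventually_nhdsWithin_iff, Metric.eventually_nhds_iff] at h2
  obtain ⟨ρ, hρ, h3⟩ := h2
  refine ⟨min (min (1 / 8) δ) (ρ / 2), by positivity, (min_le_left _ _).trans (min_le_left _ _),
    (min_le_left _ _).trans (min_le_right _ _), fun β hβ hβ1 => ?_⟩
  have h4 : 1 - β ≤ ρ / 2 := by
    have := min_le_right (min (1 / 8) δ) (ρ / 2)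
    linarith
  have h5 : dist (β : ℂ) 1 < ρ := by
    rw [dist_eq_norm]
    have : (β : ℂ) - 1 = ((β - 1 : ℝ) : ℂ) := by push_cast; rfl
    rw [this, Complex.norm_real, Real.norm_eq_abs, abs_of_neg (by linarith)]
    linarith
  have h6 : (β : ℂ) ∈ ({1}ᶜ : Set ℂ) := by
    intro h7
    rw [Set.mem_singleton_iff] at h7
    have h8 : β = 1 := by exact_mod_cast h7
    linarith
  have h7 := h3 h5 h6
  have h8 : (β : ℂ) - 1 = ((β - 1 : ℝ) : ℂ) := by push_cast; rfl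
  rw [h8, Complex.re_ofReal_mul] at h7
  by_contra h9
  push Not at h9
  have := mul_neg_of_neg_of_pos (by linarith : β - 1 < 0) h9
  linarith

/-- `c / q^ε` in case B -/
theorem Siegel_caseB (c K ε η : ℝ) (hc : 0 < c) (hη : 0 < η)
    (hη8 : η ≤ 1 / 8) (hKη : K * η ≤ ε)
    (hest : ∀ (f : ℂ → ℂ) (r : ℕ → ℝ) (M β : ℝ),
      Differentiable ℂ f → (∀ n, 0 ≤ r n) → r 1 = 1 →
      (∀ s : ℂ, 1 < s.re → LSeriesSummable (fun n => (r n : ℂ)) s ∧
        LSeries (fun n => (r n : ℂ)) s = riemannZeta s * f s) →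
      1 ≤ M → (∀ s ∈ Metric.closedBall (2 : ℂ) (4 / 3), ‖f s‖ ≤ M) →
      7 / 8 ≤ β → β < 1 → (riemannZeta (β : ℂ) * f (β : ℂ)).re ≤ 0 →
      c * (1 - β) * M ^ (-(K * (1 - β))) ≤ (f 1).re)
    (hζ : (riemannZeta ((1 - η : ℝ) : ℂ)).re ≤ 0)
    (q : ℕ) [NeZero q] (χ : DirichletCharacter ℂ q) (hχ : χ ≠ 1) (h2 : χ ^ 2 = 1)
    (hz : ∀ y : ℝ, 1 - η ≤ y → y < 1 → χ.LFunction (y : ℂ) ≠ 0) :
    c * η * 5 ^ (-ε) * (q : ℝ) ^ (-ε) ≤ ‖χ.LFunction 1‖ := by
  obtain ⟨r, hr0, hr1, hr⟩ := Siegel_coef1 χ h2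
  have hq : (1 : ℝ) ≤ q := by exact_mod_cast Nat.one_le_iff_ne_zero.2 (NeZero.ne q)
  have hpos := Siegel_pos χ hχ h2 (1 - η) (by linarith) (by linarith) hz
  have him := Siegel_real χ hχ h2 (1 - η) (by linarith)
  have h3 := hest χ.LFunction r (5 * q) (1 - η) (differentiable_LFunction hχ) hr0 hr1 hr
    (by linarith) (LFunction_disc q χ hχ) (by linarith) (by linarith) (by
      rw [Complex.mul_re, him, mul_zero, sub_zero]
      exact mul_nonpos_of_nonpos_of_nonneg hζ hpos.le)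
  refine le_trans ?_ (h3.trans (Complex.re_le_norm _))
  have h4 : 1 - (1 - η) = η := by ring
  rw [h4, mul_assoc (c * η), ← Real.mul_rpow (by norm_num) (by linarith)]
  refine mul_le_mul_of_nonneg_left ?_ (by positivity)
  exact Real.rpow_le_rpow_of_exponent_le (by linarith) (by linarith)

/-- case A -/
theorem Siegel_caseA (c K ε C : ℝ) (hc : 0 < c) (hε : 0 < ε) (hC : 0 < C)
    (hone : ∀ (q : ℕ) [NeZero q] (χ : DirichletCharacter ℂ q), χ ≠ 1 →
      ‖χ.LFunction 1‖ ≤ C * Real.log (3 * q))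
    (hest : ∀ (f : ℂ → ℂ) (r : ℕ → ℝ) (M β : ℝ),
      Differentiable ℂ f → (∀ n, 0 ≤ r n) → r 1 = 1 →
      (∀ s : ℂ, 1 < s.re → LSeriesSummable (fun n => (r n : ℂ)) s ∧
        LSeries (fun n => (r n : ℂ)) s = riemannZeta s * f s) →
      1 ≤ M → (∀ s ∈ Metric.closedBall (2 : ℂ) (4 / 3), ‖f s‖ ≤ M) →
      7 / 8 ≤ β → β < 1 → (riemannZeta (β : ℂ) * f (β : ℂ)).re ≤ 0 →
      c * (1 - β) * M ^ (-(K * (1 - β))) ≤ (f 1).re)
    (q1 : ℕ) [NeZero q1] (χ1 : DirichletCharacter ℂ q1) (h11 : χ1 ≠ 1) (h12 : χ1 ^ 2 = 1)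
    (β : ℝ) (hβ : 7 / 8 ≤ β) (hβ1 : β < 1) (hKβ : 3 * (K * (1 - β)) ≤ ε / 2)
    (hz : χ1.LFunction (β : ℂ) = 0) :
    ∃ c' : ℝ, 0 < c' ∧ ∀ (q : ℕ) [NeZero q] (χ : DirichletCharacter ℂ q), χ.IsPrimitive →
      χ ≠ 1 → χ ^ 2 = 1 → c' * (q : ℝ) ^ (-ε) ≤ ‖χ.LFunction 1‖ := by
  obtain ⟨c0, hc0, hfin⟩ := Siegel_finite q1
  have hq1 : (1 : ℝ) ≤ q1 := by exact_mod_cast Nat.one_le_iff_ne_zero.2 (NeZero.ne q1)
  set δ : ℝ := ε / 6 with hδ
  have hδ0 : 0 < δ := by positivity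
  have hb : 0 < 1 - β := by linarith
  set c3 : ℝ := c * (1 - β) * δ ^ 3 / (2 * C ^ 2) * (5 * q1) ^ (-ε) with hc3
  have hc30 : 0 < c3 := by positivity
  refine ⟨min c0 c3, lt_min hc0 hc30, ?_⟩
  intro q _ χ hprim hχ h2
  have hq : (1 : ℝ) ≤ q := by exact_mod_cast Nat.one_le_iff_ne_zero.2 (NeZero.ne q)
  haveI hNz : NeZero (q1 * q) := ⟨Nat.mul_ne_zero (NeZero.ne q1) (NeZero.ne q)⟩
  set N : ℕ := q1 * q with hN
  have hd1 : q1 ∣ N := Dvd.intro _ rfl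
  have hd2 : q ∣ N := Dvd.intro_left _ rfl
  set ψ1 := changeLevel hd1 χ1 with hψ1
  set ψ2 := changeLevel hd2 χ with hψ2
  have h1sq : ψ1 ^ 2 = 1 := by rw [hψ1, ← map_pow, h12, map_one]
  have h2sq : ψ2 ^ 2 = 1 := by rw [hψ2, ← map_pow, h2, map_one]
  have h1ne : ψ1 ≠ 1 := fun h => h11 ((changeLevel_eq_one_iff hd1).1 h)
  have h2ne : ψ2 ≠ 1 := fun h => hχ ((changeLevel_eq_one_iff hd2).1 h)
  have hq0 : (q : ℝ) ^ (-ε) ≤ 1 := Real.rpow_le_one_of_one_le_of_nonpos hq (by linarith)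
  by_cases hprod : ψ1 * ψ2 = 1
  · have h3 : ψ1 = ψ2 := by
      rw [sq] at h1sq
      exact mul_left_cancel (h1sq.trans hprod.symm)
    have h4 : q ∣ q1 := by
      have h5 : ψ2.conductor = q := by
        rw [hψ2, conductor_changeLevel]
        exact hprim
      have h6 : ψ1.conductor = χ1.conductor := by rw [hψ1, conductor_changeLevel]
      rw [← h5, ← h3, h6]
      exact conductor_dvd_level χ1
    have h5 : q ≤ q1 := Nat.le_of_dvd (Nat.pos_of_ne_zero (NeZero.ne q1)) h4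
    calc min c0 c3 * (q : ℝ) ^ (-ε) ≤ c0 * 1 :=
          mul_le_mul (min_le_left _ _) hq0 (by positivity) hc0.le
      _ = c0 := mul_one _
      _ ≤ _ := hfin q χ h5 hχ
  obtain ⟨r, hr0, hr1, hr⟩ := siegel_coef ψ1 ψ2 h1sq h2sq
  have hN1 : (1 : ℝ) ≤ N := by exact_mod_cast Nat.one_le_iff_ne_zero.2 (NeZero.ne N)
  have h5N : (1 : ℝ) ≤ 5 * N := by linarith
  have h3 := hest (fun s => ψ1.LFunction s * ψ2.LFunction s * (ψ1 * ψ2).LFunction s) r
    ((5 * N) ^ 3) β (((differentiable_LFunction h1ne).mul (differentiable_LFunction h2ne)).mul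
      (differentiable_LFunction hprod)) hr0 hr1 hr (one_le_pow₀ h5N) (fun s hs => by
      rw [norm_mul, norm_mul]
      have e1 := LFunction_disc N ψ1 h1ne s hs
      have e2 := LFunction_disc N ψ2 h2ne s hs
      have e3 := LFunction_disc N (ψ1 * ψ2) hprod s hs
      calc ‖ψ1.LFunction s‖ * ‖ψ2.LFunction s‖ * ‖(ψ1 * ψ2).LFunction s‖
          ≤ (5 * N) * (5 * N) * (5 * N) :=
            mul_le_mul (mul_le_mul e1 e2 (norm_nonneg _) (by positivity)) e3 (norm_nonneg _)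
              (by positivity)
        _ = (5 * N) ^ 3 := by ring) hβ hβ1 (by
      have h4 : ψ1.LFunction (β : ℂ) = 0 := by
        rw [hψ1, LFunction_changeLevel hd1 χ1 (Or.inl h11), hz, zero_mul]
      simp only [h4, zero_mul, mul_zero, Complex.zero_re, le_refl])
  have h4 := h3.trans (Complex.re_le_norm _)
  set ℓ : ℝ := Real.log (3 * N) with hℓ
  have hℓ0 : 0 ≤ ℓ := Real.log_nonneg (by linarith)
  have h5 : ‖ψ2.LFunction 1‖ ≤ ‖χ.LFunction 1‖ * (2 * ℓ) := by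
    rw [hψ2, LFunction_changeLevel hd2 χ (Or.inl hχ), norm_mul]
    refine mul_le_mul_of_nonneg_left ?_ (norm_nonneg _)
    exact Siegel_euler N (Nat.one_le_iff_ne_zero.2 (NeZero.ne N)) (fun p => χ (p : ZMod q))
      fun p => DirichletCharacter.norm_le_one χ _
  have h6 : ‖ψ1.LFunction 1 * ψ2.LFunction 1 * (ψ1 * ψ2).LFunction 1‖ ≤
      2 * C ^ 2 * ‖χ.LFunction 1‖ * ℓ ^ 3 := by
    rw [norm_mul, norm_mul]
    calc ‖ψ1.LFunction 1‖ * ‖ψ2.LFunction 1‖ * ‖(ψ1 * ψ2).LFunction 1‖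
        ≤ (C * ℓ) * (‖χ.LFunction 1‖ * (2 * ℓ)) * (C * ℓ) :=
          mul_le_mul (mul_le_mul (hone N ψ1 h1ne) h5 (norm_nonneg _) (by positivity))
            (hone N _ hprod) (norm_nonneg _) (by positivity)
      _ = 2 * C ^ 2 * ‖χ.LFunction 1‖ * ℓ ^ 3 := by ring
  have h7 : ℓ ^ 3 ≤ (5 * N) ^ (ε / 2) / δ ^ 3 := by
    have h8 : ℓ ≤ (5 * N) ^ δ / δ := by
      refine (Real.log_le_rpow_div (by positivity) hδ0).trans ?_
      refine div_le_div_of_nonneg_right ?_ hδ0.le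
      exact Real.rpow_le_rpow (by positivity) (by linarith) hδ0.le
    calc ℓ ^ 3 ≤ ((5 * N) ^ δ / δ) ^ 3 := pow_le_pow_left₀ hℓ0 h8 3
      _ = (5 * N) ^ (ε / 2) / δ ^ 3 := by
          rw [div_pow, ← Real.rpow_natCast ((5 * (N : ℝ)) ^ δ) 3, ← Real.rpow_mul (by positivity)]
          congr 2
          rw [hδ]
          push_cast
          ring
  have h8 : (5 * (N : ℝ)) ^ (-(ε / 2)) ≤ ((5 * (N : ℝ)) ^ 3) ^ (-(K * (1 - β))) := by
    rw [← Real.rpow_natCast (5 * (N : ℝ)) 3, ← Real.rpow_mul (by positivity)]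
    refine Real.rpow_le_rpow_of_exponent_le h5N ?_
    push_cast
    linarith
  have h9 : c * (1 - β) * (5 * (N : ℝ)) ^ (-(ε / 2)) ≤
      2 * C ^ 2 * ‖χ.LFunction 1‖ * ((5 * N) ^ (ε / 2) / δ ^ 3) :=
    calc c * (1 - β) * (5 * (N : ℝ)) ^ (-(ε / 2))
        ≤ c * (1 - β) * ((5 * (N : ℝ)) ^ 3) ^ (-(K * (1 - β))) :=
          mul_le_mul_of_nonneg_left h8 (by positivity)
      _ ≤ 2 * C ^ 2 * ‖χ.LFunction 1‖ * ℓ ^ 3 := h4.trans h6
      _ ≤ _ := mul_le_mul_of_nonneg_left h7 (by positivity)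
  have h10 : c * (1 - β) * δ ^ 3 / (2 * C ^ 2) * (5 * (N : ℝ)) ^ (-ε) ≤ ‖χ.LFunction 1‖ := by
    have h11 : (5 * (N : ℝ)) ^ (-ε) = (5 * (N : ℝ)) ^ (-(ε / 2)) / (5 * (N : ℝ)) ^ (ε / 2) := by
      rw [← Real.rpow_sub (by linarith)]
      congr 1
      ring
    have h12 : 0 < (5 * (N : ℝ)) ^ (ε / 2) := Real.rpow_pos_of_pos (by linarith) _
    rw [h11]
    have h13 : c * (1 - β) * δ ^ 3 / (2 * C ^ 2) *
        ((5 * (N : ℝ)) ^ (-(ε / 2)) / (5 * (N : ℝ)) ^ (ε / 2)) =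
        (c * (1 - β) * (5 * (N : ℝ)) ^ (-(ε / 2))) * (δ ^ 3 / (2 * C ^ 2 *
          (5 * (N : ℝ)) ^ (ε / 2))) := by
      field_simp
    rw [h13]
    calc (c * (1 - β) * (5 * (N : ℝ)) ^ (-(ε / 2))) * (δ ^ 3 / (2 * C ^ 2 *
          (5 * (N : ℝ)) ^ (ε / 2)))
        ≤ (2 * C ^ 2 * ‖χ.LFunction 1‖ * ((5 * N) ^ (ε / 2) / δ ^ 3)) * (δ ^ 3 / (2 * C ^ 2 *
          (5 * (N : ℝ)) ^ (ε / 2))) := mul_le_mul_of_nonneg_right h9 (by positivity)
      _ = ‖χ.LFunction 1‖ := by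
          field_simp
  refine le_trans ?_ h10
  have h11 : (5 * (N : ℝ)) ^ (-ε) = (5 * (q1 : ℝ)) ^ (-ε) * (q : ℝ) ^ (-ε) := by
    rw [← Real.mul_rpow (by positivity) (by positivity), hN]
    congr 1
    push_cast
    ring
  rw [h11, ← mul_assoc]
  exact mul_le_mul_of_nonneg_right (min_le_right _ _) (by positivity)

theorem siegel (ε : ℝ) (hε : 0 < ε) : ∃ c : ℝ, 0 < c ∧ ∀ (q : ℕ) [NeZero q]
    (χ : DirichletCharacter ℂ q), χ.IsPrimitive → χ ≠ 1 → χ ^ 2 = 1 →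
    c * (q : ℝ) ^ (-ε) ≤ ‖χ.LFunction 1‖ := by
  obtain ⟨c, K, hc, hK, hest⟩ := estermann
  obtain ⟨C, hC, hone⟩ := LFunction_one_le
  obtain ⟨η, hη, hη8, hηδ, hζ⟩ := Siegel_eta (ε / (6 * K)) (by positivity)
  have hKη : 3 * (K * η) ≤ ε / 2 := by
    rw [le_div_iff₀ (by positivity)] at hηδ
    linarith
  by_cases hA : ∃ (q1 : ℕ) (_ : NeZero q1) (χ1 : DirichletCharacter ℂ q1) (β : ℝ), χ1 ≠ 1 ∧
      χ1 ^ 2 = 1 ∧ 1 - η ≤ β ∧ β < 1 ∧ χ1.LFunction (β : ℂ) = 0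
  · obtain ⟨q1, _, χ1, β, h11, h12, h13, h14, h15⟩ := hA
    refine Siegel_caseA c K ε C hc hε hC hone hest q1 χ1 h11 h12 β (by linarith) h14 ?_ h15
    have : K * (1 - β) ≤ K * η := mul_le_mul_of_nonneg_left (by linarith) hK.le
    linarith
  · refine ⟨c * η * 5 ^ (-ε), by positivity, fun q _ χ _ hχ h2 => ?_⟩
    refine Siegel_caseB c K ε η hc hη hη8 (by linarith) hest
      (hζ (1 - η) le_rfl (by linarith)) q χ hχ h2 ?_
    intro y hy hy1 h3
    exact hA ⟨q, inferInstance, χ, y, hχ, h2, hy, hy1, h3⟩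

end Pool.Agent.BV
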