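import Pool.Agent.Work.BV.Defs

/-! # Module SiegelCoef: nonnegativity of the coefficients of `ζ(s) L(s,ψ₁) L(s,ψ₂) L(s,ψ₁ψ₂)`

Derivation route: with `D f = log · f` one has `D r = r * (Λ (1 + ψ₁) (1 + ψ₂))`, so `r ≥ 0` by strong
induction. -/

namespace Pool.Agent.BV

open Finset DirichletCharacter
open scoped ArithmeticFunction.vonMangoldt

/-- pointwise multiplication by `log` -/
noncomputable def SiegelCoef_D (f : ArithmeticFunction ℂ) : ArithmeticFunction ℂ :=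
  ⟨fun n => ((Real.log n : ℝ) : ℂ) * f n, by simp⟩

/-- `Λ h` -/
noncomputable def SiegelCoef_L (h : ℕ → ℂ) : ArithmeticFunction ℂ :=
  ⟨fun n => ((Λ n : ℝ) : ℂ) * h n, by simp⟩

theorem SiegelCoef_D_mul (f g : ArithmeticFunction ℂ) :
    SiegelCoef_D (f * g) = SiegelCoef_D f * g + f * SiegelCoef_D g := by
  ext n
  show ((Real.log n : ℝ) : ℂ) * (f * g) n = (SiegelCoef_D f * g + f * SiegelCoef_D g) n
  rw [ArithmeticFunction.add_apply, ArithmeticFunction.mul_apply, ArithmeticFunction.mul_apply,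
    ArithmeticFunction.mul_apply, Finset.mul_sum, ← Finset.sum_add_distrib]
  refine Finset.sum_congr rfl fun x hx => ?_
  obtain ⟨h1, h2⟩ := Nat.mem_divisorsAntidiagonal.1 hx
  have h3 : x.1 ≠ 0 := fun h => h2 (by rw [← h1, h, zero_mul])
  have h4 : x.2 ≠ 0 := fun h => h2 (by rw [← h1, h, mul_zero])
  show ((Real.log n : ℝ) : ℂ) * (f x.1 * g x.2) =
    ((Real.log x.1 : ℝ) : ℂ) * f x.1 * g x.2 + f x.1 * (((Real.log x.2 : ℝ) : ℂ) * g x.2)
  rw [← h1, Nat.cast_mul, Real.log_mul (by exact_mod_cast h3) (by exact_mod_cast h4)]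
  push_cast
  ring

theorem SiegelCoef_D_char (h : ℕ → ℂ) (hm : ∀ m n, h (m * n) = h m * h n) :
    SiegelCoef_D (toArithmeticFunction h) = toArithmeticFunction h * SiegelCoef_L h := by
  ext n
  rcases Nat.eq_zero_or_pos n with hn | hn
  · subst hn
    simp
  have h0 : n ≠ 0 := hn.ne'
  have h1 : SiegelCoef_D (toArithmeticFunction h) n = ((Real.log n : ℝ) : ℂ) * h n := by
    show ((Real.log n : ℝ) : ℂ) * (toArithmeticFunction h) n = _
    congr 1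
    simp [toArithmeticFunction, h0]
  rw [h1, ArithmeticFunction.mul_apply]
  have h2 : ∀ x ∈ n.divisorsAntidiagonal, (toArithmeticFunction h) x.1 * (SiegelCoef_L h) x.2 =
      h n * ((Λ x.2 : ℝ) : ℂ) := by
    intro x hx
    obtain ⟨h3, h4⟩ := Nat.mem_divisorsAntidiagonal.1 hx
    have h5 : x.1 ≠ 0 := fun h => h4 (by rw [← h3, h, zero_mul])
    have h6 : (toArithmeticFunction h) x.1 = h x.1 := by simp [toArithmeticFunction, h5]
    rw [h6]
    show h x.1 * (((Λ x.2 : ℝ) : ℂ) * h x.2) = _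
    rw [← h3, hm]
    ring
  rw [Finset.sum_congr rfl h2, ← Finset.mul_sum, mul_comm]
  congr 1
  have h3 : ∑ x ∈ n.divisorsAntidiagonal, ((Λ x.2 : ℝ) : ℂ) = ((∑ d ∈ n.divisors, Λ d : ℝ) : ℂ) := by
    rw [Complex.ofReal_sum, ← Nat.sum_divisorsAntidiagonal' (f := fun _ d => ((Λ d : ℝ) : ℂ))]
  rw [h3, ArithmeticFunction.vonMangoldt_sum]

theorem SiegelCoef_val {N : ℕ} (ψ : DirichletCharacter ℂ N) (h : ψ ^ 2 = 1) (n : ℕ) :
    ∃ a : ℝ, ψ (n : ZMod N) = a ∧ 0 ≤ 1 + a := by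
  by_cases hn : IsUnit (n : ZMod N)
  · have h1 : ψ (n : ZMod N) ^ 2 = 1 := by
      rw [← MulChar.pow_apply' ψ two_ne_zero, h, MulChar.one_apply hn]
    have h2 : (ψ (n : ZMod N) - 1) * (ψ (n : ZMod N) + 1) = 0 := by linear_combination h1
    rcases mul_eq_zero.1 h2 with h3 | h3
    · exact ⟨1, by rw [sub_eq_zero] at h3; rw [h3]; simp, by norm_num⟩
    · exact ⟨-1, by rw [add_eq_zero_iff_eq_neg] at h3; rw [h3]; simp, by norm_num⟩
  · exact ⟨0, by rw [MulChar.map_nonunit _ hn]; simp, by norm_num⟩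

/-- the coefficients -/
noncomputable def SiegelCoef_P {N : ℕ} (ψ₁ ψ₂ : DirichletCharacter ℂ N) : ArithmeticFunction ℂ :=
  toArithmeticFunction (fun _ => (1 : ℂ)) *
    (toArithmeticFunction (fun n : ℕ => ψ₁ (n : ZMod N)) *
      toArithmeticFunction (fun n : ℕ => ψ₂ (n : ZMod N)) *
      toArithmeticFunction (fun n : ℕ => (ψ₁ * ψ₂) (n : ZMod N)))

theorem SiegelCoef_D_P {N : ℕ} (ψ₁ ψ₂ : DirichletCharacter ℂ N) :
    SiegelCoef_D (SiegelCoef_P ψ₁ ψ₂) = SiegelCoef_L (fun n : ℕ =>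
      (1 + ψ₁ (n : ZMod N)) * (1 + ψ₂ (n : ZMod N))) * SiegelCoef_P ψ₁ ψ₂ := by
  have hL : SiegelCoef_L (fun n : ℕ => (1 + ψ₁ (n : ZMod N)) * (1 + ψ₂ (n : ZMod N))) =
      SiegelCoef_L (fun _ => (1 : ℂ)) + SiegelCoef_L (fun n : ℕ => ψ₁ (n : ZMod N)) +
        SiegelCoef_L (fun n : ℕ => ψ₂ (n : ZMod N)) +
        SiegelCoef_L (fun n : ℕ => (ψ₁ * ψ₂) (n : ZMod N)) := by
    ext n
    show ((Λ n : ℝ) : ℂ) * ((1 + ψ₁ (n : ZMod N)) * (1 + ψ₂ (n : ZMod N))) =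
      ((Λ n : ℝ) : ℂ) * 1 + ((Λ n : ℝ) : ℂ) * ψ₁ (n : ZMod N) +
        ((Λ n : ℝ) : ℂ) * ψ₂ (n : ZMod N) + ((Λ n : ℝ) : ℂ) * (ψ₁ * ψ₂) (n : ZMod N)
    rw [MulChar.mul_apply]
    ring
  rw [hL, SiegelCoef_P, SiegelCoef_D_mul, SiegelCoef_D_mul, SiegelCoef_D_mul,
    SiegelCoef_D_char _ (fun m n => by simp), SiegelCoef_D_char _ (fun m n => by simp),
    SiegelCoef_D_char _ (fun m n => by simp),
    SiegelCoef_D_char _ (fun m n => by rw [Nat.cast_mul, map_mul])]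
  ring

theorem SiegelCoef_one {N : ℕ} (ψ₁ ψ₂ : DirichletCharacter ℂ N) : SiegelCoef_P ψ₁ ψ₂ 1 = 1 := by
  rw [SiegelCoef_P, ArithmeticFunction.mul_apply_one, ArithmeticFunction.mul_apply_one,
    ArithmeticFunction.mul_apply_one]
  simp [toArithmeticFunction]

theorem SiegelCoef_real {N : ℕ} (ψ₁ ψ₂ : DirichletCharacter ℂ N) (h1 : ψ₁ ^ 2 = 1)
    (h2 : ψ₂ ^ 2 = 1) (n : ℕ) : ∃ a : ℝ, SiegelCoef_P ψ₁ ψ₂ n = a ∧ 0 ≤ a := by
  induction n using Nat.strong_induction_on with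
  | _ n ih =>
  rcases Nat.lt_trichotomy n 1 with hn | hn | hn
  · have : n = 0 := by omega
    subst this
    exact ⟨0, by simp, le_rfl⟩
  · subst hn
    exact ⟨1, by rw [SiegelCoef_one]; simp, zero_le_one⟩
  have hlog : 0 < Real.log n := Real.log_pos (by exact_mod_cast hn)
  have h3 : ((Real.log n : ℝ) : ℂ) * SiegelCoef_P ψ₁ ψ₂ n =
      ∑ x ∈ n.divisorsAntidiagonal, SiegelCoef_L (fun n : ℕ =>
        (1 + ψ₁ (n : ZMod N)) * (1 + ψ₂ (n : ZMod N))) x.1 * SiegelCoef_P ψ₁ ψ₂ x.2 := by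
    rw [← ArithmeticFunction.mul_apply, ← SiegelCoef_D_P]
    rfl
  have h4 : ∀ x ∈ n.divisorsAntidiagonal, ∃ b : ℝ, SiegelCoef_L (fun n : ℕ =>
        (1 + ψ₁ (n : ZMod N)) * (1 + ψ₂ (n : ZMod N))) x.1 * SiegelCoef_P ψ₁ ψ₂ x.2 = b ∧
        0 ≤ b := by
    intro x hx
    obtain ⟨h5, h6⟩ := Nat.mem_divisorsAntidiagonal.1 hx
    have h7 : SiegelCoef_L (fun n : ℕ => (1 + ψ₁ (n : ZMod N)) * (1 + ψ₂ (n : ZMod N))) x.1 =
        ((Λ x.1 : ℝ) : ℂ) * ((1 + ψ₁ (x.1 : ZMod N)) * (1 + ψ₂ (x.1 : ZMod N))) := rfl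
    rw [h7]
    by_cases hx1 : x.1 = 1
    · refine ⟨0, ?_, le_rfl⟩
      rw [hx1, ArithmeticFunction.vonMangoldt_apply_one]
      simp
    · have h8 : x.2 < n := by
        have h9 : x.1 ≠ 0 := fun h => h6 (by rw [← h5, h, zero_mul])
        have h10 : x.2 ≠ 0 := fun h => h6 (by rw [← h5, h, mul_zero])
        rw [← h5]
        have h11 : 2 ≤ x.1 := by omega
        have h12 : 1 ≤ x.2 := by omega
        nlinarith
      obtain ⟨a, ha, ha0⟩ := ih x.2 h8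
      obtain ⟨b, hb, hb0⟩ := SiegelCoef_val ψ₁ h1 x.1
      obtain ⟨c, hc, hc0⟩ := SiegelCoef_val ψ₂ h2 x.1
      refine ⟨Λ x.1 * ((1 + b) * (1 + c)) * a, ?_, ?_⟩
      · rw [ha, hb, hc]
        push_cast
        ring
      · have := ArithmeticFunction.vonMangoldt_nonneg (n := x.1)
        positivity
  choose! b hb hb0 using h4
  refine ⟨(∑ x ∈ n.divisorsAntidiagonal, b x) / Real.log n, ?_, ?_⟩
  · rw [Finset.sum_congr rfl hb, ← Complex.ofReal_sum] at h3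
    rw [Complex.ofReal_div, eq_div_iff (by exact_mod_cast hlog.ne'), ← h3]
    ring
  · exact div_nonneg (Finset.sum_nonneg hb0) hlog.le

theorem SiegelCoef_summable {N : ℕ} (ψ : DirichletCharacter ℂ N) {s : ℂ} (hs : 1 < s.re) :
    LSeriesSummable (toArithmeticFunction (fun n : ℕ => ψ (n : ZMod N))) s := by
  refine (LSeriesSummable_congr s fun {n} hn => ?_).1
    (DirichletCharacter.LSeriesSummable_of_one_lt_re ψ hs)
  simp [toArithmeticFunction, hn]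

theorem SiegelCoef_LSeries {N : ℕ} [NeZero N] (ψ : DirichletCharacter ℂ N) {s : ℂ}
    (hs : 1 < s.re) :
    LSeries (toArithmeticFunction (fun n : ℕ => ψ (n : ZMod N))) s = ψ.LFunction s := by
  rw [DirichletCharacter.LFunction_eq_LSeries ψ hs]
  refine LSeries_congr (fun {n} hn => ?_) s
  simp [toArithmeticFunction, hn]

theorem siegel_coef {N : ℕ} [NeZero N] (ψ₁ ψ₂ : DirichletCharacter ℂ N) (h1 : ψ₁ ^ 2 = 1)
    (h2 : ψ₂ ^ 2 = 1) : ∃ r : ℕ → ℝ, (∀ n, 0 ≤ r n) ∧ r 1 = 1 ∧ ∀ s : ℂ, 1 < s.re →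
    LSeriesSummable (fun n => (r n : ℂ)) s ∧
    LSeries (fun n => (r n : ℂ)) s =
      riemannZeta s * (ψ₁.LFunction s * ψ₂.LFunction s * (ψ₁ * ψ₂).LFunction s) := by
  choose r hr hr0 using SiegelCoef_real ψ₁ ψ₂ h1 h2
  refine ⟨r, hr0, ?_, fun s hs => ?_⟩
  · have h3 := hr 1
    rw [SiegelCoef_one] at h3
    exact_mod_cast h3.symm
  have hfun : (fun n => (r n : ℂ)) = fun n => SiegelCoef_P ψ₁ ψ₂ n := funext fun n => (hr n).symm
  rw [hfun]
  have hz : LSeriesSummable (toArithmeticFunction (fun _ => (1 : ℂ))) s := by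
    refine (LSeriesSummable_congr s fun {n} hn => ?_).1 (LSeriesSummable_one_iff.2 hs)
    simp [toArithmeticFunction, hn]
  have hzL : LSeries (toArithmeticFunction (fun _ => (1 : ℂ))) s = riemannZeta s := by
    rw [← LSeries_one_eq_riemannZeta hs]
    refine LSeries_congr (fun {n} hn => ?_) s
    simp [toArithmeticFunction, hn]
  have h12 := ArithmeticFunction.LSeriesSummable_mul (SiegelCoef_summable ψ₁ hs)
    (SiegelCoef_summable ψ₂ hs)
  have h123 := ArithmeticFunction.LSeriesSummable_mul h12 (SiegelCoef_summable (ψ₁ * ψ₂) hs)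
  refine ⟨ArithmeticFunction.LSeriesSummable_mul hz h123, ?_⟩
  have h5 := ArithmeticFunction.LSeries_mul' hz h123
  rw [ArithmeticFunction.LSeries_mul' h12 (SiegelCoef_summable (ψ₁ * ψ₂) hs),
    ArithmeticFunction.LSeries_mul' (SiegelCoef_summable ψ₁ hs) (SiegelCoef_summable ψ₂ hs),
    hzL, SiegelCoef_LSeries ψ₁ hs, SiegelCoef_LSeries ψ₂ hs, SiegelCoef_LSeries (ψ₁ * ψ₂) hs] at h5
  exact h5

end Pool.Agent.BV
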