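import Pool.Agent.Work.BV.SWDser
import Pool.Agent.Work.BV.Kernel

/-! # Module SmoothSum

`smooth_sum`: `σ = 1 + 1/log x`; `Dser_final` with `ε = 1/(2(B+1))` and
`ℓ^N ≤ C q^ε √(1+|t|)` (`log y ≤ y^δ/δ`), so `‖Dser‖ ≤ C q^{2ε} √(1+|t|) ≤ C L √(1+|t|)`; then
`perron_bound`; `u^{1/L} ≤ e^2` as `u ≤ 2x ≤ x^2`. -/

namespace Pool.Agent.BV

open Finset DirichletCharacter Complex
open scoped ArithmeticFunction.vonMangoldt

theorem smoothSum_ne_one {q : ℕ} (hq : 1 < q) (χ : DirichletCharacter ℂ q)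
    (hχ : χ.IsPrimitive) : χ ≠ 1 := by
  intro h
  have hz : NeZero q := ⟨by omega⟩
  rw [h, DirichletCharacter.isPrimitive_def, DirichletCharacter.conductor_one] at hχ
  omega

theorem smoothSum_ell_pow (N : ℕ) (ε : ℝ) (hε : 0 < ε) : ∃ C : ℝ, 0 < C ∧ ∀ q : ℕ, 1 ≤ q →
    ∀ s : ℂ, (ell q s) ^ N ≤ C * (q : ℝ) ^ ε * Real.sqrt (1 + |s.im|) := by
  set δ : ℝ := min ε (1 / 2) / (N + 1) with hδ
  have hmin : 0 < min ε (1 / 2) := lt_min hε (by norm_num)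
  have hN1 : (0 : ℝ) < (N : ℝ) + 1 := by positivity
  have hδ0 : 0 < δ := div_pos hmin hN1
  have hδN : δ * N ≤ min ε (1 / 2) := by
    rw [hδ, div_mul_eq_mul_div, div_le_iff₀ hN1]
    nlinarith
  have hδN1 : δ * N ≤ ε := hδN.trans (min_le_left _ _)
  have hδN2 : δ * N ≤ 1 / 2 := hδN.trans (min_le_right _ _)
  refine ⟨(1 / δ) ^ N * Real.sqrt 3, by positivity, ?_⟩
  intro q hq s
  have hqr : (1 : ℝ) ≤ q := by exact_mod_cast hq
  have hq0 : (0 : ℝ) < q := by linarith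
  set T : ℝ := |s.im| + 3 with hT
  have hT1 : 1 ≤ T := by rw [hT]; linarith [abs_nonneg s.im]
  have hT0 : 0 < T := by linarith
  have hqT : 0 < (q : ℝ) * T := by positivity
  have hqT1 : 1 ≤ (q : ℝ) * T := one_le_mul_of_one_le_of_one_le hqr hT1
  have h1 : ell q s ≤ ((q : ℝ) * T) ^ δ * (1 / δ) := by
    unfold ell
    have := Real.log_le_rpow_div hqT.le hδ0
    rwa [div_eq_mul_one_div] at this
  have h0 : 0 ≤ ell q s := Real.log_nonneg hqT1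
  have h2 : (((q : ℝ) * T) ^ δ) ^ N = (q : ℝ) ^ (δ * N) * T ^ (δ * N) := by
    rw [← Real.rpow_natCast, ← Real.rpow_mul hqT.le, Real.mul_rpow hq0.le hT0.le]
  have h3 : (q : ℝ) ^ (δ * N) ≤ (q : ℝ) ^ ε := Real.rpow_le_rpow_of_exponent_le hqr hδN1
  have h4 : T ^ (δ * N) ≤ Real.sqrt 3 * Real.sqrt (1 + |s.im|) := by
    rw [← Real.sqrt_mul (by norm_num), Real.sqrt_eq_rpow]
    calc T ^ (δ * N) ≤ T ^ (1 / 2 : ℝ) := Real.rpow_le_rpow_of_exponent_le hT1 hδN2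
      _ ≤ (3 * (1 + |s.im|)) ^ (1 / 2 : ℝ) := by
          apply Real.rpow_le_rpow hT0.le _ (by norm_num)
          rw [hT]
          linarith [abs_nonneg s.im]
  calc (ell q s) ^ N ≤ (((q : ℝ) * T) ^ δ * (1 / δ)) ^ N := by gcongr
    _ = (1 / δ) ^ N * ((q : ℝ) ^ (δ * N) * T ^ (δ * N)) := by rw [mul_pow, h2]; ring
    _ ≤ (1 / δ) ^ N * ((q : ℝ) ^ ε * (Real.sqrt 3 * Real.sqrt (1 + |s.im|))) := by gcongr
    _ = _ := by ring

theorem smooth_sum (k B : ℕ) : ∃ C : ℝ, 0 < C ∧ ∀ x : ℕ, 3 ≤ x → ∀ q : ℕ, 1 < q →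
    (q : ℝ) ≤ (Real.log x) ^ B → ∀ χ ∈ prim q, ∀ u : ℕ, 1 ≤ u → u ≤ 2 * x →
    ‖∑ n ∈ Icc 1 u, (((Λ n : ℝ) : ℂ) * χ (n : ZMod q) * ((Real.log n : ℝ) : ℂ) ^ k) *
      ((u : ℂ) - n)‖ ≤ C * (u : ℝ) ^ 2 * Real.log x := by
  set ε : ℝ := 1 / (2 * ((B : ℝ) + 1)) with hε
  have hB1 : (0 : ℝ) < (B : ℝ) + 1 := by positivity
  have hε0 : 0 < ε := by positivity
  have hεB : (B : ℝ) * (2 * ε) ≤ 1 := by
    rw [hε]
    field_simp
    linarith
  obtain ⟨C0, hC00, hC0⟩ := Dser_final k ε hε0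
  obtain ⟨C1, hC10, hC1⟩ := smoothSum_ell_pow (11 * (k + 1)) ε hε0
  obtain ⟨C2, hC20, hC2⟩ := perron_bound
  refine ⟨C2 * (C0 * C1) * Real.exp 2, by positivity, ?_⟩
  intro x hx q hq hqx χ hχ u hu1 hu2
  have hz : NeZero q := ⟨by omega⟩
  have hprim : χ.IsPrimitive := by
    classical
    unfold prim at hχ
    exact (Finset.mem_filter.mp hχ).2
  have hχ1 : χ ≠ 1 := smoothSum_ne_one hq χ hprim
  have hx3 : (3 : ℝ) ≤ x := by exact_mod_cast hx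
  have hx0 : (0 : ℝ) < x := by linarith
  set L : ℝ := Real.log x with hL
  have hL1 : 1 < L := by
    rw [hL, Real.lt_log_iff_exp_lt hx0]
    have := Real.exp_one_lt_d9
    linarith
  have hL0 : 0 < L := by linarith
  have hqr : (1 : ℝ) ≤ q := by exact_mod_cast hq.le
  have hq0 : (0 : ℝ) < q := by linarith
  have hqe : (q : ℝ) ^ ε * (q : ℝ) ^ ε ≤ L := by
    rw [← Real.rpow_add hq0]
    calc (q : ℝ) ^ (ε + ε) ≤ (L ^ B) ^ (ε + ε) :=
          Real.rpow_le_rpow hq0.le hqx (by linarith)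
      _ = L ^ ((B : ℝ) * (2 * ε)) := by
          rw [← Real.rpow_natCast, ← Real.rpow_mul hL0.le]
          congr 1
          ring
      _ ≤ L ^ (1 : ℝ) := Real.rpow_le_rpow_of_exponent_le hL1.le hεB
      _ = L := Real.rpow_one L
  set σ : ℝ := 1 + 1 / L with hσ
  have hσ1 : 1 < σ := by rw [hσ]; have : 0 < 1 / L := by positivity
                         linarith
  have hσ2 : σ ≤ 2 := by
    have : 1 / L ≤ 1 := by rw [div_le_one hL0]; exact hL1.le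
    rw [hσ]; linarith
  set a : ℕ → ℂ := fun n => χ (n : ZMod q) * ((Λ n : ℝ) : ℂ) * ((Real.log n : ℝ) : ℂ) ^ k with ha
  have hsum : LSeriesSummable a σ := Dser_summable χ k (by simpa using hσ1)
  have hbd : ∀ t : ℝ, ‖LSeries a ((σ : ℂ) + t * I)‖ ≤ (C0 * C1 * L) * Real.sqrt (1 + |t|) := by
    intro t
    have hre : ((σ : ℂ) + t * I).re = σ := by simp
    have him : ((σ : ℂ) + t * I).im = t := by simp
    have h1 := hC0 q χ hprim hχ1 ((σ : ℂ) + t * I) (by rw [hre]; exact hσ1)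
      (by rw [hre]; exact hσ2)
    have h2 := hC1 q hq.le ((σ : ℂ) + t * I)
    rw [him] at h2
    have h3 : Dser χ k ((σ : ℂ) + t * I) = LSeries a ((σ : ℂ) + t * I) := rfl
    rw [← h3]
    have hqe0 : 0 < (q : ℝ) ^ ε := Real.rpow_pos_of_pos hq0 _
    calc ‖Dser χ k ((σ : ℂ) + t * I)‖
        ≤ C0 * (q : ℝ) ^ ε * (ell q ((σ : ℂ) + t * I)) ^ (11 * (k + 1)) := h1
      _ ≤ C0 * (q : ℝ) ^ ε * (C1 * (q : ℝ) ^ ε * Real.sqrt (1 + |t|)) := by gcongr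
      _ = C0 * C1 * ((q : ℝ) ^ ε * (q : ℝ) ^ ε) * Real.sqrt (1 + |t|) := by ring
      _ ≤ C0 * C1 * L * Real.sqrt (1 + |t|) := by gcongr
  have hmain := hC2 a σ (C0 * C1 * L) u hσ1 hσ2 hsum hu1 (by positivity) hbd
  have hu0 : (0 : ℝ) < u := by exact_mod_cast hu1
  have hue : (u : ℝ) ^ (σ + 1) ≤ Real.exp 2 * (u : ℝ) ^ 2 := by
    have h1 : σ + 1 = 1 / L + (2 : ℕ) := by rw [hσ]; push_cast; ring
    rw [h1, Real.rpow_add hu0, Real.rpow_natCast]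
    have h2 : (u : ℝ) ^ (1 / L) ≤ Real.exp 2 := by
      rw [Real.rpow_def_of_pos hu0]
      apply Real.exp_le_exp.mpr
      have h3 : Real.log u ≤ 2 * L := by
        have h4 : (u : ℝ) ≤ x * x := by
          have : (u : ℝ) ≤ 2 * x := by exact_mod_cast hu2
          nlinarith
        have h5 := Real.log_le_log hu0 h4
        rw [Real.log_mul hx0.ne' hx0.ne'] at h5
        linarith
      rw [mul_one_div, div_le_iff₀ hL0]
      exact h3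
    gcongr
  have heq : ∑ n ∈ Icc 1 u, (((Λ n : ℝ) : ℂ) * χ (n : ZMod q) * ((Real.log n : ℝ) : ℂ) ^ k) *
      ((u : ℂ) - n) = ∑ n ∈ Icc 1 u, a n * ((u : ℂ) - n) := by
    refine Finset.sum_congr rfl fun n _ => ?_
    simp only [ha]
    ring
  rw [heq]
  calc ‖∑ n ∈ Icc 1 u, a n * ((u : ℂ) - n)‖ ≤ C2 * (C0 * C1 * L) * (u : ℝ) ^ (σ + 1) := hmain
    _ ≤ C2 * (C0 * C1 * L) * (Real.exp 2 * (u : ℝ) ^ 2) := by gcongr
    _ = _ := by ring

end Pool.Agent.BV
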