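import Pool.Agent.Work.BV.Final

/-! # Module Unif: Bombieri-Vinogradov uniformly in the length `y ≤ x`

Grid `y_i = min x (i h)`, `h = ⌈x/(log x)^(A+2)⌉₊`, `i ≤ I ≤ 2 (log x)^(A+2)` (for `x` below a constant
the claim is trivial: every summand is `≤ 2 x log x`). For `y_i ≤ y ≤ y_{i+1}`, monotonicity of `psiA q a` and
`psi` gives `|psiA q a y - psi y/φ(q)| ≤ E_i(q) + E_{i+1}(q) + 2 (psi y_{i+1} - psi y_i)/φ(q)` with
`E_i(q) = |psiA q (a q) y_i - psi y_i/φ(q)|`, and `psi y_{i+1} - psi y_i ≤ h log x` trivially. Hence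
`∑_q |...| ≤ 2 ∑_{i ≤ I} ∑_q E_i(q) + 2 h log x ∑_q 1/φ(q)`. Second term `≤ C x/(log x)^A`
(`sum_inv_totient`). First: for `y_i ≥ √x·(...)` say `y_i ≥ x^{0.99}` apply `bombieri_vinogradov (2A+4)` at
`y_i`; the condition `Q ≤ y_i^(9/20)` fails if only `Q ≤ x^(9/20)`, therefore the statement below has
`Q ≤ x^(4/9)` (`4/9 < 0.99 * 9/20 = 0.4455`). For `y_i < x^{0.99}`:
`E_i(q) ≤ (y_i/q + 1) log x + y_i log x/φ(q)`, so `∑_q E_i(q) ≤ C x^{0.99} (log x)^3 + Q log x`. -/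

namespace Pool.Agent.BV

open Finset
open scoped ArithmeticFunction.vonMangoldt

lemma Unif_psiA_mono (q a : ℕ) {y z : ℕ} (h : y ≤ z) : psiA q a y ≤ psiA q a z := by
  unfold psiA
  refine sum_le_sum_of_subset_of_nonneg ?_ (fun _ _ _ => ArithmeticFunction.vonMangoldt_nonneg)
  exact filter_subset_filter _ (Icc_subset_Icc_right h)

lemma Unif_psi_mono {y z : ℕ} (h : y ≤ z) : psi y ≤ psi z := by
  unfold psi
  exact sum_le_sum_of_subset_of_nonneg (Icc_subset_Icc_right h)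
    (fun _ _ _ => ArithmeticFunction.vonMangoldt_nonneg)

lemma Unif_psi_nonneg (y : ℕ) : 0 ≤ psi y :=
  sum_nonneg fun _ _ => ArithmeticFunction.vonMangoldt_nonneg

lemma Unif_psiA_nonneg (q a y : ℕ) : 0 ≤ psiA q a y :=
  sum_nonneg fun _ _ => ArithmeticFunction.vonMangoldt_nonneg

lemma Unif_Lambda_le {n x : ℕ} (h1 : 1 ≤ n) (h : n ≤ x) : Λ n ≤ Real.log x := by
  refine ArithmeticFunction.vonMangoldt_le_log.trans (Real.log_le_log ?_ ?_)
  · exact_mod_cast h1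
  · exact_mod_cast h

lemma Unif_psi_diff {y z x : ℕ} (h : y ≤ z) (hz : z ≤ x) :
    psi z - psi y ≤ ((z - y : ℕ) : ℝ) * Real.log x := by
  have e : psi z = psi y + ∑ n ∈ Ioc y z, Λ n := by
    unfold psi
    have : Icc 1 z = Icc 1 y ∪ Ioc y z := by
      ext n; simp only [mem_Icc, mem_union, mem_Ioc]; omega
    rw [this, sum_union]
    rw [disjoint_left]
    intro n hn hn'
    rw [mem_Icc] at hn
    rw [mem_Ioc] at hn'
    omega
  rw [e, add_sub_cancel_left]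
  calc ∑ n ∈ Ioc y z, Λ n ≤ ∑ n ∈ Ioc y z, Real.log x := by
        refine sum_le_sum fun n hn => ?_
        obtain ⟨h1, h2⟩ := mem_Ioc.1 hn
        exact Unif_Lambda_le (by omega) (by omega)
    _ = _ := by rw [sum_const, nsmul_eq_mul, Nat.card_Ioc]

lemma Unif_psiA_le {q a y x : ℕ} (hq : 1 ≤ q) (hy : y ≤ x) :
    psiA q a y ≤ ((y : ℝ) / q + 1) * Real.log x := by
  have hl : 0 ≤ Real.log x := Real.log_natCast_nonneg x
  have hq0 : (0 : ℝ) < q := by exact_mod_cast hq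
  unfold psiA
  calc ∑ n ∈ (Icc 1 y).filter (fun n => n ≡ a [MOD q]), Λ n
      ≤ ∑ n ∈ (Icc 1 y).filter (fun n => n ≡ a [MOD q]), Real.log x := by
        refine sum_le_sum fun n hn => ?_
        rw [mem_filter, mem_Icc] at hn
        exact Unif_Lambda_le hn.1.1 (hn.1.2.trans hy)
    _ = ((Icc 1 y).filter (fun n => n ≡ a [MOD q])).card * Real.log x := by
        rw [sum_const, nsmul_eq_mul]
    _ ≤ _ := by
        refine mul_le_mul_of_nonneg_right ?_ hl
        have h1 : Icc 1 y = Ioc 0 y := by ext n; simp only [mem_Icc, mem_Ioc]; omega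
        rw [h1]
        have h2 := Nat.Ioc_filter_modEq_card 0 y (r := q) (by omega) a
        have h3 : ((((Ioc 0 y).filter (fun n => n ≡ a [MOD q])).card : ℤ) : ℚ) ≤ (y : ℚ) / q + 1 := by
          rw [h2, Int.cast_max, max_le_iff]
          constructor
          · push_cast
            have h4 := Int.floor_le (((y : ℚ) - a) / q)
            have h5 := Int.lt_floor_add_one (((0 : ℚ) - a) / q)
            have h6 : ((y : ℚ) - a) / q = y / q + (0 - a) / q := by ring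
            simp only [Nat.cast_zero] at *
            linarith
          · push_cast
            positivity
        have h4 : ((((Ioc 0 y).filter (fun n => n ≡ a [MOD q])).card : ℚ) : ℝ) ≤
            (((y : ℚ) / q + 1 : ℚ) : ℝ) := by exact_mod_cast h3
        push_cast at h4
        exact_mod_cast h4

lemma Unif_trivial {q a y x : ℕ} (hq : 1 ≤ q) (hy : y ≤ x) :
    |psiA q a y - psi y / q.totient| ≤ (2 * y * ((1 : ℝ) / q.totient) + 1) * Real.log x := by
  have hl : 0 ≤ Real.log x := Real.log_natCast_nonneg x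
  have hφ : (0 : ℝ) < q.totient := by exact_mod_cast Nat.totient_pos.2 (by omega)
  have hq0 : (0 : ℝ) < q := by exact_mod_cast hq
  have hφq : (q.totient : ℝ) ≤ q := by exact_mod_cast Nat.totient_le q
  have h1 := Unif_psiA_le (a := a) hq hy
  have h2 : psi y ≤ y * Real.log x := by
    have := Unif_psi_diff (Nat.zero_le y) hy
    simpa [psi] using this
  have h3 : psi y / q.totient ≤ y * Real.log x / q.totient :=
    div_le_div_of_nonneg_right h2 hφ.le
  have h4 : (y : ℝ) / q ≤ y / q.totient :=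
    div_le_div_of_nonneg_left (Nat.cast_nonneg y) hφ hφq
  have h5 := Unif_psiA_nonneg q a y
  have h6 : 0 ≤ psi y / q.totient := div_nonneg (Unif_psi_nonneg y) hφ.le
  have h7 : 0 ≤ (y : ℝ) / q.totient * Real.log x := by positivity
  have h8 : ((y : ℝ) / q + 1) * Real.log x ≤ (y / q.totient + 1) * Real.log x :=
    mul_le_mul_of_nonneg_right (by linarith) hl
  have e : (2 * y * ((1 : ℝ) / q.totient) + 1) * Real.log x =
      (y / q.totient + 1) * Real.log x + y / q.totient * Real.log x := by ring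
  have e2 : (y : ℝ) * Real.log x / q.totient = y / q.totient * Real.log x := by ring
  rw [e, abs_le]
  constructor
  · nlinarith
  · linarith

lemma Unif_between {q a y₁ y y₂ : ℕ} (hq : 1 ≤ q) (h1 : y₁ ≤ y) (h2 : y ≤ y₂) :
    |psiA q a y - psi y / q.totient| ≤ |psiA q a y₁ - psi y₁ / q.totient| +
      |psiA q a y₂ - psi y₂ / q.totient| + (psi y₂ - psi y₁) / q.totient := by
  have hφ : (0 : ℝ) < q.totient := by exact_mod_cast Nat.totient_pos.2 (by omega)
  have a1 := Unif_psiA_mono q a h1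
  have a2 := Unif_psiA_mono q a h2
  have b1 := div_le_div_of_nonneg_right (Unif_psi_mono h1) hφ.le
  have b2 := div_le_div_of_nonneg_right (Unif_psi_mono h2) hφ.le
  have c1 := neg_abs_le (psiA q a y₁ - psi y₁ / q.totient)
  have c2 := le_abs_self (psiA q a y₂ - psi y₂ / q.totient)
  have c3 := abs_nonneg (psiA q a y₁ - psi y₁ / q.totient)
  have c4 := abs_nonneg (psiA q a y₂ - psi y₂ / q.totient)
  rw [sub_div, abs_le]
  constructor <;> linarith

/-- the bound for a fixed length `y ≤ x` -/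
lemma Unif_fixed (B : ℕ) : ∃ C : ℝ, 0 < C ∧ ∀ (x Q : ℕ) (a : ℕ → ℕ) (y : ℕ), 3 ≤ x →
    (Q : ℝ) ≤ (x : ℝ) ^ (4 / 9 : ℝ) → (∀ q ∈ Icc 1 Q, (a q).Coprime q) → y ≤ x →
    ∑ q ∈ Icc 1 Q, |psiA q (a q) y - psi y / q.totient| ≤ C * x / (Real.log x) ^ B := by
  obtain ⟨C₁, hC₁, h₁⟩ := bombieri_vinogradov B
  obtain ⟨C₂, hC₂, h₂⟩ := sum_inv_totient
  set K : ℝ := (100 * (B + 2 : ℕ) : ℝ) ^ (B + 2) with hK
  have hK0 : 0 < K := by positivity
  refine ⟨C₁ * 2 ^ B + (4 * C₂ + 1) * K, by positivity, ?_⟩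
  intro x Q a y hx hQ ha hy
  have hxR : (3 : ℝ) ≤ x := by exact_mod_cast hx
  have hx0 : (0 : ℝ) < x := by linarith
  have hx1 : (1 : ℝ) ≤ x := by linarith
  set L : ℝ := Real.log x with hL
  have hL1 : 1 ≤ L := DivSum_log x hx
  have hL0 : 0 < L := by linarith
  have hlog := high_log_pow (B + 2) (by omega) x hx1
  rw [← hK, ← hL] at hlog
  have hQx : Q ≤ x := by
    have h1 : (Q : ℝ) ≤ x := by
      refine hQ.trans ?_
      calc (x : ℝ) ^ (4 / 9 : ℝ) ≤ (x : ℝ) ^ (1 : ℝ) :=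
            Real.rpow_le_rpow_of_exponent_le hx1 (by norm_num)
        _ = x := Real.rpow_one _
    exact_mod_cast h1
  by_cases hc : 3 ≤ y ∧ (x : ℝ) ^ (80 / 81 : ℝ) ≤ y
  · obtain ⟨hy3, hyx⟩ := hc
    have hy3R : (3 : ℝ) ≤ y := by exact_mod_cast hy3
    have hy0 : (0 : ℝ) < y := by linarith
    have hyR : (y : ℝ) ≤ x := by exact_mod_cast hy
    have hQy : (Q : ℝ) ≤ (y : ℝ) ^ (9 / 20 : ℝ) := by
      refine hQ.trans ?_
      calc (x : ℝ) ^ (4 / 9 : ℝ) = ((x : ℝ) ^ (80 / 81 : ℝ)) ^ (9 / 20 : ℝ) := by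
            rw [← Real.rpow_mul hx0.le]; norm_num
        _ ≤ (y : ℝ) ^ (9 / 20 : ℝ) := Real.rpow_le_rpow (by positivity) hyx (by norm_num)
    have h3 := h₁ y Q a hy3 hQy ha
    have hly : L / 2 ≤ Real.log y := by
      have h4 : Real.log ((x : ℝ) ^ (80 / 81 : ℝ)) ≤ Real.log y :=
        Real.log_le_log (by positivity) hyx
      rw [Real.log_rpow hx0, ← hL] at h4
      linarith
    refine h3.trans ?_
    calc C₁ * y / (Real.log y) ^ B ≤ C₁ * x / (L / 2) ^ B := by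
          gcongr
      _ = C₁ * 2 ^ B * x / L ^ B := by rw [div_pow]; field_simp
      _ ≤ (C₁ * 2 ^ B + (4 * C₂ + 1) * K) * x / L ^ B := by
          gcongr
          have : 0 ≤ (4 * C₂ + 1) * K := by positivity
          linarith
  · have hy2 : (y : ℝ) ≤ 2 * (x : ℝ) ^ (80 / 81 : ℝ) := by
      have h1 : 1 ≤ (x : ℝ) ^ (80 / 81 : ℝ) := Real.one_le_rpow hx1 (by norm_num)
      by_cases h2 : 3 ≤ y
      · have h3 : (y : ℝ) < (x : ℝ) ^ (80 / 81 : ℝ) := by
          by_contra h4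
          exact hc ⟨h2, not_lt.1 h4⟩
        linarith
      · have h3 : (y : ℝ) ≤ 2 := by exact_mod_cast (by omega : y ≤ 2)
        linarith
    have h3 : ∑ q ∈ Icc 1 Q, |psiA q (a q) y - psi y / q.totient| ≤
        ∑ q ∈ Icc 1 Q, (2 * y * ((1 : ℝ) / q.totient) + 1) * L :=
      sum_le_sum fun q hq => Unif_trivial (mem_Icc.1 hq).1 hy
    have h4 : ∑ q ∈ Icc 1 Q, (2 * y * ((1 : ℝ) / q.totient) + 1) * L =
        (2 * y * ∑ q ∈ Icc 1 Q, (1 : ℝ) / q.totient + Q) * L := by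
      rw [← sum_mul, sum_add_distrib, mul_sum]
      simp
    have h5 : ∑ q ∈ Icc 1 Q, (1 : ℝ) / q.totient ≤ C₂ * L := by
      refine le_trans ?_ (h₂ x hx)
      exact sum_le_sum_of_subset_of_nonneg (Icc_subset_Icc_right hQx)
        (fun _ _ _ => by positivity)
    have hQ2 : (Q : ℝ) ≤ (x : ℝ) ^ (80 / 81 : ℝ) :=
      hQ.trans (Real.rpow_le_rpow_of_exponent_le hx1 (by norm_num))
    have h6 : (2 * y * ∑ q ∈ Icc 1 Q, (1 : ℝ) / q.totient + Q) * L ≤
        (4 * C₂ + 1) * ((x : ℝ) ^ (80 / 81 : ℝ) * L ^ 2) := by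
      have h7 : 2 * y * ∑ q ∈ Icc 1 Q, (1 : ℝ) / q.totient ≤
          2 * (2 * (x : ℝ) ^ (80 / 81 : ℝ)) * (C₂ * L) := by
        gcongr
      have h8 : (Q : ℝ) ≤ (x : ℝ) ^ (80 / 81 : ℝ) * L := by
        have : (x : ℝ) ^ (80 / 81 : ℝ) * 1 ≤ (x : ℝ) ^ (80 / 81 : ℝ) * L := by gcongr
        linarith
      calc (2 * y * ∑ q ∈ Icc 1 Q, (1 : ℝ) / q.totient + Q) * L
          ≤ (2 * (2 * (x : ℝ) ^ (80 / 81 : ℝ)) * (C₂ * L) + (x : ℝ) ^ (80 / 81 : ℝ) * L) * L := by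
            gcongr
        _ = _ := by ring
    rw [h4] at h3
    refine (h3.trans h6).trans ?_
    have h9 : (x : ℝ) ^ (80 / 81 : ℝ) * L ^ 2 ≤ K * x / L ^ B := by
      rw [le_div_iff₀ (by positivity)]
      calc (x : ℝ) ^ (80 / 81 : ℝ) * L ^ 2 * L ^ B = (x : ℝ) ^ (80 / 81 : ℝ) * L ^ (B + 2) := by ring
        _ ≤ (x : ℝ) ^ (80 / 81 : ℝ) * (K * (x : ℝ) ^ (1 / 100 : ℝ)) := by gcongr
        _ = K * ((x : ℝ) ^ (80 / 81 : ℝ) * (x : ℝ) ^ (1 / 100 : ℝ)) := by ring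
        _ ≤ K * x := by
            refine mul_le_mul_of_nonneg_left ?_ hK0.le
            rw [← Real.rpow_add hx0]
            calc (x : ℝ) ^ (80 / 81 + 1 / 100 : ℝ) ≤ (x : ℝ) ^ (1 : ℝ) :=
                  Real.rpow_le_rpow_of_exponent_le hx1 (by norm_num)
              _ = x := Real.rpow_one _
    calc (4 * C₂ + 1) * ((x : ℝ) ^ (80 / 81 : ℝ) * L ^ 2) ≤ (4 * C₂ + 1) * (K * x / L ^ B) := by
          gcongr
      _ = ((4 * C₂ + 1) * K) * x / L ^ B := by ring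
      _ ≤ (C₁ * 2 ^ B + (4 * C₂ + 1) * K) * x / L ^ B := by
          gcongr
          have : 0 ≤ C₁ * 2 ^ B := by positivity
          linarith

theorem bv_uniform (A : ℕ) : ∃ C : ℝ, 0 < C ∧ ∀ (x Q : ℕ) (a y : ℕ → ℕ), 3 ≤ x →
    (Q : ℝ) ≤ (x : ℝ) ^ (4 / 9 : ℝ) → (∀ q ∈ Icc 1 Q, (a q).Coprime q) →
    (∀ q ∈ Icc 1 Q, y q ≤ x) →
    ∑ q ∈ Icc 1 Q, |psiA q (a q) (y q) - psi (y q) / q.totient| ≤ C * x / (Real.log x) ^ A := by
  obtain ⟨C₁, hC₁, h₁⟩ := Unif_fixed (2 * A + 2)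
  obtain ⟨C₂, hC₂, h₂⟩ := sum_inv_totient
  set K : ℝ := (100 * (A + 2 : ℕ) : ℝ) ^ (A + 2) with hK
  have hK0 : 0 < K := by positivity
  refine ⟨6 * C₁ + C₂ + C₂ * K, by positivity, ?_⟩
  intro x Q a y hx hQ ha hy
  have hxR : (3 : ℝ) ≤ x := by exact_mod_cast hx
  have hx0 : (0 : ℝ) < x := by linarith
  have hx1 : (1 : ℝ) ≤ x := by linarith
  set L : ℝ := Real.log x with hL
  have hL1 : 1 ≤ L := DivSum_log x hx
  have hL0 : 0 < L := by linarith
  have hlog := high_log_pow (A + 2) (by omega) x hx1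
  rw [← hK, ← hL] at hlog
  have hQx : Q ≤ x := by
    have h1 : (Q : ℝ) ≤ x := by
      refine hQ.trans ?_
      calc (x : ℝ) ^ (4 / 9 : ℝ) ≤ (x : ℝ) ^ (1 : ℝ) :=
            Real.rpow_le_rpow_of_exponent_le hx1 (by norm_num)
        _ = x := Real.rpow_one _
    exact_mod_cast h1
  set h : ℕ := ⌈(x : ℝ) / L ^ (A + 2)⌉₊ with hh
  have hhge : (x : ℝ) / L ^ (A + 2) ≤ h := Nat.le_ceil _
  have hpos : 0 < (x : ℝ) / L ^ (A + 2) := by positivity
  have hh0 : 0 < h := Nat.ceil_pos.2 hpos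
  have hh0R : (0 : ℝ) < h := by exact_mod_cast hh0
  have hhle : (h : ℝ) ≤ x / L ^ (A + 2) + 1 := (Nat.ceil_lt_add_one hpos.le).le
  set I : ℕ := x / h + 1 with hI
  have hIle : ((I + 1 : ℕ) : ℝ) ≤ 3 * L ^ (A + 2) := by
    have h1 : ((x / h : ℕ) : ℝ) ≤ L ^ (A + 2) := by
      refine Nat.cast_div_le.trans ?_
      rw [div_le_iff₀ hh0R]
      rw [div_le_iff₀ (by positivity)] at hhge
      linarith
    have h2 : 1 ≤ L ^ (A + 2) := one_le_pow₀ hL1
    rw [hI]
    push_cast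
    linarith
  set g : ℕ → ℕ := fun i => min x (i * h) with hg
  have hgx : ∀ i, g i ≤ x := fun i => min_le_left _ _
  set E : ℕ → ℕ → ℝ := fun q i => |psiA q (a q) (g i) - psi (g i) / q.totient| with hE
  have hE0 : ∀ q i, 0 ≤ E q i := fun q i => abs_nonneg _
  have hpt : ∀ q ∈ Icc 1 Q, |psiA q (a q) (y q) - psi (y q) / q.totient| ≤
      2 * ∑ i ∈ range (I + 1), E q i + h * L * ((1 : ℝ) / q.totient) := by
    intro q hq
    have hq1 := (mem_Icc.1 hq).1
    have hyq := hy q hq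
    have hφ : (0 : ℝ) < q.totient := by exact_mod_cast Nat.totient_pos.2 (by omega)
    set i : ℕ := y q / h with hi
    have hi1 : i * h ≤ y q := Nat.div_mul_le_self _ _
    have hi2 : y q < (i + 1) * h := by
      rw [hi]
      have := Nat.lt_div_mul_add (a := y q) hh0
      calc y q < y q / h * h + h := this
        _ = _ := by ring
    have hiI : i + 1 ≤ I := by
      have : y q / h ≤ x / h := Nat.div_le_div_right hyq
      omega
    have g1 : g i ≤ y q := (min_le_right _ _).trans hi1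
    have g2 : y q ≤ g (i + 1) := le_min hyq hi2.le
    have h3 := Unif_between (a := a q) hq1 g1 g2
    have h4 : psi (g (i + 1)) - psi (g i) ≤ h * L := by
      refine (Unif_psi_diff (g1.trans g2) (hgx _)).trans ?_
      refine mul_le_mul_of_nonneg_right ?_ hL0.le
      have h5 : g (i + 1) - g i ≤ h := by
        simp only [hg]
        rw [add_mul, one_mul]
        omega
      exact_mod_cast h5
    have h5 : (psi (g (i + 1)) - psi (g i)) / q.totient ≤ h * L * ((1 : ℝ) / q.totient) := by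
      rw [mul_one_div]
      exact div_le_div_of_nonneg_right h4 hφ.le
    have h6 : E q i ≤ ∑ i ∈ range (I + 1), E q i :=
      single_le_sum (f := fun i => E q i) (fun j _ => hE0 q j) (mem_range.2 (by omega))
    have h7 : E q (i + 1) ≤ ∑ i ∈ range (I + 1), E q i :=
      single_le_sum (f := fun i => E q i) (fun j _ => hE0 q j) (mem_range.2 (by omega))
    simp only [hE] at h6 h7 ⊢
    linarith
  refine (sum_le_sum hpt).trans ?_
  rw [sum_add_distrib, ← mul_sum, ← mul_sum, sum_comm]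
  have h3 : ∑ i ∈ range (I + 1), ∑ q ∈ Icc 1 Q, E q i ≤
      ((I + 1 : ℕ) : ℝ) * (C₁ * x / L ^ (2 * A + 2)) := by
    calc ∑ i ∈ range (I + 1), ∑ q ∈ Icc 1 Q, E q i
        ≤ ∑ i ∈ range (I + 1), C₁ * x / L ^ (2 * A + 2) :=
          sum_le_sum fun i _ => h₁ x Q a (g i) hx hQ ha (hgx i)
      _ = _ := by rw [sum_const, nsmul_eq_mul, card_range]
  have h4 : ((I + 1 : ℕ) : ℝ) * (C₁ * x / L ^ (2 * A + 2)) ≤ 3 * C₁ * x / L ^ A := by
    calc ((I + 1 : ℕ) : ℝ) * (C₁ * x / L ^ (2 * A + 2))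
        ≤ (3 * L ^ (A + 2)) * (C₁ * x / L ^ (2 * A + 2)) := by gcongr
      _ = 3 * C₁ * x / L ^ A := by
          have : L ^ (2 * A + 2) = L ^ (A + 2) * L ^ A := by ring
          rw [this]
          field_simp
  have h5 : ∑ q ∈ Icc 1 Q, (1 : ℝ) / q.totient ≤ C₂ * L := by
    refine le_trans ?_ (h₂ x hx)
    exact sum_le_sum_of_subset_of_nonneg (Icc_subset_Icc_right hQx)
      (fun _ _ _ => by positivity)
  have h6 : h * L * ∑ q ∈ Icc 1 Q, (1 : ℝ) / q.totient ≤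
      (x / L ^ (A + 2) + 1) * L * (C₂ * L) := by
    gcongr
  have h7 : (x / L ^ (A + 2) + 1) * L * (C₂ * L) = C₂ * x / L ^ A + C₂ * L ^ 2 := by
    field_simp
    ring
  have h8 : L ^ 2 ≤ K * x / L ^ A := by
    rw [le_div_iff₀ (by positivity)]
    calc L ^ 2 * L ^ A = L ^ (A + 2) := by ring
      _ ≤ K * (x : ℝ) ^ (1 / 100 : ℝ) := hlog
      _ ≤ K * x := by
          refine mul_le_mul_of_nonneg_left ?_ hK0.le
          calc (x : ℝ) ^ (1 / 100 : ℝ) ≤ (x : ℝ) ^ (1 : ℝ) :=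
                Real.rpow_le_rpow_of_exponent_le hx1 (by norm_num)
            _ = x := Real.rpow_one _
  have h9 : C₂ * L ^ 2 ≤ C₂ * (K * x / L ^ A) := by gcongr
  calc 2 * ∑ i ∈ range (I + 1), ∑ q ∈ Icc 1 Q, E q i +
        h * L * ∑ q ∈ Icc 1 Q, (1 : ℝ) / q.totient
      ≤ 2 * (3 * C₁ * x / L ^ A) + (C₂ * x / L ^ A + C₂ * (K * x / L ^ A)) := by linarith
    _ = (6 * C₁ + C₂ + C₂ * K) * x / L ^ A := by ring

end Pool.Agent.BV
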